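import Pool.Agent.Lib_MP_a0d45a_lc.Defs

/-!
# Piece FORC: forcing notions, names for sets of finite sets, the property `HH`
-/

set_option autoImplicit false

namespace Pool.Agent.SOU

variable {P : Type} [PartialOrder P]

/-- every `r ≤ q` is compatible with some `φ ∈ Φ` -/
def Predense (Φ : Set P) (q : P) : Prop := ∀ r ≤ q, ∃ φ ∈ Φ, ∃ s, s ≤ r ∧ s ≤ φ

/-- a name for a subset of `α` is a family of sets of conditions; it is open if these are closed
downwards -/
def OpenName {α : Type} (Z : α → Set P) : Prop := ∀ τ, ∀ p ∈ Z τ, ∀ q ≤ p, q ∈ Z τ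

/-- `q` forces `τ ∈ Z` -/
def FrIn {α : Type} (Z : α → Set P) (τ : α) (q : P) : Prop := ∀ r ≤ q, ∃ t ≤ r, t ∈ Z τ

/-- `q` forces `τ ∉ Z` -/
def FrOut {α : Type} (Z : α → Set P) (τ : α) (q : P) : Prop := ∀ r ≤ q, r ∉ Z τ

/-- the complement of a name -/
def compl' {α : Type} (Z : α → Set P) : α → Set P := fun τ => {q | FrOut Z τ q}

/-- properness together with `ω^ω`-bounding: there are countably many operations such that for all
countable sets `𝒮` of conditions closed under them and all sequences of sets `D n` dense in `𝒮`,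
every `p ∈ 𝒮` has an extension `q` such that below `q` each `D n` has a finite predense subset of
elements of `𝒮` -/
def ProperFF (P : Type) [PartialOrder P] : Prop :=
  ∃ ops : ℕ → P → P, ∀ 𝒮 : Set P, 𝒮.Countable → (∀ k, ∀ p ∈ 𝒮, ops k p ∈ 𝒮) →
    ∀ D : ℕ → Set P, (∀ n, ∀ r ∈ 𝒮, ∃ r' ∈ 𝒮, r' ≤ r ∧ r' ∈ D n) →
      ∀ p ∈ 𝒮, ∃ q ≤ p, ∀ n, ∃ Φ : Set P, Φ.Finite ∧ Φ ⊆ 𝒮 ∧ Φ ⊆ D n ∧ Predense Φ q

/-- finite fronts -/
def FF (P : Type) [PartialOrder P] : Prop :=
  ∀ (D : ℕ → Set P) (q : P), (∀ n, ∀ r ≤ q, ∃ r' ≤ r, r' ∈ D n) →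
    ∃ q' ≤ q, ∀ n, ∃ Φ : Set P, Φ.Finite ∧ Φ ⊆ D n ∧ Predense Φ q'

/-- PROOF. Let `D' n` be the union of `D n` and the set of the conditions incompatible with `q`; it is dense in
`P`: for `r` incompatible with `q`, `r ∈ D' n`; if `s ≤ r, q` then there is `s' ≤ s` in `D n`. Choose
`f n : P → P` with `f n r ≤ r`, `f n r ∈ D' n`, and let `𝒮` be the closure of `{q}` under the `ops k` and the `f n`
(countable). Get `q' ≤ q` and `Φ ⊆ 𝒮 ∩ D' n` predense below `q'`; `Φ ∩ D n` is still predense below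
`q'`. -/
theorem ProperFF.ff (h : ProperFF P) : FF P := by
  intro D q hD
  obtain ⟨ops, hops⟩ := h
  have hex : ∀ n r, ∃ r' ≤ r, r' ∈ D n ∨ ¬ ∃ s, s ≤ r' ∧ s ≤ q := by
    intro n r
    by_cases hr : ∃ s, s ≤ r ∧ s ≤ q
    · obtain ⟨s, hs1, hs2⟩ := hr
      obtain ⟨s', hs', hs''⟩ := hD n s hs2
      exact ⟨s', hs'.trans hs1, Or.inl hs''⟩
    · exact ⟨r, le_refl r, Or.inr hr⟩
  choose f hf1 hf2 using hex
  let G : ℕ → Set P := fun m => Nat.rec {q}
    (fun _ T => T ∪ ((⋃ k, ops k '' T) ∪ ⋃ n, f n '' T)) m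
  have hG0 : G 0 = {q} := rfl
  have hGs : ∀ m, G (m + 1) = G m ∪ ((⋃ k, ops k '' G m) ∪ ⋃ n, f n '' G m) := fun m => rfl
  have hGc : ∀ m, (G m).Countable := by
    intro m
    induction m with
    | zero =>
      rw [hG0]
      exact Set.countable_singleton q
    | succ m ih =>
      rw [hGs]
      exact ih.union ((Set.countable_iUnion fun k => ih.image _).union
        (Set.countable_iUnion fun n => ih.image _))
  have hc : (⋃ m, G m).Countable := Set.countable_iUnion hGc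
  have hcl : ∀ k, ∀ p ∈ ⋃ m, G m, ops k p ∈ ⋃ m, G m := by
    intro k p hp
    obtain ⟨m, hm⟩ := Set.mem_iUnion.mp hp
    refine Set.mem_iUnion.mpr ⟨m + 1, ?_⟩
    rw [hGs]
    exact Or.inr (Or.inl (Set.mem_iUnion.mpr ⟨k, p, hm, rfl⟩))
  have hclf : ∀ n, ∀ p ∈ ⋃ m, G m, f n p ∈ ⋃ m, G m := by
    intro n p hp
    obtain ⟨m, hm⟩ := Set.mem_iUnion.mp hp
    refine Set.mem_iUnion.mpr ⟨m + 1, ?_⟩
    rw [hGs]
    exact Or.inr (Or.inr (Set.mem_iUnion.mpr ⟨n, p, hm, rfl⟩))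
  have hq : q ∈ ⋃ m, G m := Set.mem_iUnion.mpr ⟨0, rfl⟩
  obtain ⟨q', hq', hΦ⟩ := hops (⋃ m, G m) hc hcl
    (fun n => D n ∪ {r | ¬ ∃ s, s ≤ r ∧ s ≤ q})
    (fun n r hr => ⟨f n r, hclf n r hr, hf1 n r, hf2 n r⟩) q hq
  refine ⟨q', hq', fun n => ?_⟩
  obtain ⟨Φ, h1, _, h3, h4⟩ := hΦ n
  refine ⟨Φ ∩ D n, h1.inter_of_left _, Set.inter_subset_right, ?_⟩
  intro r hr
  obtain ⟨φ, hφ, s, hs1, hs2⟩ := h4 r hr
  refine ⟨φ, ⟨hφ, ?_⟩, s, hs1, hs2⟩
  rcases h3 hφ with h5 | h5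
  · exact h5
  · exact absurd ⟨s, hs2, (hs1.trans hr).trans hq'⟩ h5

variable (U : Ultrafilter (Finset ℕ)) (Z : Finset ℕ → Set P)

/-- `C` together with the new unions -/
def extC (C : Finset (Finset ℕ)) (b : Finset ℕ) : Finset (Finset ℕ) :=
  C ∪ {b} ∪ C.image (fun τ => τ ∪ b)

/-- failure of the hereditary homogeneity -/
inductive Fail : P → Finset (Finset ℕ) → Prop
  | out {p q : P} {C : Finset (Finset ℕ)} {τ : Finset ℕ} (hq : q ≤ p) (hτ : τ ∈ C)
      (h : FrOut Z τ q) : Fail p C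
  | step {p q : P} {C : Finset (Finset ℕ)} (hq : q ≤ p) (S : Set (Finset ℕ)) (hS : S ∈ U)
      (h : ∀ b ∈ S, ∀ r ≤ q, Fail r (extC C b)) : Fail p C

/-- hereditary homogeneity -/
def HH (p : P) (C : Finset (Finset ℕ)) : Prop := ¬ Fail U Z p C

variable {U Z}

theorem HH.mono {p q : P} {C : Finset (Finset ℕ)} (h : HH U Z p C) (hq : q ≤ p) :
    HH U Z q C := by
  intro hf
  apply h
  cases hf with
  | out hq' hτ hfr => exact Fail.out (hq'.trans hq) hτ hfr
  | step hq' S hS hs => exact Fail.step (hq'.trans hq) S hS hs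

theorem HH.frIn {p : P} {C : Finset (Finset ℕ)} (h : HH U Z p C) {τ : Finset ℕ} (hτ : τ ∈ C) :
    FrIn Z τ p := by
  intro r hr
  by_contra hcon
  exact h (Fail.out hr hτ fun t ht htz => hcon ⟨t, ht, htz⟩)

/-- the main property -/
theorem HH.next {p : P} {C : Finset (Finset ℕ)} (h : HH U Z p C) :
    ∀ᶠ b in (U : Filter (Finset ℕ)), ∃ r ≤ p, HH U Z r (extC C b) := by
  by_contra hcon
  have h1 : {b : Finset ℕ | ∃ r ≤ p, HH U Z r (extC C b)}ᶜ ∈ U :=
    Ultrafilter.compl_mem_iff_notMem.mpr hcon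
  refine h (Fail.step (le_refl p) _ h1 fun b hb r hr => ?_)
  by_contra hf
  exact hb ⟨r, hr, hf⟩

/-- the iterated `extC` along a sequence contains all unions: if `C 0 = ∅`, `C (k+1) = extC (C k) (b k)`, then every
`τ ∈ ⟨b⟩` is in some `C k` -/
theorem mem_extC_iter (b : ℕ → Finset ℕ) (C : ℕ → Finset (Finset ℕ)) (h0 : C 0 = ∅)
    (h : ∀ k, C (k + 1) = extC (C k) (b k)) : ∀ τ ∈ fu b, ∃ k, τ ∈ C k := by
  have key : ∀ k, ∀ I : Finset ℕ, I.Nonempty → (∀ i ∈ I, i < k) → I.biUnion b ∈ C k := by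
    intro k
    induction k with
    | zero =>
      intro I hI hk
      obtain ⟨i, hi⟩ := hI
      exact absurd (hk i hi) (Nat.not_lt_zero i)
    | succ k ih =>
      intro I hI hk
      rw [h k]
      unfold extC
      by_cases hkI : k ∈ I
      · by_cases hne : (I.erase k).Nonempty
        · have h1 : (I.erase k).biUnion b ∈ C k := ih _ hne fun i hi =>
            lt_of_le_of_ne (Nat.lt_succ_iff.mp (hk i (Finset.mem_of_mem_erase hi)))
              (Finset.ne_of_mem_erase hi)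
          refine Finset.mem_union_right _ (Finset.mem_image.mpr ⟨_, h1, ?_⟩)
          rw [Finset.union_comm, ← Finset.biUnion_insert, Finset.insert_erase hkI]
        · have h1 : I = {k} := by
            rw [← Finset.insert_erase hkI, Finset.not_nonempty_iff_eq_empty.mp hne]
            rfl
          refine Finset.mem_union_left _ (Finset.mem_union_right _ ?_)
          rw [h1, Finset.singleton_biUnion]
          exact Finset.mem_singleton_self _
      · refine Finset.mem_union_left _ (Finset.mem_union_left _ (ih I hI fun i hi => ?_))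
        refine lt_of_le_of_ne (Nat.lt_succ_iff.mp (hk i hi)) ?_
        rintro rfl
        exact hkI hi
  rintro τ ⟨I, hI, rfl⟩
  exact ⟨I.sup id + 1, key _ I hI fun i hi =>
    Nat.lt_succ_of_le (Finset.le_sup (f := id) hi)⟩

theorem frIn_compl (hZ : OpenName Z) {τ : Finset ℕ} {q : P} :
    FrIn (compl' Z) τ q ↔ FrOut Z τ q := by
  constructor
  · intro h r hr hrz
    obtain ⟨t, ht, ht'⟩ := h r hr
    exact ht' t (le_refl t) (hZ τ r hrz t ht)
  · intro h r hr
    exact ⟨r, le_refl r, fun s hs => h s (hs.trans hr)⟩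

theorem openName_compl : OpenName (compl' Z) := by
  intro τ p hp q hq r hr
  exact hp r (hr.trans hq)

end Pool.Agent.SOU
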