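import Pool.Agent.Lib_MP_a0d45a_lc.FinU
import Mathlib.Combinatorics.Hindman

/-!
# Piece HIN: Hindman's theorem for block sequences of finite sets

For every colouring of the finite sets with two colours and every block sequence `A` there is a block
sequence `B` with `⟨B⟩ ⊆ ⟨A⟩` and `⟨B⟩` monochromatic.

PROOF (Galvin-Glazer). It is enough to find a block sequence `I 0 < I 1 < ...` of nonempty finite sets
such that all `(J.biUnion I)`, `J ≠ ∅`, have the same colour for the colouring
`I ↦ [I.biUnion A ∈ Z]`, and to put `B n = (I n).biUnion A`. Consider the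
compact right (left) topological semigroup `Ultrafilter (Finset ℕ)` with the extension of `∪`
(Mathlib: `Ultrafilter.semigroup`, in `Mathlib.Combinatorics.Hindman`, for `Multiplicative`/`Additive`
or with a local `Semigroup`/`Mul` instance on `Finset ℕ` given by union) and its closed nonempty
subsemigroup of the ultrafilters `p` with `{I | I ≠ ∅ ∧ ∀ i ∈ I, m ≤ i} ∈ p` for all `m`
(`exists_idempotent_in_compact_subsemigroup`). For an idempotent `p` in it and the colour class
`Z' ∈ p` one builds `I n` recursively, with the usual argument: `Z* = {I ∈ Z' | {J | I ∪ J ∈ Z'} ∈ p}`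
is in `p`, and for `I ∈ Z*`, `{J | I ∪ J ∈ Z*} ∈ p`; choose `I n > I (n-1)` in `Z*` such that
`I ∪ I n ∈ Z*` for all finite unions `I` of the previous ones.
Alternative: Hindman's theorem for `(ℕ+, +)` and binary expansions: pass to sums with disjoint
consecutive binary supports (a sum subsystem whose terms are divisible by higher and higher powers
of `2`, by the pigeonhole principle).
-/

set_option autoImplicit false

namespace Pool.Agent.SOU

/-- an idempotent ultrafilter on the finite sets, living on the nonempty sets above every `m` -/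
theorem hin_idem : ∃ p : Ultrafilter (Finset ℕ), (∀ m, ∀ᶠ I in (p : Filter (Finset ℕ)), I.Nonempty ∧ Lo m I) ∧
    ∀ s ∈ p, ∀ᶠ I in (p : Filter (Finset ℕ)), ∀ᶠ J in (p : Filter (Finset ℕ)), I ∪ J ∈ s := by
  letI : Semigroup (Finset ℕ) :=
    { mul := fun a b => a ∪ b
      mul_assoc := fun a b c => Finset.union_assoc a b c }
  letI : Semigroup (Ultrafilter (Finset ℕ)) := Ultrafilter.semigroup
  let S : Set (Ultrafilter (Finset ℕ)) := ⋂ m, {U | {I : Finset ℕ | I.Nonempty ∧ Lo m I} ∈ U}
  have hex : ∀ m : ℕ, ∃ I : Finset ℕ, I.Nonempty ∧ Lo m I := by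
    intro m
    refine ⟨{m}, Finset.singleton_nonempty m, ?_⟩
    intro j hj
    rw [Finset.mem_singleton] at hj
    exact hj.ge
  have h := exists_idempotent_in_compact_subsemigroup (M := Ultrafilter (Finset ℕ)) ?_ S ?_ ?_ ?_
  · obtain ⟨p, hp, hpp⟩ := h
    refine ⟨p, ?_, ?_⟩
    · intro m
      exact Set.mem_iInter.1 hp m
    · intro s hs
      have h1 : ∀ᶠ J in ((p * p : Ultrafilter (Finset ℕ)) : Filter (Finset ℕ)), J ∈ s := by
        rw [hpp]
        exact hs
      exact (Ultrafilter.eventually_mul p p (fun J => J ∈ s)).1 h1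
  · exact Ultrafilter.continuous_mul_left
  · apply IsCompact.nonempty_iInter_of_sequence_nonempty_isCompact_isClosed
    · intro n U hU
      have hU' : {I : Finset ℕ | I.Nonempty ∧ Lo (n + 1) I} ∈ U := hU
      refine Filter.mem_of_superset hU' ?_
      rintro I ⟨h1, h2⟩
      exact ⟨h1, fun j hj => (Nat.le_succ n).trans (h2 j hj)⟩
    · intro n
      obtain ⟨I, hI⟩ := hex n
      exact ⟨pure I, hI⟩
    · exact (ultrafilter_isClosed_basic _).isCompact
    · intro n
      apply ultrafilter_isClosed_basic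
  · exact IsClosed.isCompact (isClosed_iInter fun i => ultrafilter_isClosed_basic _)
  · intro U hU V hV
    rw [Set.mem_iInter] at *
    intro n
    have h1 : ∀ᶠ I in (U : Filter (Finset ℕ)), I.Nonempty ∧ Lo n I := hU n
    have h2 : ∀ᶠ I in (V : Filter (Finset ℕ)), I.Nonempty ∧ Lo n I := hV n
    have h3 : ∀ᶠ I in ((U * V : Ultrafilter (Finset ℕ)) : Filter (Finset ℕ)), I.Nonempty ∧ Lo n I := by
      rw [Ultrafilter.eventually_mul]
      filter_upwards [h1] with I hI
      filter_upwards [h2] with J hJ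
      refine ⟨hI.1.mono Finset.subset_union_left, ?_⟩
      intro j hj
      rcases Finset.mem_union.1 hj with hj | hj
      · exact hI.2 j hj
      · exact hJ.2 j hj
    exact h3

/-- the recursion: a block sequence with all finite unions in a large set -/
theorem hin_seq {p : Ultrafilter (Finset ℕ)}
    (hp : ∀ m, ∀ᶠ I in (p : Filter (Finset ℕ)), I.Nonempty ∧ Lo m I)
    (hpp : ∀ s ∈ p, ∀ᶠ I in (p : Filter (Finset ℕ)), ∀ᶠ J in (p : Filter (Finset ℕ)), I ∪ J ∈ s)
    {Z : Set (Finset ℕ)} (hZ : Z ∈ p) : ∃ B, BlkF B ∧ fu B ⊆ Z := by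
  have hch : ∀ (s : {s : Set (Finset ℕ) // s ∈ p}) (N : ℕ), ∃ b : Finset ℕ, b.Nonempty ∧ Lo N b ∧
      b ∈ s.1 ∧ {J | b ∪ J ∈ s.1} ∈ p := by
    intro s N
    have h1 : ∀ᶠ I in (p : Filter (Finset ℕ)), (I.Nonempty ∧ Lo N I) ∧ I ∈ s.1 ∧
        ∀ᶠ J in (p : Filter (Finset ℕ)), I ∪ J ∈ s.1 :=
      (hp N).and (Filter.Eventually.and s.2 (hpp s.1 s.2))
    obtain ⟨b, hb⟩ := h1.exists
    exact ⟨b, hb.1.1, hb.1.2, hb.2.1, hb.2.2⟩
  choose f hne hlo hmem hmul using hch
  let St := {s : Set (Finset ℕ) // s ∈ p} × ℕ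
  let nxt : St → St := fun q =>
    (⟨q.1.1 ∩ {J | f q.1 q.2 ∪ J ∈ q.1.1}, Filter.inter_mem q.1.2 (hmul q.1 q.2)⟩,
      mx (f q.1 q.2) + 1)
  let st : ℕ → St := fun n => Nat.rec (⟨Z, hZ⟩, 0) (fun _ q => nxt q) n
  have hst : ∀ n, st (n + 1) = nxt (st n) := fun n => rfl
  let B : ℕ → Finset ℕ := fun n => f (st n).1 (st n).2
  have hB : BlkF B := by
    refine ⟨fun n => hne _ _, ?_⟩
    intro n i hi j hj
    have h1 : Lo (mx (B n) + 1) (B (n + 1)) := hlo (st (n + 1)).1 (st (n + 1)).2
    have h2 := h1 j hj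
    have h3 := le_mx hi
    omega
  have hanti : ∀ m n, m ≤ n → (st n).1.1 ⊆ (st m).1.1 := by
    intro m n hmn
    induction n, hmn using Nat.le_induction with
    | base => exact subset_rfl
    | succ n _ ih => exact Set.inter_subset_left.trans ih
  have key : ∀ k : ℕ, ∀ I : Finset ℕ, I.card = k → I.Nonempty → ∀ n, (∀ i ∈ I, n ≤ i) →
      I.biUnion B ∈ (st n).1.1 := by
    intro k
    induction k with
    | zero =>
      intro I hI hI2
      exact absurd (Finset.card_eq_zero.1 hI) hI2.ne_empty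
    | succ k ih =>
      intro I hI hI2 n hn
      have hm := I.min'_mem hI2
      set m := I.min' hI2 with hmdef
      apply hanti n m (hn m hm)
      have hins : insert m (I.erase m) = I := Finset.insert_erase hm
      have hu : I.biUnion B = B m ∪ (I.erase m).biUnion B := by
        rw [← Finset.biUnion_insert, hins]
      rw [hu]
      rcases (I.erase m).eq_empty_or_nonempty with h | h
      · rw [h, Finset.biUnion_empty, Finset.union_empty]
        exact hmem _ _
      · have h1 := ih (I.erase m) (by rw [Finset.card_erase_of_mem hm]; omega) h (m + 1) (by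
          intro i hi
          obtain ⟨h2, h3⟩ := Finset.mem_erase.1 hi
          have h4 := I.min'_le i h3
          omega)
        exact h1.2
  refine ⟨B, hB, ?_⟩
  rintro b ⟨I, hI, rfl⟩
  exact key I.card I rfl hI 0 (fun i _ => Nat.zero_le i)

theorem hindman_block {A : ℕ → Finset ℕ} (hA : BlkF A) (Z : Set (Finset ℕ)) :
    ∃ B, BlkF B ∧ fu B ⊆ fu A ∧ (fu B ⊆ Z ∨ fu B ⊆ Zᶜ) := by
  obtain ⟨p, hp, hpp⟩ := hin_idem
  have main : ∀ W : Set (Finset ℕ), {I : Finset ℕ | I.biUnion A ∈ W} ∈ p →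
      ∃ B, BlkF B ∧ fu B ⊆ fu A ∧ fu B ⊆ W := by
    intro W hW
    obtain ⟨C, hC, hCW⟩ := hin_seq hp hpp hW
    refine ⟨fun n => (C n).biUnion A, ⟨?_, ?_⟩, ?_, ?_⟩
    · intro n
      exact fu_ne hA ⟨C n, hC.ne n, rfl⟩
    · intro n i hi j hj
      obtain ⟨a, ha, hia⟩ := Finset.mem_biUnion.1 hi
      obtain ⟨b, hb, hjb⟩ := Finset.mem_biUnion.1 hj
      exact hA.bef (hC.lt n a ha b hb) i hia j hjb
    · exact fu_mono fun n => ⟨C n, hC.ne n, rfl⟩
    · rintro b ⟨I, hI, rfl⟩
      have h1 : I.biUnion C ∈ {I : Finset ℕ | I.biUnion A ∈ W} := hCW ⟨I, hI, rfl⟩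
      have h2 : (I.biUnion C).biUnion A ∈ W := h1
      rw [Finset.biUnion_biUnion] at h2
      exact h2
  rcases Ultrafilter.mem_or_compl_mem p {I : Finset ℕ | I.biUnion A ∈ Z} with h | h
  · obtain ⟨B, h1, h2, h3⟩ := main Z h
    exact ⟨B, h1, h2, Or.inl h3⟩
  · obtain ⟨B, h1, h2, h3⟩ := main Zᶜ h
    exact ⟨B, h1, h2, Or.inr h3⟩

end Pool.Agent.SOU
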