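import Pool.Agent.Lib_MP_a0d45a_lc.Typ1

/-!
# Piece TYP2: the sets `TT m y`
-/

set_option autoImplicit false

namespace Pool.Agent.SOU

variable {K : Type} [Field K] [DecidableEq K] {v w y z : ℕ →₀ K} {m n : ℕ} {ϑ : Typ}

theorem ty_mem_TT : ty y ∈ TT m y := by
  refine ⟨0, 1, ?_, one_ne_zero, ?_⟩
  · intro j hj
    simp at hj
  · rw [one_smul, zero_add]

theorem typ2_bef (hv : Hi m v.support) (hm : Lo m y.support) : Bef v.support y.support :=
  fun i hi j hj => lt_of_lt_of_le (hv i hi) (hm j hj)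

theorem typ2_supp_smul {c : K} (hc : c ≠ 0) : (c • y).support = y.support :=
  Finsupp.support_smul_eq hc

theorem typ2_supp (hv : Hi m v.support) (hm : Lo m y.support) {c : K} (hc : c ≠ 0) :
    (v + c • y).support = v.support ∪ y.support := by
  have h : Bef v.support (c • y).support := by
    rw [typ2_supp_smul hc]
    exact typ2_bef hv hm
  rw [support_add_bef h, typ2_supp_smul hc]

theorem typ2_hi_add {c : K} (hv : Hi m v.support) (hy : Hi m y.support) :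
    Hi m (v + c • y).support := by
  intro j hj
  rcases Finset.mem_union.1 (Finsupp.support_add hj) with h | h
  · exact hv j h
  · exact hy j (Finsupp.support_smul h)

/-- the types of level `m` realised by nonzero vectors (a finite set) -/
def Rz (K : Type) [Field K] [DecidableEq K] (m : ℕ) : Set Typ :=
  {ϑ | ∃ v : ℕ →₀ K, v ≠ 0 ∧ Hi m v.support ∧ ϑ = ty v}

theorem Rz_finite (m : ℕ) : (Rz K m).Finite := by
  refine (TypB m).finite_toSet.subset ?_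
  rintro _ ⟨v, -, hv, rfl⟩
  exact ty_mem_TypB hv

/-- by `ty_add_smul`, `exists_ty_add` -/
theorem mem_TT_iff (hK : ∃ a : K, a ≠ 0 ∧ a ≠ 1) (hy : y ≠ 0) (hm : Lo m y.support) :
    ϑ ∈ TT m y ↔ ϑ = ty y ∨ ∃ ξ ∈ Rz K m, ∃ e, ϑ = jn ξ e (ty y) := by
  constructor
  · rintro ⟨v, c, hv, hc, rfl⟩
    by_cases h0 : v = 0
    · left
      rw [h0, zero_add, ty_smul hc]
    · right
      obtain ⟨e, he⟩ := ty_add_smul (typ2_bef hv hm) h0 hy hc
      exact ⟨ty v, ⟨v, h0, hv, rfl⟩, e, he⟩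
  · rintro (rfl | ⟨_, ⟨v, h0, hv, rfl⟩, e, rfl⟩)
    · exact ty_mem_TT
    · obtain ⟨c, hc, he⟩ := exists_ty_add hK (typ2_bef hv hm) h0 hy e
      exact ⟨v, c, hv, hc, he.symm⟩

/-- `TT m y` depends only on the type of `y` -/
theorem TT_congr (hK : ∃ a : K, a ≠ 0 ∧ a ≠ 1) (hy : y ≠ 0) (hz : z ≠ 0) (hm : Lo m y.support)
    (h : ty y = ty z) : TT m y = TT m z := by
  have hs : z.support = y.support := by
    have h1 := congrArg Prod.fst h
    rw [ty_fst, ty_fst] at h1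
    exact h1.symm
  have hm' : Lo m z.support := by
    rw [hs]
    exact hm
  ext ϑ
  rw [mem_TT_iff hK hy hm, mem_TT_iff hK hz hm', h]

theorem typ2_subset (hmn : m ≤ n) (hy : Hi n y.support) : TT m y ⊆ ↑(TypB n) := by
  rintro _ ⟨v, c, hv, hc, rfl⟩
  exact ty_mem_TypB (typ2_hi_add (fun j hj => lt_of_lt_of_le (hv j hj) hmn) hy)

/-- the set is contained in `TypB n` for `Hi n (supp y)`, `m ≤ n` -/
theorem TT_finite (m : ℕ) (y : ℕ →₀ K) : (TT m y).Finite := by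
  refine (TypB (max m (y.support.sup id + 1))).finite_toSet.subset
    (typ2_subset (le_max_left _ _) ?_)
  intro j hj
  have h1 : id j ≤ y.support.sup id := Finset.le_sup (f := id) hj
  simp only [id] at h1
  exact lt_of_lt_of_le (Nat.lt_succ_of_le h1) (le_max_right _ _)

/-- (T) -/
theorem TT_add_subset (hmn : m ≤ n) (hw : Hi n w.support) {c : K} (hc : c ≠ 0) :
    TT m (w + c • y) ⊆ TT n y := by
  rintro _ ⟨v, d, hv, hd, rfl⟩
  refine ⟨v + d • w, d * c, typ2_hi_add (fun j hj => lt_of_lt_of_le (hv j hj) hmn) hw,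
    mul_ne_zero hd hc, ?_⟩
  rw [smul_add, smul_smul, add_assoc]

theorem TT_mono (hmn : m ≤ n) : TT m y ⊆ TT n y := by
  rintro _ ⟨v, d, hv, hd, rfl⟩
  exact ⟨v, d, fun j hj => lt_of_lt_of_le (hv j hj) hmn, hd, rfl⟩

theorem TT_smul {c : K} (hc : c ≠ 0) : TT m (c • y) = TT m y := by
  ext ϑ
  constructor
  · rintro ⟨v, d, hv, hd, rfl⟩
    exact ⟨v, d * c, hv, mul_ne_zero hd hc, by rw [smul_smul]⟩
  · rintro ⟨v, d, hv, hd, rfl⟩
    refine ⟨v, d * c⁻¹, hv, mul_ne_zero hd (inv_ne_zero hc), ?_⟩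
    rw [smul_smul, mul_assoc, inv_mul_cancel₀ hc, mul_one]

theorem TT_subset_TypB (hmn : m ≤ n) (hy : Hi n y.support) : TT m y ⊆ ↑(TypB n) := by
  exact typ2_subset hmn hy

theorem typ2_hi (hm : Lo m y.support) (h : ϑ ∈ TT m y) : y.support ⊆ ϑ.1 ∧
    ϑ.1.filter (m ≤ ·) = y.support := by
  obtain ⟨v, c, hv, hc, rfl⟩ := h
  rw [ty_fst, typ2_supp hv hm hc]
  refine ⟨Finset.subset_union_right, ?_⟩
  ext i
  rw [Finset.mem_filter, Finset.mem_union]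
  constructor
  · rintro ⟨h1 | h1, h2⟩
    · exact absurd (hv i h1) (not_lt.2 h2)
    · exact h1
  · intro h1
    exact ⟨Or.inr h1, hm i h1⟩

theorem TT_not_TypB (hy : y ≠ 0) (hm : Lo m y.support) (h : ϑ ∈ TT m y) : ϑ ∉ TypB m := by
  intro hϑ
  obtain ⟨i, hi⟩ := Finsupp.support_nonempty_iff.2 hy
  have h1 := (mem_TypB.1 hϑ).1 i ((typ2_hi hm h).1 hi)
  exact absurd (hm i hi) (not_le.2 h1)

/-- a type of level `n` in `TT m y`: the support of `y` above `m` is contained in the support of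
the type -/
theorem TT_hi (hm : Lo m y.support) (h : ϑ ∈ TT m y) : y.support ⊆ ϑ.1 ∧
    ϑ.1.filter (m ≤ ·) = y.support := by
  exact typ2_hi hm h

/-- (R): a common element of `TT m y` (with `supp y ≥ m`) and of `TT n z` (`n ≤ m`) -/
theorem TT_inter (hmn : n ≤ m) (hm : Lo m y.support) (h1 : ϑ ∈ TT m y) (h2 : ϑ ∈ TT n z) :
    ty y = ty (z.filter (fun i => m ≤ i)) := by
  obtain ⟨v, c, hv, hc, rfl⟩ := h1
  obtain ⟨v', c', hv', hc', he⟩ := h2
  rw [← tyFrom_add hv hm hc, he]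
  exact tyFrom_add' (fun j hj => lt_of_lt_of_le (hv' j hj) hmn) hc'

/-- labels: `none` for `ty y`, `(ξ, e)` for `jn ξ e (ty y)` -/
def lab (η : Typ) : Option (Typ × Bool) → Typ
  | none => η
  | some (ξ, e) => jn ξ e η

/-- the finite set of labels of level `m` -/
def Lab (K : Type) [Field K] [DecidableEq K] (m : ℕ) : Set (Option (Typ × Bool)) :=
  {ℓ | ℓ = none ∨ ∃ ξ ∈ Rz K m, ∃ e, ℓ = some (ξ, e)}

theorem Lab_finite (m : ℕ) : (Lab K m).Finite := by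
  have h1 : (((Rz K m) ×ˢ (Set.univ : Set Bool)).image some).Finite :=
    ((Rz_finite m).prod Set.finite_univ).image some
  refine (h1.insert none).subset ?_
  rintro ℓ (rfl | ⟨ξ, hξ, e, rfl⟩)
  · exact Set.mem_insert _ _
  · exact Set.mem_insert_of_mem _ ⟨(ξ, e), ⟨hξ, Set.mem_univ _⟩, rfl⟩

theorem TT_eq_image (hK : ∃ a : K, a ≠ 0 ∧ a ≠ 1) (hy : y ≠ 0) (hm : Lo m y.support) :
    TT m y = lab (ty y) '' Lab K m := by
  ext ϑ
  rw [mem_TT_iff hK hy hm]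
  constructor
  · rintro (rfl | ⟨ξ, hξ, e, rfl⟩)
    · exact ⟨none, Or.inl rfl, rfl⟩
    · exact ⟨some (ξ, e), Or.inr ⟨ξ, hξ, e, rfl⟩, rfl⟩
  · rintro ⟨ℓ, (rfl | ⟨ξ, hξ, e, rfl⟩), rfl⟩
    · exact Or.inl rfl
    · exact Or.inr ⟨ξ, hξ, e, rfl⟩

/-- every pattern is given by a set of labels -/
theorem exists_label (hK : ∃ a : K, a ≠ 0 ∧ a ≠ 1) (hy : y ≠ 0) (hm : Lo m y.support)
    (π : Set Typ) : ∃ Λ ⊆ Lab K m, ∀ ϑ ∈ TT m y, (ϑ ∈ π ↔ ϑ ∈ lab (ty y) '' Λ) := by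
  refine ⟨{ℓ | ℓ ∈ Lab K m ∧ lab (ty y) ℓ ∈ π}, fun ℓ hℓ => hℓ.1, ?_⟩
  intro ϑ hϑ
  rw [TT_eq_image hK hy hm] at hϑ
  obtain ⟨ℓ, hℓ, rfl⟩ := hϑ
  constructor
  · intro h
    exact ⟨ℓ, ⟨hℓ, h⟩, rfl⟩
  · rintro ⟨ℓ', ⟨-, h2⟩, h3⟩
    rw [← h3]
    exact h2

end Pool.Agent.SOU
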