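import Pool.Agent.Lib_MP_a0d45a_lc.BF
import Pool.Agent.Lib_MP_a0d45a_lc.Typ2

/-!
# Piece CB: basic facts on the conditions `Cd F`
-/

set_option autoImplicit false

namespace Pool.Agent.SOU

variable {K : Type} [Field K] [DecidableEq K] {F : Filter (ℕ →₀ K)}

theorem Ext.refl' {s : Node} (h : s.2 ⊆ TypB s.1) : Ext s s := by
  exact ⟨le_rfl, Finset.inter_eq_left.2 h⟩

theorem cb_inter {a : Finset Typ} {m n : ℕ} (h : m ≤ n) :
    (a ∩ TypB n) ∩ TypB m = a ∩ TypB m := by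
  rw [Finset.inter_assoc, Finset.inter_eq_right.2 (TypB_mono h)]

theorem Ext.trans {s t u : Node} (h1 : Ext s t) (h2 : Ext t u) : Ext s u := by
  refine ⟨h1.1.trans h2.1, ?_⟩
  rw [← cb_inter h1.1, h2.2, h1.2]

/-- restriction of a node to a level -/
def cut (m : ℕ) (t : Node) : Node := (m, t.2 ∩ TypB m)

theorem Ext.cut {s t : Node} (h : Ext s t) : s = cut s.1 t := by
  exact Prod.ext rfl h.2.symm

theorem cut_ext {t : Node} {m : ℕ} (h : m ≤ t.1) : Ext (cut m t) t := by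
  exact ⟨h, rfl⟩

theorem Ext.cut_mid {s t : Node} (h : Ext s t) {m : ℕ} (h1 : s.1 ≤ m) (h2 : m ≤ t.1) :
    Ext s (SOU.cut m t) := by
  refine ⟨h1, ?_⟩
  change (t.2 ∩ TypB m) ∩ TypB s.1 = s.2
  rw [cb_inter h1, h.2]

/-- two nodes below the same node are comparable -/
theorem ext_total {s t u : Node} (h1 : Ext s u) (h2 : Ext t u) (h : s.1 ≤ t.1) : Ext s t := by
  refine ⟨h, ?_⟩
  rw [← h2.2, cb_inter h, h1.2]

/-- patterns pass to extensions -/
theorem Pat.ext {m : ℕ} {y : ℕ →₀ K} {π : Set Typ} {t u : Node} (h : Pat m y π t)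
    (hmt : m ≤ t.1) (htu : Ext t u) : Pat m y π u := by
  refine ⟨fun j hj => lt_of_lt_of_le (h.1 j hj) htu.1, fun ϑ hϑ => ?_⟩
  rw [← h.2 ϑ hϑ, ← htu.2, Finset.mem_inter]
  have h1 : ϑ ∈ TypB t.1 := Finset.mem_coe.1 (TT_subset_TypB hmt h.1 hϑ)
  exact ⟨fun h2 => ⟨h2, h1⟩, fun h2 => h2.1⟩

namespace Cd

variable (p q : Cd F)

theorem le_iff {p q : Cd F} : p ≤ q ↔ p.T ⊆ q.T := by
  exact Iff.rfl

/-- by `act` and `bf_tail`, `bf_ne` -/
theorem exists_ext (hF : IsBlockFilter F) {s : Node} (hs : s ∈ p.T) (n : ℕ) (hn : s.1 ≤ n) :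
    ∃ t ∈ p.T, t.1 = n ∧ Ext s t := by
  have hne : F.NeBot := hF.ne
  obtain ⟨y, ⟨hy1, hy2⟩, hy3⟩ := (((p.act s hs).and (bf_tail hF n)).and (bf_ne hF)).exists
  obtain ⟨t, ht, hst, hp, -⟩ := hy1 ∅
  obtain ⟨j, hj⟩ := Finsupp.support_nonempty_iff.2 hy3
  have hnt : n ≤ t.1 := ((hy2 j hj).trans_lt (hp j hj)).le
  exact ⟨SOU.cut n t, p.down t ht n hnt, rfl, hst.cut_mid hn hnt⟩

theorem exists_level (hF : IsBlockFilter F) (n : ℕ) : ∃ t ∈ p.T, t.1 = n := by
  obtain ⟨t₀, ht₀⟩ := p.ne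
  obtain ⟨t, ht, htn, -⟩ := p.exists_ext hF (p.down t₀ ht₀ 0 (Nat.zero_le _)) n (Nat.zero_le _)
  exact ⟨t, ht, htn⟩

/-- the nodes of a level form a finite set -/
theorem level_finite (n : ℕ) : {t ∈ p.T | t.1 = n}.Finite := by
  have h1 : ((fun a : Finset Typ => ((n, a) : Node)) '' ↑((TypB n).powerset)).Finite :=
    ((TypB n).powerset.finite_toSet).image _
  refine h1.subset ?_
  rintro t ⟨ht, rfl⟩
  exact ⟨t.2, Finset.mem_coe.2 (Finset.mem_powerset.2 (p.val t ht)), rfl⟩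

/-- nodes comparable with `s` -/
def atSet (s : Node) : Set Node := {t ∈ p.T | Cmp s t}

/-- the subtree of the nodes comparable with `s ∈ p.T`. `act` at `t` below `s`: for `y` with
`supp y ≥ s.1`, a pattern on `TT t.1 y ⊆ TT s.1 y` extends to a pattern on `TT s.1 y` (itself),
realised by an extension of `s`. -/
theorem exists_at (hF : IsBlockFilter F) {s : Node} (hs : s ∈ p.T) :
    ∃ q : Cd F, q.T = p.atSet s := by
  refine ⟨{ T := p.atSet s
            ne := ⟨s, hs, Or.inl (Ext.refl' (p.val s hs))⟩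
            val := fun t ht => p.val t ht.1
            down := ?_
            act := ?_ }, rfl⟩
  · rintro t ⟨ht, hst⟩ m hm
    refine ⟨p.down t ht m hm, ?_⟩
    rcases hst with h | h
    · rcases le_total s.1 m with h1 | h1
      · exact Or.inl (h.cut_mid h1 hm)
      · exact Or.inr (ext_total (cut_ext hm) h h1)
    · exact Or.inr ((cut_ext hm).trans h)
  · rintro t ⟨ht, hst⟩
    rcases hst with h | h
    · refine (p.act t ht).mono fun y hy π => ?_
      obtain ⟨u, hu, h1, h2⟩ := hy π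
      exact ⟨u, ⟨hu, Or.inl (h.trans h1)⟩, h1, h2⟩
    · refine (p.act s hs).mono fun y hy π => ?_
      obtain ⟨u, hu, h1, h2⟩ := hy π
      exact ⟨u, ⟨hu, Or.inl h1⟩, h.trans h1, h2.1, fun ϑ hϑ => h2.2 ϑ (TT_mono h.1 hϑ)⟩

/-- `p.at s` (for `s ∈ p.T`; equal to `p` otherwise) -/
noncomputable def at' (s : Node) : Cd F :=
  open Classical in if h : ∃ q : Cd F, q.T = p.atSet s then h.choose else p

theorem at_le (s : Node) : p.at' s ≤ p := by
  unfold at'
  split_ifs with h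
  · have h1 := h.choose_spec
    change h.choose.T ⊆ p.T
    rw [h1]
    exact fun t ht => ht.1
  · exact le_rfl

theorem at_T (hF : IsBlockFilter F) {s : Node} (hs : s ∈ p.T) : (p.at' s).T = p.atSet s := by
  unfold at'
  rw [dif_pos (p.exists_at hF hs)]
  exact (p.exists_at hF hs).choose_spec

theorem at_at (hF : IsBlockFilter F) {s t : Node} (hs : s ∈ p.T) (ht : t ∈ p.T) (h : Ext s t) :
    p.at' t ≤ p.at' s := by
  rw [le_iff, at_T p hF hs, at_T p hF ht]
  rintro u ⟨hu, htu⟩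
  refine ⟨hu, ?_⟩
  rcases htu with h1 | h1
  · exact Or.inl (h.trans h1)
  · rcases le_total s.1 u.1 with h2 | h2
    · exact Or.inl (ext_total h h1 h2)
    · exact Or.inr (ext_total h1 h h2)

theorem at_mono {p q : Cd F} (hF : IsBlockFilter F) (h : p ≤ q) {s : Node} (hs : s ∈ p.T) :
    p.at' s ≤ q.at' s := by
  rw [le_iff, at_T p hF hs, at_T q hF (h hs)]
  rintro u ⟨hu, hsu⟩
  exact ⟨h hu, hsu⟩

/-- the union of a nonempty family of conditions is a condition -/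
theorem exists_union {ι : Type} (P : ι → Cd F) (i₀ : ι) : ∃ q : Cd F, q.T = ⋃ i, (P i).T := by
  refine ⟨{ T := ⋃ i, (P i).T
            ne := ?_
            val := ?_
            down := ?_
            act := ?_ }, rfl⟩
  · obtain ⟨t, ht⟩ := (P i₀).ne
    exact ⟨t, Set.mem_iUnion.2 ⟨i₀, ht⟩⟩
  · intro s hs
    obtain ⟨i, hi⟩ := Set.mem_iUnion.1 hs
    exact (P i).val s hi
  · intro t ht m hm
    obtain ⟨i, hi⟩ := Set.mem_iUnion.1 ht
    exact Set.mem_iUnion.2 ⟨i, (P i).down t hi m hm⟩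
  · intro s hs
    obtain ⟨i, hi⟩ := Set.mem_iUnion.1 hs
    refine ((P i).act s hi).mono fun y hy π => ?_
    obtain ⟨t, ht, h1⟩ := hy π
    exact ⟨t, Set.mem_iUnion.2 ⟨i, ht⟩, h1⟩

/-- for every level, the subtrees at the nodes of this level are predense below `p`: `r ≤ p` has a
node `s` of level `n`, and `r.at' s` is below both -/
theorem predense_level (hF : IsBlockFilter F) (n : ℕ) {r : Cd F} (hr : r ≤ p) :
    ∃ s ∈ p.T, s.1 = n ∧ s ∈ r.T ∧ r.at' s ≤ r ∧ r.at' s ≤ p.at' s := by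
  obtain ⟨s, hs, hsn⟩ := r.exists_level hF n
  exact ⟨s, hr hs, hsn, hs, r.at_le s, at_mono hF hr hs⟩

/-- the tree of all nodes `(m, a)`, `a ⊆ TypB m`: `act` at `s`: for `y ≠ 0` with
`supp y ≥ s.1`, `t = (mx (supp y) + 1, s.2 ∪ (TT s.1 y ∩ π))`, by `TT_not_TypB`,
`TT_subset_TypB`, `TT_finite` -/
theorem exists_top (hF : IsBlockFilter F) : ∃ q : Cd F, ∀ p : Cd F, p ≤ q := by
  classical
  refine ⟨{ T := {t | t.2 ⊆ TypB t.1}
            ne := ⟨(0, ∅), Finset.empty_subset _⟩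
            val := fun s hs => hs
            down := fun t _ m _ => Finset.inter_subset_right
            act := ?_ }, fun p => p.val⟩
  intro s hs
  filter_upwards [bf_tail hF s.1, bf_ne hF] with y hy1 hy2
  intro π
  have hs' : s.2 ⊆ TypB s.1 := hs
  have hfin : (TT s.1 y ∩ π).Finite := (TT_finite s.1 y).subset Set.inter_subset_left
  have hhi : Hi (max s.1 (mx y.support + 1)) y.support := by
    intro j hj
    exact lt_of_lt_of_le (Nat.lt_succ_of_le (le_mx hj)) (le_max_right _ _)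
  have hsub : TT s.1 y ⊆ ↑(TypB (max s.1 (mx y.support + 1))) :=
    TT_subset_TypB (le_max_left _ _) hhi
  have hnot : ∀ ϑ ∈ TT s.1 y, ϑ ∉ TypB s.1 := fun ϑ hϑ => TT_not_TypB hy2 hy1 hϑ
  refine ⟨(max s.1 (mx y.support + 1), s.2 ∪ hfin.toFinset), ?_, ⟨le_max_left _ _, ?_⟩, hhi, ?_⟩
  · change s.2 ∪ hfin.toFinset ⊆ TypB (max s.1 (mx y.support + 1))
    refine Finset.union_subset (hs'.trans (TypB_mono (le_max_left _ _))) ?_
    intro ϑ hϑ
    exact Finset.mem_coe.1 (hsub (hfin.mem_toFinset.1 hϑ).1)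
  · change (s.2 ∪ hfin.toFinset) ∩ TypB s.1 = s.2
    ext ϑ
    rw [Finset.mem_inter, Finset.mem_union, Set.Finite.mem_toFinset]
    constructor
    · rintro ⟨h1 | h1, h2⟩
      · exact h1
      · exact absurd h2 (hnot ϑ h1.1)
    · intro h1
      exact ⟨Or.inl h1, hs' h1⟩
  · intro ϑ hϑ
    change ϑ ∈ s.2 ∪ hfin.toFinset ↔ ϑ ∈ π
    rw [Finset.mem_union, Set.Finite.mem_toFinset]
    constructor
    · rintro (h1 | h1)
      · exact absurd (hs' h1) (hnot ϑ hϑ)
      · exact h1.2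
    · intro h1
      exact Or.inr ⟨hϑ, h1⟩

/-- a condition with a stem: all nodes are comparable with `s` -/
def Stem (s : Node) : Prop := s ∈ p.T ∧ ∀ t ∈ p.T, Cmp s t

theorem stem_at (hF : IsBlockFilter F) {s : Node} (hs : s ∈ p.T) : (p.at' s).Stem s := by
  unfold Stem
  rw [at_T p hF hs]
  exact ⟨⟨hs, Or.inl (Ext.refl' (p.val s hs))⟩, fun t ht => ht.2⟩

theorem Stem.mono {p q : Cd F} (hF : IsBlockFilter F) {s : Node} (h : p.Stem s) (hq : q ≤ p) :
    q.Stem s := by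
  refine ⟨?_, fun t ht => h.2 t (hq ht)⟩
  obtain ⟨t, ht, hts⟩ := q.exists_level hF s.1
  have h2 : t = s := by
    refine Prod.ext hts ?_
    rcases h.2 t (hq ht) with h1 | h1
    · have h3 := h1.2
      rw [← hts, Finset.inter_eq_left.2 (q.val t ht)] at h3
      exact h3
    · have h3 := h1.2
      rw [hts, Finset.inter_eq_left.2 (p.val s h.1)] at h3
      exact h3.symm
  rw [← h2]
  exact ht

end Cd

end Pool.Agent.SOU
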