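import Mathlib

/-!
# MP_a0d45a_lc: definitions

Block sequences of finite sets and of vectors, stable ordered-union ultrafilters, `(p⁺)`-filters.
The vector space with basis `(e_n)` over the field `K` is `ℕ →₀ K`.
-/

set_option autoImplicit false

namespace Pool.Agent.SOU

/-! ### finite sets -/

/-- `(A n)` is a block sequence of nonempty finite sets -/
structure BlkF (A : ℕ → Finset ℕ) : Prop where
  ne : ∀ n, (A n).Nonempty
  lt : ∀ n, ∀ i ∈ A n, ∀ j ∈ A (n + 1), i < j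

/-- `⟨A⟩`: the set of finite unions of entries of `A` -/
def fu (A : ℕ → Finset ℕ) : Set (Finset ℕ) := {b | ∃ I : Finset ℕ, I.Nonempty ∧ b = I.biUnion A}

/-- `U` (an ultrafilter on the finite subsets of `ℕ`) is a stable ordered-union ultrafilter.
(All sets `⟨A⟩` consist of nonempty sets, so `U` lives on `FIN`.) -/
structure IsSOU (U : Ultrafilter (Finset ℕ)) : Prop where
  base : ∀ S ∈ U, ∃ A, BlkF A ∧ fu A ∈ U ∧ fu A ⊆ S
  stable : ∀ A : ℕ → ℕ → Finset ℕ, (∀ n, BlkF (A n) ∧ fu (A n) ∈ U) →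
    ∃ B, BlkF B ∧ fu B ∈ U ∧ ∀ n, ∃ k, ∀ b ∈ fu B, (∀ j ∈ b, k < j) → b ∈ fu (A n)

/-! ### vectors -/

variable {K : Type} [Field K]

/-- `(X n)` is a block sequence of nonzero vectors -/
structure Blk (X : ℕ → ℕ →₀ K) : Prop where
  ne : ∀ n, X n ≠ 0
  lt : ∀ n, ∀ i ∈ (X n).support, ∀ j ∈ (X (n + 1)).support, i < j

/-- `⟨X⟩`: the linear span of `X` without `0` -/
def bs (X : ℕ → ℕ →₀ K) : Set (ℕ →₀ K) := {v | v ≠ 0 ∧ v ∈ Submodule.span K (Set.range X)}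

/-- block filters on `E = ℕ →₀ K` -/
structure IsBlockFilter (F : Filter (ℕ →₀ K)) : Prop where
  ne : F.NeBot
  nz : {v : ℕ →₀ K | v ≠ 0} ∈ F
  cofin : ∀ V : Submodule K (ℕ →₀ K), FiniteDimensional K ((ℕ →₀ K) ⧸ V) →
    {v : ℕ →₀ K | v ≠ 0 ∧ v ∈ V} ∈ F
  base : ∀ S ∈ F, ∃ X, Blk X ∧ bs X ∈ F ∧ bs X ⊆ S

/-- `D` is `F`-dense: every `⟨X⟩ ∈ F` contains an infinite-dimensional subspace included in `D` -/
def FDense (F : Filter (ℕ →₀ K)) (D : Set (ℕ →₀ K)) : Prop :=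
  ∀ X, Blk X → bs X ∈ F → ∃ V : Submodule K (ℕ →₀ K), ¬ FiniteDimensional K V ∧
    ∀ v ∈ V, v ≠ 0 → v ∈ bs X ∧ v ∈ D

/-- full block filters -/
structure IsFull (F : Filter (ℕ →₀ K)) : Prop extends IsBlockFilter F where
  full : ∀ D, FDense F D → D ∈ F

/-- `(p⁺)`-filters -/
structure IsPPlus (F : Filter (ℕ →₀ K)) : Prop extends IsFull F where
  pfil : ∀ X : ℕ → ℕ → ℕ →₀ K, (∀ n, Blk (X n) ∧ bs (X n) ∈ F) →
    ∃ Y, Blk Y ∧ bs Y ∈ F ∧ ∀ n, ∃ k, ∀ v ∈ bs Y, (∀ j ∈ v.support, k < j) → v ∈ bs (X n)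

end Pool.Agent.SOU
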