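import Pool.Agent.Lib_MP_a0d45a_lc.GFgen

/-!
# Piece GF: game fusion for hereditary properties
-/

set_option autoImplicit false

namespace Pool.Agent.SOU

variable {K : Type} [Field K] [DecidableEq K] {F : Filter (ℕ →₀ K)} {U : Ultrafilter (Finset ℕ)}

/-- one step. PROOF. For each `s ∈ T.T` of level `n` (finitely many) and each set `π ⊆ TT n y` (finitely many,
`TT_finite`) choose `q_{s,π}` from `h`, and let `T'` be their union (`Cd.exists_union`). `T' ≤ T`. Let `t ∈ T'.T` have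
level `N`, `t ∈ q_{s,π}`. Then `s = cut n t` (as `q_{s,π} ≤ T.at' s`) and `π = {ϑ ∈ TT n y | ϑ ∈ t.2}`, so `s`
and `π` are determined by `t`. Every node `u ∈ T'.T` comparable with `t` is in `q_{s,π}`: if `Ext u t` by
`down`; if `Ext t u` and `u ∈ q_{s',π'}` then `t ∈ q_{s',π'}` so `(s', π') = (s, π)`. So
`T'.at' t ≤ q_{s,π}` is good. Patterns: for `s` and `π` let `π' = π ∩ TT n y` and take any node `t` of level `N`
in `q_{s,π'}` (it extends `s`). -/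
theorem gf_step (hF : IsBlockFilter F) (T : Cd F) (n N : ℕ) (y : ℕ →₀ K) (hn : n < N)
    (hN : Hi N y.support) (G : Cd F → Prop) (hG : ∀ p q : Cd F, G p → q ≤ p → G q)
    (h : ∀ s ∈ T.T, s.1 = n → ∀ π : Set Typ, ∃ q ≤ T.at' s, G q ∧
      ∀ t ∈ q.T, Hi t.1 y.support → ∀ ϑ ∈ TT n y, (ϑ ∈ t.2 ↔ ϑ ∈ π)) :
    ∃ T' ≤ T, (∀ t ∈ T'.T, t.1 = N → G (T'.at' t)) ∧
      ∀ s ∈ T.T, s.1 = n → ∀ π : Set Typ, ∃ t ∈ T'.T, t.1 = N ∧ Ext s t ∧ Pat n y π t := by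
  classical
  have hch : ∀ x : {s : Node // s ∈ T.T ∧ s.1 = n} × Set Typ, ∃ q ≤ T.at' x.1.1, G q ∧
      ∀ t ∈ q.T, Hi t.1 y.support → ∀ ϑ ∈ TT n y, (ϑ ∈ t.2 ↔ ϑ ∈ x.2 ∩ TT n y) :=
    fun x => h x.1.1 x.1.2.1 x.1.2.2 (x.2 ∩ TT n y)
  -- the choice depends only on `s` and on `π ∩ TT n y`
  let ch : {s : Node // s ∈ T.T ∧ s.1 = n} → Set Typ → Cd F := fun s π => (hch (s, π)).choose
  let P : {s : Node // s ∈ T.T ∧ s.1 = n} × Set Typ → Cd F := fun x => ch x.1 (x.2 ∩ TT n y)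
  have hP1 : ∀ x, P x ≤ T.at' x.1.1 := fun x => (hch (x.1, x.2 ∩ TT n y)).choose_spec.1
  have hP2 : ∀ x, G (P x) := fun x => (hch (x.1, x.2 ∩ TT n y)).choose_spec.2.1
  have hP3 : ∀ x, ∀ t ∈ (P x).T, Hi t.1 y.support → ∀ ϑ ∈ TT n y, (ϑ ∈ t.2 ↔ ϑ ∈ x.2) := by
    intro x t ht hi ϑ hϑ
    have h1 := (hch (x.1, x.2 ∩ TT n y)).choose_spec.2.2 t ht hi ϑ hϑ
    rw [h1]
    exact ⟨fun h2 => h2.1.1, fun h2 => ⟨⟨h2, hϑ⟩, hϑ⟩⟩
  obtain ⟨t₀, ht₀, ht₀n⟩ := T.exists_level hF n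
  obtain ⟨T', hT'⟩ := Cd.exists_union P (⟨t₀, ht₀, ht₀n⟩, ∅)
  have hle : ∀ x, P x ≤ T := fun x => (hP1 x).trans (T.at_le _)
  have hTT : T' ≤ T := by
    rw [Cd.le_iff, hT']
    exact Set.iUnion_subset fun x => Cd.le_iff.1 (hle x)
  -- a node of level `N` in `P x` extends `x.1`
  have hext : ∀ x, ∀ t ∈ (P x).T, t.1 = N → Ext x.1.1 t := by
    intro x t ht htN
    have h1 : t ∈ (T.at' x.1.1).T := Cd.le_iff.1 (hP1 x) ht
    rw [T.at_T hF x.1.2.1] at h1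
    rcases h1.2 with h2 | h2
    · exact h2
    · have h3 := h2.1
      rw [x.1.2.2, htN] at h3
      omega
  -- the index is determined by the node
  have hdet : ∀ x x', ∀ t, t ∈ (P x).T → t ∈ (P x').T → t.1 = N → P x = P x' := by
    intro x x' t ht ht' htN
    have e1 : x.1 = x'.1 := by
      apply Subtype.ext
      have h1 := (hext x t ht htN).cut
      have h2 := (hext x' t ht' htN).cut
      rw [x.1.2.2] at h1
      rw [x'.1.2.2] at h2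
      rw [h1, h2]
    have e2 : x.2 ∩ TT n y = x'.2 ∩ TT n y := by
      ext ϑ
      constructor
      · rintro ⟨h1, h2⟩
        refine ⟨?_, h2⟩
        rw [← hP3 x' t ht' (by rw [htN]; exact hN) ϑ h2, hP3 x t ht (by rw [htN]; exact hN) ϑ h2]
        exact h1
      · rintro ⟨h1, h2⟩
        refine ⟨?_, h2⟩
        rw [← hP3 x t ht (by rw [htN]; exact hN) ϑ h2, hP3 x' t ht' (by rw [htN]; exact hN) ϑ h2]
        exact h1
    show ch x.1 (x.2 ∩ TT n y) = ch x'.1 (x'.2 ∩ TT n y)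
    rw [e1, e2]
  refine ⟨T', hTT, ?_, ?_⟩
  · intro t ht htN
    have ht2 := ht
    rw [hT', Set.mem_iUnion] at ht2
    obtain ⟨x, hx⟩ := ht2
    refine hG _ _ (hP2 x) ?_
    rw [Cd.le_iff, T'.at_T hF ht]
    rintro u ⟨hu, hc⟩
    rcases hc with h1 | h1
    · rw [hT', Set.mem_iUnion] at hu
      obtain ⟨x', hx'⟩ := hu
      have h2 : t ∈ (P x').T := by
        have h3 := (P x').down u hx' t.1 h1.1
        have h4 := h1.cut
        rw [h4]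
        exact h3
      rw [hdet x x' t hx h2 htN]
      exact hx'
    · have h3 := (P x).down t hx u.1 h1.1
      have h4 := h1.cut
      rw [h4]
      exact h3
  · intro s hs hsn π
    obtain ⟨t, ht, htN⟩ := (P (⟨s, hs, hsn⟩, π)).exists_level hF N
    refine ⟨t, ?_, htN, hext (⟨s, hs, hsn⟩, π) t ht htN, ?_, ?_⟩
    · rw [hT', Set.mem_iUnion]
      exact ⟨_, ht⟩
    · rw [htN]; exact hN
    · exact hP3 (⟨s, hs, hsn⟩, π) t ht (by rw [htN]; exact hN)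

/-- PROOF. `gfgen` for `V i T n := ∀ s ∈ T.T, s.1 = n → Good i (T.at' s)`, `T₀ = p₀`, `n₀ = s₀.1` (the only node of
`p₀` of level `s₀.1` is `s₀`). The step: for `T`, `n` take the intersections of the finitely
many `B`, `S` given by `step` for `T.at' s`, `s ∈ T.T` of level `n` (stem `s`), and use
`gf_step` with `N = n + mx (supp y) + 1`. For the conclusion take for `Φ k` the set of the
`(T k).at' s`, `s ∈ (T k).T` of level `m k` (`Cd.level_finite`, `Cd.predense_level`). -/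
theorem gf (hK : ∃ a : K, a ≠ 0 ∧ a ≠ 1) (hU : IsSOU U) (hF : IsPPlus F) {ι : Type}
    (Good : ι → Cd F → Prop) (nx : ι → Finset ℕ → ι)
    (hered : ∀ i p q, Good i p → q ≤ p → Good i q)
    (step : ∀ i p s, p.Stem s → Good i p → ∃ B ∈ U, ∃ S ∈ F, ∀ b ∈ B, ∀ y ∈ S, ∀ π : Set Typ,
      ∃ q ≤ p, Good (nx i b) q ∧
        ∀ t ∈ q.T, Hi t.1 y.support → ∀ ϑ ∈ TT s.1 y, (ϑ ∈ t.2 ↔ ϑ ∈ π))
    (i₀ : ι) (p₀ : Cd F) (s₀ : Node) (hs : p₀.Stem s₀) (h₀ : Good i₀ p₀) :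
    ∃ b, BlkF b ∧ fu b ∈ U ∧ ∃ q ≤ p₀, ∃ i : ℕ → ι, i 0 = i₀ ∧
      (∀ k, i (k + 1) = nx (i k) (b k)) ∧ ∀ k, ∃ Φ : Set (Cd F), Φ.Finite ∧
        (∀ r ∈ Φ, Good (i k) r) ∧ ∀ r ≤ q, ∃ φ ∈ Φ, ∃ s, s ≤ r ∧ s ≤ φ := by
  obtain ⟨b, y, i, T, m, R, hb, hbU, hi0, hT0, hm0, hi, hT, hV, -, hR, -⟩ :=
    gfgen hK hU hF (fun i T n => ∀ s ∈ T.T, s.1 = n → Good i (T.at' s)) nx (by
      intro i T n hV
      have hch : ∀ s : Node, ∃ B ∈ U, ∃ S ∈ F, s ∈ T.T → s.1 = n → ∀ b ∈ B, ∀ y ∈ S,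
          ∀ π : Set Typ, ∃ q ≤ T.at' s, Good (nx i b) q ∧
            ∀ t ∈ q.T, Hi t.1 y.support → ∀ ϑ ∈ TT n y, (ϑ ∈ t.2 ↔ ϑ ∈ π) := by
        intro s
        by_cases h1 : s ∈ T.T ∧ s.1 = n
        · obtain ⟨B, hB, S, hS, h2⟩ := step i (T.at' s) s (T.stem_at hF.toIsFull.toIsBlockFilter h1.1)
            (hV s h1.1 h1.2)
          rw [h1.2] at h2
          exact ⟨B, hB, S, hS, fun _ _ => h2⟩
        · exact ⟨Set.univ, Filter.univ_mem, Set.univ, Filter.univ_mem,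
            fun h2 h3 => absurd ⟨h2, h3⟩ h1⟩
      choose B hB S hS h2 using hch
      have hfin := T.level_finite n
      refine ⟨⋂ s ∈ {t ∈ T.T | t.1 = n}, B s, (Filter.biInter_mem hfin).2 fun s _ => hB s,
        ⋂ s ∈ {t ∈ T.T | t.1 = n}, S s, (Filter.biInter_mem hfin).2 fun s _ => hS s, ?_⟩
      intro b hb y hy
      have hN : Hi (n + mx y.support + 1) y.support := by
        intro j hj
        have h3 : j ≤ mx y.support := Finset.le_sup (f := id) hj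
        omega
      obtain ⟨T', hT', h4, h5⟩ := gf_step hF.toIsFull.toIsBlockFilter T n (n + mx y.support + 1) y
        (by omega) hN (Good (nx i b)) (fun p q h3 h4 => hered _ p q h3 h4) (by
          intro s hs hsn π
          exact h2 s hs hsn b (Set.mem_iInter₂.1 hb s ⟨hs, hsn⟩) y
            (Set.mem_iInter₂.1 hy s ⟨hs, hsn⟩) π)
      exact ⟨T', hT', n + mx y.support + 1, by omega, hN, h4, h5⟩)
      i₀ p₀ s₀.1 (fun s _ _ => hered _ _ _ h₀ (p₀.at_le s))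
  refine ⟨b, hb, hbU, R, hT0 ▸ hR 0, i, hi0, hi, fun k => ?_⟩
  refine ⟨(fun s => (T k).at' s) '' {s ∈ (T k).T | s.1 = m k}, ((T k).level_finite (m k)).image _,
    ?_, ?_⟩
  · rintro r ⟨s, ⟨hs1, hs2⟩, rfl⟩
    exact hV k s hs1 hs2
  · intro r hr
    obtain ⟨s, hs1, hs2, -, hs4, hs5⟩ :=
      (T k).predense_level hF.toIsFull.toIsBlockFilter (m k) (hr.trans (hR k))
    exact ⟨_, ⟨s, ⟨hs1, hs2⟩, rfl⟩, r.at' s, hs4, hs5⟩

end Pool.Agent.SOU
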