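import Pool.Agent.Lib_MP_a0d45a_lc.UGap

/-!
# Piece UDIAG: diagonalisation lemmas
-/

set_option autoImplicit false

namespace Pool.Agent.SOU

variable {U : Ultrafilter (Finset ℕ)} (hU : IsSOU U)
include hU

/-- PROOF. For each `n` choose `A n` with `⟨A n⟩ ∈ U`, `⟨A n⟩ ⊆ ⋂_{i ≤ n} S i` (`base`). By
`stable` there is `⟨B⟩ ∈ U` and `k : ℕ → ℕ` with: `b ∈ ⟨B⟩` above `k n` implies
`b ∈ ⟨A n⟩ ⊆ S n`. Apply the gap lemma with `h i = k (i + 1)` to the set `⟨B⟩ ∩ S 0`: for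
`b < c` in `⟨A⟩` all elements of `c` are `> h (mx b) = k (mx b + 1)` (`fu_gap`), so
`c ∈ S (mx b + 1)`. -/
theorem diag (S : ℕ → Set (Finset ℕ)) (hS : ∀ n, S n ∈ U) :
    ∃ A, BlkF A ∧ fu A ∈ U ∧ fu A ⊆ S 0 ∧ ∀ b ∈ fu A, ∀ c ∈ fu A, Bef b c → c ∈ S (mx b + 1) := by
  have hT : ∀ n, {x | ∀ i ∈ Finset.range (n + 1), x ∈ S i} ∈ U := by
    intro n
    exact (Filter.eventually_all_finset (l := (U : Filter (Finset ℕ)))
      (p := fun i x => x ∈ S i) (Finset.range (n + 1))).2 (fun i _ => hS i)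
  choose A hA1 hA2 hA3 using fun n => hU.base _ (hT n)
  obtain ⟨B, hB1, hB2, hB3⟩ := hU.stable A (fun n => ⟨hA1 n, hA2 n⟩)
  choose k hk using hB3
  obtain ⟨C, hC1, hC2, hC3, hC4⟩ := gap_lemma hU (fun i => k (i + 1))
    (S := fu B ∩ S 0) (Filter.inter_mem hB2 (hS 0))
  refine ⟨C, hC1, hC2, fun x hx => (hC3 hx).2, fun b hb c hc hbc => ?_⟩
  have h1 := fu_gap hC1 (h := fun i => k (i + 1)) hC4 hb hc hbc
  have h2 : c ∈ fu (A (mx b + 1)) := hk _ c (hC3 hc).1 h1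
  exact hA3 _ h2 (mx b + 1) (Finset.mem_range.2 (Nat.lt_succ_self _))

/-- `S' n = S₀ ∩ ⋂ {S b : b ⊆ {0, ..., n-1}}` is a finite intersection; apply `diag` to it. (So the
conclusion holds for every finite set `b` with `mx b ≤ mx b'` for some `b' < c` in `⟨A⟩`; here
this is stated for all `p ⊆ {0, ..., mx b'}`.) -/
theorem diag_sets (S₀ : Set (Finset ℕ)) (hS₀ : S₀ ∈ U) (S : Finset ℕ → Set (Finset ℕ))
    (hS : ∀ b, S b ∈ U) :
    ∃ A, BlkF A ∧ fu A ∈ U ∧ fu A ⊆ S₀ ∧ (∀ c ∈ fu A, c ∈ S ∅) ∧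
      ∀ b ∈ fu A, ∀ c ∈ fu A, Bef b c → ∀ p ⊆ Finset.range (mx b + 1), c ∈ S p := by
  have hT : ∀ n, {x | x ∈ S₀ ∧ ∀ p ∈ (Finset.range n).powerset, x ∈ S p} ∈ U := by
    intro n
    have h1 : ∀ᶠ x in (U : Filter (Finset ℕ)), ∀ p ∈ (Finset.range n).powerset, x ∈ S p :=
      (Filter.eventually_all_finset (l := (U : Filter (Finset ℕ)))
        (p := fun p x => x ∈ S p) (Finset.range n).powerset).2 (fun p _ => hS p)
    exact Filter.inter_mem hS₀ h1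
  obtain ⟨A, h1, h2, h3, h4⟩ := diag hU _ hT
  refine ⟨A, h1, h2, fun x hx => (h3 hx).1, fun c hc => (h3 hc).2 ∅ (by simp),
    fun b hb c hc hbc p hp => (h4 b hb c hc hbc).2 p (Finset.mem_powerset.2 hp)⟩

/-- two sequences in `U` have a common refinement in `U` (auxiliary) -/
private theorem udiag_common {A B : ℕ → Finset ℕ} (hA : fu A ∈ U) (hB : fu B ∈ U) :
    ∃ C, BlkF C ∧ fu C ∈ U ∧ fu C ⊆ fu A ∧ fu C ⊆ fu B := by
  obtain ⟨C, h1, h2, h3⟩ := hU.base (fu A ∩ fu B) (Filter.inter_mem hA hB)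
  exact ⟨C, h1, h2, fun x hx => (h3 hx).1, fun x hx => (h3 hx).2⟩

/-- diagonalisation in the last variable (auxiliary) -/
private theorem udiag_last {ι : Type} (F : ℕ → Finset ι) (R : ι → Finset ℕ → Prop) :
    ∃ A, BlkF A ∧ fu A ∈ U ∧ ∀ c ∈ fu A, ∀ d ∈ fu A, Bef c d → ∀ i ∈ F (mx c + 1),
      (∀ᶠ e in (U : Filter (Finset ℕ)), R i e) → R i d := by
  have hT : ∀ n, {d | ∀ i ∈ F n, (∀ᶠ e in (U : Filter (Finset ℕ)), R i e) → R i d} ∈ U := by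
    intro n
    refine (Filter.eventually_all_finset (l := (U : Filter (Finset ℕ)))
      (p := fun i d => (∀ᶠ e in (U : Filter (Finset ℕ)), R i e) → R i d) (F n)).2
      (fun i _ => ?_)
    by_cases h : ∀ᶠ e in (U : Filter (Finset ℕ)), R i e
    · exact h.mono (fun x hx _ => hx)
    · exact Filter.Eventually.of_forall (fun x hx => absurd hx h)
  obtain ⟨A, h1, h2, -, h4⟩ := diag hU _ hT
  exact ⟨A, h1, h2, h4⟩

omit hU in
private theorem udiag_self (b : Finset ℕ) : b ∈ (Finset.range (mx b + 1)).powerset :=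
  Finset.mem_powerset.2 (fun _ hi => Finset.mem_range.2 (Nat.lt_succ_of_le (le_mx hi)))

omit hU in
private theorem udiag_bef {b c : Finset ℕ} (h : Bef b c) (hc : c.Nonempty) :
    b ∈ (Finset.range (mx c + 1)).powerset :=
  Finset.mem_powerset.2 (fun i hi => Finset.mem_range.2
    (Nat.lt_succ_of_lt (h i hi (mx c) (mx_mem hc))))

/-- Let `S₀ = {b | ∀ᶠ c, R b c}` and `S b = {c | R b c}` if `b ∈ S₀`, `S b = univ` otherwise; apply
`diag_sets`. -/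
theorem diag2 {R : Finset ℕ → Finset ℕ → Prop}
    (h : ∀ᶠ b in (U : Filter (Finset ℕ)), ∀ᶠ c in (U : Filter (Finset ℕ)), R b c) :
    ∃ A, BlkF A ∧ fu A ∈ U ∧ ∀ b ∈ fu A, ∀ c ∈ fu A, Bef b c → R b c := by
  obtain ⟨A₁, -, h2, h3⟩ := hU.base _ h
  obtain ⟨A₂, -, k2, k3⟩ := udiag_last hU (fun n => (Finset.range n).powerset) R
  obtain ⟨C, l1, l2, l3, l4⟩ := udiag_common hU h2 k2
  refine ⟨C, l1, l2, fun b hb c hc hbc => ?_⟩
  exact k3 b (l4 hb) c (l4 hc) hbc b (udiag_self b) (h3 (l3 hb))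

/-- Apply `diag` to `S n = {x | (∀ᶠ c, ∀ᶠ d, R x c d) ∧
(∀ b ⊆ range n, (∀ᶠ c, ∀ᶠ d, R b c d) → ∀ᶠ d, R b x d) ∧
(∀ b ⊆ range n, ∀ c ⊆ range n, (∀ᶠ d, R b c d) → R b c x)}`, a finite intersection of sets in `U`.
For `b < c < d` in `⟨A⟩`: `b ∈ S 0`, `c ∈ S (mx b + 1)` and `b ⊆ range (mx b + 1)`, so `∀ᶠ d, R b c d`;
`d ∈ S (mx c + 1)` and `b, c ⊆ range (mx c + 1)`, so `R b c d`. -/
theorem diag3 {R : Finset ℕ → Finset ℕ → Finset ℕ → Prop}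
    (h : ∀ᶠ b in (U : Filter (Finset ℕ)), ∀ᶠ c in (U : Filter (Finset ℕ)),
      ∀ᶠ d in (U : Filter (Finset ℕ)), R b c d) :
    ∃ A, BlkF A ∧ fu A ∈ U ∧ ∀ b ∈ fu A, ∀ c ∈ fu A, ∀ d ∈ fu A, Bef b c → Bef c d → R b c d := by
  obtain ⟨A₁, -, h2, h3⟩ := diag2 hU h
  obtain ⟨A₂, -, k2, k3⟩ := udiag_last hU
    (fun n => (Finset.range n).powerset ×ˢ (Finset.range n).powerset) (fun i d => R i.1 i.2 d)
  obtain ⟨C, l1, l2, l3, l4⟩ := udiag_common hU h2 k2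
  refine ⟨C, l1, l2, fun b hb c hc d hd hbc hcd => ?_⟩
  exact k3 c (l4 hc) d (l4 hd) hcd (b, c)
    (Finset.mem_product.2 ⟨udiag_bef hbc (fu_ne l1 hc), udiag_self c⟩)
    (h3 b (l3 hb) c (l3 hc) hbc)

/-- same proof -/
theorem diag4 {R : Finset ℕ → Finset ℕ → Finset ℕ → Finset ℕ → Prop}
    (h : ∀ᶠ b in (U : Filter (Finset ℕ)), ∀ᶠ c in (U : Filter (Finset ℕ)),
      ∀ᶠ d in (U : Filter (Finset ℕ)), ∀ᶠ e in (U : Filter (Finset ℕ)), R b c d e) :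
    ∃ A, BlkF A ∧ fu A ∈ U ∧ ∀ b ∈ fu A, ∀ c ∈ fu A, ∀ d ∈ fu A, ∀ e ∈ fu A,
      Bef b c → Bef c d → Bef d e → R b c d e := by
  obtain ⟨A₁, -, h2, h3⟩ := diag3 hU h
  obtain ⟨A₂, -, k2, k3⟩ := udiag_last hU
    (fun n => (Finset.range n).powerset ×ˢ (Finset.range n).powerset ×ˢ
      (Finset.range n).powerset) (fun i d => R i.1 i.2.1 i.2.2 d)
  obtain ⟨C, l1, l2, l3, l4⟩ := udiag_common hU h2 k2
  refine ⟨C, l1, l2, fun b hb c hc d hd e he hbc hcd hde => ?_⟩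
  exact k3 d (l4 hd) e (l4 he) hde (b, c, d)
    (Finset.mem_product.2 ⟨udiag_bef (hbc.trans' hcd (fu_ne l1 hc)) (fu_ne l1 hd),
      Finset.mem_product.2 ⟨udiag_bef hcd (fu_ne l1 hd), udiag_self d⟩⟩)
    (h3 b (l3 hb) c (l3 hc) d (l3 hd) hbc hcd)

/-- two sequences in `U` have a common refinement in `U` -/
theorem common {A B : ℕ → Finset ℕ} (hA : fu A ∈ U) (hB : fu B ∈ U) :
    ∃ C, BlkF C ∧ fu C ∈ U ∧ fu C ⊆ fu A ∧ fu C ⊆ fu B := by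
  exact udiag_common hU hA hB

end Pool.Agent.SOU
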