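import Pool.Agent.Lib_MP_a0d45a_lc.Forc
import Pool.Agent.Lib_MP_a0d45a_lc.UDiag

/-!
# Piece HHD: the dichotomy
-/

set_option autoImplicit false

namespace Pool.Agent.SOU

variable {P : Type} [PartialOrder P] {U : Ultrafilter (Finset ℕ)}

/-- a descending sequence which decides the sets `D ∈ 𝒟` -/
def GenSeq (𝒟 : Set (Set P)) (g : ℕ → P) : Prop :=
  Antitone g ∧ ∀ D ∈ 𝒟, ∃ n, g n ∈ D ∨ ∀ r ≤ g n, r ∉ D

/-- the value of a name along a sequence -/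
def Val (Z : Finset ℕ → Set P) (g : ℕ → P) : Set (Finset ℕ) := {b | ∃ n, g n ∈ Z b}

/-- enumerate `𝒟` -/
theorem exists_genSeq {𝒟 : Set (Set P)} (h : 𝒟.Countable) (p : P) :
    ∃ g : ℕ → P, g 0 ≤ p ∧ GenSeq 𝒟 g := by
  classical
  rcases 𝒟.eq_empty_or_nonempty with h0 | h0
  · refine ⟨fun _ => p, le_refl _, fun _ _ _ => le_refl _, ?_⟩
    intro D hD
    rw [h0] at hD
    exact absurd hD (Set.notMem_empty D)
  · obtain ⟨E, hE⟩ := h.exists_eq_range h0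
    have hst : ∀ (n : ℕ) (q : P), ∃ r ≤ q, r ∈ E n ∨ ∀ t ≤ r, t ∉ E n := by
      intro n q
      by_cases hq : ∃ r ≤ q, r ∈ E n
      · obtain ⟨r, hr, hr2⟩ := hq
        exact ⟨r, hr, Or.inl hr2⟩
      · push Not at hq
        exact ⟨q, le_refl _, Or.inr hq⟩
    choose f hf1 hf2 using hst
    let g : ℕ → P := fun n => Nat.rec p (fun k q => f k q) n
    have hg : ∀ n, g (n + 1) = f n (g n) := fun n => rfl
    refine ⟨g, le_refl _, ?_, ?_⟩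
    · apply antitone_nat_of_succ_le
      intro n
      rw [hg]
      exact hf1 _ _
    · intro D hD
      rw [hE] at hD
      obtain ⟨n, rfl⟩ := hD
      refine ⟨n + 1, ?_⟩
      rw [hg]
      exact hf2 _ _

/-- along every sufficiently generic sequence through `q` no infinite block sequence in `⟨A⟩` is
homogeneous together with `C` -/
def Kill (U : Ultrafilter (Finset ℕ)) (Z : Finset ℕ → Set P) (q : P)
    (C : Finset (Finset ℕ)) : Prop :=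
  ∃ A, BlkF A ∧ fu A ∈ U ∧ ∃ 𝒟 : Set (Set P), 𝒟.Countable ∧
    ∀ g, GenSeq 𝒟 g → (∃ n, g n ≤ q) → ¬ ∃ A', BlkF A' ∧ fu A' ⊆ fu A ∧
      (∀ τ ∈ C, τ ∈ Val Z g) ∧ ∀ x ∈ fu A', x ∈ Val Z g ∧ ∀ τ ∈ C, τ ∪ x ∈ Val Z g

/-- PROOF by induction on `Fail`. Case `out`: take `p' = q`, any `⟨A⟩ ∈ U` and `𝒟 = ∅`: if `g n ≤ q` then `τ ∉ Val Z g`
because `g m ∈ Z τ` implies (for `k = max m n`) `g k ∈ Z τ` and `g k ≤ q`. Case `step`: by the induction hypothesis for all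
`b ∈ S` and `r ≤ q` there is `r' ≤ r` with `Kill U Z r' (extC C b)`. By `FF` (the finite sets `b` are countable; for
`b ∉ S` take `D = univ`) there are `q' ≤ q` and for each `b ∈ S` a finite set `Φ b` of conditions with
`Kill U Z · (extC C b)`, predense below `q'`; let `A_{b,φ}`, `𝒟_{b,φ}` be witnesses. By `diag_sets` (with
`S b = ⋂_{φ ∈ Φ b} ⟨A_{b,φ}⟩` for `b ∈ S`) there is `⟨A⟩ ∈ U`, `⟨A⟩ ⊆ S`, with `c ∈ ⟨A_{b,φ}⟩` for all `b < c` in `⟨A⟩`, `φ ∈ Φ b`. Let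
`𝒟` be the union of all `𝒟_{b,φ}` and of the sets `{r | ∃ φ ∈ Φ b, r ≤ φ}`, `b ∈ S`. Suppose `g` is generic,
`g n ≤ q'`, and `A'` is as in `Kill` for `C`. Let `b = A' 0`, `A'' n = A' (n+1)`. Genericity for
`{r | ∃ φ ∈ Φ b, r ≤ φ}` and predensity give `φ ∈ Φ b` and `m` with `g m ≤ φ`. Then `A''` contradicts
`Kill` for `φ`, `extC C b = C ∪ {b} ∪ {τ ∪ b : τ ∈ C}`: `⟨A''⟩ ⊆ ⟨A_{b,φ}⟩` (all `x ∈ ⟨A''⟩` are in `⟨A⟩`, `b < x`),
`b, τ ∪ b ∈ Val`, `x, τ ∪ x, b ∪ x, τ ∪ b ∪ x ∈ Val`, because `b`, `x`, `b ∪ x ∈ ⟨A'⟩`. -/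
theorem fail_kill (hU : IsSOU U) (hP : FF P) {Z : Finset ℕ → Set P} (hZ : OpenName Z) {p : P}
    {C : Finset (Finset ℕ)} (h : Fail U Z p C) : ∃ p' ≤ p, Kill U Z p' C := by
  classical
  induction h with
  | @out p q C τ hq hτ h =>
    refine ⟨q, hq, ?_⟩
    obtain ⟨A, hA, hAU, -⟩ := hU.base Set.univ Filter.univ_mem
    refine ⟨A, hA, hAU, ∅, Set.countable_empty, ?_⟩
    rintro g ⟨hanti, -⟩ ⟨n, hn⟩ ⟨A', -, -, hC, -⟩
    obtain ⟨m, hm⟩ := hC τ hτ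
    have h1 : g (max m n) ∈ Z τ := hZ τ _ hm _ (hanti (le_max_left m n))
    exact h _ (le_trans (hanti (le_max_right m n)) hn) h1
  | @step p q C hq S hS h ih =>
    obtain ⟨f, hf⟩ := exists_surjective_nat (Finset ℕ)
    obtain ⟨q', hq', hΦ⟩ := hP (fun n => {r | f n ∈ S → Kill U Z r (extC C (f n))}) q (by
      intro n r hr
      by_cases hn : f n ∈ S
      · obtain ⟨r', hr', hk⟩ := ih (f n) hn r hr
        exact ⟨r', hr', fun _ => hk⟩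
      · exact ⟨r, le_refl _, fun hh => absurd hh hn⟩)
    have hΦ2 : ∀ b : Finset ℕ, ∃ Φ : Set P, Φ.Finite ∧
        (b ∈ S → ∀ φ ∈ Φ, Kill U Z φ (extC C b)) ∧ Predense Φ q' := by
      intro b
      obtain ⟨n, rfl⟩ := hf b
      obtain ⟨Φ, h1, h2, h3⟩ := hΦ n
      exact ⟨Φ, h1, fun hb φ hφ => h2 hφ hb, h3⟩
    choose Φ hΦf hΦk hΦp using hΦ2
    have hw : ∀ (b : Finset ℕ) (φ : P), ∃ (A : ℕ → Finset ℕ) (𝒟 : Set (Set P)),
        𝒟.Countable ∧ (Kill U Z φ (extC C b) → fu A ∈ U ∧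
          ∀ g, GenSeq 𝒟 g → (∃ n, g n ≤ φ) → ¬ ∃ A', BlkF A' ∧ fu A' ⊆ fu A ∧
            (∀ τ ∈ extC C b, τ ∈ Val Z g) ∧
              ∀ x ∈ fu A', x ∈ Val Z g ∧ ∀ τ ∈ extC C b, τ ∪ x ∈ Val Z g) := by
      intro b φ
      by_cases hk : Kill U Z φ (extC C b)
      · obtain ⟨A, -, hAU, 𝒟, h𝒟, hh⟩ := hk
        exact ⟨A, 𝒟, h𝒟, fun _ => ⟨hAU, hh⟩⟩
      · exact ⟨fun _ => ∅, ∅, Set.countable_empty, fun hh => absurd hh hk⟩
    choose A₁ 𝒟₁ hc₁ hk₁ using hw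
    have hS' : ∀ b : Finset ℕ, {c | b ∈ S → ∀ φ ∈ Φ b, c ∈ fu (A₁ b φ)} ∈ U := by
      intro b
      by_cases hb : b ∈ S
      · have h1 : (⋂ φ ∈ Φ b, fu (A₁ b φ)) ∈ (U : Filter (Finset ℕ)) := by
          rw [Filter.biInter_mem (hΦf b)]
          intro φ hφ
          exact (hk₁ b φ (hΦk b hb φ hφ)).1
        refine Filter.mem_of_superset h1 ?_
        intro c hc _ φ hφ
        exact Set.mem_iInter₂.1 hc φ hφ
      · refine Filter.mem_of_superset Filter.univ_mem ?_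
        intro c _ hh
        exact absurd hh hb
    obtain ⟨A, hA, hAU, hAS, -, hAd⟩ := diag_sets hU S hS _ hS'
    refine ⟨q', le_trans hq' hq, A, hA, hAU,
      (⋃ b : Finset ℕ, ⋃ φ ∈ Φ b, 𝒟₁ b φ) ∪
        Set.range (fun b : Finset ℕ => {r : P | ∃ φ ∈ Φ b, r ≤ φ}), ?_, ?_⟩
    · refine Set.Countable.union ?_ (Set.countable_range _)
      refine Set.countable_iUnion fun b => ?_
      exact (hΦf b).countable.biUnion fun φ _ => hc₁ b φ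
    · rintro g ⟨hanti, hgen⟩ ⟨n, hn⟩ ⟨A', hA', hA'A, hCV, hxV⟩
      have hbA' : A' 0 ∈ fu A' := self_mem_fu A' 0
      have hbA : A' 0 ∈ fu A := hA'A hbA'
      have hbS : A' 0 ∈ S := hAS hbA
      have hex : ∃ m, ∃ φ ∈ Φ (A' 0), g m ≤ φ := by
        obtain ⟨m, hm⟩ := hgen {r : P | ∃ φ ∈ Φ (A' 0), r ≤ φ} (Or.inr ⟨A' 0, rfl⟩)
        rcases hm with hm | hm
        · exact ⟨m, hm⟩
        · exfalso
          obtain ⟨φ, hφ, s, hs1, hs2⟩ := hΦp (A' 0) (g (max m n))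
            (le_trans (hanti (le_max_right m n)) hn)
          exact hm s (le_trans hs1 (hanti (le_max_left m n))) ⟨φ, hφ, hs2⟩
      obtain ⟨m, φ, hφ, hmφ⟩ := hex
      have hkk := (hk₁ (A' 0) φ (hΦk _ hbS φ hφ)).2 g
        ⟨hanti, fun D hD => hgen D (Or.inl (Set.mem_iUnion.2 ⟨A' 0, Set.mem_iUnion₂.2 ⟨φ, hφ, hD⟩⟩))⟩
        ⟨m, hmφ⟩
      apply hkk
      have htail : ∀ x ∈ fu (fun n => A' (n + 1)), x ∈ fu A' ∧ Bef (A' 0) x := by
        intro x hx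
        have := (mem_fu_tail hA' 1).1 hx
        exact ⟨this.1, this.2 0 (by norm_num)⟩
      refine ⟨fun n => A' (n + 1), hA'.tail 1, ?_, ?_, ?_⟩
      · intro x hx
        obtain ⟨hx1, hx2⟩ := htail x hx
        refine hAd (A' 0) hbA x (hA'A hx1) hx2 (A' 0) ?_ hbS φ hφ
        intro i hi
        exact Finset.mem_range.2 (Nat.lt_succ_of_le (le_mx hi))
      · intro τ hτ
        unfold extC at hτ
        rw [Finset.mem_union, Finset.mem_union, Finset.mem_singleton, Finset.mem_image] at hτ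
        rcases hτ with (hτ | hτ) | ⟨σ, hσ, rfl⟩
        · exact hCV τ hτ
        · rw [hτ]
          exact (hxV _ hbA').1
        · exact (hxV _ hbA').2 σ hσ
      · intro x hx
        obtain ⟨hx1, hx2⟩ := htail x hx
        refine ⟨(hxV x hx1).1, ?_⟩
        intro τ hτ
        unfold extC at hτ
        rw [Finset.mem_union, Finset.mem_union, Finset.mem_singleton, Finset.mem_image] at hτ
        rcases hτ with (hτ | hτ) | ⟨σ, hσ, rfl⟩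
        · exact (hxV x hx1).2 τ hτ
        · rw [hτ]
          exact (hxV _ (fu_union hbA' hx1)).1
        · rw [Finset.union_assoc]
          exact (hxV _ (fu_union hbA' hx1)).2 σ hσ

/-- PROOF. Otherwise `Fail U Z r ∅` and `Fail U (compl' Z) r ∅` for all `r ≤ p`. By `fail_kill` there is `p₁ ≤ p` with
`Kill U Z p₁ ∅` (`A₁`, `𝒟₁`) and `p₂ ≤ p₁` with `Kill U (compl' Z) p₂ ∅` (`A₂`, `𝒟₂`). Take `g` generic for `𝒟₁`, `𝒟₂`
and the sets `Z b ∪ compl' Z b`, `g 0 ≤ p₂` (`exists_genSeq`). Let `X = Val Z g`. If `b ∉ X` then `b ∈ Val (compl' Z) g`, by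
genericity (`Z b ∪ compl' Z b` is dense). If `X ∈ U` there is `⟨A'⟩ ∈ U`, `⟨A'⟩ ⊆ ⟨A₁⟩ ∩ X`, a contradiction to
`Kill U Z p₁ ∅`; otherwise `Xᶜ ∈ U` and similarly. -/
theorem dichotomy (hU : IsSOU U) (hP : FF P) {Z : Finset ℕ → Set P} (hZ : OpenName Z) (p : P) :
    ∃ r ≤ p, HH U Z r ∅ ∨ HH U (compl' Z) r ∅ := by
  classical
  by_contra hcon
  push Not at hcon
  have hf1 : ∀ r ≤ p, Fail U Z r ∅ := fun r hr => not_not.1 (hcon r hr).1
  have hf2 : ∀ r ≤ p, Fail U (compl' Z) r ∅ := fun r hr => not_not.1 (hcon r hr).2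
  obtain ⟨p₁, hp₁, A₁, -, hA₁U, 𝒟₁, hc₁, hk₁⟩ := fail_kill hU hP hZ (hf1 p le_rfl)
  obtain ⟨p₂, hp₂, A₂, -, hA₂U, 𝒟₂, hc₂, hk₂⟩ :=
    fail_kill hU hP openName_compl (hf2 p₁ hp₁)
  obtain ⟨g, hg0, hanti, hgen⟩ := exists_genSeq
    (𝒟 := 𝒟₁ ∪ 𝒟₂ ∪ Set.range (fun b : Finset ℕ => Z b ∪ compl' Z b))
    ((hc₁.union hc₂).union (Set.countable_range _)) p₂
  have hcase : ∀ b : Finset ℕ, b ∈ Val Z g ∨ b ∈ Val (compl' Z) g := by
    intro b
    obtain ⟨n, hn⟩ := hgen (Z b ∪ compl' Z b) (Or.inr ⟨b, rfl⟩)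
    rcases hn with (hn | hn) | hn
    · exact Or.inl ⟨n, hn⟩
    · exact Or.inr ⟨n, hn⟩
    · exfalso
      refine hn (g n) le_rfl (Or.inr ?_)
      intro t ht htZ
      exact hn t ht (Or.inl htZ)
  by_cases hX : Val Z g ∈ (U : Filter (Finset ℕ))
  · obtain ⟨A', hA', -, hsub⟩ := hU.base (Val Z g ∩ fu A₁) (Filter.inter_mem hX hA₁U)
    refine hk₁ g ⟨hanti, fun D hD => hgen D (Or.inl (Or.inl hD))⟩
      ⟨0, le_trans hg0 hp₂⟩ ⟨A', hA', fun x hx => (hsub hx).2, ?_, ?_⟩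
    · intro τ hτ
      exact absurd hτ (Finset.notMem_empty τ)
    · intro x hx
      exact ⟨(hsub hx).1, fun τ hτ => absurd hτ (Finset.notMem_empty τ)⟩
  · have hX' : (Val Z g)ᶜ ∈ (U : Filter (Finset ℕ)) := Ultrafilter.compl_mem_iff_notMem.2 hX
    obtain ⟨A', hA', -, hsub⟩ := hU.base ((Val Z g)ᶜ ∩ fu A₂) (Filter.inter_mem hX' hA₂U)
    refine hk₂ g ⟨hanti, fun D hD => hgen D (Or.inl (Or.inr hD))⟩
      ⟨0, hg0⟩ ⟨A', hA', fun x hx => (hsub hx).2, ?_, ?_⟩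
    · intro τ hτ
      exact absurd hτ (Finset.notMem_empty τ)
    · intro x hx
      refine ⟨?_, fun τ hτ => absurd hτ (Finset.notMem_empty τ)⟩
      rcases hcase x with h1 | h1
      · exact absurd h1 (hsub hx).1
      · exact h1

end Pool.Agent.SOU
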