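import Pool.Agent.Lib_MP_a0d45a_lc.FinU

/-!
# Piece UTAIL: first facts on stable ordered-union ultrafilters
-/

set_option autoImplicit false

namespace Pool.Agent.SOU

variable {U : Ultrafilter (Finset ℕ)} (hU : IsSOU U)
include hU

/-- By `base` with `S = univ`. -/
theorem sou_ne : ∀ᶠ b in (U : Filter (Finset ℕ)), b.Nonempty := by
  obtain ⟨A, hA, hfu, _⟩ := hU.base Set.univ Filter.univ_mem
  filter_upwards [hfu] with b hb
  exact fu_ne hA hb

/-- If not, the complement is in `U`, hence contains some `⟨A⟩` by `base`; but all elements of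
`A m` are `≥ m` (`BlkF.ge`). -/
theorem sou_tail (m : ℕ) : ∀ᶠ b in (U : Filter (Finset ℕ)), Lo m b := by
  by_contra hcon
  have h1 : ∀ᶠ b in (U : Filter (Finset ℕ)), ¬ Lo m b := Ultrafilter.eventually_not.2 hcon
  obtain ⟨A, hA, _, hsub⟩ := hU.base {b | ¬ Lo m b} h1
  exact hsub (self_mem_fu A m) (hA.ge m)

/-- from `sou_tail` with `m = mx b + 1` -/
theorem sou_bef (b : Finset ℕ) : ∀ᶠ c in (U : Filter (Finset ℕ)), Bef b c := by
  filter_upwards [sou_tail hU (mx b + 1)] with c hc i hi j hj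
  have h1 := hc j hj
  have h2 := le_mx hi
  omega

/-- For `S ∈ U` take `⟨A⟩ ⊆ S` in `U`: for `b, c ∈ ⟨A⟩` also `b ∪ c ∈ ⟨A⟩`. Conversely apply this
to the complement of `S`. -/
theorem sou_idem (S : Set (Finset ℕ)) :
    (∀ᶠ b in (U : Filter (Finset ℕ)), b ∈ S) ↔
      ∀ᶠ b in (U : Filter (Finset ℕ)), ∀ᶠ c in (U : Filter (Finset ℕ)), b ∪ c ∈ S := by
  have key : ∀ T : Set (Finset ℕ), (∀ᶠ b in (U : Filter (Finset ℕ)), b ∈ T) →
      ∀ᶠ b in (U : Filter (Finset ℕ)), ∀ᶠ c in (U : Filter (Finset ℕ)), b ∪ c ∈ T := by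
    intro T hT
    obtain ⟨A, _, hfu, hsub⟩ := hU.base T hT
    filter_upwards [hfu] with b hb
    filter_upwards [hfu] with c hc
    exact hsub (fu_union hb hc)
  refine ⟨key S, fun h => ?_⟩
  by_contra hcon
  have h1 : ∀ᶠ b in (U : Filter (Finset ℕ)), b ∈ Sᶜ := Ultrafilter.eventually_not.2 hcon
  obtain ⟨b, hb1, hb2⟩ := (h.and (key _ h1)).exists
  obtain ⟨c, hc1, hc2⟩ := (hb1.and hb2).exists
  exact hc2 hc1

/-- a form for predicates -/
theorem sou_idem' (p : Finset ℕ → Prop) :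
    (∀ᶠ b in (U : Filter (Finset ℕ)), p b) ↔
      ∀ᶠ b in (U : Filter (Finset ℕ)), ∀ᶠ c in (U : Filter (Finset ℕ)), p (b ∪ c) := by
  exact sou_idem hU {b | p b}

/-- `base` in the `∀ᶠ` form, inside a given `⟨B⟩` -/
theorem sou_base {p : Finset ℕ → Prop} (hp : ∀ᶠ b in (U : Filter (Finset ℕ)), p b) :
    ∃ A, BlkF A ∧ fu A ∈ U ∧ ∀ b ∈ fu A, p b := by
  obtain ⟨A, hA, hfu, hsub⟩ := hU.base {b | p b} hp
  exact ⟨A, hA, hfu, fun b hb => hsub hb⟩

theorem sou_base' {B : ℕ → Finset ℕ} (hB : fu B ∈ U) {p : Finset ℕ → Prop}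
    (hp : ∀ᶠ b in (U : Filter (Finset ℕ)), p b) :
    ∃ A, BlkF A ∧ fu A ∈ U ∧ fu A ⊆ fu B ∧ ∀ b ∈ fu A, p b := by
  have hB' : ∀ᶠ b in (U : Filter (Finset ℕ)), b ∈ fu B := hB
  obtain ⟨A, hA, hfu, h⟩ := sou_base hU (hB'.and hp)
  exact ⟨A, hA, hfu, fun b hb => (h b hb).1, fun b hb => (h b hb).2⟩

/-- unions of at least two consecutive pieces: `{b ∪ c : b < c in ⟨A⟩} ∈ U` by `sou_idem` -/
theorem sou_two {A : ℕ → Finset ℕ} (hA : fu A ∈ U) :
    ∀ᶠ x in (U : Filter (Finset ℕ)), ∃ b ∈ fu A, ∃ c ∈ fu A, Bef b c ∧ x = b ∪ c := by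
  have hA' : ∀ᶠ b in (U : Filter (Finset ℕ)), b ∈ fu A := hA
  rw [sou_idem' hU]
  filter_upwards [hA'] with b hb
  filter_upwards [hA', sou_bef hU b] with c hc hbc
  exact ⟨b, hb, c, hc, hbc, rfl⟩

theorem sou_three {A : ℕ → Finset ℕ} (hA : fu A ∈ U) :
    ∀ᶠ x in (U : Filter (Finset ℕ)), ∃ b ∈ fu A, ∃ c ∈ fu A, ∃ d ∈ fu A, Bef b c ∧ Bef c d ∧
      x = b ∪ c ∪ d := by
  have hA' : ∀ᶠ b in (U : Filter (Finset ℕ)), b ∈ fu A := hA
  rw [sou_idem' hU]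
  filter_upwards [sou_two hU hA] with x hx
  obtain ⟨b, hb, c, hc, hbc, rfl⟩ := hx
  filter_upwards [hA', sou_bef hU c] with d hd hcd
  exact ⟨b, hb, c, hc, d, hd, hbc, hcd, rfl⟩

/-- tails of `A` -/
theorem sou_fu_tail {A : ℕ → Finset ℕ} (hA : BlkF A) (h : fu A ∈ U) (k : ℕ) :
    fu (fun n => A (n + k)) ∈ U := by
  have h' : ∀ᶠ b in (U : Filter (Finset ℕ)), b ∈ fu A := h
  have hgoal : ∀ᶠ b in (U : Filter (Finset ℕ)), b ∈ fu (fun n => A (n + k)) := by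
    have hall : ∀ᶠ b in (U : Filter (Finset ℕ)), ∀ n ∈ Finset.range k, Bef (A n) b :=
      (Filter.eventually_all_finset (Finset.range k)).2 fun n _ => sou_bef hU (A n)
    filter_upwards [h', hall] with b hb hb'
    exact (mem_fu_tail hA k).2 ⟨hb, fun n hn => hb' n (Finset.mem_range.2 hn)⟩
  exact hgoal

/-- `{b}` is not in `U`; more generally `mn` and `mx` are not constant on sets of `U` -/
theorem sou_mn_ne (m : ℕ) : ∀ᶠ b in (U : Filter (Finset ℕ)), mn b ≠ m := by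
  filter_upwards [sou_tail hU (m + 1), sou_ne hU] with b hb hne h
  have := hb _ (mn_mem hne)
  omega

theorem sou_mx_ne (m : ℕ) : ∀ᶠ b in (U : Filter (Finset ℕ)), mx b ≠ m := by
  filter_upwards [sou_tail hU (m + 1), sou_ne hU] with b hb hne h
  have := hb _ (mx_mem hne)
  omega

end Pool.Agent.SOU
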