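import Pool.Agent.Lib_MP_a0d45a_lc.BF
import Pool.Agent.Lib_MP_a0d45a_lc.Hin
import Pool.Agent.Lib_MP_a0d45a_lc.UTail

/-!
# Piece USF: the support ultrafilter of a `(p⁺)`-filter
-/

set_option autoImplicit false

namespace Pool.Agent.SOU

variable {K : Type} [Field K] {F : Filter (ℕ →₀ K)}

/-- two members `⟨X⟩, ⟨Y⟩` of the filter contain a third one -/
theorem usf_common (hF : IsBlockFilter F) {X Y : ℕ → ℕ →₀ K} (hX : bs X ∈ F) (hY : bs Y ∈ F) :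
    ∃ Y₁, Blk Y₁ ∧ bs Y₁ ∈ F ∧ bs Y₁ ⊆ bs X ∧ bs Y₁ ⊆ bs Y := by
  obtain ⟨Y₁, h1, h2, h3⟩ := hF.base _ (Filter.inter_mem hX hY)
  exact ⟨Y₁, h1, h2, fun v hv => (h3 hv).1, fun v hv => (h3 hv).2⟩

/-- lifting a block sequence of supports to vectors -/
theorem usf_lift {Y : ℕ → ℕ →₀ K} (hY : Blk Y) {B : ℕ → Finset ℕ} (hB : BlkF B)
    (h : fu B ⊆ fu (sp Y)) :
    ∃ Z : ℕ → ℕ →₀ K, Blk Z ∧ bs Z ⊆ bs Y ∧ ∀ v ∈ bs Z, v.support ∈ fu B := by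
  have h1 : ∀ n, ∃ v ∈ bs Y, v.support = B n := fun n => exists_supp_eq hY (h (self_mem_fu B n))
  choose Z hZ hs using h1
  have hsp : sp Z = B := funext hs
  have hblk : Blk Z := blk_of_blkF (by rw [hsp]; exact hB)
  refine ⟨Z, hblk, bs_mono hZ, fun v hv => ?_⟩
  have h2 := supp_mem_fu hblk hv
  rwa [hsp] at h2

/-- PROOF. Let `D = {v | v.support ∈ Z}`, suppose `D ∉ F`; by `full_blk'` there is `⟨X⟩ ∈ F` that contains no
`⟨Z'⟩ ⊆ D`. We show `{v | v.support ∈ Zᶜ} ∈ F` by `full_blk`: given `⟨Y⟩ ∈ F` take `⟨Y₁⟩ ∈ F`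
inside `⟨X⟩ ∩ ⟨Y⟩`, and apply `hindman_block` to `sp Y₁` and `Z`: get `B`, and for each `n` a vector
`Z' n ∈ ⟨Y₁⟩` with support `B n` (`exists_supp_eq`); `Z'` is a block sequence, `⟨Z'⟩ ⊆ ⟨Y₁⟩`, and the
supports of the vectors of `⟨Z'⟩` are in `⟨B⟩`. If `⟨B⟩ ⊆ Z` then `⟨Z'⟩ ⊆ D`, contradiction.
So `⟨B⟩ ⊆ Zᶜ`. -/
theorem supp_ultra (hF : IsFull F) (Z : Set (Finset ℕ)) :
    (∀ᶠ v in F, v.support ∈ Z) ∨ (∀ᶠ v in F, v.support ∉ Z) := by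
  by_cases hD : {v : ℕ →₀ K | v.support ∈ Z} ∈ F
  · exact Or.inl hD
  · right
    obtain ⟨X, hX, hXF, hno⟩ := full_blk' hF hD
    have key : {v : ℕ →₀ K | v.support ∉ Z} ∈ F := by
      refine full_blk hF _ ?_
      intro Y hY hYF
      obtain ⟨Y₁, hY₁, hY₁F, hs1, hs2⟩ := usf_common hF.toIsBlockFilter hXF hYF
      obtain ⟨B, hB, hBY, hc⟩ := hindman_block hY₁.blkF Z
      obtain ⟨Z', hZ', hZY, hsupp⟩ := usf_lift hY₁ hB hBY
      rcases hc with hc | hc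
      · exact absurd (fun v hv => hc (hsupp v hv)) (hno Z' hZ' (hZY.trans hs1))
      · exact ⟨Z', hZ', hZY.trans hs2, fun v hv => hc (hsupp v hv)⟩
    exact key

/-- `Ultrafilter.ofComplNotMemIff` or `Ultrafilter.ofAtom`... from `supp_ultra` -/
theorem exists_US (hF : IsFull F) :
    ∃ U : Ultrafilter (Finset ℕ), (U : Filter (Finset ℕ)) = F.map Finsupp.support := by
  have := hF.ne
  refine ⟨Ultrafilter.ofComplNotMemIff (F.map Finsupp.support) ?_, rfl⟩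
  intro s
  constructor
  · intro h
    rcases supp_ultra hF s with h1 | h1
    · exact h1
    · exact absurd h1 h
  · intro h1 h2
    have h3 : (∅ : Set (Finset ℕ)) ∈ F.map Finsupp.support := by
      have := Filter.inter_mem h1 h2
      rwa [Set.inter_compl_self] at this
    exact Filter.empty_notMem _ h3

/-- PROOF. `base`: for `S ∈ U` there is `⟨X⟩ ∈ F` with `v.support ∈ S` for `v ∈ ⟨X⟩`; take `A = sp X`:
`⟨A⟩ ⊆ S` (`exists_supp_eq`), `⟨A⟩ ∈ U` (`supp_mem_fu`). `stable`: for `⟨A n⟩ ∈ U` take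
`⟨X n⟩ ∈ F` with `v.support ∈ ⟨A n⟩` for `v ∈ ⟨X n⟩`, `Y` from `pfil`, `B = sp Y`. -/
theorem US_sou (hF : IsPPlus F) {U : Ultrafilter (Finset ℕ)}
    (hU : (U : Filter (Finset ℕ)) = F.map Finsupp.support) : IsSOU U := by
  have hmem : ∀ S : Set (Finset ℕ), S ∈ U ↔ ∀ᶠ v in F, Finsupp.support v ∈ S := by
    intro S
    rw [← Ultrafilter.mem_coe, hU]
    exact Iff.rfl
  have hbase : ∀ S : Set (Finset ℕ), S ∈ U → ∃ X : ℕ → ℕ →₀ K, Blk X ∧ bs X ∈ F ∧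
      ∀ v ∈ bs X, v.support ∈ S := by
    intro S hS
    obtain ⟨X, hX, hXF, hsub⟩ := hF.base _ ((hmem S).1 hS)
    exact ⟨X, hX, hXF, fun v hv => hsub hv⟩
  have hfu : ∀ X : ℕ → ℕ →₀ K, Blk X → bs X ∈ F → fu (sp X) ∈ U := by
    intro X hX hXF
    rw [hmem]
    exact Filter.mem_of_superset hXF (fun v hv => supp_mem_fu hX hv)
  refine ⟨?_, ?_⟩
  · intro S hS
    obtain ⟨X, hX, hXF, hs⟩ := hbase S hS
    refine ⟨sp X, hX.blkF, hfu X hX hXF, ?_⟩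
    intro b hb
    obtain ⟨v, hv, rfl⟩ := exists_supp_eq hX hb
    exact hs v hv
  · intro A hA
    have h1 : ∀ n, ∃ X : ℕ → ℕ →₀ K, Blk X ∧ bs X ∈ F ∧ ∀ v ∈ bs X, v.support ∈ fu (A n) :=
      fun n => hbase _ (hA n).2
    choose X hX hXF hs using h1
    obtain ⟨Y, hY, hYF, hk⟩ := hF.pfil X (fun n => ⟨hX n, hXF n⟩)
    refine ⟨sp Y, hY.blkF, hfu Y hY hYF, ?_⟩
    intro n
    obtain ⟨k, hk⟩ := hk n
    refine ⟨k, ?_⟩
    intro b hb hlo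
    obtain ⟨v, hv, rfl⟩ := exists_supp_eq hY hb
    exact hs n v (hk v hv hlo)

end Pool.Agent.SOU
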