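import Pool.Agent.Lib_MP_a0d45a_lc.GFgen
import Pool.Agent.Lib_MP_a0d45a_lc.Forc
import Pool.Agent.Lib_MP_a0d45a_lc.USF

/-!
# Piece PROP: `Cd F` is proper and `ω^ω`-bounding
-/

set_option autoImplicit false

namespace Pool.Agent.SOU

variable {K : Type} [Field K] [DecidableEq K] {F : Filter (ℕ →₀ K)}

/-- PROOF. `Node` is countable; the operations are `p ↦ p.at' s`, `s ∈ Node`. Let `𝒮`, `D` be as in the
definition, `p ∈ 𝒮`. Take a node `s₀ ∈ p.T`, `n₀ = s₀.1`; `p' = p.at' s₀ ∈ 𝒮`. Let `U` be the support ultrafilter of `F`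
(`exists_US`, `US_sou`). Apply `gfgen` with `ι = ℕ`, `nx k b = k + 1` and `V k T n` the conjunction of
(i) for all `s ∈ T.T` with `s.1 = n`: `T.at' s ∈ 𝒮`, and
(ii) `k = 0` or there is a finite `Φ ⊆ 𝒮 ∩ D (k-1)` which is predense below `T`.
`V 0 p' n₀` holds because `p'.at' s₀ = p'`. Step: let `V k T n`. For each `s ∈ T.T` of level `n` let `P_s = T.at' s ∈ 𝒮`.
Let `B = univ` and let `S` be the set of the `y ≠ 0` with `Lo n (supp y)` such that for all these `s` (finitely many), `y` is as in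
`P_s.act s`. Given `y ∈ S`, for each `s` and each `π ⊆ TT n y` choose `t ∈ P_s.T` with `Ext s t`, `Pat n y π t`, then
`q_{s,π} ∈ 𝒮 ∩ D k` with `q_{s,π} ≤ P_s.at' t` (which is in `𝒮`). Let `T'` be the union of the `q_{s,π}`, `N > n` larger
than all elements of `supp y` and all levels `t.1`. As in `gf_step`, a node `u ∈ T'.T` of level `N` is in
exactly one `q_{s,π}`, and `T'.at' u = q_{s,π}.at' u ∈ 𝒮`. The set of the `q_{s,π}` is predense below `T'`:
`r ≤ T'` has a node `u` of level `N`, in some `q_{s,π}`, and `r.at' u ≤ r`, `r.at' u ≤ T'.at' u ≤ q_{s,π}`.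
Patterns as in `gf_step`. The `R` from `gfgen` satisfies `R ≤ T (k+1)` for all `k`. -/
theorem properFF (hK : ∃ a : K, a ≠ 0 ∧ a ≠ 1) (hF : IsPPlus F) : ProperFF (Cd F) := by
  classical
  have hB : IsBlockFilter F := hF.toIsFull.toIsBlockFilter
  obtain ⟨e, he⟩ := exists_surjective_nat Node
  refine ⟨fun k p => p.at' (e k), ?_⟩
  intro 𝒮 _ hcl D hD p hp
  have hat : ∀ p ∈ 𝒮, ∀ s : Node, p.at' s ∈ 𝒮 := by
    intro p hp s
    obtain ⟨k, rfl⟩ := he s
    exact hcl k p hp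
  obtain ⟨U, hU⟩ := exists_US hF.toIsFull
  have hUs := US_sou hF hU
  let V : ℕ → Cd F → ℕ → Prop := fun k T n => (∀ s ∈ T.T, s.1 = n → T.at' s ∈ 𝒮) ∧
    (k = 0 ∨ ∃ Φ : Set (Cd F), Φ.Finite ∧ Φ ⊆ 𝒮 ∧ Φ ⊆ D (k - 1) ∧ Predense Φ T)
  have step : ∀ k T n, V k T n → ∃ B ∈ U, ∃ S ∈ F, ∀ b ∈ B, ∀ y ∈ S, ∃ T' ≤ T, ∃ N, n < N ∧
      Hi N y.support ∧ V (k + 1) T' N ∧ ∀ s ∈ T.T, s.1 = n → ∀ π : Set Typ,
        ∃ t ∈ T'.T, t.1 = N ∧ Ext s t ∧ Pat n y π t := by
    intro k T n hV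
    refine ⟨Set.univ, Filter.univ_mem, {y | ∀ s ∈ {t ∈ T.T | t.1 = n}, ∀ π : Set Typ,
      ∃ t ∈ (T.at' s).T, Ext s t ∧ Pat n y π t}, ?_, ?_⟩
    · have hfin : {t ∈ T.T | t.1 = n}.Finite := T.level_finite n
      change ∀ᶠ y in F, ∀ s ∈ {t ∈ T.T | t.1 = n}, ∀ π : Set Typ,
        ∃ t ∈ (T.at' s).T, Ext s t ∧ Pat n y π t
      rw [Filter.eventually_all_finite hfin]
      intro s hs
      have hmem : s ∈ (T.at' s).T := (T.stem_at hB hs.1).1
      have h := (T.at' s).act s hmem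
      rw [hs.2] at h
      exact h
    · intro b _ y hy
      have key : ∀ i : {x : Node × Set Typ // (x.1 ∈ T.T ∧ x.1.1 = n) ∧ x.2 ⊆ TT n y},
          ∃ (t : Node) (q : Cd F), t ∈ (T.at' i.1.1).T ∧ Ext i.1.1 t ∧ Pat n y i.1.2 t ∧
            q ∈ 𝒮 ∧ q ≤ (T.at' i.1.1).at' t ∧ q ∈ D k := by
        intro i
        obtain ⟨t, ht, hst, hpt⟩ := hy i.1.1 i.2.1 i.1.2
        obtain ⟨q, hqS, hq, hqD⟩ := hD k _ (hat _ (hV.1 i.1.1 i.2.1.1 i.2.1.2) t)
        exact ⟨t, q, ht, hst, hpt, hqS, hq, hqD⟩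
      choose tt q h1 h2 h3 h4 h5 h6 using key
      have hfin : Finite {x : Node × Set Typ // (x.1 ∈ T.T ∧ x.1.1 = n) ∧ x.2 ⊆ TT n y} := by
        have hf1 : {t ∈ T.T | t.1 = n}.Finite := T.level_finite n
        have hf2 : {π : Set Typ | π ⊆ TT n y}.Finite := (TT_finite n y).finite_subsets
        exact ((hf1.prod hf2).subset (fun x hx => ⟨hx.1, hx.2⟩) :
          {x : Node × Set Typ | (x.1 ∈ T.T ∧ x.1.1 = n) ∧ x.2 ⊆ TT n y}.Finite).to_subtype
      obtain ⟨M, hM⟩ := (Set.finite_range (fun i => (tt i).1)).bddAbove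
      have hM' : ∀ i, (tt i).1 ≤ M := fun i => hM ⟨i, rfl⟩
      obtain ⟨s₁, hs₁, hs₁n⟩ := T.exists_level hB n
      obtain ⟨T', hT'⟩ := Cd.exists_union q ⟨(s₁, ∅), ⟨hs₁, hs₁n⟩, Set.empty_subset _⟩
      have hmx : ∃ L : ℕ, ∀ j ∈ y.support, j ≤ L := by
        obtain ⟨L, hL⟩ := (y.support : Set ℕ).toFinite.bddAbove
        exact ⟨L, fun j hj => hL hj⟩
      obtain ⟨L, hL⟩ := hmx
      have hnN : n < M + n + L + 1 := by omega
      have hext : ∀ i, ∀ u ∈ (q i).T, u.1 = M + n + L + 1 →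
          Ext i.1.1 u ∧ Pat n y i.1.2 u := by
        intro i u hu huN
        have hu1 : u ∈ ((T.at' i.1.1).at' (tt i)).T := Cd.le_iff.1 (h5 i) hu
        have hst := (Cd.stem_at (T.at' i.1.1) hB (h1 i)).2 u hu1
        have hEx : Ext (tt i) u := by
          rcases hst with h | h
          · exact h
          · exfalso
            have := h.1
            have := hM' i
            omega
        refine ⟨(h2 i).trans hEx, (h3 i).ext ?_ hEx⟩
        have := (h2 i).1
        rw [i.2.1.2] at this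
        exact this
      have huniq : ∀ i j, ∀ u : Node, u ∈ (q i).T → u ∈ (q j).T → u.1 = M + n + L + 1 → i = j := by
        intro i j u hi hj huN
        obtain ⟨hi1, hi2⟩ := hext i u hi huN
        obtain ⟨hj1, hj2⟩ := hext j u hj huN
        apply Subtype.ext
        apply Prod.ext
        · rw [hi1.cut, hj1.cut, i.2.1.2, j.2.1.2]
        · ext ϑ
          constructor
          · intro hϑ
            have hT := i.2.2 hϑ
            exact (hj2.2 ϑ hT).1 ((hi2.2 ϑ hT).2 hϑ)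
          · intro hϑ
            have hT := j.2.2 hϑ
            exact (hi2.2 ϑ hT).1 ((hj2.2 ϑ hT).2 hϑ)
      have hdown : ∀ i, ∀ u ∈ (q i).T, ∀ w : Node, Ext w u → w ∈ (q i).T := by
        intro i u hu w hw
        have := (q i).down u hu w.1 hw.1
        rw [hw.2] at this
        exact this
      have hatu : ∀ i, ∀ u ∈ (q i).T, u.1 = M + n + L + 1 → T'.at' u = (q i).at' u := by
        intro i u hu huN
        have huT' : u ∈ T'.T := by
          rw [hT']
          exact Set.mem_iUnion.2 ⟨i, hu⟩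
        apply Cd.ext
        rw [T'.at_T hB huT', (q i).at_T hB hu]
        ext w
        constructor
        · rintro ⟨hw, hc⟩
          rw [hT'] at hw
          obtain ⟨j, hj⟩ := Set.mem_iUnion.1 hw
          refine ⟨?_, hc⟩
          rcases hc with hc | hc
          · have huj : u ∈ (q j).T := hdown j w hj u hc
            rw [huniq i j u hu huj huN]
            exact hj
          · exact hdown i u hu w hc
        · rintro ⟨hw, hc⟩
          refine ⟨?_, hc⟩
          rw [hT']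
          exact Set.mem_iUnion.2 ⟨i, hw⟩
      refine ⟨T', ?_, M + n + L + 1, hnN, ?_, ⟨?_, Or.inr ⟨Set.range q, Set.finite_range q,
        ?_, ?_, ?_⟩⟩, ?_⟩
      · rw [Cd.le_iff, hT']
        refine Set.iUnion_subset fun i => ?_
        exact Cd.le_iff.1 (((h5 i).trans (Cd.at_le _ _)).trans (Cd.at_le _ _))
      · intro j hj
        have := hL j hj
        omega
      · intro u hu huN
        rw [hT'] at hu
        obtain ⟨i, hi⟩ := Set.mem_iUnion.1 hu
        rw [hatu i u hi huN]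
        exact hat _ (h4 i) u
      · rintro _ ⟨i, rfl⟩
        exact h4 i
      · rintro _ ⟨i, rfl⟩
        simpa using h6 i
      · intro r hr
        obtain ⟨u, hu, huN⟩ := r.exists_level hB (M + n + L + 1)
        have huT' : u ∈ T'.T := Cd.le_iff.1 hr hu
        have huT'' := huT'
        rw [hT'] at huT''
        obtain ⟨i, hi⟩ := Set.mem_iUnion.1 huT''
        refine ⟨q i, ⟨i, rfl⟩, r.at' u, r.at_le u, ?_⟩
        have h7 := Cd.at_mono hB hr hu
        rw [hatu i u hi huN] at h7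
        exact h7.trans (Cd.at_le _ _)
      · intro s hs hsn π
        let i : {x : Node × Set Typ // (x.1 ∈ T.T ∧ x.1.1 = n) ∧ x.2 ⊆ TT n y} :=
          ⟨(s, π ∩ TT n y), ⟨hs, hsn⟩, Set.inter_subset_right⟩
        obtain ⟨u, hu, huN⟩ := (q i).exists_level hB (M + n + L + 1)
        obtain ⟨he1, he2⟩ := hext i u hu huN
        refine ⟨u, ?_, huN, he1, he2.1, ?_⟩
        · rw [hT']
          exact Set.mem_iUnion.2 ⟨i, hu⟩
        · intro ϑ hϑ
          rw [he2.2 ϑ hϑ]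
          exact ⟨fun h => h.1, fun h => ⟨h, hϑ⟩⟩
  obtain ⟨b, y, i, T, m, R, -, -, hi0, hT0, -, hik, -, hVk, -, hRk, -⟩ :=
    gfgen hK hUs hF V (fun k _ => k + 1) step 0 p 0
      ⟨fun s _ _ => hat p hp s, Or.inl rfl⟩
  have hi : ∀ k, i k = k := by
    intro k
    induction k with
    | zero => exact hi0
    | succ k ih => rw [hik, ih]
  refine ⟨R, hT0 ▸ hRk 0, ?_⟩
  intro n
  obtain ⟨-, h | ⟨Φ, hf, hS, hDn, hpre⟩⟩ := hVk (n + 1)
  · rw [hi] at h
    exact absurd h (Nat.succ_ne_zero n)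
  · rw [hi] at hDn
    refine ⟨Φ, hf, hS, by simpa using hDn, ?_⟩
    intro r hr
    exact hpre r (hr.trans (hRk (n + 1)))

end Pool.Agent.SOU
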