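import Pool.Agent.Lib_MP_a0d45a_lc.L2C
import Pool.Agent.Lib_MP_a0d45a_lc.GF
import Pool.Agent.Lib_MP_a0d45a_lc.HHD
import Pool.Agent.Lib_MP_a0d45a_lc.Prop

/-!
# Piece PRES: `Cd F` preserves stable ordered-union ultrafilters
-/

set_option autoImplicit false

namespace Pool.Agent.SOU

variable {K : Type} [Field K] [DecidableEq K] {F : Filter (ℕ →₀ K)} {U : Ultrafilter (Finset ℕ)}

/-- PROOF. Take a node `s₀` of `p`, `p₀ = p.at' s₀` has stem `s₀` (`Cd.HH.mono`, `Cd.Stem`). Apply `gf` to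
`ι = Finset (Finset ℕ)`, `Good C p = HH U Z p C`, `nx = extC`, with `main_step`. Get `b`, `q ≤ p₀` and `i = C`. For
`τ ∈ ⟨b⟩` there is `k` with `τ ∈ C k` (`mem_extC_iter`), and for `r ≤ q` there is `φ` with
`HH U Z φ (C k)`, so `FrIn Z τ φ`, and `s ≤ r, φ`; so there is `t ≤ s` with `t ∈ Z τ`. -/
theorem pres_of_HH (hK : ∃ a : K, a ≠ 0 ∧ a ≠ 1) (hF : IsPPlus F) (hU : IsSOU U)
    {Z : Finset ℕ → Set (Cd F)} {p : Cd F} (h : HH U Z p ∅) :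
    ∃ q ≤ p, ∃ S ∈ U, ∀ b ∈ S, FrIn Z b q := by
  have hB : IsBlockFilter F := hF.toIsFull.toIsBlockFilter
  obtain ⟨s₀, hs₀⟩ := p.ne
  have hle : p.at' s₀ ≤ p := Cd.at_le p s₀
  have hs : (p.at' s₀).Stem s₀ := Cd.stem_at p hB hs₀
  obtain ⟨b, _, hbU, q, hq, i, hi0, hi1, hk⟩ :=
    gf hK hU hF (ι := Finset (Finset ℕ)) (fun C p => HH U Z p C) extC
      (fun _ _ _ h1 h2 => h1.mono h2)
      (fun C p s hs h => main_step hK hF hU C p s hs h) ∅ (p.at' s₀) s₀ hs (h.mono hle)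
  refine ⟨q, le_trans hq hle, fu b, hbU, fun τ hτ r hr => ?_⟩
  obtain ⟨k, hτk⟩ := mem_extC_iter b i hi0 hi1 τ hτ
  obtain ⟨Φ, _, hΦ, hpre⟩ := hk k
  obtain ⟨φ, hφ, s, hsr, hsφ⟩ := hpre r hr
  obtain ⟨t, hts, htZ⟩ := (hΦ φ hφ).frIn hτk s hsφ
  exact ⟨t, le_trans hts hsr, htZ⟩

/-- by `dichotomy` (`properFF`, `ProperFF.ff`), `pres_of_HH` for `Z` or for `compl' Z`, `frIn_compl` -/
theorem pres (hK : ∃ a : K, a ≠ 0 ∧ a ≠ 1) (hF : IsPPlus F) (hU : IsSOU U)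
    {Z : Finset ℕ → Set (Cd F)} (hZ : OpenName Z) (p : Cd F) :
    ∃ q ≤ p, ∃ S ∈ U, (∀ b ∈ S, FrIn Z b q) ∨ (∀ b ∈ S, FrOut Z b q) := by
  obtain ⟨r, hr, h | h⟩ := dichotomy hU (properFF hK hF).ff hZ p
  · obtain ⟨q, hq, S, hS, hb⟩ := pres_of_HH hK hF hU h
    exact ⟨q, le_trans hq hr, S, hS, Or.inl hb⟩
  · obtain ⟨q, hq, S, hS, hb⟩ := pres_of_HH hK hF hU h
    exact ⟨q, le_trans hq hr, S, hS, Or.inr fun b hbS => (frIn_compl hZ).1 (hb b hbS)⟩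

end Pool.Agent.SOU
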