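import Pool.Agent.Lib_MP_a0d45a_lc.USF

/-!
# Piece KILLK: a criterion for the non-existence of a full block filter extending `F`

PROOF. Let `G ≤ F` be a full block filter. Let `V` be the support ultrafilter of `G`. As `G.map supp ≤ F.map supp`
and (by `hU`) `F.map supp` is an ultrafilter, they are equal: for `Z` with `∀ᶠ v in G, supp v ∈ Z` we have
`∀ᶠ v in F, supp v ∈ Z` (otherwise `∀ᶠ v in F, supp v ∉ Z`, also in `G`, and `G` is proper).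
CLAIM: every `⟨Y⟩ ∈ G` (`Y` block) is in `F`. `∀ᶠ v in G, supp v ∈ ⟨sp Y⟩`, so the same holds for `F`;
take `⟨X⟩ ∈ F` with `supp v ∈ ⟨sp Y⟩` for all `v ∈ ⟨X⟩`. If `v ∈ ⟨X⟩ ∩ ⟨Y⟩` then all entries `X j` with
`supp (X j) ⊆ supp v` are in `⟨Y⟩` (`entry_mem`). The set `⟨X⟩ ∩ ⟨Y⟩` is in `G`. Let `Z` be the set of
finite sets `b` such that all `j` with `supp (X j) ⊆ b` satisfy `X j ∈ ⟨Y⟩`. Then
`∀ᶠ v in G, supp v ∈ Z`, so `∀ᶠ v in F, supp v ∈ Z`. For `v ∈ ⟨X⟩` with `supp v ∈ Z`,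
`v ∈ ⟨Y⟩` by `mem_of_entries`. So `⟨Y⟩ ∈ F`.
By `eq_of_bs`, `G = F`. By `h2` and `full_blk` for `G = F` and `D = Wᶜ`, `Wᶜ ∈ G = F`, so there is
`⟨X⟩ ∈ F` with `⟨X⟩ ∩ W = ∅`, contradiction to `h1`.
-/

set_option autoImplicit false

namespace Pool.Agent.SOU

variable {K : Type} [Field K]

theorem killK (F : Filter (ℕ →₀ K))
    (hb : ∀ S ∈ F, ∃ X, Blk X ∧ bs X ∈ F ∧ bs X ⊆ S)
    (hU : ∀ Z : Set (Finset ℕ), (∀ᶠ v in F, v.support ∈ Z) ∨ (∀ᶠ v in F, v.support ∉ Z))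
    (W : Set (ℕ →₀ K)) (h1 : ∀ X, Blk X → bs X ∈ F → (bs X ∩ W).Nonempty)
    (h2 : ∀ X, Blk X → bs X ∈ F → ∃ Z, Blk Z ∧ bs Z ⊆ bs X ∧ bs Z ⊆ Wᶜ) :
    ¬ ∃ G : Filter (ℕ →₀ K), IsFull G ∧ G ≤ F := by
  rintro ⟨G, hG, hGF⟩
  have hGb : IsBlockFilter G := hG.toIsBlockFilter
  have hne : G.NeBot := hGb.ne
  have hsupp : ∀ Z : Set (Finset ℕ), (∀ᶠ v in G, v.support ∈ Z) → ∀ᶠ v in F, v.support ∈ Z := by
    intro Z hZ
    rcases hU Z with h | h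
    · exact h
    · exfalso
      have h3 : ∀ᶠ v in G, v.support ∉ Z := hGF h
      obtain ⟨v, hv1, hv2⟩ := (hZ.and h3).exists
      exact hv2 hv1
  have claim : ∀ Y, Blk Y → bs Y ∈ G → bs Y ∈ F := by
    intro Y hY hYG
    have e1 : ∀ᶠ v in F, v.support ∈ fu (sp Y) :=
      hsupp _ (Filter.mem_of_superset hYG (fun v hv => supp_mem_fu hY hv))
    obtain ⟨X, hX, hXF, hXs⟩ := hb _ e1
    have e2 : ∀ᶠ v in F, v.support ∈ {b : Finset ℕ | ∀ j, (X j).support ⊆ b → X j ∈ bs Y} := by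
      apply hsupp
      filter_upwards [hGF hXF, hYG] with v hvX hvY
      intro j hj
      exact entry_mem hX hY hvX hvY j hj (hXs (self_mem_bs hX j))
    filter_upwards [hXF, e2] with v hvX hvZ using mem_of_entries hX hvX hvZ
  have heq : G = F := eq_of_bs F G hGF hGb.base claim
  have hW : Wᶜ ∈ G := full_blk hG Wᶜ (fun X hX hXG => h2 X hX (claim X hX hXG))
  rw [heq] at hW
  obtain ⟨X, hX, hXF, hXW⟩ := hb _ hW
  obtain ⟨v, hv1, hv2⟩ := h1 X hX hXF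
  exact hXW hv1 hv2

end Pool.Agent.SOU
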