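import Pool.Agent.Lib_MP_a0d45a_lc.Fus1

/-!
# Piece DEM: prescribing the values at a set of types
-/

set_option autoImplicit false

namespace Pool.Agent.SOU

variable {K : Type} [Field K] [DecidableEq K] {F : Filter (ℕ →₀ K)}

/-- the node `t` has the prescribed values `ρ` at the types of `Dem` of its level -/
def SatD (Dem ρ : Set Typ) (t : Node) : Prop := ∀ ϑ ∈ Dem, ϑ ∈ TypB t.1 → (ϑ ∈ t.2 ↔ ϑ ∈ ρ)

/-- the demanded types are not of the first level -/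
theorem dem_first {T : Cd F} {m : ℕ → ℕ} {y : ℕ → ℕ →₀ K} (hT : Fused T m y) (Dem ρ : Set Typ)
    (h1 : ∀ ϑ ∈ Dem, ∃ i, ϑ ∈ TT (m i) (y i)) {s : Node} (hs : s.1 = m 0) : SatD Dem ρ s := by
  intro ϑ hϑ hB
  exfalso
  obtain ⟨i, hi⟩ := h1 ϑ hϑ
  refine TT_not_TypB (hT.blk.ne i) (hT.lo i) hi ?_
  rw [hs] at hB
  exact TypB_mono (hT.mono.monotone (Nat.zero_le i)) hB

/-- one step: extension by one level, preserving the demand -/
theorem dem_step {T : Cd F} {m : ℕ → ℕ} {y : ℕ → ℕ →₀ K} (hT : Fused T m y) (Dem ρ : Set Typ)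
    (h1 : ∀ ϑ ∈ Dem, ∃ i, ϑ ∈ TT (m i) (y i)) (π : Set Typ) (i : ℕ) {s : Node} (hs : s ∈ T.T)
    (hsi : s.1 = m i) (hS : SatD Dem ρ s) :
    ∃ t ∈ T.T, t.1 = m (i + 1) ∧ Ext s t ∧ SatD Dem ρ t ∧
      Pat (m i) (y i) {ϑ | (ϑ ∈ Dem ∧ ϑ ∈ ρ) ∨ (ϑ ∉ Dem ∧ ϑ ∈ π)} t := by
  obtain ⟨t, ht, ht1, hst, hP⟩ := hT.pat i s hs hsi {ϑ | (ϑ ∈ Dem ∧ ϑ ∈ ρ) ∨ (ϑ ∉ Dem ∧ ϑ ∈ π)}
  refine ⟨t, ht, ht1, hst, ?_, hP⟩
  intro ϑ hϑ hB
  by_cases hBi : ϑ ∈ TypB (m i)
  · have h2 : ϑ ∈ t.2 ↔ ϑ ∈ s.2 := by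
      rw [← hst.2, Finset.mem_inter, hsi]
      exact ⟨fun h => ⟨h, hBi⟩, fun h => h.1⟩
    rw [h2]
    refine hS ϑ hϑ ?_
    rw [hsi]
    exact hBi
  · obtain ⟨i', hi'⟩ := h1 ϑ hϑ
    have hle : i' ≤ i := by
      obtain ⟨e, he⟩ := hT.blk.blkF.ne i'
      have he' : e ∈ (y i').support := he
      have h3 : e ∈ ϑ.1 := (TT_hi (hT.lo i') hi').1 he'
      have h4 : e < t.1 := (mem_TypB.1 hB).1 e h3
      have h5 : m i' ≤ e := hT.lo i' e he'
      rw [ht1] at h4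
      have h6 : m i' < m (i + 1) := lt_of_le_of_lt h5 h4
      have h7 : i' < i + 1 := hT.mono.lt_iff_lt.1 h6
      omega
    have hge : i ≤ i' := by
      by_contra hcon
      push Not at hcon
      apply hBi
      have h3 : ϑ ∈ TypB (m (i' + 1)) := by
        have := TT_subset_TypB (hT.mono.monotone (Nat.le_succ i')) (hT.hi i') hi'
        exact this
      exact TypB_mono (hT.mono.monotone hcon) h3
    have hii : i' = i := le_antisymm hle hge
    subst hii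
    rw [hP.2 ϑ hi']
    constructor
    · rintro (h | h)
      · exact h.2
      · exact absurd hϑ h.1
    · intro h
      exact Or.inl ⟨hϑ, h⟩

/-- iterated steps -/
theorem dem_iter {T : Cd F} {m : ℕ → ℕ} {y : ℕ → ℕ →₀ K} (hT : Fused T m y) (Dem ρ : Set Typ)
    (h1 : ∀ ϑ ∈ Dem, ∃ i, ϑ ∈ TT (m i) (y i)) (j : ℕ) {s : Node} (hs : s ∈ T.T)
    (hsj : s.1 = m j) (hS : SatD Dem ρ s) (d : ℕ) :
    ∃ t ∈ T.T, t.1 = m (d + j) ∧ Ext s t ∧ SatD Dem ρ t := by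
  induction d with
  | zero =>
    refine ⟨s, hs, ?_, Ext.refl' (T.val s hs), hS⟩
    rw [Nat.zero_add]
    exact hsj
  | succ d ih =>
    obtain ⟨t, ht, ht1, hst, htS⟩ := ih
    obtain ⟨u, hu, hu1, htu, huS, -⟩ := dem_step hT Dem ρ h1 ∅ (d + j) ht ht1 htS
    refine ⟨u, hu, ?_, hst.trans htu, huS⟩
    rw [hu1]
    congr 1
    omega

/-- PROOF. Let `R.T` be the set of the `t ∈ T.T` that are restrictions of nodes `t' ∈ T.T` of a level `m i` with
`SatD Dem ρ t'` (then `SatD` holds for `t` as well, because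
`TypB t.1 ⊆ TypB t'.1` and `t.2 = t'.2 ∩ TypB t.1`). (a) A node `s ∈ T.T` of level `m 0` satisfies
`SatD` because no type of `Dem` is in `TypB (m 0)`: for `ϑ ∈ Dem`, `ϑ ∈ TT (m i) (y i)`
contains the support of `y i` (`TT_not_TypB`, `m 0 ≤ m i`). (b) CLAIM: let `s' ∈ T.T` have level
`m j`, `SatD s'`, `j ≤ k`, `v = w + a y k` (`a ≠ 0`) with `v` in the span of the `y i`, `i ≥ j`,
such that `TT (m j) v` is disjoint from `Dem`. Then for every `π` there is `t ∈ T.T` of level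
`m (k+1)`, `Ext s' t`, `SatD t`, with pattern `π` at `v`, level `m j`. Proof: extend `s'`
successively to nodes of the levels `m (j+1), ..., m (k+1)` in `T` (`Fused.pat`), with the following
pattern `π_i` at `y i`, level `m i`: `ϑ ∈ π_i` iff (`ϑ ∈ Dem` and `ϑ ∈ ρ`) or
(`ϑ ∉ Dem` and `ϑ ∈ π`). For each new type `ϑ ∈ Dem`, `ϑ ∈ TypB (m (i+1))`, `ϑ ∉ TypB (m i)`:
`ϑ ∈ TT (m i') (y i')` for some `i'`, and necessarily `i' = i`
(the last element of the support of `ϑ` is in `supp (y i') ⊆ [m i', m (i'+1))`), so it gets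
the right value. The types of `TT (m j) v ⊆ TT (m k) (y k)` are not in `Dem` and get
the value given by `π`. (c) `act` for `R`: given `s ∈ R.T`, restriction of `s' ∈ T.T` of level `m j`, `SatD s'`. For
`F`-many `v`: `v` is in the span of the `y i`, `i ≥ j` and `TT (m j) v` is disjoint from `Dem`
(`h2`). Apply the claim; `TT s.1 v ⊆ TT (m j) v`. -/
theorem demand (hF : IsBlockFilter F) {T : Cd F} {m : ℕ → ℕ} {y : ℕ → ℕ →₀ K}
    (hT : Fused T m y) (Dem ρ : Set Typ) (h1 : ∀ ϑ ∈ Dem, ∃ i, ϑ ∈ TT (m i) (y i))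
    (h2 : ∀ j, ∀ᶠ v in F, ∀ ϑ ∈ TT (m j) v, ϑ ∉ Dem) :
    ∃ R : Cd F, R ≤ T ∧ (∀ t ∈ R.T, SatD Dem ρ t) ∧ ∀ s ∈ T.T, s.1 = m 0 → s ∈ R.T := by
  have hact : ∀ s ∈ {t : Node | t ∈ T.T ∧ ∃ t' ∈ T.T, ∃ i, t'.1 = m i ∧ SatD Dem ρ t' ∧ Ext t t'},
      ∀ᶠ v in F, ∀ π : Set Typ,
        ∃ t ∈ {t : Node | t ∈ T.T ∧ ∃ t' ∈ T.T, ∃ i, t'.1 = m i ∧ SatD Dem ρ t' ∧ Ext t t'},
          Ext s t ∧ Pat s.1 v π t := by
    rintro s ⟨hs, s', hs', j, hs'j, hS', hss'⟩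
    have hsh : StrictMono (fun n : ℕ => n + j) := fun a b h => Nat.add_lt_add_right h j
    have hX : Blk (fun n => y (n + j)) := hT.blk.comp hsh
    have htail : ∀ᶠ v in F, v ∈ bs (fun n => y (n + j)) := bf_bs_tail hF hT.blk hT.mem j
    filter_upwards [htail, h2 j] with v hv hvD π
    obtain ⟨n, a, ha, w, hvw, hw, hB, _, _⟩ := bs_snoc hX hv
    -- `w` is below `m (n + j)`
    have hwhi : Hi (m (n + j)) w.support := by
      rcases hw with hw | hw
      · intro e he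
        rw [hw, Finsupp.support_zero] at he
        exact absurd he (Finset.notMem_empty e)
      · intro e he
        obtain ⟨i, hi, _⟩ := mem_fu_block (supp_mem_fu hX hw) he
        have hi' : e ∈ (y (i + j)).support := hi
        have hin : i < n := by
          by_contra hcon
          push Not at hcon
          rcases hcon.lt_or_eq with h3 | h3
          · obtain ⟨f, hf⟩ := hX.blkF.ne n
            have h4 : f < e := hX.blkF.bef h3 f hf e hi
            have h5 : e < f := hB e he f hf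
            omega
          · subst h3
            exact lt_irrefl _ (hB e he e hi)
        have h6 : e < m (i + j + 1) := hT.hi (i + j) e hi'
        have h7 : m (i + j + 1) ≤ m (n + j) := hT.mono.monotone (by omega)
        omega
    obtain ⟨u, hu, hu1, hs'u, huS⟩ := dem_iter hT Dem ρ h1 j hs' hs'j hS' n
    obtain ⟨t, ht, ht1, hut, htS, htP⟩ := dem_step hT Dem ρ h1 π (n + j) hu hu1 huS
    refine ⟨t, ⟨ht, t, ht, n + j + 1, ht1, htS, Ext.refl' (T.val t ht)⟩,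
      (hss'.trans hs'u).trans hut, ?_, ?_⟩
    · intro e he
      rw [hvw] at he
      have h3 := Finsupp.support_add he
      rw [Finset.mem_union] at h3
      rw [ht1]
      rcases h3 with h3 | h3
      · have h4 := hwhi e h3
        have h5 : m (n + j) < m (n + j + 1) := hT.mono (Nat.lt_succ_self _)
        omega
      · have h4 : e ∈ (y (n + j)).support := Finsupp.support_smul h3
        exact hT.hi (n + j) e h4
    · intro ϑ hϑ
      have hsj : s.1 ≤ m j := by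
        rw [← hs'j]
        exact hss'.1
      have hjn : m j ≤ m (n + j) := hT.mono.monotone (by omega)
      have hϑD : ϑ ∉ Dem := hvD ϑ (TT_mono hsj hϑ)
      have hϑT : ϑ ∈ TT (m (n + j)) (y (n + j)) := by
        rw [hvw] at hϑ
        exact TT_add_subset (hsj.trans hjn) hwhi ha hϑ
      rw [htP.2 ϑ hϑT]
      constructor
      · rintro (h | h)
        · exact absurd h.1 hϑD
        · exact h.2
      · intro h
        exact Or.inr ⟨hϑD, h⟩
  have hfirst : ∀ s ∈ T.T, s.1 = m 0 →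
      s ∈ {t : Node | t ∈ T.T ∧ ∃ t' ∈ T.T, ∃ i, t'.1 = m i ∧ SatD Dem ρ t' ∧ Ext t t'} :=
    fun s hs h0 => ⟨hs, s, hs, 0, h0, dem_first hT Dem ρ h1 h0, Ext.refl' (T.val s hs)⟩
  refine ⟨⟨{t : Node | t ∈ T.T ∧ ∃ t' ∈ T.T, ∃ i, t'.1 = m i ∧ SatD Dem ρ t' ∧ Ext t t'},
    ?_, ?_, ?_, hact⟩, ?_, ?_, hfirst⟩
  · obtain ⟨s, hs, hs0⟩ := T.exists_level hF (m 0)
    exact ⟨s, hfirst s hs hs0⟩
  · intro s hs
    exact T.val s hs.1
  · rintro t ⟨ht, t', ht', i, hi, hS, hE⟩ n hn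
    refine ⟨T.down t ht n hn, t', ht', i, hi, hS, ?_⟩
    exact (cut_ext hn).trans hE
  · intro t ht
    exact ht.1
  · rintro t ⟨ht, t', ht', i, hi, hS, hE⟩ ϑ hϑ hB
    have h3 : ϑ ∈ t.2 ↔ ϑ ∈ t'.2 := by
      rw [← hE.2, Finset.mem_inter]
      exact ⟨fun h => h.1, fun h => ⟨h, hB⟩⟩
    rw [h3]
    exact hS ϑ hϑ (TypB_mono hE.1 hB)

end Pool.Agent.SOU
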