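import Pool.Agent.Lib_MP_a0d45a_lc.L2A
import Pool.Agent.Lib_MP_a0d45a_lc.Dem
import Pool.Agent.Lib_MP_a0d45a_lc.Forc

/-!
# Piece KILL: the generic set of vectors
-/

set_option autoImplicit false

namespace Pool.Agent.SOU

variable {K : Type} [Field K] [DecidableEq K] {F : Filter (ℕ →₀ K)}

/-- the name of the generic set `W` of vectors: `v ∈ W` iff the type of `v` is in the generic set of
types -/
def WName (F : Filter (ℕ →₀ K)) : (ℕ →₀ K) → Set (Cd F) :=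
  fun v => {p | ∀ t ∈ p.T, Hi t.1 v.support → ty v ∈ t.2}

theorem WName_open : OpenName (WName F) := by
  intro v p hp q hq t ht h
  exact hp t (hq ht) h

/-- PROOF. Take a node `s ∈ p.T`, `y ∈ ⟨X⟩` nonzero as in `p.act s` with `Lo s.1 (supp y)`, `t ∈ p.T` with `Ext s t`,
`Pat s.1 y univ t`; so `ty y ∈ t.2` (`ty_mem_TT`). Let `q = p.at' t`. Let `t' ∈ q.T`, `Hi t'.1 (supp y)`. If `Ext t t'`
then `ty y ∈ t.2 ⊆ t'.2`. If `Ext t' t` then `t'.2 = t.2 ∩ TypB t'.1` and `ty y ∈ TypB t'.1` (`ty_mem_TypB`). -/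
theorem kill_in (hF : IsPPlus F) {X : ℕ → ℕ →₀ K} (hX : bs X ∈ F) (p : Cd F) :
    ∃ q ≤ p, ∃ y ∈ bs X, q ∈ WName F y := by
  obtain ⟨s, hs⟩ := p.ne
  have hBF : IsBlockFilter F := hF.toIsFull.toIsBlockFilter
  have : F.NeBot := hBF.ne
  have hev : ∀ᶠ y in F, y ∈ bs X := hX
  obtain ⟨y, hy1, hy2⟩ := ((p.act s hs).and hev).exists
  obtain ⟨t, ht, hst, hpat⟩ := hy1 Set.univ
  have hty : ty y ∈ t.2 := (hpat.2 (ty y) ty_mem_TT).2 (Set.mem_univ _)
  refine ⟨p.at' t, p.at_le t, y, hy2, ?_⟩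
  intro t' ht' hhi
  rw [p.at_T hBF ht] at ht'
  rcases ht'.2 with h | h
  · have h2 := h.2
    rw [← h2] at hty
    exact (Finset.mem_inter.1 hty).1
  · have h2 := h.2
    rw [← h2]
    exact Finset.mem_inter.2 ⟨hty, ty_mem_TypB hhi⟩

/-- the last index is above all the indices of the rest -/
theorem kill_hi_of_bef {p : Cd F} {m : ℕ → ℕ} {y : ℕ → ℕ →₀ K} (hf : Fused p m y)
    {w : ℕ →₀ K} {n : ℕ} (hw : w = 0 ∨ w ∈ bs y) (hb : Bef w.support (y n).support) :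
    Hi (m n) w.support := by
  intro j hj
  rcases hw with h0 | hw
  · rw [h0] at hj
    simp at hj
  · obtain ⟨k, hjk, hk⟩ := mem_fu_block (supp_mem_fu hf.blk hw) hj
    have hkn : k < n := by
      by_contra hcon
      have hcon' : n ≤ k := Nat.le_of_not_lt hcon
      obtain ⟨i, hi⟩ := hf.blk.blkF.ne n
      have h1 : j < i := hb j hj i hi
      rcases Nat.eq_or_lt_of_le hcon' with h | h
      · subst h
        have h2 : i < i := hb i (hk hi) i hi
        exact lt_irrefl _ h2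
      · have h2 : i < j := hf.blk.blkF.bef h i hi j hjk
        exact lt_irrefl _ (h1.trans h2)
    have h3 : j < m (k + 1) := hf.hi k j hjk
    exact lt_of_lt_of_le h3 (hf.mono.monotone hkn)

omit [DecidableEq K] in
/-- one of the two subsequences is avoided by the supports -/
theorem kill_choose (hF : IsPPlus F) {y : ℕ → ℕ →₀ K} (hy : Blk y) :
    ∃ f : ℕ → ℕ, StrictMono f ∧ ∀ᶠ v in F, v.support ∉ fu (sp (fun n => y (f n))) := by
  have hBF : IsBlockFilter F := hF.toIsFull.toIsBlockFilter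
  have : F.NeBot := hBF.ne
  have hf0 : StrictMono (fun n : ℕ => 2 * n) := fun a b h => by
    show 2 * a < 2 * b
    omega
  have hf1 : StrictMono (fun n : ℕ => 2 * n + 1) := fun a b h => by
    show 2 * a + 1 < 2 * b + 1
    omega
  rcases supp_ultra hF.toIsFull (fu (sp (fun n => y (2 * n)))) with h0 | h0
  · refine ⟨fun n => 2 * n + 1, hf1, ?_⟩
    filter_upwards [h0] with v hv0 hv1
    obtain ⟨I, hI, hI2⟩ := hv0
    obtain ⟨J, hJ, hJ2⟩ := hv1
    have e0 : I.biUnion (sp (fun n => y (2 * n))) = (I.image (fun n => 2 * n)).biUnion (sp y) := by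
      rw [Finset.image_biUnion]
      rfl
    have e1 : J.biUnion (sp (fun n => y (2 * n + 1))) =
        (J.image (fun n => 2 * n + 1)).biUnion (sp y) := by
      rw [Finset.image_biUnion]
      rfl
    have hJ2' : v.support = J.biUnion (sp (fun n => y (2 * n + 1))) := hJ2
    have e2 : (I.image (fun n => 2 * n)).biUnion (sp y) =
        (J.image (fun n => 2 * n + 1)).biUnion (sp y) := by
      rw [← e0, ← e1, ← hI2, ← hJ2']
    have e3 := index_inj hy.blkF e2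
    obtain ⟨i, hi⟩ := hI
    have hmem : 2 * i ∈ I.image (fun n => 2 * n) := Finset.mem_image_of_mem _ hi
    rw [e3] at hmem
    obtain ⟨j, -, hj⟩ := Finset.mem_image.1 hmem
    have hj' : 2 * j + 1 = 2 * i := hj
    omega
  · exact ⟨fun n => 2 * n, hf0, h0⟩

/-- PROOF. Let `n₀ = 0`; take `m`, `y` from `exists_fused'` for `p`, `X`. `⟨sp (y (2 ·))⟩` and `⟨sp (y (2 · + 1))⟩` are disjoint
(`index_inj`) so for one of the two subsequences, `Z`, not `∀ᶠ v in F, v.support ∈ ⟨sp Z⟩`, so by `supp_ultra`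
`∀ᶠ v in F, v.support ∉ ⟨sp Z⟩`. Apply `demand` with `Dem = {ty v | v ∈ ⟨Z⟩}`, `ρ = ∅`. `h1`: `v = w + a • y i`
with `i` the last index (`bs_snoc` for `y`; `⟨Z⟩ ⊆ ⟨y⟩`), so `ty v ∈ TT (m i) (y i)`. `h2`: for `F`-many `v'`: `v' ≠ 0`,
`Lo (m j) (supp v')`, `v' ∈ ⟨y⟩` and `supp v' ∉ ⟨sp Z⟩`. Suppose `ϑ ∈ TT (m j) v'` and `ϑ = ty v`, `v ∈ ⟨Z⟩`. By
`TT_hi`, `supp v' = (supp v).filter (m j ≤ ·)`; every entry of `Z` is either below `m j` or
above (it is some `y i`, `supp (y i) ⊆ [m i, m (i+1))`), so `supp v'` is a finite union of supports of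
entries of `Z`, contradiction. The resulting `R ≤ p` satisfies: for `v ∈ ⟨Z⟩`, `t ∈ R.T` with
`Hi t.1 (supp v)`: `ty v ∈ TypB t.1`, so `ty v ∉ t.2`. So no `r ≤ R` is in `WName F v`: `r` has a node `t`
with `Hi t.1 (supp v)` (`Cd.exists_level`). -/
theorem kill_out (hK : ∃ a : K, a ≠ 0 ∧ a ≠ 1) (hF : IsPPlus F) {X : ℕ → ℕ →₀ K}
    (hX : bs X ∈ F) (p : Cd F) :
    ∃ q ≤ p, ∃ Z, Blk Z ∧ bs Z ⊆ bs X ∧ ∀ v ∈ bs Z, FrOut (WName F) v q := by
  have hBF : IsBlockFilter F := hF.toIsFull.toIsBlockFilter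
  obtain ⟨m, y, hm0, hf, hyX⟩ := exists_fused' hK hF p 0 hX
  obtain ⟨f, hfm, hfu⟩ := kill_choose hF hf.blk
  have hZ : Blk (fun n => y (f n)) := hf.blk.comp hfm
  have hZy : bs (fun n => y (f n)) ⊆ bs y := bs_mono fun n => self_mem_bs hf.blk (f n)
  have h1 : ∀ ϑ ∈ {ϑ : Typ | ∃ v ∈ bs (fun n => y (f n)), ϑ = ty v}, ∃ i, ϑ ∈ TT (m i) (y i) := by
    rintro ϑ ⟨v, hv, rfl⟩
    obtain ⟨n, a, ha, w, hvw, hw, hb, -, -⟩ := bs_snoc hf.blk (hZy hv)
    exact ⟨n, w, a, kill_hi_of_bef hf hw hb, ha, by rw [hvw]⟩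
  have h2 : ∀ j, ∀ᶠ v in F, ∀ ϑ ∈ TT (m j) v,
      ϑ ∉ {ϑ : Typ | ∃ v ∈ bs (fun n => y (f n)), ϑ = ty v} := by
    intro j
    filter_upwards [bf_ne hBF, bf_tail hBF (m j), hfu] with v' hv0 hvlo hvfu ϑ hϑ hD
    obtain ⟨v, hv, rfl⟩ := hD
    obtain ⟨-, hfilt⟩ := TT_hi hvlo hϑ
    rw [ty_fst] at hfilt
    obtain ⟨I, -, hI⟩ := supp_mem_fu hZ hv
    apply hvfu
    have key : v'.support = (I.filter (fun n => j ≤ f n)).biUnion (sp (fun n => y (f n))) := by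
      rw [← hfilt, hI]
      ext i
      simp only [Finset.mem_filter, Finset.mem_biUnion]
      constructor
      · rintro ⟨⟨n, hn, hin⟩, hji⟩
        refine ⟨n, ⟨hn, ?_⟩, hin⟩
        by_contra hcon
        have hcon' : f n + 1 ≤ j := by omega
        have h3 : i < m (f n + 1) := hf.hi (f n) i hin
        have h4 : m (f n + 1) ≤ m j := hf.mono.monotone hcon'
        omega
      · rintro ⟨n, ⟨hn, hjn⟩, hin⟩
        refine ⟨⟨n, hn, hin⟩, ?_⟩
        have h3 : m (f n) ≤ i := hf.lo (f n) i hin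
        exact (hf.mono.monotone hjn).trans h3
    refine ⟨_, ?_, key⟩
    have hne : v'.support.Nonempty := by
      rw [Finsupp.support_nonempty_iff]
      exact hv0
    rw [key] at hne
    obtain ⟨i, hi⟩ := hne
    obtain ⟨n, hn, -⟩ := Finset.mem_biUnion.1 hi
    exact ⟨n, hn⟩
  obtain ⟨R, hR, hsat, -⟩ := demand hBF hf _ ∅ h1 h2
  refine ⟨R, hR, fun n => y (f n), hZ, hZy.trans hyX, ?_⟩
  intro v hv r hr hrW
  obtain ⟨t, ht, ht1⟩ := r.exists_level hBF (mx v.support + 1)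
  have hhi : Hi t.1 v.support := by
    intro j hj
    rw [ht1]
    exact Nat.lt_succ_of_le (le_mx hj)
  have h5 : ty v ∈ t.2 := hrW t ht hhi
  have h6 := (hsat t (hr ht) (ty v) ⟨v, hv, rfl⟩ (ty_mem_TypB hhi)).1 h5
  exact h6

end Pool.Agent.SOU
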