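import Pool.Agent.Lib_MP_a0d45a_lc.UTail

/-!
# Piece UGAP: the gap lemma

PROOF. Let `H n = n + 1 + ∑_{i ≤ n} h i` (monotone, `H n > n`, `H n > h n`), `a 0 = 0`,
`a (k+1) = H (a k)` (strictly increasing). Let `N b` be the finite set of the `k` such that `b`
meets `I_k = [a k, a (k+1))`. If `i ∈ I_k` then `H i ≤ H (a (k+1)) = a (k+2)`, so every
`j ∈ I_l` with `l ≥ k + 2` satisfies `h i < H i ≤ a (k+2) ≤ j`.

The ultrafilter `U` decides the parity of `|N b|`, and the parity of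
`adj b = |{k : k ∈ N b ∧ k + 1 ∈ N b}|`; take `⟨A⟩ ∈ U` inside `S` on which both are constant.
For `b ∈ ⟨A⟩` and `c ∈ ⟨A⟩` far away (`c = A n` for large `n`)
`|N (b ∪ c)| = |N b| + |N c|` and `adj (b ∪ c) = adj b + adj c`; as `b, c, b ∪ c ∈ ⟨A⟩` both
constant parities are even. Now let `b = A n`, `c = A (n+1)`. If the last interval met by `b` is
the first interval met by `c` then `|N (b ∪ c)| = |N b| + |N c| - 1` is odd, contradiction.
So `|N (b ∪ c)| = |N b| + |N c|`, and if the last interval `I_k` met by `b` and the first interval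
`I_l` met by `c` satisfy `l = k + 1` then `adj (b ∪ c) = adj b + adj c + 1` is odd, contradiction.
So `l ≥ k + 2`, and `h i < j` for all `i ∈ b`, `j ∈ c` (`i ∈ I_{k'}`, `k' ≤ k`, `j ∈ I_{l'}`,
`l' ≥ l`).
-/

set_option autoImplicit false

namespace Pool.Agent.SOU

/-- the elements followed by their successor -/
def ugAdj (X : Finset ℕ) : Finset ℕ := X.filter (fun k => k + 1 ∈ X)

theorem ug_card_far {X Y : Finset ℕ} (h : ∀ x ∈ X, ∀ y ∈ Y, x < y) :
    (X ∪ Y).card = X.card + Y.card := by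
  refine Finset.card_union_of_disjoint ?_
  rw [Finset.disjoint_left]
  intro k hk hk'
  exact absurd (h k hk k hk') (lt_irrefl k)

theorem ug_adj_far {X Y : Finset ℕ} (h : ∀ x ∈ X, ∀ y ∈ Y, x + 1 < y) :
    (ugAdj (X ∪ Y)).card = (ugAdj X).card + (ugAdj Y).card := by
  have e : ugAdj (X ∪ Y) = ugAdj X ∪ ugAdj Y := by
    ext k
    simp only [ugAdj, Finset.mem_union, Finset.mem_filter]
    constructor
    · rintro ⟨h1 | h1, h2 | h2⟩
      · exact Or.inl ⟨h1, h2⟩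
      · exact absurd (h k h1 _ h2) (lt_irrefl _)
      · have := h _ h2 _ h1
        omega
      · exact Or.inr ⟨h1, h2⟩
    · rintro (⟨h1, h2⟩ | ⟨h1, h2⟩)
      · exact ⟨Or.inl h1, Or.inl h2⟩
      · exact ⟨Or.inr h1, Or.inr h2⟩
  rw [e]
  refine ug_card_far ?_
  intro x hx y hy
  have := h x (Finset.mem_filter.1 hx).1 y (Finset.mem_filter.1 hy).1
  omega

theorem ug_card_meet {X Y : Finset ℕ} (h : ∀ x ∈ X, ∀ y ∈ Y, x ≤ y) {k : ℕ} (hk : k ∈ X)
    (hk' : k ∈ Y) : (X ∪ Y).card + 1 = X.card + Y.card := by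
  have e : X ∩ Y = {k} := by
    ext l
    simp only [Finset.mem_inter, Finset.mem_singleton]
    constructor
    · rintro ⟨h1, h2⟩
      exact le_antisymm (h l h1 k hk') (h k hk l h2)
    · rintro rfl
      exact ⟨hk, hk'⟩
  have := Finset.card_union_add_card_inter X Y
  rw [e, Finset.card_singleton] at this
  exact this

theorem ug_adj_next {X Y : Finset ℕ} (h : ∀ x ∈ X, ∀ y ∈ Y, x < y) {k : ℕ} (hk : k ∈ X)
    (hk' : k + 1 ∈ Y) : (ugAdj (X ∪ Y)).card = (ugAdj X).card + (ugAdj Y).card + 1 := by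
  have e : ugAdj (X ∪ Y) = insert k (ugAdj X ∪ ugAdj Y) := by
    ext l
    simp only [ugAdj, Finset.mem_union, Finset.mem_filter, Finset.mem_insert]
    constructor
    · rintro ⟨h1 | h1, h2 | h2⟩
      · exact Or.inr (Or.inl ⟨h1, h2⟩)
      · have h3 := h l h1 _ hk'
        have h4 := h k hk _ h2
        exact Or.inl (by omega)
      · have := h _ h2 _ h1
        omega
      · exact Or.inr (Or.inr ⟨h1, h2⟩)
    · rintro (rfl | ⟨h1, h2⟩ | ⟨h1, h2⟩)
      · exact ⟨Or.inl hk, Or.inr hk'⟩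
      · exact ⟨Or.inl h1, Or.inl h2⟩
      · exact ⟨Or.inr h1, Or.inr h2⟩
  have hn : k ∉ ugAdj X ∪ ugAdj Y := by
    simp only [ugAdj, Finset.mem_union, Finset.mem_filter, not_or, not_and]
    refine ⟨fun _ h2 => ?_, fun h1 _ => ?_⟩
    · exact absurd (h _ h2 _ hk') (lt_irrefl _)
    · exact absurd (h _ hk _ h1) (lt_irrefl _)
  rw [e, Finset.card_insert_of_notMem hn, ug_card_far]
  intro x hx y hy
  exact h x (Finset.mem_filter.1 hx).1 y (Finset.mem_filter.1 hy).1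

/-- the function `H` -/
def ugH (h : ℕ → ℕ) (n : ℕ) : ℕ := n + 1 + ∑ i ∈ Finset.range (n + 1), h i

theorem ugH_gt (h : ℕ → ℕ) (n : ℕ) : n < ugH h n := by
  unfold ugH
  omega

theorem ugH_h (h : ℕ → ℕ) (n : ℕ) : h n < ugH h n := by
  unfold ugH
  have : h n ≤ ∑ i ∈ Finset.range (n + 1), h i :=
    Finset.single_le_sum (f := h) (fun _ _ => Nat.zero_le _) (Finset.self_mem_range_succ n)
  omega

theorem ugH_mono (h : ℕ → ℕ) : Monotone (ugH h) := by
  intro m n hmn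
  unfold ugH
  have : ∑ i ∈ Finset.range (m + 1), h i ≤ ∑ i ∈ Finset.range (n + 1), h i :=
    Finset.sum_le_sum_of_subset (Finset.range_mono (by omega))
  omega

/-- the ends of the intervals -/
def ugA (h : ℕ → ℕ) : ℕ → ℕ
  | 0 => 0
  | k + 1 => ugH h (ugA h k)

theorem ugA_strict (h : ℕ → ℕ) : StrictMono (ugA h) :=
  strictMono_nat_of_lt_succ fun _ => ugH_gt h _

/-- the index of the interval of `i` -/
def ugI (h : ℕ → ℕ) (i : ℕ) : ℕ := Nat.findGreatest (fun k => ugA h k ≤ i) i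

theorem ugI_le (h : ℕ → ℕ) (i : ℕ) : ugA h (ugI h i) ≤ i := by
  unfold ugI
  exact Nat.findGreatest_spec (P := fun k => ugA h k ≤ i) (m := 0) (Nat.zero_le i)
    (Nat.zero_le i)

theorem ugI_ge (h : ℕ → ℕ) {i k : ℕ} (hk : ugA h k ≤ i) : k ≤ ugI h i := by
  unfold ugI
  exact Nat.le_findGreatest (((ugA_strict h).le_apply).trans hk) hk

theorem ugI_mono (h : ℕ → ℕ) : Monotone (ugI h) := fun _ _ hij =>
  ugI_ge h ((ugI_le h _).trans hij)

theorem ugI_lt (h : ℕ → ℕ) (i : ℕ) : i < ugA h (ugI h i + 1) := by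
  by_contra hc
  have := ugI_ge h (not_lt.1 hc)
  omega

theorem ugI_gap (h : ℕ → ℕ) {i j : ℕ} (hij : ugI h i + 2 ≤ ugI h j) : h i < j := by
  have h1 : ugH h i ≤ ugA h (ugI h i + 2) := ugH_mono h (ugI_lt h i).le
  have h2 : ugA h (ugI h i + 2) ≤ ugA h (ugI h j) := (ugA_strict h).monotone hij
  exact ((ugH_h h i).trans_le (h1.trans h2)).trans_le (ugI_le h j)

theorem gap_lemma {U : Ultrafilter (Finset ℕ)} (hU : IsSOU U) (h : ℕ → ℕ) {S : Set (Finset ℕ)}
    (hS : S ∈ U) : ∃ A, BlkF A ∧ fu A ∈ U ∧ fu A ⊆ S ∧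
      ∀ n, ∀ i ∈ A n, ∀ j ∈ A (n + 1), h i < j := by
  classical
  let N : Finset ℕ → Finset ℕ := fun b => b.image (ugI h)
  have hdec : ∀ p : Finset ℕ → Prop, ∃ T ∈ U, (∀ b ∈ T, p b) ∨ (∀ b ∈ T, ¬ p b) := by
    intro p
    rcases U.em p with h1 | h1
    · exact ⟨{b | p b}, h1, Or.inl fun b hb => hb⟩
    · exact ⟨{b | ¬ p b}, h1, Or.inr fun b hb => hb⟩
  obtain ⟨T1, hT1, hT1'⟩ := hdec fun b => Even (N b).card
  obtain ⟨T2, hT2, hT2'⟩ := hdec fun b => Even (ugAdj (N b)).card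
  have hT : S ∩ (T1 ∩ T2) ∈ U := Filter.inter_mem hS (Filter.inter_mem hT1 hT2)
  obtain ⟨A, hA, hAU, hAS⟩ := hU.base _ hT
  have hNu : ∀ b c : Finset ℕ, N (b ∪ c) = N b ∪ N c := fun b c => Finset.image_union _ _
  -- a far element
  obtain ⟨n, hn⟩ : ∃ n, ∀ x ∈ N (A 0), ∀ y ∈ N (A n), x + 1 < y := by
    refine ⟨ugA h (ugI h (mx (A 0)) + 2), ?_⟩
    intro x hx y hy
    obtain ⟨i, hi, rfl⟩ := Finset.mem_image.1 hx
    obtain ⟨j, hj, rfl⟩ := Finset.mem_image.1 hy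
    have h1 := ugI_mono h (le_mx hi)
    have h2 := ugI_ge h (hA.ge _ j hj)
    omega
  have m0 := self_mem_fu A 0
  have mn' := self_mem_fu A n
  have mu := fu_union m0 mn'
  have e1 : ∀ b ∈ fu A, Even (N b).card := by
    rcases hT1' with h1 | h1
    · exact fun b hb => h1 b (hAS hb).2.1
    · exfalso
      have a1 := h1 _ (hAS m0).2.1
      have a2 := h1 _ (hAS mn').2.1
      have a3 := h1 _ (hAS mu).2.1
      rw [hNu, ug_card_far (fun x hx y hy => by have := hn x hx y hy; omega)] at a3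
      rw [Nat.not_even_iff_odd] at a1 a2
      exact a3 (a1.add_odd a2)
  have e2 : ∀ b ∈ fu A, Even (ugAdj (N b)).card := by
    rcases hT2' with h1 | h1
    · exact fun b hb => h1 b (hAS hb).2.2
    · exfalso
      have a1 := h1 _ (hAS m0).2.2
      have a2 := h1 _ (hAS mn').2.2
      have a3 := h1 _ (hAS mu).2.2
      rw [hNu, ug_adj_far hn] at a3
      rw [Nat.not_even_iff_odd] at a1 a2
      exact a3 (a1.add_odd a2)
  refine ⟨A, hA, hAU, fun b hb => (hAS hb).1, ?_⟩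
  intro n i hi j hj
  have k1 := self_mem_fu A n
  have k2 := self_mem_fu A (n + 1)
  have k3 := fu_union k1 k2
  have hbe := hA.lt n
  have hle : ∀ x ∈ N (A n), ∀ y ∈ N (A (n + 1)), x ≤ y := by
    intro x hx y hy
    obtain ⟨i, hi, rfl⟩ := Finset.mem_image.1 hx
    obtain ⟨j, hj, rfl⟩ := Finset.mem_image.1 hy
    exact ugI_mono h (hbe i hi j hj).le
  have hlt : ∀ x ∈ N (A n), ∀ y ∈ N (A (n + 1)), x < y := by
    intro x hx y hy
    refine lt_of_le_of_ne (hle x hx y hy) ?_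
    rintro rfl
    have a1 := e1 _ k1
    have a2 := e1 _ k2
    have a3 := e1 _ k3
    have a4 := ug_card_meet hle hx hy
    rw [hNu] at a3
    have a5 := a1.add a2
    rw [← a4] at a5
    exact (Nat.not_even_iff_odd.2 a3.add_one) a5
  have hmi : ugI h i ∈ N (A n) := Finset.mem_image_of_mem _ hi
  have hmj : ugI h j ∈ N (A (n + 1)) := Finset.mem_image_of_mem _ hj
  have h1 := hlt _ hmi _ hmj
  refine ugI_gap h ?_
  by_contra hc
  have h2 : ugI h j = ugI h i + 1 := by omega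
  rw [h2] at hmj
  have a1 := e2 _ k1
  have a2 := e2 _ k2
  have a3 := e2 _ k3
  rw [hNu, ug_adj_next hlt hmi hmj] at a3
  exact (Nat.not_even_iff_odd.2 (a1.add a2).add_one) a3

end Pool.Agent.SOU
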