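import Pool.Agent.Lib_MP_a0d45a_lc.FDiag
import Pool.Agent.Lib_MP_a0d45a_lc.UDiag

/-!
# Piece CUTS: common cuts of a sequence in `U` and a sequence in `F`
-/

set_option autoImplicit false

namespace Pool.Agent.SOU

variable {K : Type} [Field K] {F : Filter (ℕ →₀ K)} {U : Ultrafilter (Finset ℕ)}

/-- There are `b`, `y` with `⟨b⟩ ∈ U`, `⟨y⟩ ∈ F`, all `b l ∈ ⟨A⟩`, `y l ∈ ⟨Y⟩`, such that `b l` and `supp (y l)`
are contained in the window `[a (j l + 1), a (j (l+1)))`, `j` strictly increasing (so that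
consecutive windows are separated by a full interval `[a (j l), a (j l + 1))`).

PROOF. (1) By `gap_lemma` there is `⟨A₁⟩ ∈ U`, `⟨A₁⟩ ⊆ ⟨A⟩`, with a full interval `[a i, a (i+1))` strictly between
`A₁ n` and `A₁ (n+1)` for all `n` (take `h x = a (i+1)` where `i` is minimal with `a i > x`), and such that a full
interval `[a i, a (i+1))` with `i ≥ 0` lies before `A₁ 0` (pass to a tail).
(2) By `F_gap` there is `⟨Y₁⟩ ∈ F`, `⟨Y₁⟩ ⊆ ⟨Y⟩`, such that for all `l` there is `n` with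
`supp (Y₁ l) < A₁ n < A₁ (n+1) < supp (Y₁ (l+1))` (take `h x = mx (A₁ (n+1))` where `n`
is minimal with `mn (A₁ n) > x`), and `Y₁ 0` is after an interval that lies before `A₁ 0`. Let
`n = n(l)` be chosen for each `l`, and let the cut `c_l = [a (j (l+1)), a (j (l+1) + 1))` be a full
interval between `A₁ (n(l))` and `A₁ (n(l) + 1)`; let `[a (j 0), a (j 0 + 1))` be a full interval
before `A₁ 0` and `Y₁ 0`. Then `j` is strictly increasing; window `l` is
`[a (j l + 1), a (j (l+1)))`: every entry of `A₁` and every entry of `Y₁` is contained in exactly one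
window, window `l` contains exactly one entry of `Y₁`, namely `Y₁ l`, and at least one entry of
`A₁`, namely `A₁ (n(l))`.
(3) By `gap_lemma` there is `⟨A₂⟩ ∈ U`, `⟨A₂⟩ ⊆ ⟨A₁⟩` such that `h (mx (A₂ n)) < A₂ (n+1)` where `h x` is the right end
of the window that contains `x`: so each window meets at most one `A₂ n`. Define
`b l` as the intersection of `A₂ n` with window `l` if some `A₂ n` meets it (this is in
`⟨A₁⟩`, a union of entries of `A₁`), and `b l = A₁ (n(l))` otherwise. Every `A₂ n` is the union of the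
`b l` over the windows `l` that it meets, so `⟨A₂⟩ ⊆ ⟨b⟩` and `⟨b⟩ ∈ U`. Let `y = Y₁`. -/
theorem common_cuts (hU : IsSOU U) (hF : IsPPlus F) (a : ℕ → ℕ) (ha : StrictMono a)
    {A : ℕ → Finset ℕ} (hA : BlkF A) (hAU : fu A ∈ U) {Y : ℕ → ℕ →₀ K} (hY : Blk Y)
    (hYF : bs Y ∈ F) :
    ∃ (b : ℕ → Finset ℕ) (y : ℕ → ℕ →₀ K) (j : ℕ → ℕ), StrictMono j ∧ BlkF b ∧ Blk y ∧
      fu b ∈ U ∧ bs y ∈ F ∧ (∀ l, b l ∈ fu A) ∧ (∀ l, y l ∈ bs Y) ∧
      (∀ l, Lo (a (j l + 1)) (b l)) ∧ (∀ l, Hi (a (j (l + 1))) (b l)) ∧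
      (∀ l, Lo (a (j l + 1)) (y l).support) ∧ (∀ l, Hi (a (j (l + 1))) (y l).support) := by
  classical
  -- step 1
  obtain ⟨A₁, hA₁, hA₁U, hA₁S, hA₁g⟩ := gap_lemma hU (fun x => a (x + 2))
    (S := fu A ∩ {b | Lo (a 1) b}) (Filter.inter_mem hAU (sou_tail hU (a 1)))
  -- step 2
  obtain ⟨Y₁, hY₁, hY₁F, hY₁S, hY₁g⟩ := F_gap hF (fun x => mx (A₁ (x + 2)))
    (S := bs Y ∩ {v | Lo (a 1) v.support})
    (Filter.inter_mem hYF (bf_tail hF.toIsFull.toIsBlockFilter (a 1)))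
  have hYne : ∀ l, (Y₁ l).support.Nonempty := fun l => Finsupp.support_nonempty_iff.2 (hY₁.ne l)
  let x : ℕ → ℕ := fun l => mx (Y₁ l).support
  let n : ℕ → ℕ := fun l => x l + 1
  let z : ℕ → ℕ := fun l => mx (A₁ (n l))
  let j : ℕ → ℕ := fun l => Nat.casesOn l 0 (fun l => z l + 1)
  have hj0 : j 0 = 0 := rfl
  have hjs : ∀ l, j (l + 1) = z l + 1 := fun l => rfl
  have hx : ∀ l, x l < x (l + 1) := fun l =>
    hY₁.lt l _ (mx_mem (hYne l)) _ (mx_mem (hYne (l + 1)))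
  have hnm : StrictMono n := strictMono_nat_of_lt_succ fun l => Nat.add_lt_add_right (hx l) 1
  have hzm : ∀ l, z l < z (l + 1) := fun l =>
    hA₁.bef (hnm (Nat.lt_succ_self l)) _ (mx_mem (hA₁.ne _)) _ (mx_mem (hA₁.ne _))
  have hjm : StrictMono j := by
    refine strictMono_nat_of_lt_succ fun l => ?_
    cases l with
    | zero => exact Nat.succ_pos _
    | succ l => exact Nat.add_lt_add_right (hzm l) 1
  have ham : ∀ k, k ≤ a k := fun k => ha.le_apply
  -- elements of `A₁ k`, `k ≤ n l`, are below `a (j (l+1))`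
  have hup : ∀ l k, k ≤ n l → Hi (a (j (l + 1))) (A₁ k) := by
    intro l k hk i hi
    have h1 : i ≤ z l := by
      rcases lt_or_eq_of_le hk with h | h
      · exact (hA₁.bef h i hi _ (mx_mem (hA₁.ne _))).le
      · subst h
        exact le_mx hi
    rw [hjs]
    have := ham (z l + 1)
    omega
  -- elements of `A₁ k`, `n l < k`, are above `a (j (l+1) + 1)`
  have hlo : ∀ l k, n l < k → Lo (a (j (l + 1) + 1)) (A₁ k) := by
    intro l k hk i hi
    rw [hjs]
    have h0 := fu_gap hA₁ (h := fun x => a (x + 2)) hA₁g (self_mem_fu A₁ (n l))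
      (self_mem_fu A₁ k) (hA₁.bef hk) i hi
    exact h0.le
  have hlo0 : ∀ k, Lo (a 1) (A₁ k) := fun k => (hA₁S (self_mem_fu A₁ k)).2
  -- the window of `k`
  have hex : ∀ k, ∃ l, k ≤ n l := fun k => ⟨k, hnm.le_apply⟩
  let w : ℕ → ℕ := fun k => Nat.find (hex k)
  have hw : ∀ k, k ≤ n (w k) := fun k => Nat.find_spec (hex k)
  have hwHi : ∀ k, Hi (a (j (w k + 1))) (A₁ k) := fun k => hup _ _ (hw k)
  have hwLo : ∀ k, Lo (a (j (w k) + 1)) (A₁ k) := by
    intro k
    rcases Nat.eq_zero_or_pos (w k) with h | h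
    · rw [h]
      exact hlo0 k
    · obtain ⟨l, hl⟩ := Nat.exists_eq_succ_of_ne_zero h.ne'
      have h1 : n l < k := by
        have := Nat.find_min (hex k) (m := l) (by
          change l < w k
          omega)
        omega
      rw [hl]
      exact hlo l k h1
  let W : ℕ → ℕ → Prop := fun l i => a (j l + 1) ≤ i ∧ i < a (j (l + 1))
  have hWk : ∀ k, ∀ i ∈ A₁ k, W (w k) i := fun k i hi => ⟨hwLo k i hi, hwHi k i hi⟩
  have hWlt : ∀ l l', l < l' → ∀ i i', W l i → W l' i' → i < i' := by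
    intro l l' hll i i' h1 h2
    have h3 : a (j (l + 1)) ≤ a (j l' + 1) :=
      ha.monotone ((hjm.monotone (Nat.succ_le_of_lt hll)).trans (Nat.le_succ _))
    exact lt_of_lt_of_le (h1.2.trans_le h3) h2.1
  have hWu : ∀ l l' i, W l i → W l' i → l = l' := by
    intro l l' i h1 h2
    rcases lt_trichotomy l l' with h | h | h
    · exact absurd (hWlt l l' h i i h1 h2) (lt_irrefl i)
    · exact h
    · exact absurd (hWlt l' l h i i h2 h1) (lt_irrefl i)
  -- step 3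
  obtain ⟨A₂, hA₂, hA₂U, hA₂S, hA₂g⟩ := gap_lemma hU (fun x => a (j x)) hA₁U
  have huniq : ∀ l m m', (∃ i ∈ A₂ m, W l i) → (∃ i ∈ A₂ m', W l i) → ¬ m < m' := by
    rintro l m m' ⟨i, hi, hi1, hi2⟩ ⟨i', hi', hi1', hi2'⟩ hmm
    have h0 := fu_gap hA₂ (h := fun x => a (j x)) hA₂g (self_mem_fu A₂ m)
      (self_mem_fu A₂ m') (hA₂.bef hmm) i' hi'
    have h1 : l + 1 ≤ i := by
      have h2 := ham (j l + 1)
      have h3 : l ≤ j l := hjm.le_apply
      omega
    have h2 : i ≤ mx (A₂ m) := le_mx hi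
    have h3 : a (j (l + 1)) ≤ a (j (mx (A₂ m))) :=
      ha.monotone (hjm.monotone (h1.trans h2))
    have h4 : a (j (mx (A₂ m))) < i' := h0
    omega
  have hb : ∀ l, ∃ b : Finset ℕ, b.Nonempty ∧ b ∈ fu A₁ ∧ (∀ i ∈ b, W l i) ∧
      ∀ m, (∃ i ∈ A₂ m, W l i) → b = (A₂ m).filter (W l) := by
    intro l
    by_cases h : ∃ m, ∃ i ∈ A₂ m, W l i
    · obtain ⟨m, i, hi, hiW⟩ := h
      refine ⟨(A₂ m).filter (W l), ⟨i, Finset.mem_filter.2 ⟨hi, hiW⟩⟩, ?_,
        fun i' hi' => (Finset.mem_filter.1 hi').2, ?_⟩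
      · obtain ⟨I, hI, hIA⟩ := hA₂S (self_mem_fu A₂ m)
        refine ⟨I.filter (fun k => w k = l), ?_, ?_⟩
        · rw [hIA] at hi
          obtain ⟨k, hk, hik⟩ := Finset.mem_biUnion.1 hi
          exact ⟨k, Finset.mem_filter.2 ⟨hk, hWu _ _ i (hWk k i hik) hiW⟩⟩
        · ext i'
          rw [Finset.mem_filter, hIA, Finset.mem_biUnion, Finset.mem_biUnion]
          constructor
          · rintro ⟨⟨k, hk, hik⟩, h1⟩
            exact ⟨k, Finset.mem_filter.2 ⟨hk, hWu _ _ i' (hWk k i' hik) h1⟩, hik⟩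
          · rintro ⟨k, hk, hik⟩
            obtain ⟨hk1, hk2⟩ := Finset.mem_filter.1 hk
            subst hk2
            exact ⟨⟨k, hk1, hik⟩, hWk k i' hik⟩
      · intro m' hm'
        have h1 := huniq l m m' ⟨i, hi, hiW⟩ hm'
        have h2 := huniq l m' m hm' ⟨i, hi, hiW⟩
        have h3 : m = m' := by omega
        rw [h3]
    · refine ⟨A₁ (n l), hA₁.ne _, self_mem_fu A₁ _, ?_, fun m hm => absurd ⟨m, hm⟩ h⟩
      intro i hi
      refine ⟨?_, hup l _ le_rfl i hi⟩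
      cases l with
      | zero => exact hlo0 _ i hi
      | succ l => exact hlo l _ (hnm (Nat.lt_succ_self l)) i hi
  choose b hbne hbA hbW hbeq using hb
  have hbB : BlkF b := ⟨hbne, fun l i hi i' hi' =>
    hWlt l (l + 1) (Nat.lt_succ_self l) i i' (hbW l i hi) (hbW (l + 1) i' hi')⟩
  refine ⟨b, Y₁, j, hjm, hbB, hY₁, ?_, hY₁F, fun l => (hA₁S (hbA l)).1,
    fun l => (hY₁S (self_mem_bs hY₁ l)).1, fun l i hi => (hbW l i hi).1,
    fun l i hi => (hbW l i hi).2, ?_, ?_⟩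
  · refine Filter.mem_of_superset hA₂U (fu_mono fun m => ?_)
    obtain ⟨I, hI, hIA⟩ := hA₂S (self_mem_fu A₂ m)
    refine ⟨I.image w, hI.image w, ?_⟩
    have hmeet : ∀ k ∈ I, ∃ i ∈ A₂ m, W (w k) i := by
      intro k hk
      obtain ⟨i, hi⟩ := hA₁.ne k
      refine ⟨i, ?_, hWk k i hi⟩
      rw [hIA]
      exact Finset.mem_biUnion.2 ⟨k, hk, hi⟩
    ext i
    rw [Finset.mem_biUnion]
    constructor
    · intro hi
      have hi' := hi
      rw [hIA] at hi'
      obtain ⟨k, hk, hik⟩ := Finset.mem_biUnion.1 hi'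
      refine ⟨w k, Finset.mem_image_of_mem w hk, ?_⟩
      rw [hbeq (w k) m (hmeet k hk)]
      exact Finset.mem_filter.2 ⟨hi, hWk k i hik⟩
    · rintro ⟨l, hl, hil⟩
      obtain ⟨k, hk, rfl⟩ := Finset.mem_image.1 hl
      rw [hbeq (w k) m (hmeet k hk)] at hil
      exact (Finset.mem_filter.1 hil).1
  · intro l
    cases l with
    | zero => exact (hY₁S (self_mem_bs hY₁ 0)).2
    | succ l =>
      intro i hi
      have h1 := hY₁g (Y₁ l) (self_mem_bs hY₁ l) (Y₁ (l + 1)) (self_mem_bs hY₁ (l + 1))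
        (fun i hi i' hi' => hY₁.lt l i hi i' hi') i hi
      have h2 : a (j (l + 1) + 1) ≤ mx (A₁ (x l + 2)) :=
        hlo l (x l + 2) (Nat.lt_succ_self _) _ (mx_mem (hA₁.ne _))
      exact h2.trans h1.le
  · intro l i hi
    have h1 : i ≤ x l := le_mx hi
    have h2 : n l ≤ z l := hA₁.ge (n l) _ (mx_mem (hA₁.ne _))
    rw [hjs]
    have := ham (z l + 1)
    change x l + 1 ≤ z l at h2
    omega

end Pool.Agent.SOU
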