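import Pool.Agent.Lib_MP_a0d45a_lc.CB

/-!
# Piece FUS1: fusion
-/

set_option autoImplicit false

namespace Pool.Agent.SOU

variable {K : Type} [Field K] [DecidableEq K] {F : Filter (ℕ →₀ K)}

/-- `T` is fused along `(y k)`, `(m k)`: `supp (y k) ⊆ [m k, m (k+1))` and every node of `T` of level
`m k` has, for every pattern, an extension of level `m (k+1)` with this pattern at `y k` -/
structure Fused (T : Cd F) (m : ℕ → ℕ) (y : ℕ → ℕ →₀ K) : Prop where
  mono : StrictMono m
  blk : Blk y
  mem : bs y ∈ F
  lo : ∀ k, Lo (m k) (y k).support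
  hi : ∀ k, Hi (m (k + 1)) (y k).support
  pat : ∀ k, ∀ s ∈ T.T, s.1 = m k → ∀ π : Set Typ, ∃ t ∈ T.T, t.1 = m (k + 1) ∧ Ext s t ∧
    Pat (m k) (y k) π t

/-- FUSION. Let `T 0 ≥ T 1 ≥ ...` be such that every node of `T k` of level `m k` has, for every
pattern `π`, an extension in `T (k+1)` of level `m (k+1)` with pattern `π` at `y k`, where
`supp (y k) ⊆ [m k, m (k+1))` and `⟨y⟩ ∈ F`. Then the intersection of the `T k` is a condition,
fused along `y`, `m`, and it contains all nodes of `T k` of level `m k`.
PROOF. By induction, a node of `T k` of level `m k` is in all `T j`, `j ≥ k` (it has an extension of level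
`m j` in `T j`; `down`); for `j < k` because the sequence decreases. Let `R` be the intersection.
`ne`: `T 0` has a node of level `m 0`. `act` at `s ∈ R`: take `j` with `s.1 ≤ m j`. We show that
every `v` in the span of the `y i`, `i ≥ j` (this is in `F`, `bf_bs_tail`), works: write
`v = w + a y i` with `i ≥ j` the last index, `w` below `m i` (`bs_snoc`). `s` has an
extension in `T i` of level `m i`, which is in `R`; call it `s'`. By hypothesis `s'` has an
extension `t ∈ T (i+1)` of level `m (i+1)` (so `t ∈ R`) with pattern `π` at `y i`. As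
`TT s.1 v ⊆ TT (m i) (y i)` (`TT_add_subset`), `t` has pattern `π` at `v`, level `s.1`. -/
theorem fusion (hF : IsBlockFilter F) (T : ℕ → Cd F) (m : ℕ → ℕ) (y : ℕ → ℕ →₀ K)
    (hT : ∀ k, T (k + 1) ≤ T k) (hm : StrictMono m) (hy : Blk y) (hyF : bs y ∈ F)
    (lo : ∀ k, Lo (m k) (y k).support) (hi : ∀ k, Hi (m (k + 1)) (y k).support)
    (pat : ∀ k, ∀ s ∈ (T k).T, s.1 = m k → ∀ π : Set Typ, ∃ t ∈ (T (k + 1)).T,
      t.1 = m (k + 1) ∧ Ext s t ∧ Pat (m k) (y k) π t) :
    ∃ R : Cd F, Fused R m y ∧ R.T = ⋂ k, (T k).T ∧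
      ∀ k, ∀ s ∈ (T k).T, s.1 = m k → s ∈ R.T := by
  have hmono : ∀ j k, j ≤ k → (T k).T ⊆ (T j).T := by
    intro j k hjk
    induction hjk with
    | refl => exact subset_rfl
    | step _ ih => exact (Cd.le_iff.1 (hT _)).trans ih
  -- nodes of `T k` of level `m k` have extensions in all later trees
  have hext : ∀ k, ∀ s ∈ (T k).T, s.1 = m k → ∀ d, ∃ t ∈ (T (k + d)).T, t.1 = m (k + d) ∧
      Ext s t := by
    intro k s hs hsk d
    induction d with
    | zero => exact ⟨s, hs, hsk, Ext.refl' ((T k).val s hs)⟩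
    | succ d ih =>
      obtain ⟨t, ht, htk, hst⟩ := ih
      obtain ⟨u, hu, huk, htu, -⟩ := pat (k + d) t ht htk ∅
      exact ⟨u, hu, huk, hst.trans htu⟩
  have hall : ∀ k, ∀ s ∈ (T k).T, s.1 = m k → s ∈ ⋂ k, (T k).T := by
    intro k s hs hsk
    refine Set.mem_iInter.2 fun j => ?_
    rcases le_total j k with h | h
    · exact hmono j k h hs
    · obtain ⟨d, rfl⟩ := Nat.exists_eq_add_of_le h
      obtain ⟨t, ht, -, hst⟩ := hext k s hs hsk d
      have h1 := (T (k + d)).down t ht s.1 hst.1
      rw [hst.2] at h1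
      exact h1
  let R : Cd F :=
    { T := ⋂ k, (T k).T
      ne := by
        obtain ⟨s, hs, hs0⟩ := (T 0).exists_level hF (m 0)
        exact ⟨s, hall 0 s hs hs0⟩
      val := fun s hs => (T 0).val s (Set.mem_iInter.1 hs 0)
      down := fun t ht l hl => Set.mem_iInter.2 fun k =>
        (T k).down t (Set.mem_iInter.1 ht k) l hl
      act := by
        intro s hs
        have hj : s.1 ≤ m s.1 := hm.le_apply
        filter_upwards [bf_bs_tail hF hy hyF s.1] with v hv π
        have hyt : Blk (fun n => y (n + s.1)) := hy.comp (f := fun n => n + s.1)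
          (fun a b hab => Nat.add_lt_add_right hab _)
        obtain ⟨n, a, ha, w, hvw, hw, hbef, -, -⟩ := bs_snoc hyt hv
        have hwHi : Hi (m (n + s.1)) w.support := by
          intro i hiw
          rcases hw with rfl | hw
          · simp at hiw
          · obtain ⟨l, hil, -⟩ := mem_fu_block (supp_mem_fu hyt hw) hiw
            obtain ⟨i', hi'⟩ := Finsupp.support_nonempty_iff.2 (hyt.ne n)
            have h1 : i < i' := hbef i hiw i' hi'
            have hl : l < n := by
              rcases lt_trichotomy l n with h | h | h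
              · exact h
              · subst h
                exact absurd (hbef i hiw i hil) (lt_irrefl i)
              · have h2 : i' < i := hyt.blkF.bef h i' hi' i hil
                omega
            have h2 : i < m (l + s.1 + 1) := hi (l + s.1) i hil
            exact lt_of_lt_of_le h2 (hm.monotone (by omega))
        have hsi : s ∈ (T (n + s.1)).T := Set.mem_iInter.1 hs _
        obtain ⟨s', hs', hs'1, hss'⟩ := (T (n + s.1)).exists_ext hF hsi (m (n + s.1))
          (hj.trans (hm.monotone (by omega)))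
        obtain ⟨t, ht, ht1, hs't, htp⟩ := pat (n + s.1) s' hs' hs'1 π
        refine ⟨t, hall _ t ht ht1, hss'.trans hs't, ?_, ?_⟩
        · intro i hiv
          rw [hvw] at hiv
          rcases Finset.mem_union.1 (Finsupp.support_add hiv) with h | h
          · have h1 := hwHi i h
            rw [ht1]
            exact lt_of_lt_of_le h1 (hm.monotone (by omega))
          · exact htp.1 i (Finsupp.support_smul h)
        · intro ϑ hϑ
          refine htp.2 ϑ ?_
          rw [hvw] at hϑ
          exact TT_add_subset (hj.trans (hm.monotone (by omega))) hwHi ha hϑ }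
  refine ⟨R, ⟨hm, hy, hyF, lo, hi, ?_⟩, rfl, hall⟩
  intro k s hs hsk π
  obtain ⟨t, ht, ht1, hst, htp⟩ := pat k s (Set.mem_iInter.1 hs k) hsk π
  exact ⟨t, hall _ t ht ht1, ht1, hst, htp⟩

end Pool.Agent.SOU
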