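import Pool.Agent.Lib_MP_a0d45a_lc.Game
import Pool.Agent.Lib_MP_a0d45a_lc.Fus1

/-!
# Piece GFGEN: fusion along a play of the combined game
-/

set_option autoImplicit false

namespace Pool.Agent.SOU

variable {K : Type} [Field K] [DecidableEq K] {F : Filter (ℕ →₀ K)} {U : Ultrafilter (Finset ℕ)}

/-- patterns depend only on the type of `y` -/
theorem Pat_congr (hK : ∃ a : K, a ≠ 0 ∧ a ≠ 1) {y z : ℕ →₀ K} {m : ℕ} (hy : y ≠ 0) (hz : z ≠ 0)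
    (hm : Lo m y.support) (h : ty y = ty z) {π : Set Typ} {t : Node} :
    Pat m y π t ↔ Pat m z π t := by
  have h1 : y.support = z.support := by
    have h2 := congrArg Prod.fst h
    rwa [ty_fst, ty_fst] at h2
  unfold Pat
  rw [h1, TT_congr hK hy hz hm h]

/-- PROOF. Apply `game` to the following states: triples `(i, T, n)` with `V i T n` (a subtype of
`ι × Cd F × ℕ`), `lev = n`, `A` and `X` the sets `B`, `S` from `step` (intersected with `{b ≠ ∅}` and with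
`{y ≠ 0, Lo n (supp y)}`), `next (i, T, n) b y = (nx i b, T', N)` where `T'`, `N` are chosen, as a
function of `(i, T, n)`, `b` and the TYPE of `y` only: for a type `η`, if there is `y' ≠ 0` with `ty y' = η`,
`Lo n (supp y')` and `T'`, `N` as in `step` for `b`, `y'`, choose such a triple; otherwise the
next state is the old one. As these properties depend only on `ty y'` (`Pat_congr`), the
chosen `T'`, `N` have them for all `y` of type `η`. Finiteness: there are only finitely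
many `b` below `N` and types of `TypB N`. Then apply `fusion` to the sequence of
the `T k`, `m k`, `y k`. -/
theorem gfgen (hK : ∃ a : K, a ≠ 0 ∧ a ≠ 1) (hU : IsSOU U) (hF : IsPPlus F) {ι : Type}
    (V : ι → Cd F → ℕ → Prop) (nx : ι → Finset ℕ → ι)
    (step : ∀ i T n, V i T n → ∃ B ∈ U, ∃ S ∈ F, ∀ b ∈ B, ∀ y ∈ S, ∃ T' ≤ T, ∃ N, n < N ∧
      Hi N y.support ∧ V (nx i b) T' N ∧ ∀ s ∈ T.T, s.1 = n → ∀ π : Set Typ,
        ∃ t ∈ T'.T, t.1 = N ∧ Ext s t ∧ Pat n y π t)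
    (i₀ : ι) (T₀ : Cd F) (n₀ : ℕ) (h₀ : V i₀ T₀ n₀) :
    ∃ (b : ℕ → Finset ℕ) (y : ℕ → ℕ →₀ K) (i : ℕ → ι) (T : ℕ → Cd F) (m : ℕ → ℕ) (R : Cd F),
      BlkF b ∧ fu b ∈ U ∧ i 0 = i₀ ∧ T 0 = T₀ ∧ m 0 = n₀ ∧ (∀ k, i (k + 1) = nx (i k) (b k)) ∧
      (∀ k, T (k + 1) ≤ T k) ∧ (∀ k, V (i k) (T k) (m k)) ∧ Fused R m y ∧ (∀ k, R ≤ T k) ∧
      ∀ k, ∀ s ∈ (T k).T, s.1 = m k → s ∈ R.T := by
  classical
  have hBF : IsBlockFilter F := hF.toIsFull.toIsBlockFilter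
  let St : Type := {x : ι × Cd F × ℕ // V x.1 x.2.1 x.2.2}
  have step' : ∀ σ : St, ∃ B ∈ U, ∃ S ∈ F, ∀ b ∈ B, ∀ y ∈ S, ∃ T' ≤ σ.1.2.1, ∃ N, σ.1.2.2 < N ∧
      Hi N y.support ∧ V (nx σ.1.1 b) T' N ∧ ∀ s ∈ σ.1.2.1.T, s.1 = σ.1.2.2 → ∀ π : Set Typ,
        ∃ t ∈ T'.T, t.1 = N ∧ Ext s t ∧ Pat σ.1.2.2 y π t :=
    fun σ => step σ.1.1 σ.1.2.1 σ.1.2.2 σ.2
  choose A hAU X hXF hAX using step'
  -- the next state, as a function of the type only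
  have hnext : ∀ (σ : St) (b : Finset ℕ) (η : Typ), ∃ τ : St,
      (∃ y' : ℕ →₀ K, y' ≠ 0 ∧ ty y' = η ∧ Lo σ.1.2.2 y'.support ∧ ∃ T' ≤ σ.1.2.1, ∃ N,
        σ.1.2.2 < N ∧ Hi N y'.support ∧ V (nx σ.1.1 b) T' N ∧
        ∀ s ∈ σ.1.2.1.T, s.1 = σ.1.2.2 → ∀ π : Set Typ,
          ∃ t ∈ T'.T, t.1 = N ∧ Ext s t ∧ Pat σ.1.2.2 y' π t) →
      (τ.1.1 = nx σ.1.1 b ∧ ∃ y' : ℕ →₀ K, y' ≠ 0 ∧ ty y' = η ∧ Lo σ.1.2.2 y'.support ∧
        τ.1.2.1 ≤ σ.1.2.1 ∧ σ.1.2.2 < τ.1.2.2 ∧ Hi τ.1.2.2 y'.support ∧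
        ∀ s ∈ σ.1.2.1.T, s.1 = σ.1.2.2 → ∀ π : Set Typ,
          ∃ t ∈ τ.1.2.1.T, t.1 = τ.1.2.2 ∧ Ext s t ∧ Pat σ.1.2.2 y' π t) := by
    intro σ b η
    by_cases h : (∃ y' : ℕ →₀ K, y' ≠ 0 ∧ ty y' = η ∧ Lo σ.1.2.2 y'.support ∧ ∃ T' ≤ σ.1.2.1, ∃ N,
        σ.1.2.2 < N ∧ Hi N y'.support ∧ V (nx σ.1.1 b) T' N ∧
        ∀ s ∈ σ.1.2.1.T, s.1 = σ.1.2.2 → ∀ π : Set Typ,
          ∃ t ∈ T'.T, t.1 = N ∧ Ext s t ∧ Pat σ.1.2.2 y' π t)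
    · obtain ⟨y', h1, h2, h3, T', h4, N, h5, h6, h7, h8⟩ := h
      exact ⟨⟨(nx σ.1.1 b, T', N), h7⟩, fun _ => ⟨rfl, y', h1, h2, h3, h4, h5, h6, h8⟩⟩
    · exact ⟨σ, fun h' => absurd h' h⟩
  choose nxt hnxt using hnext
  obtain ⟨b, y, σ, hσ0, hσs, hbA, hyX, hbl, hyl, hb, hy, hbU, hyF⟩ :=
    game hU hF A (fun σ => X σ ∩ {y | y ≠ 0}) (fun σ => σ.1.2.2)
      (fun σ b y => nxt σ b (ty y)) hAU (fun σ => Filter.inter_mem (hXF σ) hBF.nz) (by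
        intro σ N
        refine Set.Finite.subset (Set.Finite.image (fun q : Finset ℕ × Typ => nxt σ q.1 q.2)
          (((Finset.range N).powerset ×ˢ TypB N).finite_toSet)) ?_
        rintro τ ⟨b, y, h1, h2, rfl⟩
        refine ⟨(b, ty y), ?_, rfl⟩
        rw [Finset.mem_coe, Finset.mem_product]
        refine ⟨?_, ty_mem_TypB h2⟩
        rw [Finset.mem_powerset]
        intro j hj
        exact Finset.mem_range.2 (h1 j hj)) (⟨(i₀, T₀, n₀), h₀⟩ : St)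
  -- the properties of the play
  have hplay : ∀ k, (σ (k + 1)).1.1 = nx (σ k).1.1 (b k) ∧ (σ (k + 1)).1.2.1 ≤ (σ k).1.2.1 ∧
      (σ k).1.2.2 < (σ (k + 1)).1.2.2 ∧ Hi (σ (k + 1)).1.2.2 (y k).support ∧
      ∀ s ∈ (σ k).1.2.1.T, s.1 = (σ k).1.2.2 → ∀ π : Set Typ,
        ∃ t ∈ (σ (k + 1)).1.2.1.T, t.1 = (σ (k + 1)).1.2.2 ∧ Ext s t ∧
          Pat (σ k).1.2.2 (y k) π t := by
    intro k
    obtain ⟨T', h4, N, h5, h6, h7, h8⟩ := hAX (σ k) (b k) (hbA k) (y k) (hyX k).1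
    have hyne : y k ≠ 0 := (hyX k).2
    obtain ⟨g1, y', g2, g3, g4, g5, g6, g7, g8⟩ := hnxt (σ k) (b k) (ty (y k))
      ⟨y k, hyne, rfl, hyl k, T', h4, N, h5, h6, h7, h8⟩
    have hsup : y'.support = (y k).support := by
      have h2 := congrArg Prod.fst g3
      rwa [ty_fst, ty_fst] at h2
    have hs : σ (k + 1) = nxt (σ k) (b k) (ty (y k)) := hσs k
    rw [hs]
    refine ⟨g1, g5, g6, hsup ▸ g7, ?_⟩
    intro s hsT hsn π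
    obtain ⟨t, ht1, ht2, ht3, ht4⟩ := g8 s hsT hsn π
    exact ⟨t, ht1, ht2, ht3, (Pat_congr hK g2 hyne g4 g3).1 ht4⟩
  obtain ⟨R, hR1, hR2, hR3⟩ := fusion hBF (fun k => (σ k).1.2.1) (fun k => (σ k).1.2.2) y
    (fun k => (hplay k).2.1) (strictMono_nat_of_lt_succ fun k => (hplay k).2.2.1) hy hyF
    (fun k => hyl k) (fun k => (hplay k).2.2.2.1) (fun k => (hplay k).2.2.2.2)
  refine ⟨b, y, fun k => (σ k).1.1, fun k => (σ k).1.2.1, fun k => (σ k).1.2.2, R, hb, hbU,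
    congrArg (fun τ : St => τ.1.1) hσ0, congrArg (fun τ : St => τ.1.2.1) hσ0,
    congrArg (fun τ : St => τ.1.2.2) hσ0, fun k => (hplay k).1, fun k => (hplay k).2.1,
    fun k => (σ k).2, hR1, ?_, hR3⟩
  intro k
  change R.T ⊆ (σ k).1.2.1.T
  rw [hR2]
  exact Set.iInter_subset _ k

end Pool.Agent.SOU
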