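import Pool.Agent.Lib_MP_a0d45a_lc.Cuts

/-!
# Piece GAME: the combined game
-/

set_option autoImplicit false

namespace Pool.Agent.SOU

variable {K : Type} [Field K] {F : Filter (ℕ →₀ K)} {U : Ultrafilter (Finset ℕ)}

/-- the states reachable from `σ₀` by at most `n` moves `(b, y)` below `N` -/
private def gameReach {St : Type} (next : St → Finset ℕ → (ℕ →₀ K) → St) (σ₀ : St) (N : ℕ) :
    ℕ → Set St
  | 0 => {σ₀}
  | n + 1 => gameReach next σ₀ N n ∪ ⋃ σ ∈ gameReach next σ₀ N n,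
      {τ | ∃ b y, Hi N b ∧ Hi N (Finsupp.support y) ∧ τ = next σ b y}

private theorem gameReach_finite {St : Type} (next : St → Finset ℕ → (ℕ →₀ K) → St)
    (hfin : ∀ σ N, {τ | ∃ b y, Hi N b ∧ Hi N (Finsupp.support y) ∧ τ = next σ b y}.Finite)
    (σ₀ : St) (N n : ℕ) : (gameReach next σ₀ N n).Finite := by
  induction n with
  | zero => exact Set.finite_singleton _
  | succ n ih => exact ih.union (ih.biUnion fun σ _ => hfin σ N)

private theorem gameReach_mono {St : Type} (next : St → Finset ℕ → (ℕ →₀ K) → St)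
    (σ₀ : St) (N : ℕ) {m n : ℕ} (h : m ≤ n) :
    gameReach next σ₀ N m ⊆ gameReach next σ₀ N n := by
  induction h with
  | refl => exact subset_rfl
  | step _ ih => exact ih.trans Set.subset_union_left

private theorem gameReach_mem {St : Type} (next : St → Finset ℕ → (ℕ →₀ K) → St)
    (σ₀ : St) (N : ℕ) (b : ℕ → Finset ℕ) (y : ℕ → ℕ →₀ K) (σ : ℕ → St) (h0 : σ 0 = σ₀)
    (hs : ∀ k, σ (k + 1) = next (σ k) (b k) (y k)) (l : ℕ)
    (hb : ∀ i < l, Hi N (b i)) (hy : ∀ i < l, Hi N (y i).support) :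
    σ l ∈ gameReach next σ₀ N l := by
  induction l with
  | zero => exact h0
  | succ l ih =>
    refine Or.inr ?_
    refine Set.mem_iUnion₂.2 ⟨σ l, ih (fun i hi => hb i (by omega)) (fun i hi => hy i (by omega)), ?_⟩
    exact ⟨b l, y l, hb l (by omega), hy l (by omega), hs l⟩

/-- PROOF. For `N` let `R N` be the finite set of the states reachable from `σ₀` by at most `N` moves
`(b, y)` with `b` and `supp y` below `N` (finite by induction on the number of moves, by `hfin`). Let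
`A' N = ⋂_{σ ∈ R N} A σ ∈ U`, `X' N = ⋂_{σ ∈ R N} X σ ∈ F`, `g N` the maximum of `lev σ`, `σ ∈ R N`.
By `U_pseudo`, `F_pseudo` there are `⟨A₁⟩ ∈ U`, `⟨Y₁⟩ ∈ F` and `k, k'` such that `b ∈ ⟨A₁⟩`, `Lo (k N) b` imply
`b ∈ A' N`, and `v ∈ ⟨Y₁⟩`, `Lo (k' N) (supp v)` imply `v ∈ X' N`. Let `a 0 = 0` and
`a (i+1) > a i, k (a i), k' (a i), g (a i)`. Take `b`, `y`, `j` from `common_cuts` (for `a`, `A₁`, `Y₁`) and define
`σ` recursively. At stage `l` let `N = a (j l)`. All `b i`, `supp (y i)`, `i < l`, are below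
`a (j (i+1)) ≤ N`, and `l ≤ j l ≤ N`. So `σ l ∈ R N`. As `b l ∈ ⟨A₁⟩` is above
`a (j l + 1) ≥ k N`, `b l ∈ A' N ⊆ A (σ l)`; similarly `y l ∈ X (σ l)`, and
`lev (σ l) ≤ g N ≤ a (j l + 1)`. -/
theorem game (hU : IsSOU U) (hF : IsPPlus F) {St : Type} (A : St → Set (Finset ℕ))
    (X : St → Set (ℕ →₀ K)) (lev : St → ℕ) (next : St → Finset ℕ → (ℕ →₀ K) → St)
    (hA : ∀ σ, A σ ∈ U) (hX : ∀ σ, X σ ∈ F)
    (hfin : ∀ σ N, {τ | ∃ b y, Hi N b ∧ Hi N (Finsupp.support y) ∧ τ = next σ b y}.Finite)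
    (σ₀ : St) :
    ∃ (b : ℕ → Finset ℕ) (y : ℕ → ℕ →₀ K) (σ : ℕ → St), σ 0 = σ₀ ∧
      (∀ k, σ (k + 1) = next (σ k) (b k) (y k)) ∧ (∀ k, b k ∈ A (σ k)) ∧ (∀ k, y k ∈ X (σ k)) ∧
      (∀ k, Lo (lev (σ k)) (b k)) ∧ (∀ k, Lo (lev (σ k)) (y k).support) ∧
      BlkF b ∧ Blk y ∧ fu b ∈ U ∧ bs y ∈ F := by
  classical
  have hRf : ∀ N, (gameReach next σ₀ N N).Finite := fun N => gameReach_finite next hfin σ₀ N N
  obtain ⟨A₁, hA₁, hA₁U, hk⟩ := U_pseudo hU (fun N => ⋂ σ ∈ gameReach next σ₀ N N, A σ)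
    (fun N => (Filter.biInter_mem (hRf N)).2 fun σ _ => hA σ)
  obtain ⟨Y₁, hY₁, hY₁F, hk'⟩ := F_pseudo hF (fun N => ⋂ σ ∈ gameReach next σ₀ N N, X σ)
    (fun N => (Filter.biInter_mem (hRf N)).2 fun σ _ => hX σ)
  choose k hk using hk
  choose k' hk' using hk'
  have hg : ∀ N, ∃ g, ∀ σ ∈ gameReach next σ₀ N N, lev σ ≤ g := by
    intro N
    obtain ⟨g, hg⟩ := ((hRf N).image lev).bddAbove
    exact ⟨g, fun σ hσ => hg ⟨σ, hσ, rfl⟩⟩
  choose g hg using hg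
  obtain ⟨a, ha0, has⟩ : ∃ a : ℕ → ℕ, a 0 = 0 ∧
      ∀ i, a (i + 1) = a i + 1 + k (a i) + k' (a i) + g (a i) :=
    ⟨fun i => Nat.rec 0 (fun _ x => x + 1 + k x + k' x + g x) i, rfl, fun _ => rfl⟩
  have ha : StrictMono a := strictMono_nat_of_lt_succ fun i => by rw [has i]; omega
  obtain ⟨b, y, j, hj, hb, hy, hbU, hyF, hbA, hyY, hb1, hb2, hy1, hy2⟩ :=
    common_cuts hU hF a ha hA₁ hA₁U hY₁ hY₁F
  obtain ⟨σ, hσ0, hσs⟩ : ∃ σ : ℕ → St, σ 0 = σ₀ ∧ ∀ n, σ (n + 1) = next (σ n) (b n) (y n) :=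
    ⟨fun n => Nat.rec σ₀ (fun n s => next s (b n) (y n)) n, rfl, fun _ => rfl⟩
  have hmem : ∀ l, σ l ∈ gameReach next σ₀ (a (j l)) (a (j l)) := by
    intro l
    have h1 : σ l ∈ gameReach next σ₀ (a (j l)) l := by
      refine gameReach_mem next σ₀ (a (j l)) b y σ hσ0 hσs l ?_ ?_
      · intro i hi x hx
        exact lt_of_lt_of_le (hb2 i x hx) (ha.monotone (hj.monotone (by omega)))
      · intro i hi x hx
        exact lt_of_lt_of_le (hy2 i x hx) (ha.monotone (hj.monotone (by omega)))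
    exact gameReach_mono next σ₀ _ ((hj.le_apply).trans ha.le_apply) h1
  refine ⟨b, y, σ, hσ0, hσs, ?_, ?_, ?_, ?_, hb, hy, hbU, hyF⟩
  · intro l
    have h2 := hk (a (j l)) (b l) (hbA l) (fun x hx => le_trans (by rw [has]; omega) (hb1 l x hx))
    exact Set.mem_iInter₂.1 h2 (σ l) (hmem l)
  · intro l
    have h2 := hk' (a (j l)) (y l) (hyY l)
      (fun x hx => le_trans (by rw [has]; omega) (hy1 l x hx))
    exact Set.mem_iInter₂.1 h2 (σ l) (hmem l)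
  · intro l x hx
    have h3 := hg (a (j l)) (σ l) (hmem l)
    exact le_trans (by rw [has]; omega) (hb1 l x hx)
  · intro l x hx
    have h3 := hg (a (j l)) (σ l) (hmem l)
    exact le_trans (by rw [has]; omega) (hy1 l x hx)

end Pool.Agent.SOU
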