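import Pool.Agent.Lib_MP_a0d45a_lc.Game
import Pool.Agent.Lib_MP_a0d45a_lc.GFgen
import Pool.Agent.Lib_MP_a0d45a_lc.USF

/-!
# Piece L2A: every condition is fused along some sequence
-/

set_option autoImplicit false

namespace Pool.Agent.SOU

variable {K : Type} [Field K] [DecidableEq K] {F : Filter (ℕ →₀ K)}

/-- the extension property of a level -/
private def LTwoA_E (T : Cd F) (n : ℕ) (y : ℕ →₀ K) (N : ℕ) : Prop :=
  n < N ∧ Hi N y.support ∧ ∀ s ∈ T.T, s.1 = n → ∀ π : Set Typ,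
    ∃ t ∈ T.T, t.1 = N ∧ Ext s t ∧ Pat n y π t

private theorem LTwoA_pat_inter {n : ℕ} {y : ℕ →₀ K} {π : Set Typ} {t : Node} :
    Pat n y (π ∩ TT n y) t ↔ Pat n y π t := by
  unfold Pat
  constructor
  · rintro ⟨h1, h2⟩
    refine ⟨h1, fun ϑ hϑ => (h2 ϑ hϑ).trans ?_⟩
    exact ⟨fun h => h.1, fun h => ⟨h, hϑ⟩⟩
  · rintro ⟨h1, h2⟩
    refine ⟨h1, fun ϑ hϑ => (h2 ϑ hϑ).trans ?_⟩
    exact ⟨fun h => ⟨h, hϑ⟩, fun h => h.1⟩

private theorem LTwoA_exists_N (hF : IsBlockFilter F) (T : Cd F) (n : ℕ) (y : ℕ →₀ K)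
    (h : ∀ s ∈ T.T, s.1 = n → ∀ π : Set Typ, ∃ t ∈ T.T, Ext s t ∧ Pat n y π t) :
    ∃ N, LTwoA_E T n y N := by
  classical
  -- finitely many pairs
  have hfinP : (𝒫 (TT n y)).Finite := (TT_finite n y).finite_subsets
  have hfin : ({t ∈ T.T | t.1 = n} ×ˢ (𝒫 (TT n y))).Finite :=
    (T.level_finite n).prod hfinP
  -- choose the extensions
  have hch : ∀ p : Node × Set Typ, ∃ N : ℕ, p ∈ {t ∈ T.T | t.1 = n} ×ˢ (𝒫 (TT n y)) →
      ∃ t ∈ T.T, t.1 = N ∧ Ext p.1 t ∧ Pat n y p.2 t := by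
    intro p
    by_cases hp : p ∈ {t ∈ T.T | t.1 = n} ×ˢ (𝒫 (TT n y))
    · obtain ⟨t, ht, h1, h2⟩ := h p.1 hp.1.1 hp.1.2 p.2
      exact ⟨t.1, fun _ => ⟨t, ht, rfl, h1, h2⟩⟩
    · exact ⟨0, fun h => absurd h hp⟩
  choose g hg using hch
  obtain ⟨M, hM⟩ := (hfin.image g).bddAbove
  refine ⟨M + n + mx y.support + 1, by omega, ?_, ?_⟩
  · intro j hj
    have := le_mx hj
    omega
  · intro s hs hsn π
    have hp : (s, π ∩ TT n y) ∈ {t ∈ T.T | t.1 = n} ×ˢ (𝒫 (TT n y)) :=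
      ⟨⟨hs, hsn⟩, Set.inter_subset_right⟩
    obtain ⟨t, ht, h1, h2, h3⟩ := hg _ hp
    have hle : g (s, π ∩ TT n y) ≤ M := hM ⟨_, hp, rfl⟩
    obtain ⟨u, hu, hu1, hu2⟩ := T.exists_ext hF ht (M + n + mx y.support + 1) (by omega)
    refine ⟨u, hu, hu1, h2.trans hu2, ?_⟩
    have h4 : Pat n y π t := LTwoA_pat_inter.mp h3
    exact h4.ext (by rw [← hsn]; exact h2.1) hu2

/-- PROOF. Apply `game` (with `U` the support ultrafilter of `F`) to the states `n : ℕ` with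
`lev n = n`, `A n = univ`, `X n` the set of the `y ∈ S₀` with `y ≠ 0`, `Lo n (supp y)`, which are as in `T.act s` for all the finitely many nodes
`s ∈ T.T` of level `n`, and `next n b y = N`, where `N` is chosen, depending only on `n` and the type
of `y` (as in `gfgen`, `Pat_congr`), such that `n < N`, `Hi N (supp y)` and for all `s ∈ T.T` of level `n` and all `π` there
is `t ∈ T.T` of level `N` with `Ext s t`, `Pat n y π t` (finitely many `s`; finitely many `π ⊆ TT n y` are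
enough; extend the nodes obtained from `act` to a common level with `Cd.exists_ext`).
Then `m k` is the sequence of the states. -/
theorem exists_fused (hK : ∃ a : K, a ≠ 0 ∧ a ≠ 1) (hF : IsPPlus F) (T : Cd F) (n₀ : ℕ)
    {S₀ : Set (ℕ →₀ K)} (hS : S₀ ∈ F) :
    ∃ (m : ℕ → ℕ) (y : ℕ → ℕ →₀ K), m 0 = n₀ ∧ Fused T m y ∧ ∀ k, y k ∈ S₀ := by
  classical
  have hBF : IsBlockFilter F := hF.toIsFull.toIsBlockFilter
  obtain ⟨U, hU'⟩ := exists_US hF.toIsFull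
  have hU : IsSOU U := US_sou hF hU'
  -- the next state
  let Q : ℕ → Typ → ℕ → Prop := fun n η N =>
    ∃ y' : ℕ →₀ K, y' ≠ 0 ∧ Lo n y'.support ∧ ty y' = η ∧ LTwoA_E T n y' N
  let nxt : ℕ → Typ → ℕ := fun n η => if h : ∃ N, Q n η N then h.choose else 0
  have hnxt : ∀ n η, (∃ N, Q n η N) → Q n η (nxt n η) := by
    intro n η h
    simp only [nxt, dif_pos h]
    exact h.choose_spec
  let X : ℕ → Set (ℕ →₀ K) := fun n => {y | y ∈ S₀ ∧ y ≠ 0 ∧ Lo n y.support ∧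
    ∀ s ∈ T.T, s.1 = n → ∀ π : Set Typ, ∃ t ∈ T.T, Ext s t ∧ Pat n y π t}
  have hX : ∀ n, X n ∈ F := by
    intro n
    have h1 : ∀ᶠ y in F, ∀ s ∈ {t ∈ T.T | t.1 = n}, ∀ π : Set Typ,
        ∃ t ∈ T.T, Ext s t ∧ Pat n y π t := by
      rw [Filter.eventually_all_finite (T.level_finite n)]
      rintro s ⟨hs, hsn⟩
      have := T.act s hs
      rw [hsn] at this
      exact this
    filter_upwards [h1, hS, bf_ne hBF, bf_tail hBF n] with y a1 a2 a3 a4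
    exact ⟨a2, a3, a4, fun s hs hsn => a1 s ⟨hs, hsn⟩⟩
  obtain ⟨b, y, σ, hσ0, hσ, -, hyX, -, hlev, -, hblk, -, hmem⟩ :=
    game hU hF (St := ℕ) (fun _ => Set.univ) X (fun n => n) (fun n _ y => nxt n (ty y))
      (fun _ => Filter.univ_mem) hX
      (by
        intro n N
        apply ((TypB N).finite_toSet.image (nxt n)).subset
        rintro τ ⟨b, y, -, hy, rfl⟩
        exact ⟨ty y, ty_mem_TypB hy, rfl⟩) n₀
  have hE : ∀ k, LTwoA_E T (σ k) (y k) (σ (k + 1)) := by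
    intro k
    obtain ⟨h1, h2, h3, h4⟩ := hyX k
    obtain ⟨N, hN⟩ := LTwoA_exists_N hBF T (σ k) (y k) h4
    have hQ := hnxt (σ k) (ty (y k)) ⟨N, y k, h2, h3, rfl, hN⟩
    rw [← hσ k] at hQ
    obtain ⟨y', hy'0, hy'lo, hty, e1, e2, e3⟩ := hQ
    have hsupp : y'.support = (y k).support := by
      have := congrArg Prod.fst hty
      rwa [ty_fst, ty_fst] at this
    refine ⟨e1, by rw [← hsupp]; exact e2, ?_⟩
    intro s hs hsn π
    obtain ⟨t, ht, ht1, ht2, ht3⟩ := e3 s hs hsn π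
    exact ⟨t, ht, ht1, ht2, (Pat_congr hK hy'0 h2 hy'lo hty).mp ht3⟩
  refine ⟨σ, y, hσ0, ⟨strictMono_nat_of_lt_succ fun k => (hE k).1, hblk, hmem,
    hlev, fun k => (hE k).2.1, fun k => (hE k).2.2⟩, fun k => (hyX k).1⟩

/-- with `⟨y⟩ ⊆ ⟨X⟩`: `bs_mono` -/
theorem exists_fused' (hK : ∃ a : K, a ≠ 0 ∧ a ≠ 1) (hF : IsPPlus F) (T : Cd F) (n₀ : ℕ)
    {X : ℕ → ℕ →₀ K} (hX : bs X ∈ F) :
    ∃ (m : ℕ → ℕ) (y : ℕ → ℕ →₀ K), m 0 = n₀ ∧ Fused T m y ∧ bs y ⊆ bs X := by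
  obtain ⟨m, y, h1, h2, h3⟩ := exists_fused hK hF T n₀ hX
  exact ⟨m, y, h1, h2, bs_mono h3⟩

end Pool.Agent.SOU
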