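import Pool.Agent.Lib_MP_a0d45a_lc.NH
import Pool.Agent.Lib_MP_a0d45a_lc.Dem
import Pool.Agent.Lib_MP_a0d45a_lc.UDiag
import Pool.Agent.Lib_MP_a0d45a_lc.Typ2

/-!
# Piece L2B: prescribing the pattern at `U`-many vectors `y_b`
-/

set_option autoImplicit false

namespace Pool.Agent.SOU

variable {K : Type} [Field K] [DecidableEq K] {F : Filter (ℕ →₀ K)} {U : Ultrafilter (Finset ℕ)}

/-- For every choice of vectors `z b` there is `⟨A⟩ ∈ U` such that for all `n`, for `F`-many `y`: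
`ty y ≠ ty (z b from n on)` for all `b ∈ ⟨A⟩`.
PROOF. For `j ∈ ℕ` and a finite set `τ` apply `nh` to `η_{j,τ} c = ty ((z (τ ∪ c)).filter (j ≤ ·))`: get `B j τ ∈ U` and
`S j τ ∈ F`. Let `A` be from `diag` for the sets `⋂_{j ≤ n} ⋂_{τ ⊆ range n} B j τ`. Fix `j`. Let `b ∈ ⟨A⟩`. Write `b = τ ∪ c` with
`τ` the union of the entries `A i ⊆ b`, `i ≤ j`, and `c` the union of the others (`fu_split` with `k = j + 1`). If
`c ≠ ∅`: `A j < c`, so `c ∈ B j' τ'` for all `j' ≤ mx (A j) + 1` (`≥ j + 1`) and `τ' ⊆ range (mx (A j) + 1)`, in particular for `j` and `τ`.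
So `ty y ≠ η_{j,τ} c` for `y ∈ S j τ`. If `c = ∅`: `b = τ` is one of finitely many sets; all
`y ≠ 0` whose support is above `supp (z τ)` satisfy `ty y ≠ ty (z τ from j on)`. So the
intersection of the finitely many `S j τ` (`τ ⊆ range (mx (A j) + 1)`) and of the set of the
`y ≠ 0` with support above all these `supp (z τ)` is as required. -/
theorem avoid_types (hK : ∃ a : K, a ≠ 0 ∧ a ≠ 1) (hF : IsPPlus F) (hU : IsSOU U)
    (z : Finset ℕ → ℕ →₀ K) {B : Set (Finset ℕ)} (hB : B ∈ U) :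
    ∃ A, BlkF A ∧ fu A ∈ U ∧ fu A ⊆ B ∧
      ∀ n, ∀ᶠ y in F, ∀ b ∈ fu A, ty y ≠ ty ((z b).filter (fun i => n ≤ i)) := by
  have hnh : ∀ (j : ℕ) (τ : Finset ℕ), ∃ B ∈ U, ∃ S ∈ F, ∀ c ∈ B, ∀ y ∈ S,
      ty y ≠ ty ((z (τ ∪ c)).filter (fun i => j ≤ i)) := fun j τ =>
    nh hK hF hU (fun c => ty ((z (τ ∪ c)).filter (fun i => j ≤ i)))
  choose Bs hBs Ss hSs hne using hnh
  have hSmem : ∀ n : ℕ, (B ∩ ⋂ j ∈ Finset.range (n + 1),
      ⋂ τ ∈ (Finset.range n).powerset, Bs j τ) ∈ U := by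
    intro n
    rw [← Ultrafilter.mem_coe]
    refine Filter.inter_mem hB ?_
    rw [Filter.biInter_finset_mem]
    intro j _
    rw [Filter.biInter_finset_mem]
    intro τ _
    exact hBs j τ
  obtain ⟨A, hA, hAU, hA0, hAd⟩ := diag hU _ hSmem
  refine ⟨A, hA, hAU, fun b hb => (hA0 hb).1, ?_⟩
  intro j
  have hmxmono : ∀ n, n < j + 1 → mx (A n) ≤ mx (A j) := by
    intro n hn
    rcases Nat.lt_succ_iff_lt_or_eq.1 hn with h | h
    · have h1 := (hA.bef h).mx_lt (hA.ne n) (mx_mem (hA.ne j))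
      omega
    · rw [h]
  have hjm : j ≤ mx (A j) := hA.ge j _ (mx_mem (hA.ne j))
  have ev1 : ∀ᶠ y in F, ∀ τ ∈ (Finset.range (mx (A j) + 1)).powerset, y ∈ Ss j τ := by
    have h0 : (⋂ τ ∈ (Finset.range (mx (A j) + 1)).powerset, Ss j τ) ∈ F := by
      rw [Filter.biInter_finset_mem]
      intro τ _
      exact hSs j τ
    filter_upwards [h0] with y hy τ hτ
    exact Set.mem_iInter₂.1 hy τ hτ
  have ev2 : ∀ᶠ y in F, y ≠ 0 := bf_ne hF.toIsBlockFilter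
  have ev3 : ∀ᶠ y in F, Lo ((Finset.range (mx (A j) + 1)).powerset.sup
      (fun τ => mx (z τ).support + 1)) y.support := bf_tail hF.toIsBlockFilter _
  filter_upwards [ev1, ev2, ev3] with y hy1 hy2 hy3
  intro b hb
  obtain ⟨τ, c, hbc, hτ, hc⟩ := fu_split hA hb (j + 1)
  have hτsub : τ ∈ (Finset.range (mx (A j) + 1)).powerset := by
    rw [Finset.mem_powerset]
    intro i hi
    rw [Finset.mem_range]
    rcases hτ with h | ⟨_, n, hn, hmx⟩
    · rw [h] at hi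
      exact absurd hi (Finset.notMem_empty i)
    · have h1 := le_mx hi
      have h2 := hmxmono n hn
      omega
  rcases hc with hc | hc
  · -- `b = τ` is one of finitely many sets
    rw [hc, Finset.union_empty] at hbc
    rw [hbc]
    intro heq
    have hsupp : y.support = ((z τ).filter (fun i => j ≤ i)).support := by
      have h1 := congrArg Prod.fst heq
      rwa [ty_fst, ty_fst] at h1
    have hyne : y.support.Nonempty := Finsupp.support_nonempty_iff.2 hy2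
    obtain ⟨i, hi⟩ := hyne
    have hi2 : i ∈ (z τ).support := by
      rw [hsupp, Finsupp.support_filter] at hi
      exact (Finset.mem_filter.1 hi).1
    have h3 := hy3 i hi
    have h4 := le_mx hi2
    have h5 : mx (z τ).support + 1 ≤ (Finset.range (mx (A j) + 1)).powerset.sup
        (fun τ => mx (z τ).support + 1) :=
      Finset.le_sup (f := fun τ => mx (z τ).support + 1) hτsub
    omega
  · obtain ⟨hcA, hcB⟩ := (mem_fu_tail hA (j + 1)).1 hc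
    have h1 := hAd (A j) (self_mem_fu A j) c hcA (hcB j (Nat.lt_succ_self j))
    have h2 : c ∈ Bs j τ := by
      have h3 := Set.mem_iInter₂.1 h1.2 j (Finset.mem_range.2 (by omega))
      exact Set.mem_iInter₂.1 h3 τ hτsub
    rw [hbc]
    exact hne j τ c h2 y (hy1 τ hτsub)

private theorem l2b_hi {T : Cd F} {m : ℕ → ℕ} {y : ℕ → ℕ →₀ K} (hT : Fused T m y) {w : ℕ →₀ K}
    {n : ℕ} (hw : w = 0 ∨ w ∈ bs y) (hb : Bef w.support (y n).support) : Hi (m n) w.support := by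
  intro i hi
  rcases hw with h | h
  · rw [h] at hi
    exact absurd hi (by simp)
  · obtain ⟨k, hk1, hk2⟩ := mem_fu_block (supp_mem_fu hT.blk h) hi
    have hblk := hT.blk.blkF
    have hkn : k < n := by
      by_contra hcon
      have hcon' : n ≤ k := not_lt.1 hcon
      obtain ⟨l, hl⟩ := Finsupp.support_nonempty_iff.2 (hT.blk.ne n)
      rcases Nat.eq_or_lt_of_le hcon' with h1 | h1
      · subst h1
        exact lt_irrefl _ (hb i hi i hk1)
      · have h2 : l < i := hblk.bef h1 l hl i hk1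
        have h3 : i < l := hb i hi l hl
        omega
    have h4 : i < m (k + 1) := hT.hi k i hk1
    have h5 : m (k + 1) ≤ m n := hT.mono.monotone hkn
    omega

private theorem l2b_lo {T : Cd F} {m : ℕ → ℕ} {y : ℕ → ℕ →₀ K} (hT : Fused T m y) {w : ℕ →₀ K}
    (hw : w ∈ bs y) : Lo (m 0) w.support := by
  intro i hi
  obtain ⟨k, hk1, hk2⟩ := mem_fu_block (supp_mem_fu hT.blk hw) hi
  have h1 : m k ≤ i := hT.lo k i hk1
  have h2 : m 0 ≤ m k := hT.mono.monotone (Nat.zero_le k)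
  omega

/-- PROOF. Take `A` from `avoid_types`, and apply `demand` with `Dem = ⋃_{b ∈ ⟨A⟩} TT (m 0) (z b)`,
`ρ = ⋃_{b ∈ ⟨A⟩} {ϑ ∈ TT (m 0) (z b) | ϑ ∈ lab (ty (z b)) '' Λ}`. `h1`: `z b` is `w + a • y i` with `i` the last index
(`bs_snoc`), so `TT (m 0) (z b) ⊆ TT (m i) (y i)` (`TT_add_subset`). `h2`: let `j` be given. For `F`-many `v`: `v ≠ 0`,
`Lo (m j) (supp v)`, `ty v ≠ ty (z b from m j on)` for all `b ∈ ⟨A⟩`; if
`ϑ ∈ TT (m j) v ∩ TT (m 0) (z b)` then `ty v = ty (z b from m j on)` by `TT_inter`, contradiction. Finally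
for `b ∈ ⟨A⟩` and `ϑ ∈ TT (m 0) (z b)`: `ϑ ∈ ρ ↔ ϑ ∈ lab (ty (z b)) '' Λ`: if
`ϑ ∈ TT (m 0) (z b')` with `ϑ ∈ lab (ty (z b')) '' Λ`, then `ty (z b) = ty (z b')` by `TT_inter` (both supports are `≥ m 0`, so the
part of `z b'` from `m 0` on is `z b'`). For `t ∈ R.T` with `Hi t.1 (supp (z b))`: all
`ϑ ∈ TT (m 0) (z b)` are in `TypB t.1` because `m 0 ≤ t.1` (`z b ≠ 0` has support `≥ m 0` and
`< t.1`). -/
theorem prescribe (hK : ∃ a : K, a ≠ 0 ∧ a ≠ 1) (hF : IsPPlus F) (hU : IsSOU U) {T : Cd F}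
    {m : ℕ → ℕ} {y : ℕ → ℕ →₀ K} (hT : Fused T m y) (z : Finset ℕ → ℕ →₀ K)
    {B : Set (Finset ℕ)} (hB : B ∈ U) (hz : ∀ b ∈ B, z b ∈ bs y)
    (Λ : Set (Option (Typ × Bool))) :
    ∃ A, BlkF A ∧ fu A ∈ U ∧ fu A ⊆ B ∧ ∃ R ≤ T, (∀ s ∈ T.T, s.1 = m 0 → s ∈ R.T) ∧
      ∀ b ∈ fu A, ∀ t ∈ R.T, Hi t.1 (z b).support → ∀ ϑ ∈ TT (m 0) (z b),
        (ϑ ∈ t.2 ↔ ϑ ∈ lab (ty (z b)) '' Λ) := by
  obtain ⟨A, hA, hAU, hAB, hAt⟩ := avoid_types hK hF hU z hB
  obtain ⟨R, hR, hsat, hlev⟩ := demand hF.toIsBlockFilter hT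
    {ϑ | ∃ b ∈ fu A, ϑ ∈ TT (m 0) (z b)}
    {ϑ | ∃ b ∈ fu A, ϑ ∈ TT (m 0) (z b) ∧ ϑ ∈ lab (ty (z b)) '' Λ} (by
      rintro ϑ ⟨b, hb, hϑ⟩
      obtain ⟨n, a, ha, w, hv, hw, hbef, _, _⟩ := bs_snoc hT.blk (hz b (hAB hb))
      refine ⟨n, ?_⟩
      rw [hv] at hϑ
      exact TT_add_subset (hT.mono.monotone (Nat.zero_le n)) (l2b_hi hT hw hbef) ha hϑ) (by
      intro j
      filter_upwards [bf_tail hF.toIsBlockFilter (m j), hAt (m j)] with v hv2 hv3
      rintro ϑ hϑ ⟨b, hb, hϑ'⟩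
      exact hv3 b hb (TT_inter (hT.mono.monotone (Nat.zero_le j)) hv2 hϑ hϑ'))
  refine ⟨A, hA, hAU, hAB, R, hR, hlev, ?_⟩
  intro b hb t ht hi ϑ hϑ
  have hlob : Lo (m 0) (z b).support := l2b_lo hT (hz b (hAB hb))
  have hm0 : m 0 ≤ t.1 := by
    obtain ⟨i, hi1⟩ := Finsupp.support_nonempty_iff.2 (bs_ne_zero (hz b (hAB hb)))
    have h1 := hlob i hi1
    have h2 := hi i hi1
    omega
  have hTyp : ϑ ∈ TypB t.1 := TT_subset_TypB hm0 hi hϑ
  have h3 := hsat t ht ϑ ⟨b, hb, hϑ⟩ hTyp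
  rw [h3]
  constructor
  · rintro ⟨b', hb', hϑ', hlab⟩
    have hlob' : Lo (m 0) (z b').support := l2b_lo hT (hz b' (hAB hb'))
    have h4 : ty (z b) = ty ((z b').filter (fun i => m 0 ≤ i)) :=
      TT_inter le_rfl hlob hϑ hϑ'
    have h5 : (z b').filter (fun i => m 0 ≤ i) = z b' := by
      rw [Finsupp.filter_eq_self_iff]
      intro i hi'
      exact hlob' i (Finsupp.mem_support_iff.2 hi')
    rw [h5] at h4
    rw [h4]
    exact hlab
  · intro hlab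
    exact ⟨b, hb, hϑ, hlab⟩

end Pool.Agent.SOU
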