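import Pool.Agent.Lib_MP_a0d45a_lc.L2A
import Pool.Agent.Lib_MP_a0d45a_lc.L2B
import Pool.Agent.Lib_MP_a0d45a_lc.Forc

/-!
# Piece L2C: the main lemma
-/

set_option autoImplicit false

namespace Pool.Agent.SOU

variable {K : Type} [Field K] [DecidableEq K] {F : Filter (ℕ →₀ K)} {U : Ultrafilter (Finset ℕ)}

/-- PROOF. For `b`, `y` and `Λ ⊆ Lab K s.1` let `Bad b y Λ` say that no `q ≤ p` satisfies `HH U Z q (extC C b)` and has the pattern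
`lab (ty y) '' Λ` at `y`. Suppose the theorem fails. Then: for all `B ∈ U`, `S ∈ F` there are `b ∈ B`,
`y ∈ S`, `π` such that there is no `q`. For `F`-many `y` (those with `y ≠ 0`, `Lo s.1 (supp y)`) every `π`
is given by some `Λ ⊆ Lab K s.1` (`exists_label`), so we may say: for all `B ∈ U`, `S ∈ F` there are
`b ∈ B`, `y ∈ S`, `Λ ⊆ Lab K s.1` with `Bad b y Λ`. As `Lab K s.1` has finitely many subsets
(`Lab_finite`), there is one `Λ` such that this holds for all `B`, `S` (otherwise for each `Λ` choose `B_Λ`,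
`S_Λ` without such `b`, `y`; their intersections give a contradiction). Take `m`, `y` from `exists_fused` for `T = p`,
`n₀ = s.1` and (for `S₀`) the set of the nonzero vectors. Let `B = {b | ∃ v ∈ ⟨y⟩, Bad b v Λ}`: it is in `U`,
because otherwise its complement and `⟨y⟩` contradict the choice of `Λ`. Choose `z b ∈ ⟨y⟩` with
`Bad b (z b) Λ` for `b ∈ B`. Take `A` and `R` from `prescribe`. By `HH.mono` `HH U Z R C`, so by `HH.next` there is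
`b ∈ ⟨A⟩` and `q ≤ R` with `HH U Z q (extC C b)`. As `q ≤ R`, `q` has the pattern
`lab (ty (z b)) '' Λ` at `z b`, contradiction to `Bad b (z b) Λ`. -/
theorem main_step (hK : ∃ a : K, a ≠ 0 ∧ a ≠ 1) (hF : IsPPlus F) (hU : IsSOU U)
    {Z : Finset ℕ → Set (Cd F)} (C : Finset (Finset ℕ)) (p : Cd F) (s : Node) (hs : p.Stem s)
    (h : HH U Z p C) :
    ∃ B ∈ U, ∃ S ∈ F, ∀ b ∈ B, ∀ y ∈ S, ∀ π : Set Typ, ∃ q ≤ p, HH U Z q (extC C b) ∧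
      ∀ t ∈ q.T, Hi t.1 y.support → ∀ ϑ ∈ TT s.1 y, (ϑ ∈ t.2 ↔ ϑ ∈ π) := by
  classical
  by_contra hcon
  have hBF : IsBlockFilter F := hF.toIsFull.toIsBlockFilter
  have h1 : ∀ B ∈ (U : Filter (Finset ℕ)), ∀ S ∈ F, ∃ b ∈ B, ∃ y ∈ S,
      ∃ Λ : Set (Option (Typ × Bool)), Λ ⊆ Lab K s.1 ∧
        ¬ ∃ q ≤ p, HH U Z q (extC C b) ∧ ∀ t ∈ q.T, Hi t.1 y.support → ∀ ϑ ∈ TT s.1 y,
          (ϑ ∈ t.2 ↔ ϑ ∈ lab (ty y) '' Λ) := by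
    intro B hB S hS
    by_contra hno
    apply hcon
    refine ⟨B, hB, S ∩ ({y | y ≠ 0} ∩ {y | Lo s.1 y.support}),
      Filter.inter_mem hS (Filter.inter_mem (bf_ne hBF) (bf_tail hBF s.1)), ?_⟩
    intro b hb y hy π
    obtain ⟨Λ, hΛ, hΛ2⟩ := exists_label hK hy.2.1 hy.2.2 π
    by_contra hq
    apply hno
    refine ⟨b, hb, y, hy.1, Λ, hΛ, ?_⟩
    rintro ⟨q, hqp, hq1, hq2⟩
    apply hq
    refine ⟨q, hqp, hq1, ?_⟩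
    intro t ht hhi ϑ hϑ
    rw [hΛ2 ϑ hϑ]
    exact hq2 t ht hhi ϑ hϑ
  have h2 : ∃ Λ : Set (Option (Typ × Bool)), ∀ B ∈ (U : Filter (Finset ℕ)), ∀ S ∈ F,
      ∃ b ∈ B, ∃ y ∈ S,
        ¬ ∃ q ≤ p, HH U Z q (extC C b) ∧ ∀ t ∈ q.T, Hi t.1 y.support → ∀ ϑ ∈ TT s.1 y,
          (ϑ ∈ t.2 ↔ ϑ ∈ lab (ty y) '' Λ) := by
    by_contra hno
    push Not at hno
    choose B hB S hS hBS using hno
    have hfin : {Λ : Set (Option (Typ × Bool)) | Λ ⊆ Lab K s.1}.Finite :=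
      (Lab_finite s.1).finite_subsets
    obtain ⟨b, hb, y, hy, Λ, hΛ, hbad⟩ := h1 (⋂ Λ ∈ {Λ : Set (Option (Typ × Bool)) | Λ ⊆ Lab K s.1}, B Λ)
      ((Filter.biInter_mem hfin).2 fun Λ _ => hB Λ)
      (⋂ Λ ∈ {Λ : Set (Option (Typ × Bool)) | Λ ⊆ Lab K s.1}, S Λ)
      ((Filter.biInter_mem hfin).2 fun Λ _ => hS Λ)
    exact hbad (hBS Λ b (Set.mem_iInter₂.1 hb Λ hΛ) y (Set.mem_iInter₂.1 hy Λ hΛ))
  obtain ⟨Λ, hΛ⟩ := h2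
  obtain ⟨m, y, hm0, hfus, -⟩ := exists_fused hK hF p s.1 (S₀ := {y | y ≠ 0}) (bf_ne hBF)
  have hB : {b : Finset ℕ | ∃ v ∈ bs y, ¬ ∃ q ≤ p, HH U Z q (extC C b) ∧
      ∀ t ∈ q.T, Hi t.1 v.support → ∀ ϑ ∈ TT s.1 v,
        (ϑ ∈ t.2 ↔ ϑ ∈ lab (ty v) '' Λ)} ∈ (U : Filter (Finset ℕ)) := by
    by_contra hB
    obtain ⟨b, hb, v, hv, hbad⟩ := hΛ _ (Ultrafilter.compl_mem_iff_notMem.2 hB) _ hfus.mem
    exact hb ⟨v, hv, hbad⟩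
  have hz : ∀ b : Finset ℕ, ∃ v : ℕ →₀ K, (∃ v ∈ bs y, ¬ ∃ q ≤ p, HH U Z q (extC C b) ∧
      ∀ t ∈ q.T, Hi t.1 v.support → ∀ ϑ ∈ TT s.1 v, (ϑ ∈ t.2 ↔ ϑ ∈ lab (ty v) '' Λ)) →
      v ∈ bs y ∧ ¬ ∃ q ≤ p, HH U Z q (extC C b) ∧
      ∀ t ∈ q.T, Hi t.1 v.support → ∀ ϑ ∈ TT s.1 v, (ϑ ∈ t.2 ↔ ϑ ∈ lab (ty v) '' Λ) := by
    intro b
    by_cases hb : ∃ v ∈ bs y, ¬ ∃ q ≤ p, HH U Z q (extC C b) ∧
      ∀ t ∈ q.T, Hi t.1 v.support → ∀ ϑ ∈ TT s.1 v, (ϑ ∈ t.2 ↔ ϑ ∈ lab (ty v) '' Λ)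
    · obtain ⟨v, hv1, hv2⟩ := hb
      exact ⟨v, fun _ => ⟨hv1, hv2⟩⟩
    · exact ⟨0, fun hh => absurd hh hb⟩
  choose z hz using hz
  obtain ⟨A, hA, hAU, hAB, R, hRp, -, hR⟩ := prescribe hK hF hU hfus z hB
    (fun b hb => (hz b hb).1) Λ
  have hHR : HH U Z R C := h.mono hRp
  obtain ⟨b, hbA, q, hqR, hq⟩ := (Filter.nonempty_of_mem (Filter.inter_mem hAU hHR.next))
  refine (hz b (hAB hbA)).2 ⟨q, le_trans hqR hRp, hq, ?_⟩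
  intro t ht hhi ϑ hϑ
  have hϑ' : ϑ ∈ TT (m 0) (z b) := by
    rw [hm0]
    exact hϑ
  exact hR b hbA t (hqR ht) hhi ϑ hϑ'

end Pool.Agent.SOU
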