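import Pool.Agent.Lib_MP_a0d45a_lc.RKI

/-!
# Piece RKA: the value determines `mn` and `mx`
-/

set_option autoImplicit false

namespace Pool.Agent.SOU

theorem rka_mn_union {a c : Finset ℕ} (ha : a.Nonempty) (h : Bef a c) : mn (a ∪ c) = mn a := by
  apply le_antisymm
  · exact mn_le (Finset.mem_union_left _ (mn_mem ha))
  · have h1 : mn (a ∪ c) ∈ a ∪ c := mn_mem (ha.mono Finset.subset_union_left)
    rcases Finset.mem_union.1 h1 with h2 | h2
    · exact mn_le h2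
    · exact (h _ (mn_mem ha) _ h2).le

theorem rka_mx_union {a c : Finset ℕ} (hc : c.Nonempty) (h : Bef a c) : mx (a ∪ c) = mx c := by
  apply le_antisymm
  · have h1 : mx (a ∪ c) ∈ a ∪ c := mx_mem (hc.mono Finset.subset_union_right)
    rcases Finset.mem_union.1 h1 with h2 | h2
    · exact (h _ h2 _ (mx_mem hc)).le
    · exact le_mx h2
  · exact le_mx (Finset.mem_union_right _ (mx_mem hc))

theorem rka_bef_empty_right (a : Finset ℕ) : Bef a ∅ := by
  intro i _ j hj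
  simp at hj

theorem rka_bef_empty_left (a : Finset ℕ) : Bef ∅ a := by
  intro i hi
  simp at hi

theorem rka_bef_mono {a b c d : Finset ℕ} (h : Bef a b) (hc : c ⊆ a) (hd : d ⊆ b) : Bef c d :=
  fun i hi j hj => h i (hc hi) j (hd hj)

theorem rka_first {A : ℕ → Finset ℕ} {b : Finset ℕ} (hA : BlkF A) (hb : b ∈ fu A) :
    ∃ n b', (b' = ∅ ∨ b' ∈ fu A) ∧ Bef (A n) b' ∧ b = A n ∪ b' := by
  obtain ⟨n, h | ⟨c, hc, h1, h2⟩⟩ := fu_cons hA hb
  · exact ⟨n, ∅, Or.inl rfl, rka_bef_empty_right _, by simp [h]⟩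
  · exact ⟨n, c, Or.inr hc, h1, h2⟩

theorem rka_last {A : ℕ → Finset ℕ} {b : Finset ℕ} (hA : BlkF A) (hb : b ∈ fu A) :
    ∃ n b', (b' = ∅ ∨ b' ∈ fu A) ∧ Bef b' (A n) ∧ b = b' ∪ A n := by
  obtain ⟨n, h | ⟨c, hc, h1, h2⟩⟩ := fu_snoc hA hb
  · exact ⟨n, ∅, Or.inl rfl, rka_bef_empty_left _, by simp [h]⟩
  · exact ⟨n, c, Or.inr hc, h1, h2⟩

theorem rka_fu_union' {A : ℕ → Finset ℕ} {b c : Finset ℕ} (hb : b = ∅ ∨ b ∈ fu A)
    (hc : c ∈ fu A) : b ∪ c ∈ fu A := by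
  rcases hb with rfl | hb
  · simpa using hc
  · exact fu_union hb hc

/-- the shape `A i ∪ m ∪ A j` -/
theorem rka_shape {A : ℕ → Finset ℕ} (hA : BlkF A) {x : Finset ℕ}
    (hx : ∃ b ∈ fu A, ∃ c ∈ fu A, ∃ d ∈ fu A, Bef b c ∧ Bef c d ∧ x = b ∪ c ∪ d) :
    ∃ i j m, m ∈ fu A ∧ Bef (A i) m ∧ Bef m (A j) ∧ x = A i ∪ m ∪ A j := by
  obtain ⟨b, hb, c, hc, d, hd, hbc, hcd, rfl⟩ := hx
  obtain ⟨i, b', hb', h1, h2⟩ := rka_first hA hb
  obtain ⟨j, d', hd', h3, h4⟩ := rka_last hA hd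
  have hbd : Bef b d := Bef.trans' hbc hcd (fu_ne hA hc)
  have e1 : A i ⊆ b := by rw [h2]; exact Finset.subset_union_left
  have e2 : b' ⊆ b := by rw [h2]; exact Finset.subset_union_right
  have e3 : A j ⊆ d := by rw [h4]; exact Finset.subset_union_right
  have e4 : d' ⊆ d := by rw [h4]; exact Finset.subset_union_left
  have hm : b' ∪ c ∪ d' ∈ fu A := by
    rw [Finset.union_comm (b' ∪ c) d']
    exact rka_fu_union' hd' (rka_fu_union' hb' hc)
  have f1 : Bef (A i) (b' ∪ c ∪ d') :=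
    Bef.union_right (Bef.union_right h1 (rka_bef_mono hbc e1 subset_rfl))
      (rka_bef_mono hbd e1 e4)
  have f2 : Bef (b' ∪ c ∪ d') (A j) :=
    Bef.union_left (Bef.union_left (rka_bef_mono hbd e2 e3) (rka_bef_mono hcd subset_rfl e3)) h3
  exact ⟨i, j, _, hm, f1, f2, by rw [h2, h4]; ac_rfl⟩

theorem rka_idx_lt {A : ℕ → Finset ℕ} (hA : BlkF A) {n j : ℕ} (h : Bef (A n) (A j)) : n < j := by
  by_contra hc
  push Not at hc
  obtain ⟨a, ha⟩ := hA.ne n
  obtain ⟨b, hb⟩ := hA.ne j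
  have h1 := h a ha b hb
  rcases hc.eq_or_lt with h2 | h2
  · subst h2
    exact absurd (h a ha a ha) (lt_irrefl _)
  · exact absurd (hA.bef h2 b hb a ha) (by omega)

theorem rka_mx_mono {A : ℕ → Finset ℕ} (hA : BlkF A) {n k : ℕ} (h : n ≤ k) :
    mx (A n) ≤ mx (A k) := by
  rcases h.eq_or_lt with h2 | h2
  · rw [h2]
  · exact (hA.bef h2 _ (mx_mem (hA.ne n)) _ (mx_mem (hA.ne k))).le

/-- a member of `⟨A⟩` before `A j` is below the maximum of `A (j-1)` -/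
theorem rka_below {A : ℕ → Finset ℕ} (hA : BlkF A) {q : Finset ℕ} (hq : q ∈ fu A) {j : ℕ}
    (h : Bef q (A j)) : 0 < j ∧ q ⊆ Finset.range (mx (A (j - 1)) + 1) := by
  have h1 : ∀ n, A n ⊆ q → n < j := fun n hn => rka_idx_lt hA (rka_bef_mono h hn subset_rfl)
  have h2 : ∀ t ∈ q, 0 < j ∧ t ≤ mx (A (j - 1)) := by
    intro t ht
    obtain ⟨n, hn, hn2⟩ := mem_fu_block hq ht
    have h3 := h1 n hn2
    exact ⟨by omega, (le_mx hn).trans (rka_mx_mono hA (by omega))⟩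
  obtain ⟨t, ht⟩ := fu_ne hA hq
  refine ⟨(h2 t ht).1, fun t ht => ?_⟩
  rw [Finset.mem_range]
  have := (h2 t ht).2
  omega

/-- PROOF. If `¬ CaseIII`, this is `rk_inj`. Assume `CaseIII`. Write `p ~ q` iff
`∀ᶠ e, h (p ∪ e) = h (q ∪ e)` (equivalence relation, `¬ p ~ q` iff `∀ᶠ e, h (p ∪ e) ≠ h (q ∪ e)`).
Let `K b` be the property `∀ᶠ x, ∀ᶠ x', b ∪ x ~ b ∪ x'`; `CaseIII` says `∀ᶠ b, K b`. If `K b`,
choose `k b` (a finite set) with `∀ᶠ x, b ∪ x ~ k b` (for instance `k b = b ∪ x` for a suitable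
`x`). Then for `U`-many `x`: `b ∪ x ~ k b`, and also `K (b ∪ x)` and `k (b ∪ x) ~ k b`
(because `∀ᶠ x, ∀ᶠ x', b ∪ (x ∪ x') ~ k b` by `sou_idem`, while `∀ᶠ x', (b ∪ x) ∪ x' ~ k (b ∪ x)`).
`¬ CaseB` says `∀ᶠ b, ∀ᶠ b', ¬ b ~ b'`; replacing `b` by `b ∪ c` (`sou_idem`) and `b'` by `b' ∪ c'`
we get `∀ᶠ b, ∀ᶠ b', ¬ k b ~ k b'`.
`¬ CaseA` gives for `U`-many `b` that `∀ r, ¬∀ᶠ c, h (b ∪ c) = r` (property `NC b`).
Use `diag` with `S n` the set of the `e` such that (i) for all `p, q ⊆ range n` with `¬ p ~ q`: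
`h (p ∪ e) ≠ h (q ∪ e)`; (ii) for `q, x ⊆ range n` with `NC q`: `h (q ∪ e) ≠ h x`; (iii) `K e`,
`NC e`, `∀ᶠ b', ¬ k e ~ k b'`; (iv) for all `b ⊆ range n` with `K b`: `b ∪ e ~ k b`;
(v) for all `b ⊆ range n` with `∀ᶠ b', ¬ k b ~ k b'`: `¬ k b ~ k e`.
Let `S` be the set of the `x ∈ ⟨A⟩` of the form `b ∪ c ∪ d`, `b < c < d` in `⟨A⟩`; it is in `U`
(`sou_three`). So `x ∈ S` has at least three entries; write `x = A i ∪ m ∪ A j`, with `A i`, `A j` the
first and last entries, `m ∈ ⟨A⟩` the (nonempty) rest. Let `x = A i ∪ m ∪ A j`,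
`y = A i' ∪ m' ∪ A j'` be in `S` with `h x = h y`. If `j < j'`: `y = q ∪ A j'` with `NC q`
(`q ∈ ⟨A⟩`) and `x, q ⊆ range (mx (A (j'-1)) + 1)`, contradiction to (ii). So `j = j'` by symmetry.
If `i < i'`: `A i ∪ m ~ k (A i)` by (iv), `A i' ∪ m' ~ k (A i')`, and `¬ k (A i) ~ k (A i')`
by (v), so `¬ A i ∪ m ~ A i' ∪ m'` and `h x ≠ h y` by (i). So `i = i'`. -/
theorem rk_det {U : Ultrafilter (Finset ℕ)} (hU : IsSOU U) {β : Type} (h : Finset ℕ → β)
    (ha : ¬ CaseA U h) (hb : ¬ CaseB U h) :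
    ∃ S ∈ U, ∀ x ∈ S, ∀ y ∈ S, h x = h y → mn x = mn y ∧ mx x = mx y := by
  classical
  by_cases h3 : CaseIII U h
  swap
  · obtain ⟨A, _, hAU, hinj⟩ := rk_inj hU h ha hb h3
    refine ⟨fu A, hAU, fun x hx y hy hxy => ?_⟩
    rw [hinj x hx y hy hxy]
    exact ⟨rfl, rfl⟩
  -- the equivalence relation
  let E : Finset ℕ → Finset ℕ → Prop :=
    fun p q => ∀ᶠ e in (U : Filter (Finset ℕ)), h (p ∪ e) = h (q ∪ e)
  have Esymm : ∀ {p q}, E p q → E q p := fun {p q} hpq => by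
    filter_upwards [hpq] with e he using he.symm
  have Etrans : ∀ {p q r}, E p q → E q r → E p r := fun {p q r} h1 h2 => by
    filter_upwards [h1, h2] with e he1 he2 using he1.trans he2
  have Eneg : ∀ {p q}, ¬ E p q → ∀ᶠ e in (U : Filter (Finset ℕ)), h (p ∪ e) ≠ h (q ∪ e) :=
    fun {p q} h1 => Ultrafilter.eventually_not.2 h1
  let Kp : Finset ℕ → Prop := fun b =>
    ∀ᶠ x in (U : Filter (Finset ℕ)), ∀ᶠ x' in (U : Filter (Finset ℕ)), E (b ∪ x) (b ∪ x')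
  have hK : ∀ᶠ b in (U : Filter (Finset ℕ)), Kp b := h3
  have hk : ∀ b, ∃ k, Kp b → ∀ᶠ x in (U : Filter (Finset ℕ)), E (b ∪ x) k := by
    intro b
    by_cases hb : Kp b
    · obtain ⟨x, hx⟩ := hb.exists
      exact ⟨b ∪ x, fun _ => hx.mono (fun x' hx' => Esymm hx')⟩
    · exact ⟨∅, fun hb' => absurd hb' hb⟩
  choose k hk using hk
  -- separation
  have hB : ∀ᶠ b in (U : Filter (Finset ℕ)), ∀ᶠ b' in (U : Filter (Finset ℕ)), ¬ E b b' := by
    have h1 : ∀ᶠ b in (U : Filter (Finset ℕ)), ¬ ∀ᶠ b' in (U : Filter (Finset ℕ)), E b b' :=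
      Ultrafilter.eventually_not.2 hb
    filter_upwards [h1] with b hb'
    exact Ultrafilter.eventually_not.2 hb'
  have hKK : ∀ᶠ b in (U : Filter (Finset ℕ)), ∀ᶠ b' in (U : Filter (Finset ℕ)),
      ¬ E (k b) (k b') := by
    have h1 := (sou_idem' hU _).1 hB
    filter_upwards [h1, hK] with b hb1 hb2
    obtain ⟨c, hc1, hc2⟩ := (hb1.and (hk b hb2)).exists
    have h2 := (sou_idem' hU _).1 hc1
    filter_upwards [h2, hK] with b' hb1' hb2'
    obtain ⟨c', hc1', hc2'⟩ := (hb1'.and (hk b' hb2')).exists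
    exact fun hE => hc1' (Etrans hc2 (Etrans hE (Esymm hc2')))
  let NC : Finset ℕ → Prop := fun b => ∀ r, ∀ᶠ c in (U : Filter (Finset ℕ)), h (b ∪ c) ≠ r
  have hNC : ∀ᶠ b in (U : Filter (Finset ℕ)), NC b := by
    have h1 : ∀ᶠ b in (U : Filter (Finset ℕ)), ¬ ∀ᶠ c in (U : Filter (Finset ℕ)),
        ∀ᶠ c' in (U : Filter (Finset ℕ)), h (b ∪ c) = h (b ∪ c') :=
      Ultrafilter.eventually_not.2 ha
    filter_upwards [h1] with b hb1
    have h2 : ∀ᶠ c in (U : Filter (Finset ℕ)), ¬ ∀ᶠ c' in (U : Filter (Finset ℕ)),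
        h (b ∪ c) = h (b ∪ c') := Ultrafilter.eventually_not.2 hb1
    intro r
    refine Ultrafilter.eventually_not.2 ?_
    intro h4
    obtain ⟨c, hc1, hc2⟩ := (h2.and h4).exists
    apply hc1
    filter_upwards [h4] with c' hc'
    rw [hc2, hc']
  -- the sets for the diagonalisation
  let P : ℕ → Finset ℕ → Prop := fun n e =>
    (∀ p ∈ (Finset.range n).powerset, ∀ q ∈ (Finset.range n).powerset,
      ¬ E p q → h (p ∪ e) ≠ h (q ∪ e)) ∧
    (∀ q ∈ (Finset.range n).powerset, ∀ x ∈ (Finset.range n).powerset,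
      NC q → h (q ∪ e) ≠ h x) ∧
    (Kp e ∧ NC e ∧ ∀ᶠ b' in (U : Filter (Finset ℕ)), ¬ E (k e) (k b')) ∧
    (∀ b ∈ (Finset.range n).powerset, Kp b → E (b ∪ e) (k b)) ∧
    (∀ b ∈ (Finset.range n).powerset,
      (∀ᶠ b' in (U : Filter (Finset ℕ)), ¬ E (k b) (k b')) → ¬ E (k b) (k e))
  have hP : ∀ n, {e | P n e} ∈ U := by
    intro n
    have q1 : ∀ᶠ e in (U : Filter (Finset ℕ)), ∀ p ∈ (Finset.range n).powerset,
        ∀ q ∈ (Finset.range n).powerset, ¬ E p q → h (p ∪ e) ≠ h (q ∪ e) := by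
      refine (Filter.eventually_all_finset _).2 fun p _ => ?_
      refine (Filter.eventually_all_finset _).2 fun q _ => ?_
      by_cases hpq : E p q
      · exact Filter.Eventually.of_forall fun e he => absurd hpq he
      · filter_upwards [Eneg hpq] with e he _ using he
    have q2 : ∀ᶠ e in (U : Filter (Finset ℕ)), ∀ q ∈ (Finset.range n).powerset,
        ∀ x ∈ (Finset.range n).powerset, NC q → h (q ∪ e) ≠ h x := by
      refine (Filter.eventually_all_finset _).2 fun q _ => ?_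
      refine (Filter.eventually_all_finset _).2 fun x _ => ?_
      by_cases hq : NC q
      · filter_upwards [hq (h x)] with e he _ using he
      · exact Filter.Eventually.of_forall fun e he => absurd he hq
    have q4 : ∀ᶠ e in (U : Filter (Finset ℕ)), ∀ b ∈ (Finset.range n).powerset,
        Kp b → E (b ∪ e) (k b) := by
      refine (Filter.eventually_all_finset _).2 fun b _ => ?_
      by_cases hb' : Kp b
      · filter_upwards [hk b hb'] with e he _ using he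
      · exact Filter.Eventually.of_forall fun e he => absurd he hb'
    have q5 : ∀ᶠ e in (U : Filter (Finset ℕ)), ∀ b ∈ (Finset.range n).powerset,
        (∀ᶠ b' in (U : Filter (Finset ℕ)), ¬ E (k b) (k b')) → ¬ E (k b) (k e) := by
      refine (Filter.eventually_all_finset _).2 fun b _ => ?_
      by_cases hb' : ∀ᶠ b' in (U : Filter (Finset ℕ)), ¬ E (k b) (k b')
      · filter_upwards [hb'] with e he _ using he
      · exact Filter.Eventually.of_forall fun e he => absurd he hb'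
    filter_upwards [q1, q2, hK, hNC, hKK, q4, q5] with e h1 h2 h3 h4 h5 h6 h7
    exact ⟨h1, h2, ⟨h3, h4, h5⟩, h6, h7⟩
  obtain ⟨A, hA, hAU, hA0, hAd⟩ := diag hU (fun n => {e | P n e}) hP
  refine ⟨_, sou_three hU hAU, ?_⟩
  -- facts about entries
  have hS3 : ∀ b ∈ fu A, Kp b ∧ NC b ∧ ∀ᶠ b' in (U : Filter (Finset ℕ)), ¬ E (k b) (k b') :=
    fun b hb => (hA0 hb).2.2.1
  have hpr : ∀ j, 0 < j → P (mx (A (j - 1)) + 1) (A j) := by
    intro j hj
    have := hAd (A (j - 1)) (self_mem_fu A _) (A j) (self_mem_fu A j) (hA.bef (by omega))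
    exact this
  -- comparison of the last entries
  have last_lt : ∀ {i j m i' j' m'}, m ∈ fu A → Bef (A i) m → Bef m (A j) →
      m' ∈ fu A → Bef (A i') m' → Bef m' (A j') →
      h (A i ∪ m ∪ A j) = h (A i' ∪ m' ∪ A j') → ¬ j < j' := by
    intro i j m i' j' m' hm h1 h2 hm' h1' h2' hxy hjj
    have hb1 : Bef (A i') (A j') := Bef.trans' h1' h2' (fu_ne hA hm')
    have hq : A i' ∪ m' ∈ fu A := fu_union (self_mem_fu A i') hm'
    have hb2 : Bef (A i' ∪ m') (A j') := Bef.union_left hb1 h2'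
    obtain ⟨hj0, hqs⟩ := rka_below hA hq hb2
    have hb3 : Bef (A i) (A j) := Bef.trans' h1 h2 (fu_ne hA hm)
    have hx : A i ∪ m ∪ A j ∈ fu A :=
      fu_union (fu_union (self_mem_fu A i) hm) (self_mem_fu A j)
    have hb4 : Bef (A i ∪ m ∪ A j) (A j') := by
      have e1 : Bef (A j) (A j') := hA.bef hjj
      exact Bef.union_left (Bef.union_left (Bef.trans' hb3 e1 (hA.ne j))
        (Bef.trans' h2 e1 (hA.ne j))) e1
    obtain ⟨_, hxs⟩ := rka_below hA hx hb4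
    exact (hpr j' hj0).2.1 _ (Finset.mem_powerset.2 hqs) _ (Finset.mem_powerset.2 hxs)
      (hS3 _ hq).2.1 hxy.symm
  have first_lt : ∀ {i j m i' m'}, m ∈ fu A → Bef (A i) m → Bef m (A j) →
      m' ∈ fu A → Bef (A i') m' → Bef m' (A j) →
      h (A i ∪ m ∪ A j) = h (A i' ∪ m' ∪ A j) → ¬ i < i' := by
    intro i j m i' m' hm h1 h2 hm' h1' h2' hxy hii
    have hsub : ∀ i, A i ⊆ Finset.range (mx (A i) + 1) := by
      intro i t ht
      rw [Finset.mem_range]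
      have := le_mx ht
      omega
    have g1 : E (A i ∪ m) (k (A i)) :=
      (hAd (A i) (self_mem_fu A i) m hm h1).2.2.2.1 _ (Finset.mem_powerset.2 (hsub i))
        (hS3 _ (self_mem_fu A i)).1
    have g2 : E (A i' ∪ m') (k (A i')) :=
      (hAd (A i') (self_mem_fu A i') m' hm' h1').2.2.2.1 _ (Finset.mem_powerset.2 (hsub i'))
        (hS3 _ (self_mem_fu A i')).1
    have g3 : ¬ E (k (A i)) (k (A i')) :=
      (hAd (A i) (self_mem_fu A i) (A i') (self_mem_fu A i') (hA.bef hii)).2.2.2.2 _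
        (Finset.mem_powerset.2 (hsub i)) (hS3 _ (self_mem_fu A i)).2.2
    have g4 : ¬ E (A i ∪ m) (A i' ∪ m') := fun hE => g3 (Etrans (Esymm g1) (Etrans hE g2))
    have hb1 : Bef (A i) (A j) := Bef.trans' h1 h2 (fu_ne hA hm)
    have hb1' : Bef (A i') (A j) := Bef.trans' h1' h2' (fu_ne hA hm')
    obtain ⟨hj0, hs⟩ := rka_below hA (fu_union (self_mem_fu A i) hm) (Bef.union_left hb1 h2)
    obtain ⟨_, hs'⟩ := rka_below hA (fu_union (self_mem_fu A i') hm') (Bef.union_left hb1' h2')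
    exact (hpr j hj0).1 _ (Finset.mem_powerset.2 hs) _ (Finset.mem_powerset.2 hs') g4 hxy
  intro x hx y hy hxy
  obtain ⟨i, j, m, hm, h1, h2, rfl⟩ := rka_shape hA hx
  obtain ⟨i', j', m', hm', h1', h2', rfl⟩ := rka_shape hA hy
  have hjj : j = j' := by
    have a1 := last_lt hm h1 h2 hm' h1' h2' hxy
    have a2 := last_lt hm' h1' h2' hm h1 h2 hxy.symm
    omega
  subst hjj
  have hii : i = i' := by
    have a1 := first_lt hm h1 h2 hm' h1' h2' hxy
    have a2 := first_lt hm' h1' h2' hm h1 h2 hxy.symm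
    omega
  subst hii
  have f1 : Bef (A i) (A j) := Bef.trans' h1 h2 (fu_ne hA hm)
  refine ⟨?_, ?_⟩
  · rw [Finset.union_assoc, Finset.union_assoc, rka_mn_union (hA.ne i) (Bef.union_right h1 f1),
      rka_mn_union (hA.ne i) (Bef.union_right h1' f1)]
  · rw [rka_mx_union (hA.ne j) (Bef.union_left f1 h2),
      rka_mx_union (hA.ne j) (Bef.union_left f1 h2')]

end Pool.Agent.SOU
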