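import Pool.Agent.Lib_MP_a0d45a_lc.RKI

/-!
# Piece RKB: the degenerate cases
-/

set_option autoImplicit false

namespace Pool.Agent.SOU

theorem rkb_mn_union {a c : Finset ℕ} (ha : a.Nonempty) (h : Bef a c) : mn (a ∪ c) = mn a := by
  apply le_antisymm
  · exact mn_le (Finset.mem_union_left _ (mn_mem ha))
  · have h1 : mn (a ∪ c) ∈ a ∪ c := mn_mem (ha.mono Finset.subset_union_left)
    rcases Finset.mem_union.1 h1 with h2 | h2
    · exact mn_le h2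
    · exact (h _ (mn_mem ha) _ h2).le

theorem rkb_mx_union {a c : Finset ℕ} (hc : c.Nonempty) (h : Bef a c) : mx (a ∪ c) = mx c := by
  apply le_antisymm
  · have h1 : mx (a ∪ c) ∈ a ∪ c := mx_mem (hc.mono Finset.subset_union_right)
    rcases Finset.mem_union.1 h1 with h2 | h2
    · exact (h _ h2 _ (mx_mem hc)).le
    · exact le_mx h2
  · exact le_mx (Finset.mem_union_right _ (mx_mem hc))

theorem rkb_bef_empty_right (a : Finset ℕ) : Bef a ∅ := by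
  intro i _ j hj
  simp at hj

theorem rkb_bef_empty_left (a : Finset ℕ) : Bef ∅ a := by
  intro i hi
  simp at hi

theorem rkb_bef_mono {a b c d : Finset ℕ} (h : Bef a b) (hc : c ⊆ a) (hd : d ⊆ b) : Bef c d :=
  fun i hi j hj => h i (hc hi) j (hd hj)

theorem rkb_first {A : ℕ → Finset ℕ} {b : Finset ℕ} (hA : BlkF A) (hb : b ∈ fu A) :
    ∃ n b', (b' = ∅ ∨ b' ∈ fu A) ∧ Bef (A n) b' ∧ b = A n ∪ b' := by
  obtain ⟨n, h | ⟨c, hc, h1, h2⟩⟩ := fu_cons hA hb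
  · exact ⟨n, ∅, Or.inl rfl, rkb_bef_empty_right _, by simp [h]⟩
  · exact ⟨n, c, Or.inr hc, h1, h2⟩

theorem rkb_last {A : ℕ → Finset ℕ} {b : Finset ℕ} (hA : BlkF A) (hb : b ∈ fu A) :
    ∃ n b', (b' = ∅ ∨ b' ∈ fu A) ∧ Bef b' (A n) ∧ b = b' ∪ A n := by
  obtain ⟨n, h | ⟨c, hc, h1, h2⟩⟩ := fu_snoc hA hb
  · exact ⟨n, ∅, Or.inl rfl, rkb_bef_empty_left _, by simp [h]⟩
  · exact ⟨n, c, Or.inr hc, h1, h2⟩

theorem rkb_fu_union' {A : ℕ → Finset ℕ} {b c : Finset ℕ} (hb : b = ∅ ∨ b ∈ fu A)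
    (hc : c ∈ fu A) : b ∪ c ∈ fu A := by
  rcases hb with rfl | hb
  · simpa using hc
  · exact fu_union hb hc

variable {U : Ultrafilter (Finset ℕ)} (hU : IsSOU U) {β : Type} (h : Finset ℕ → β)
include hU

/-- PROOF. Let `B₀` be the set of the `b` with `∀ᶠ c, ∀ᶠ c', h (b ∪ c) = h (b ∪ c')`. For `b ∈ B₀`
there is a value `v b` with `∀ᶠ c, h (b ∪ c) = v b`. By `sou_idem`, `∀ᶠ b', ∀ᶠ c,
h (b ∪ b' ∪ c) = v b`. Hence (`diag2` applied to the property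
`b ∈ B₀ ∧ h (b ∪ c) = v b` of `b, c`) there is `⟨A⟩ ∈ U` with `h (b ∪ c) = v b` for all
`b < c` in `⟨A⟩`. Let `S` be the set of all `b ∪ c`, `b < c` in `⟨A⟩` (`sou_two`). For `x ∈ S` with
first entry `A n` we have `x = A n ∪ c`, `c ∈ ⟨A⟩`, `A n < c` (`fu_cons`; `x` is not a single entry),
so `h x = v (A n)`; and `mn x = mn (A n)` determines `n`. -/
theorem caseA_mn (ha : CaseA U h) :
    ∃ S ∈ U, ∀ x ∈ S, ∀ y ∈ S, mn x = mn y → h x = h y := by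
  classical
  have hv : ∀ b : Finset ℕ, ∃ v : β,
      (∀ᶠ c in (U : Filter (Finset ℕ)), ∀ᶠ c' in (U : Filter (Finset ℕ)),
        h (b ∪ c) = h (b ∪ c')) → ∀ᶠ c in (U : Filter (Finset ℕ)), h (b ∪ c) = v := by
    intro b
    by_cases hb : ∀ᶠ c in (U : Filter (Finset ℕ)), ∀ᶠ c' in (U : Filter (Finset ℕ)),
        h (b ∪ c) = h (b ∪ c')
    · obtain ⟨c, hc⟩ := hb.exists
      exact ⟨h (b ∪ c), fun _ => hc.mono (fun c' hc' => hc'.symm)⟩
    · exact ⟨h ∅, fun hb' => absurd hb' hb⟩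
  choose v hv using hv
  obtain ⟨A, hA, hAU, hR⟩ := diag2 hU (R := fun b c => h (b ∪ c) = v b)
    (ha.mono (fun b hb => hv b hb))
  refine ⟨_, sou_two hU hAU, ?_⟩
  have key : ∀ x ∈ {x | ∃ b ∈ fu A, ∃ c ∈ fu A, Bef b c ∧ x = b ∪ c},
      ∃ n, mn x = mn (A n) ∧ h x = v (A n) := by
    rintro x ⟨b, hb, c, hc, hbc, rfl⟩
    obtain ⟨n, b', hb', h1, h2⟩ := rkb_first hA hb
    have h3 : A n ⊆ b := by rw [h2]; exact Finset.subset_union_left
    have h4 : Bef (A n) (b' ∪ c) :=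
      Bef.union_right h1 (rkb_bef_mono hbc h3 subset_rfl)
    have h5 : b ∪ c = A n ∪ (b' ∪ c) := by rw [h2, Finset.union_assoc]
    refine ⟨n, ?_, ?_⟩
    · rw [h5]; exact rkb_mn_union (hA.ne n) h4
    · rw [h5]; exact hR _ (self_mem_fu A n) _ (rkb_fu_union' hb' hc) h4
  intro x hx y hy hxy
  obtain ⟨n, h1, h2⟩ := key x hx
  obtain ⟨m, h3, h4⟩ := key y hy
  have h5 : n = m := mn_inj hA (by rw [← h1, ← h3, hxy])
  rw [h2, h4, h5]

/-- PROOF. `diag3` gives `⟨A⟩ ∈ U` with `h (b ∪ c) = h (b' ∪ c)` for all `b < b' < c` in `⟨A⟩`. Let `S` be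
the set of all `b ∪ c` with `b < c` in `⟨A (· + 1)⟩`. For `x ∈ S` with last entry `A n`,
`x = b ∪ A n` with `b ∈ ⟨A⟩`, `A 0 < b < A n`, so `h x = h (A 0 ∪ A n)`, and `mx x = mx (A n)`
determines `n`. -/
theorem caseB_mx (hb : CaseB U h) :
    ∃ S ∈ U, ∀ x ∈ S, ∀ y ∈ S, mx x = mx y → h x = h y := by
  obtain ⟨A, hA, hAU, hR⟩ := diag3 hU (R := fun b b' c => h (b ∪ c) = h (b' ∪ c)) hb
  have hT : BlkF (fun n => A (n + 1)) := hA.tail 1
  have hTU : fu (fun n => A (n + 1)) ∈ U := sou_fu_tail hU hA hAU 1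
  refine ⟨_, sou_two hU hTU, ?_⟩
  have key : ∀ x ∈ {x | ∃ b ∈ fu (fun n => A (n + 1)), ∃ c ∈ fu (fun n => A (n + 1)),
      Bef b c ∧ x = b ∪ c}, ∃ n, mx x = mx (A n) ∧ h x = h (A 0 ∪ A n) := by
    rintro x ⟨b, hb, c, hc, hbc, rfl⟩
    obtain ⟨n, c', hc', h1, h2⟩ := rkb_last hT hc
    have h3 : A (n + 1) ⊆ c := by rw [h2]; exact Finset.subset_union_right
    have h3' : c' ⊆ c := by rw [h2]; exact Finset.subset_union_left
    have h4 : Bef (b ∪ c') (A (n + 1)) :=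
      Bef.union_left (rkb_bef_mono hbc subset_rfl h3) h1
    have h5 : b ∪ c = (b ∪ c') ∪ A (n + 1) := by rw [h2, Finset.union_assoc]
    have h6 : b ∪ c' ∈ fu (fun n => A (n + 1)) := by
      rw [Finset.union_comm]; exact rkb_fu_union' hc' hb
    have h7 := (mem_fu_tail hA 1).1 h6
    refine ⟨n + 1, ?_, ?_⟩
    · rw [h5]; exact rkb_mx_union (hA.ne _) h4
    · rw [h5]
      exact (hR _ (self_mem_fu A 0) _ h7.1 _ (self_mem_fu A (n + 1)) (h7.2 0 (by norm_num)) h4).symm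
  intro x hx y hy hxy
  obtain ⟨n, h1, h2⟩ := key x hx
  obtain ⟨m, h3, h4⟩ := key y hy
  have h5 : n = m := mx_inj hA (by rw [← h1, ← h3, hxy])
  rw [h2, h4, h5]

/-- PROOF. `diag4` gives `⟨A'⟩ ∈ U` with `h (x0 ∪ x1 ∪ x3) = h (x0 ∪ x2 ∪ x3)` for all
`x0 < x1 < x2 < x3` in `⟨A'⟩`. By the gap lemma there is `⟨A⟩ ∈ U`, `⟨A⟩ ⊆ ⟨A'⟩`, such that between
`A n` and `A (n+1)` there is an entry of `A'` (with `h' i = mx (A' (i + 1))`: `A' (i+1)` has all its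
elements `> i`). Let `S` be the set of the `b ∪ c ∪ d`, `b < c < d` in `⟨A⟩`. For `x ∈ S`
with first entry `A i`, last entry `A j`, `x = A i ∪ m ∪ A j`, `m ∈ ⟨A⟩` between them. If `r`
is an entry of `A'` with `A i < r < A (i+1)` (chosen depending only on `i`) then
`h x = h (A i ∪ r ∪ A j)`. So `h x` depends only on `i`, `j`, that is on `mn x`, `mx x`. -/
theorem case3_mnmx (h3 : CaseIII U h) :
    ∃ S ∈ U, ∀ x ∈ S, ∀ y ∈ S, mn x = mn y → mx x = mx y → h x = h y := by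
  obtain ⟨A', hA', hAU', hR⟩ := diag4 hU
    (R := fun x0 x1 x2 x3 => h (x0 ∪ x1 ∪ x3) = h (x0 ∪ x2 ∪ x3)) h3
  obtain ⟨A, hA, hAU, hAA, hg⟩ := gap_lemma hU (fun i => mx (A' (i + 1))) hAU'
  refine ⟨_, sou_three hU hAU, ?_⟩
  -- the entry after `A i`
  let r : ℕ → Finset ℕ := fun i => A' (mx (A i) + 1)
  have hr1 : ∀ i, Bef (A i) (r i) := by
    intro i a ha b hb
    have h1 : mx (A i) + 1 ≤ b := hA'.ge _ b hb
    have h2 : a ≤ mx (A i) := le_mx ha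
    omega
  have hr2 : ∀ i, Bef (r i) (A (i + 1)) := by
    intro i a ha b hb
    have h1 := hg i (mx (A i)) (mx_mem (hA.ne i)) b hb
    have h2 : a ≤ mx (A' (mx (A i) + 1)) := le_mx ha
    have h1' : mx (A' (mx (A i) + 1)) < b := h1
    omega
  have key : ∀ x ∈ {x | ∃ b ∈ fu A, ∃ c ∈ fu A, ∃ d ∈ fu A, Bef b c ∧ Bef c d ∧ x = b ∪ c ∪ d},
      ∃ i j, mn x = mn (A i) ∧ mx x = mx (A j) ∧ h x = h (A i ∪ r i ∪ A j) := by
    rintro x ⟨b, hb, c, hc, d, hd, hbc, hcd, rfl⟩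
    obtain ⟨i, b', hb', h1, h2⟩ := rkb_first hA hb
    obtain ⟨j, d', hd', h3, h4⟩ := rkb_last hA hd
    have hbd : Bef b d := Bef.trans' hbc hcd (fu_ne hA hc)
    have e1 : A i ⊆ b := by rw [h2]; exact Finset.subset_union_left
    have e2 : b' ⊆ b := by rw [h2]; exact Finset.subset_union_right
    have e3 : A j ⊆ d := by rw [h4]; exact Finset.subset_union_right
    have e4 : d' ⊆ d := by rw [h4]; exact Finset.subset_union_left
    have hm : b' ∪ c ∪ d' ∈ fu A := by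
      rw [Finset.union_comm (b' ∪ c) d']
      exact rkb_fu_union' hd' (rkb_fu_union' hb' hc)
    have f1 : Bef (A i) (b' ∪ c ∪ d') :=
      Bef.union_right (Bef.union_right h1 (rkb_bef_mono hbc e1 subset_rfl))
        (rkb_bef_mono hbd e1 e4)
    have f2 : Bef (b' ∪ c ∪ d') (A j) :=
      Bef.union_left (Bef.union_left (rkb_bef_mono hbd e2 e3) (rkb_bef_mono hcd subset_rfl e3)) h3
    have hx : b ∪ c ∪ d = A i ∪ (b' ∪ c ∪ d') ∪ A j := by
      rw [h2, h4]; ac_rfl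
    have f3 : Bef (A i) (A j) := Bef.trans' f1 f2 (fu_ne hA hm)
    have f4 : Bef (r i) (b' ∪ c ∪ d') := by
      intro a ha k hk
      obtain ⟨n, hn, hn2⟩ := mem_fu_block hm hk
      have h5 : i < n := fu_index_gt hA hm f1 hn2
      rcases Nat.lt_or_ge (i + 1) n with h6 | h6
      · obtain ⟨e, he⟩ := hA.ne (i + 1)
        exact (hr2 i a ha e he).trans (hA.bef h6 e he k hn)
      · have h7 : n = i + 1 := by omega
        subst h7
        exact hr2 i a ha k hn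
    refine ⟨i, j, ?_, ?_, ?_⟩
    · rw [hx, Finset.union_assoc]
      exact rkb_mn_union (hA.ne i) (Bef.union_right f1 f3)
    · rw [hx]
      exact rkb_mx_union (hA.ne j) (Bef.union_left f3 f2)
    · rw [hx]
      exact (hR _ (hAA (self_mem_fu A i)) _ (self_mem_fu A' _) _ (hAA hm) _ (hAA (self_mem_fu A j))
        (hr1 i) f4 f2).symm
  intro x hx y hy hxy hxy'
  obtain ⟨i, j, h1, h2, h3⟩ := key x hx
  obtain ⟨i', j', h1', h2', h3'⟩ := key y hy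
  have h5 : i = i' := mn_inj hA (by rw [← h1, ← h1', hxy])
  have h6 : j = j' := mx_inj hA (by rw [← h2, ← h2', hxy'])
  rw [h3, h3', h5, h6]

end Pool.Agent.SOU
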