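import Pool.Agent.Lib_MP_a0d45a_lc.USel

/-!
# Piece RKI: injectivity

For `h : Finset ℕ → β` let `p ~ q` iff `∀ᶠ e, h (p ∪ e) = h (q ∪ e)`; as `U` is an ultrafilter
`¬ p ~ q` iff `∀ᶠ e, h (p ∪ e) ≠ h (q ∪ e)`. This is an equivalence relation on all finite sets.
-/

set_option autoImplicit false

namespace Pool.Agent.SOU

/-- `∀ᶠ b, ∀ᶠ c, ∀ᶠ c', h (b ∪ c) = h (b ∪ c')` -/
def CaseA {β : Type} (U : Ultrafilter (Finset ℕ)) (h : Finset ℕ → β) : Prop :=
  ∀ᶠ b in (U : Filter (Finset ℕ)), ∀ᶠ c in (U : Filter (Finset ℕ)),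
    ∀ᶠ c' in (U : Filter (Finset ℕ)), h (b ∪ c) = h (b ∪ c')

/-- `∀ᶠ b, ∀ᶠ b', ∀ᶠ c, h (b ∪ c) = h (b' ∪ c)` -/
def CaseB {β : Type} (U : Ultrafilter (Finset ℕ)) (h : Finset ℕ → β) : Prop :=
  ∀ᶠ b in (U : Filter (Finset ℕ)), ∀ᶠ b' in (U : Filter (Finset ℕ)),
    ∀ᶠ c in (U : Filter (Finset ℕ)), h (b ∪ c) = h (b' ∪ c)

/-- `∀ᶠ x0, ∀ᶠ x1, ∀ᶠ x2, ∀ᶠ x3, h (x0 ∪ x1 ∪ x3) = h (x0 ∪ x2 ∪ x3)` -/
def CaseIII {β : Type} (U : Ultrafilter (Finset ℕ)) (h : Finset ℕ → β) : Prop :=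
  ∀ᶠ x0 in (U : Filter (Finset ℕ)), ∀ᶠ x1 in (U : Filter (Finset ℕ)),
    ∀ᶠ x2 in (U : Filter (Finset ℕ)), ∀ᶠ x3 in (U : Filter (Finset ℕ)),
      h (x0 ∪ x1 ∪ x3) = h (x0 ∪ x2 ∪ x3)

/-- PROOF. Write `p ~ q` as above.
(0) `h` is not constant on a set of `U` (otherwise `CaseA` by `sou_idem`), so `∀ r, ¬∀ᶠ c, h c = r`.
(1) By `¬ CaseA`: `∀ᶠ b, ∀ᶠ c, ∀ᶠ c', h (b ∪ c) ≠ h (b ∪ c')`, so for `U`-many `b`:
`∀ r, ¬∀ᶠ c, h (b ∪ c) = r`. Let `NC q` be the property `∀ r, ¬∀ᶠ c, h (q ∪ c) = r` of finite sets.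
(2) For `U`-many `p'`, and for `p' = ∅`: for every finite set `q'`, `∀ᶠ x, ¬ p' ∪ x ~ q'`. Otherwise
`∀ᶠ x, p' ∪ x ~ q'`, so `∀ᶠ x, ∀ᶠ x', p' ∪ x ~ p' ∪ x'`; for `p' = ∅` this is `CaseB`, and
if it happens for `U`-many `p'` this is `CaseIII`. Let `ND p'` be the property
`∀ q', ∀ᶠ x, ¬ p' ∪ x ~ q'`.
(3) Let `S n` be the set of the `e` such that
 (i) for all `p, q ⊆ range n` with `¬ p ~ q`: `h (p ∪ e) ≠ h (q ∪ e)`,
 (ii) for all `p, q ⊆ range n` with `¬ p ~ q`: `¬ p ∪ e ~ q ∪ e` (this is in `U` by `sou_idem`),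
 (iii) for all `q, x ⊆ range n` with `NC q`: `h (q ∪ e) ≠ h x`,
 (iv) for all `p', q' ⊆ range n` with `ND p'`: `¬ p' ∪ e ~ q'`,
 (v) `NC e` and `ND e`.
It is in `U` (a finite intersection). Take `A` from `diag`.
(4) For `p ≠ q` in `⟨A⟩ ∪ {∅}`: `¬ p ~ q`. Let `A k` be the last entry on which they differ, say
`A k ⊆ p`: `p = p' ∪ A k ∪ r`, `q = q' ∪ r`, with `p', q'` unions of entries `A i`, `i < k`, and `r`
empty or in `⟨A⟩`, `A k < r`. As `ND p'` (`p' = ∅` or `p' ∈ ⟨A⟩`) and `A k ∈ S (mx (A (k-1)) + 1)`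
(`S 0` if `k = 0`), (iv) gives `¬ p' ∪ A k ~ q'`; if `r ≠ ∅` then (ii) for
`r ∈ S (mx (A k) + 1)` gives `¬ p' ∪ A k ∪ r ~ q' ∪ r`.
(5) Let `x ≠ y` in `⟨A⟩` with last entries `A k`, `A n`. If `k = n`, `x = p ∪ A n`, `y = q ∪ A n`,
`p ≠ q` unions of entries `A i`, `i < n` (so `n ≥ 1`), `¬ p ~ q` by (4) and `h x ≠ h y` by (i). If
`k < n` then `y = q ∪ A n` with `q = ∅` or `q ∈ ⟨A⟩`, `x, q ⊆ range (mx (A (n-1)) + 1)`, `NC q` by
(0) and (v), so `h y ≠ h x` by (iii). -/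
theorem rk_inj {U : Ultrafilter (Finset ℕ)} (hU : IsSOU U) {β : Type} (h : Finset ℕ → β)
    (ha : ¬ CaseA U h) (hb : ¬ CaseB U h) (h3 : ¬ CaseIII U h) :
    ∃ A, BlkF A ∧ fu A ∈ U ∧ ∀ x ∈ fu A, ∀ y ∈ fu A, h x = h y → x = y := by
  classical
  let E : Finset ℕ → Finset ℕ → Prop := fun p q =>
    ∀ᶠ e in (U : Filter (Finset ℕ)), h (p ∪ e) = h (q ∪ e)
  have hEsymm : ∀ p q, E p q → E q p := fun p q hpq => hpq.mono fun e he => he.symm
  have hEtrans : ∀ p q r, E p q → E q r → E p r := fun p q r h1 h2 => by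
    filter_upwards [h1, h2] with e h1 h2 using h1.trans h2
  have hnE : ∀ p q, ¬ E p q → ∀ᶠ e in (U : Filter (Finset ℕ)), ¬ h (p ∪ e) = h (q ∪ e) :=
    fun p q hpq => Ultrafilter.eventually_not.2 hpq
  let NC : Finset ℕ → Prop := fun q => ∀ r, ¬ ∀ᶠ c in (U : Filter (Finset ℕ)), h (q ∪ c) = r
  let ND : Finset ℕ → Prop := fun p' => ∀ q', ∀ᶠ x in (U : Filter (Finset ℕ)), ¬ E (p' ∪ x) q'
  have hNC0 : NC ∅ := by
    intro r hr
    apply ha
    have h1 : ∀ᶠ c in (U : Filter (Finset ℕ)), h c = r := by simpa using hr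
    have h2 := (sou_idem' hU (fun c => h c = r)).1 h1
    exact h2.mono fun b hb => hb.mono fun c hc => hb.mono fun c' hc' => hc.trans hc'.symm
  have hNC : ∀ᶠ b in (U : Filter (Finset ℕ)), NC b := by
    have h1 := Ultrafilter.eventually_not.2 ha
    refine h1.mono fun b hb r hr => hb ?_
    exact hr.mono fun c hc => hr.mono fun c' hc' => hc.trans hc'.symm
  have hND0 : ND ∅ := by
    intro q'
    by_contra hc
    have h1 : ∀ᶠ x in (U : Filter (Finset ℕ)), E (∅ ∪ x) q' := by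
      rw [Ultrafilter.eventually_not, not_not] at hc
      exact hc
    have h2 : ∀ᶠ x in (U : Filter (Finset ℕ)), E x q' := by simpa using h1
    exact hb (h2.mono fun b hb => h2.mono fun b' hb' => hEtrans _ _ _ hb (hEsymm _ _ hb'))
  have hND : ∀ᶠ b in (U : Filter (Finset ℕ)), ND b := by
    by_contra hc
    have h1 : ∀ᶠ b in (U : Filter (Finset ℕ)), ¬ ND b := Ultrafilter.eventually_not.2 hc
    apply h3
    refine h1.mono fun x0 hx0 => ?_
    have h2 : ∃ q', ¬ ∀ᶠ x in (U : Filter (Finset ℕ)), ¬ E (x0 ∪ x) q' := not_forall.1 hx0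
    obtain ⟨q', hq'⟩ := h2
    rw [Ultrafilter.eventually_not, not_not] at hq'
    exact hq'.mono fun x1 hx1 => hq'.mono fun x2 hx2 => hEtrans _ _ _ hx1 (hEsymm _ _ hx2)
  let S : ℕ → Set (Finset ℕ) := fun n => {e |
    (∀ p ∈ (Finset.range n).powerset, ∀ q ∈ (Finset.range n).powerset,
      (¬ E p q → h (p ∪ e) ≠ h (q ∪ e)) ∧ (¬ E p q → ¬ E (p ∪ e) (q ∪ e)) ∧
      (NC p → h (p ∪ e) ≠ h q) ∧ (ND p → ¬ E (p ∪ e) q)) ∧ NC e ∧ ND e}
  have hS : ∀ n, S n ∈ U := by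
    intro n
    have h1 : ∀ᶠ e in (U : Filter (Finset ℕ)),
        ∀ p ∈ (Finset.range n).powerset, ∀ q ∈ (Finset.range n).powerset,
      (¬ E p q → h (p ∪ e) ≠ h (q ∪ e)) ∧ (¬ E p q → ¬ E (p ∪ e) (q ∪ e)) ∧
      (NC p → h (p ∪ e) ≠ h q) ∧ (ND p → ¬ E (p ∪ e) q) := by
      refine (Filter.eventually_all_finset _).2 fun p _ => ?_
      refine (Filter.eventually_all_finset _).2 fun q _ => ?_
      have e1 : ∀ᶠ e in (U : Filter (Finset ℕ)), (¬ E p q → h (p ∪ e) ≠ h (q ∪ e)) := by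
        by_cases hE : E p q
        · exact Filter.Eventually.of_forall fun e he => absurd hE he
        · exact (hnE p q hE).mono fun e he _ => he
      have e2 : ∀ᶠ e in (U : Filter (Finset ℕ)), (¬ E p q → ¬ E (p ∪ e) (q ∪ e)) := by
        by_cases hE : E p q
        · exact Filter.Eventually.of_forall fun e he => absurd hE he
        · have h2 := (sou_idem' hU (fun e => ¬ h (p ∪ e) = h (q ∪ e))).1 (hnE p q hE)
          refine h2.mono fun e he _ hE2 => ?_
          obtain ⟨c, hc1, hc2⟩ := (he.and hE2).exists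
          apply hc1
          simpa [Finset.union_assoc] using hc2
      have e3 : ∀ᶠ e in (U : Filter (Finset ℕ)), (NC p → h (p ∪ e) ≠ h q) := by
        by_cases hp : NC p
        · exact (Ultrafilter.eventually_not.2 (hp (h q))).mono fun e he _ => he
        · exact Filter.Eventually.of_forall fun e he => absurd he hp
      have e4 : ∀ᶠ e in (U : Filter (Finset ℕ)), (ND p → ¬ E (p ∪ e) q) := by
        by_cases hp : ND p
        · exact (hp q).mono fun e he _ => he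
        · exact Filter.Eventually.of_forall fun e he => absurd he hp
      filter_upwards [e1, e2, e3, e4] with e h1 h2 h3 h4 using ⟨h1, h2, h3, h4⟩
    exact (h1.and (hNC.and hND)).mono fun e he => he
  obtain ⟨A, hA, hAU, hA0, hAS⟩ := diag hU S hS
  refine ⟨A, hA, hAU, ?_⟩
  let N : ℕ → ℕ := fun k => Nat.rec 0 (fun m _ => mx (A m) + 1) k
  have hN0 : N 0 = 0 := rfl
  have hNs : ∀ k, N (k + 1) = mx (A k) + 1 := fun k => rfl
  have hmem : ∀ k, ∀ J : Finset ℕ, J.Nonempty → (∀ j ∈ J, k ≤ j) → J.biUnion A ∈ S (N k) := by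
    intro k J hJ hJk
    cases k with
    | zero => exact hA0 ⟨J, hJ, rfl⟩
    | succ k =>
      rw [hNs]
      refine hAS (A k) (self_mem_fu A k) _ ⟨J, hJ, rfl⟩ ?_
      intro i hi j hj
      obtain ⟨l, hl, hjl⟩ := Finset.mem_biUnion.1 hj
      exact hA.bef (hJk l hl) i hi j hjl
  have hsub : ∀ k, ∀ I : Finset ℕ, (∀ i ∈ I, i < k) →
      I.biUnion A ∈ (Finset.range (N k)).powerset := by
    intro k I hI
    rw [Finset.mem_powerset]
    intro i hi
    obtain ⟨l, hl, hil⟩ := Finset.mem_biUnion.1 hi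
    have h1 := hI l hl
    cases k with
    | zero => omega
    | succ k =>
      rw [hNs, Finset.mem_range]
      rcases Nat.lt_succ_iff_lt_or_eq.1 h1 with h2 | h2
      · have := hA.bef h2 i hil _ (mx_mem (hA.ne k))
        omega
      · subst h2
        have := le_mx hil
        omega
  have key : ∀ I J : Finset ℕ, ∀ k, k ∈ I → k ∉ J → (∀ i, k < i → (i ∈ I ↔ i ∈ J)) →
      ¬ E (I.biUnion A) (J.biUnion A) := by
    intro I J k hkI hkJ hIJ
    have h1 : ¬ E ((I.filter (· < k)).biUnion A ∪ A k) ((J.filter (· < k)).biUnion A) := by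
      have h2 := hmem k {k} (Finset.singleton_nonempty k) (fun j hj => by
        rw [Finset.mem_singleton] at hj; exact hj.ge)
      rw [Finset.singleton_biUnion] at h2
      have h3 := (h2.1 _ (hsub k (I.filter (· < k)) (fun i hi => (Finset.mem_filter.1 hi).2))
        _ (hsub k (J.filter (· < k)) (fun i hi => (Finset.mem_filter.1 hi).2))).2.2.2
      apply h3
      rcases (I.filter (· < k)).eq_empty_or_nonempty with h4 | h4
      · rw [h4, Finset.biUnion_empty]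
        exact hND0
      · exact (hA0 ⟨_, h4, rfl⟩).2.2
    have hI : I.biUnion A = ((I.filter (· < k)).biUnion A ∪ A k) ∪ (I.filter (k < ·)).biUnion A := by
      ext i
      simp only [Finset.mem_biUnion, Finset.mem_union, Finset.mem_filter]
      constructor
      · rintro ⟨l, hl, hil⟩
        rcases lt_trichotomy l k with h2 | h2 | h2
        · exact Or.inl (Or.inl ⟨l, ⟨hl, h2⟩, hil⟩)
        · exact Or.inl (Or.inr (h2 ▸ hil))
        · exact Or.inr ⟨l, ⟨hl, h2⟩, hil⟩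
      · rintro ((⟨l, ⟨hl, _⟩, hil⟩ | h2) | ⟨l, ⟨hl, _⟩, hil⟩)
        · exact ⟨l, hl, hil⟩
        · exact ⟨k, hkI, h2⟩
        · exact ⟨l, hl, hil⟩
    have hJ : J.biUnion A = (J.filter (· < k)).biUnion A ∪ (I.filter (k < ·)).biUnion A := by
      ext i
      simp only [Finset.mem_biUnion, Finset.mem_union, Finset.mem_filter]
      constructor
      · rintro ⟨l, hl, hil⟩
        rcases lt_trichotomy l k with h2 | h2 | h2
        · exact Or.inl ⟨l, ⟨hl, h2⟩, hil⟩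
        · exact absurd (h2 ▸ hl) hkJ
        · exact Or.inr ⟨l, ⟨(hIJ l h2).2 hl, h2⟩, hil⟩
      · rintro (⟨l, ⟨hl, _⟩, hil⟩ | ⟨l, ⟨hl, h2⟩, hil⟩)
        · exact ⟨l, hl, hil⟩
        · exact ⟨l, (hIJ l h2).1 hl, hil⟩
    rw [hI, hJ]
    rcases (I.filter (k < ·)).eq_empty_or_nonempty with h4 | h4
    · rw [h4, Finset.biUnion_empty, Finset.union_empty, Finset.union_empty]
      exact h1
    · have h5 := hmem (k + 1) _ h4 (fun j hj => (Finset.mem_filter.1 hj).2)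
      have h6 : (I.filter (· < k)).biUnion A ∪ A k = (insert k (I.filter (· < k))).biUnion A := by
        rw [Finset.biUnion_insert, Finset.union_comm]
      have h7 : (I.filter (· < k)).biUnion A ∪ A k ∈ (Finset.range (N (k + 1))).powerset := by
        rw [h6]
        refine hsub (k + 1) _ fun i hi => ?_
        rcases Finset.mem_insert.1 hi with h8 | h8
        · omega
        · have := (Finset.mem_filter.1 h8).2
          omega
      have h8 : (J.filter (· < k)).biUnion A ∈ (Finset.range (N (k + 1))).powerset :=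
        hsub (k + 1) _ fun i hi => by
          have := (Finset.mem_filter.1 hi).2
          omega
      exact (h5.1 _ h7 _ h8).2.1 h1
  have key2 : ∀ I J : Finset ℕ, I ≠ J → ¬ E (I.biUnion A) (J.biUnion A) := by
    intro I J hIJ
    have hne : (symmDiff I J).Nonempty := by
      rw [Finset.nonempty_iff_ne_empty]
      intro h0
      exact hIJ (symmDiff_eq_bot.1 h0)
    have hm := (symmDiff I J).max'_mem hne
    have hgt : ∀ i, (symmDiff I J).max' hne < i → (i ∈ I ↔ i ∈ J) := by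
      intro i hi
      by_contra hc
      have : i ∈ symmDiff I J := by
        rw [Finset.mem_symmDiff]
        tauto
      exact absurd ((symmDiff I J).le_max' i this) (not_le.2 hi)
    rcases Finset.mem_symmDiff.1 hm with ⟨h1, h2⟩ | ⟨h1, h2⟩
    · exact key I J _ h1 h2 hgt
    · intro hE
      exact key J I _ h1 h2 (fun i hi => (hgt i hi).symm) (hEsymm _ _ hE)
  have hsplit : ∀ (J : Finset ℕ) (hJ : J.Nonempty),
      J.biUnion A = (J.erase (J.max' hJ)).biUnion A ∪ A (J.max' hJ) := by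
    intro J hJ
    conv_lhs => rw [← Finset.insert_erase (J.max'_mem hJ)]
    rw [Finset.biUnion_insert, Finset.union_comm]
  have hlt : ∀ (J : Finset ℕ) (hJ : J.Nonempty), ∀ j ∈ J.erase (J.max' hJ), j < J.max' hJ := by
    intro J hJ j hj
    obtain ⟨h1, h2⟩ := Finset.mem_erase.1 hj
    exact lt_of_le_of_ne (J.le_max' j h2) h1
  have hcase : ∀ (I J : Finset ℕ) (hI : I.Nonempty) (hJ : J.Nonempty), I.max' hI < J.max' hJ →
      h (J.biUnion A) ≠ h (I.biUnion A) := by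
    intro I J hI hJ hlt'
    have h2 := hmem (J.max' hJ) {J.max' hJ} (Finset.singleton_nonempty _) (fun j hj => by
        rw [Finset.mem_singleton] at hj; exact hj.ge)
    rw [Finset.singleton_biUnion] at h2
    have h3 := (h2.1 _ (hsub (J.max' hJ) (J.erase (J.max' hJ)) (hlt J hJ)) _
      (hsub (J.max' hJ) I (fun i hi => lt_of_le_of_lt (I.le_max' i hi) hlt'))).2.2.1
    rw [hsplit J hJ]
    apply h3
    rcases (J.erase (J.max' hJ)).eq_empty_or_nonempty with h4 | h4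
    · rw [h4, Finset.biUnion_empty]
      exact hNC0
    · exact (hA0 ⟨_, h4, rfl⟩).2.1
  rintro x ⟨I, hI, rfl⟩ y ⟨J, hJ, rfl⟩ hxy
  by_contra hne
  have hIJ : I ≠ J := fun h0 => hne (by rw [h0])
  rcases lt_trichotomy (I.max' hI) (J.max' hJ) with h1 | h1 | h1
  · exact hcase I J hI hJ h1 hxy.symm
  · have h2 := hmem (J.max' hJ) {J.max' hJ} (Finset.singleton_nonempty _) (fun j hj => by
        rw [Finset.mem_singleton] at hj; exact hj.ge)
    rw [Finset.singleton_biUnion] at h2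
    have hne' : I.erase (J.max' hJ) ≠ J.erase (J.max' hJ) := by
      intro h0
      apply hIJ
      rw [← Finset.insert_erase (I.max'_mem hI), h1, h0, Finset.insert_erase (J.max'_mem hJ)]
    have hltI : ∀ i ∈ I.erase (J.max' hJ), i < J.max' hJ := by
      rw [← h1]
      exact hlt I hI
    have h3 := (h2.1 _ (hsub (J.max' hJ) (I.erase (J.max' hJ)) hltI) _
      (hsub (J.max' hJ) (J.erase (J.max' hJ)) (hlt J hJ))).1 (key2 _ _ hne')
    apply h3
    rw [← hsplit J hJ]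
    have h4 := hsplit I hI
    rw [h1] at h4
    rw [← h4]
    exact hxy
  · exact hcase J I hJ hI h1 hxy

end Pool.Agent.SOU
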