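import Pool.Agent.Lib_MP_a0d45a_lc.FinU

/-!
# Piece TYP1: types of vectors, junction formula

`ty v = (supp v, {i ∈ supp v : there is a next element j of supp v after i, and v i = v j})`.
-/

set_option autoImplicit false

namespace Pool.Agent.SOU

variable {K : Type} [Field K] [DecidableEq K] {v w y z : ℕ →₀ K} {m : ℕ}

/-- the defining property -/
theorem mem_ty_snd {i : ℕ} : i ∈ (ty v).2 ↔ i ∈ v.support ∧ ∃ j ∈ v.support, i < j ∧
    (∀ l ∈ v.support, i < l → j ≤ l) ∧ v i = v j := by
  unfold ty
  exact Finset.mem_filter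

theorem ty_fst : (ty v).1 = v.support := by
  rfl

theorem ty_snd_sub : (ty v).2 ⊆ v.support := by
  unfold ty
  exact Finset.filter_subset _ _

theorem ty_smul {c : K} (hc : c ≠ 0) : ty (c • v) = ty v := by
  have hs : (c • v).support = v.support := Finsupp.support_smul_eq hc
  refine Prod.ext (by rw [ty_fst, ty_fst, hs]) ?_
  ext i
  rw [mem_ty_snd, mem_ty_snd, hs]
  have key : ∀ j, ((c • v) i = (c • v) j ↔ v i = v j) := by
    intro j
    rw [Finsupp.smul_apply, Finsupp.smul_apply, smul_eq_mul, smul_eq_mul]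
    exact mul_right_inj' hc
  simp only [key]

theorem ty_ne_of_ne (h : v ≠ 0) : (ty v).1.Nonempty := by
  rw [ty_fst]
  exact Finsupp.support_nonempty_iff.2 h

/-- junction formula. The next element after `mx v.support` in the support of `v + y` is
`mn y.support`. -/
theorem ty_add (h : Bef v.support y.support) (hv : v ≠ 0) (hy : y ≠ 0) :
    ty (v + y) = jn (ty v) (decide (v (mx v.support) = y (mn y.support))) (ty y) := by
  have hdis : Disjoint v.support y.support := by
    rw [Finset.disjoint_left]
    intro i hi hi'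
    exact lt_irrefl i (h i hi i hi')
  have hs : (v + y).support = v.support ∪ y.support := Finsupp.support_add_eq hdis
  have hvv : ∀ i ∈ v.support, (v + y) i = v i := by
    intro i hi
    have h0 : y i = 0 := Finsupp.notMem_support_iff.1 (Finset.disjoint_left.1 hdis hi)
    rw [Finsupp.add_apply, h0, add_zero]
  have hyy : ∀ i ∈ y.support, (v + y) i = y i := by
    intro i hi
    have h0 : v i = 0 := Finsupp.notMem_support_iff.1 (Finset.disjoint_right.1 hdis hi)
    rw [Finsupp.add_apply, h0, zero_add]
  have hvn : v.support.Nonempty := Finsupp.support_nonempty_iff.2 hv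
  have hyn : y.support.Nonempty := Finsupp.support_nonempty_iff.2 hy
  refine Prod.ext (by rw [ty_fst, hs]; rfl) ?_
  ext i
  show _ ↔ i ∈ (ty v).2 ∪ (ty y).2 ∪ _
  rw [Finset.mem_union, Finset.mem_union, mem_ty_snd, mem_ty_snd, mem_ty_snd, hs]
  constructor
  · rintro ⟨hi, j, hj, hij, hnx, he⟩
    rcases Finset.mem_union.1 hi with hi | hi
    · by_cases hlast : ∀ l ∈ v.support, l ≤ i
      · right
        have hjy : j ∈ y.support := by
          rcases Finset.mem_union.1 hj with hj | hj
          · exact absurd (hlast j hj) (not_le.2 hij)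
          · exact hj
        have hi' : i = mx v.support := le_antisymm (le_mx hi) (hlast _ (mx_mem hvn))
        have hj' : j = mn y.support :=
          le_antisymm (hnx _ (Finset.mem_union_right _ (mn_mem hyn)) (h i hi _ (mn_mem hyn)))
            (mn_le hjy)
        rw [hvv i hi, hyy j hjy] at he
        have hd : v (mx v.support) = y (mn y.support) := by rw [← hi', ← hj']; exact he
        rw [decide_eq_true hd]
        exact Finset.mem_filter.2 ⟨hi, hlast⟩
      · left; left
        obtain ⟨l, hl, hil⟩ : ∃ l ∈ v.support, i < l := by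
          by_contra hcon
          exact hlast fun l hl => not_lt.1 fun hlt => hcon ⟨l, hl, hlt⟩
        have hjl := hnx l (Finset.mem_union_left _ hl) hil
        have hjv : j ∈ v.support := by
          rcases Finset.mem_union.1 hj with hj | hj
          · exact hj
          · exact absurd (h l hl j hj) (not_lt.2 hjl)
        refine ⟨hi, j, hjv, hij, fun k hk => hnx k (Finset.mem_union_left _ hk), ?_⟩
        rw [← hvv i hi, ← hvv j hjv]
        exact he
    · left; right
      have hjy : j ∈ y.support := by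
        rcases Finset.mem_union.1 hj with hj | hj
        · exact absurd (h j hj i hi) (not_lt.2 hij.le)
        · exact hj
      refine ⟨hi, j, hjy, hij, fun k hk => hnx k (Finset.mem_union_right _ hk), ?_⟩
      rw [← hyy i hi, ← hyy j hjy]
      exact he
  · rintro ((⟨hi, j, hj, hij, hnx, he⟩ | ⟨hi, j, hj, hij, hnx, he⟩) | hi)
    · refine ⟨Finset.mem_union_left _ hi, j, Finset.mem_union_left _ hj, hij, ?_, ?_⟩
      · intro l hl hil
        rcases Finset.mem_union.1 hl with hl | hl
        · exact hnx l hl hil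
        · exact (h j hj l hl).le
      · rw [hvv i hi, hvv j hj]
        exact he
    · refine ⟨Finset.mem_union_right _ hi, j, Finset.mem_union_right _ hj, hij, ?_, ?_⟩
      · intro l hl hil
        rcases Finset.mem_union.1 hl with hl | hl
        · exact absurd (h l hl i hi) (not_lt.2 hil.le)
        · exact hnx l hl hil
      · rw [hyy i hi, hyy j hj]
        exact he
    · by_cases hd : v (mx v.support) = y (mn y.support)
      · rw [decide_eq_true hd] at hi
        obtain ⟨hi, hlast⟩ := Finset.mem_filter.1 hi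
        have hi : i ∈ v.support := hi
        have hlast : ∀ l ∈ v.support, l ≤ i := hlast
        have hi' : i = mx v.support := le_antisymm (le_mx hi) (hlast _ (mx_mem hvn))
        refine ⟨Finset.mem_union_left _ hi, mn y.support,
          Finset.mem_union_right _ (mn_mem hyn), h i hi _ (mn_mem hyn), ?_, ?_⟩
        · intro l hl hil
          rcases Finset.mem_union.1 hl with hl | hl
          · exact absurd (hlast l hl) (not_le.2 hil)
          · exact mn_le hl
        · rw [hvv i hi, hyy _ (mn_mem hyn), hi']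
          exact hd
      · rw [decide_eq_false hd] at hi
        simp at hi

theorem support_add_bef (h : Bef v.support y.support) :
    (v + y).support = v.support ∪ y.support := by
  refine Finsupp.support_add_eq ?_
  rw [Finset.disjoint_left]
  intro i hi hi'
  exact lt_irrefl i (h i hi i hi')

/-- both junction values are realised, because there is a scalar `≠ 0, 1` -/
theorem exists_ty_add (hK : ∃ a : K, a ≠ 0 ∧ a ≠ 1) (h : Bef v.support y.support) (hv : v ≠ 0)
    (hy : y ≠ 0) (e : Bool) : ∃ c : K, c ≠ 0 ∧ ty (v + c • y) = jn (ty v) e (ty y) := by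
  obtain ⟨a, ha0, ha1⟩ := hK
  have hvn : v.support.Nonempty := Finsupp.support_nonempty_iff.2 hv
  have hyn : y.support.Nonempty := Finsupp.support_nonempty_iff.2 hy
  have hα : v (mx v.support) ≠ 0 := Finsupp.mem_support_iff.1 (mx_mem hvn)
  have hβ : y (mn y.support) ≠ 0 := Finsupp.mem_support_iff.1 (mn_mem hyn)
  have key : ∀ c : K, c ≠ 0 → ty (v + c • y) =
      jn (ty v) (decide (v (mx v.support) = c * y (mn y.support))) (ty y) := by
    intro c hc
    have hs : (c • y).support = y.support := Finsupp.support_smul_eq hc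
    have h1 := ty_add (v := v) (y := c • y) (by rw [hs]; exact h) hv (smul_ne_zero hc hy)
    rw [h1, ty_smul hc, hs, Finsupp.smul_apply, smul_eq_mul]
  cases e with
  | true =>
    refine ⟨v (mx v.support) / y (mn y.support), div_ne_zero hα hβ, ?_⟩
    rw [key _ (div_ne_zero hα hβ), div_mul_cancel₀ _ hβ, decide_eq_true rfl]
  | false =>
    have hc : a * (v (mx v.support) / y (mn y.support)) ≠ 0 := mul_ne_zero ha0 (div_ne_zero hα hβ)
    refine ⟨a * (v (mx v.support) / y (mn y.support)), hc, ?_⟩
    rw [key _ hc, mul_assoc, div_mul_cancel₀ _ hβ, decide_eq_false]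
    intro he
    apply ha1
    have : 1 * v (mx v.support) = a * v (mx v.support) := by rw [one_mul]; exact he
    exact (mul_right_cancel₀ hα this).symm

theorem ty_add_smul (h : Bef v.support y.support) (hv : v ≠ 0) (hy : y ≠ 0) {c : K} (hc : c ≠ 0) :
    ∃ e, ty (v + c • y) = jn (ty v) e (ty y) := by
  have hs : (c • y).support = y.support := Finsupp.support_smul_eq hc
  have h1 := ty_add (v := v) (y := c • y) (by rw [hs]; exact h) hv (smul_ne_zero hc hy)
  rw [ty_smul hc] at h1
  exact ⟨_, h1⟩

/-- the part of the type from `m` on is the type of the part of the vector from `m` on -/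
theorem tyFrom_ty : tyFrom m (ty v) = ty (v.filter (fun i => m ≤ i)) := by
  have hs : (v.filter (fun i => m ≤ i)).support = v.support.filter (fun i => m ≤ i) :=
    Finsupp.support_filter _ _
  refine Prod.ext ?_ ?_
  · rw [ty_fst, hs]
    rfl
  · ext i
    rw [mem_ty_snd, hs]
    show i ∈ (ty v).2.filter (fun i => m ≤ i) ↔ _
    rw [Finset.mem_filter, mem_ty_snd]
    constructor
    · rintro ⟨⟨hi, j, hj, hij, hnx, he⟩, hmi⟩
      refine ⟨Finset.mem_filter.2 ⟨hi, hmi⟩, j, Finset.mem_filter.2 ⟨hj, hmi.trans hij.le⟩, hij,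
        fun l hl => hnx l (Finset.mem_filter.1 hl).1, ?_⟩
      rw [Finsupp.filter_apply_pos (fun i => m ≤ i) v hmi,
        Finsupp.filter_apply_pos (fun i => m ≤ i) v (hmi.trans hij.le)]
      exact he
    · rintro ⟨hi, j, hj, hij, hnx, he⟩
      obtain ⟨hi, hmi⟩ := Finset.mem_filter.1 hi
      obtain ⟨hj, hmj⟩ := Finset.mem_filter.1 hj
      rw [Finsupp.filter_apply_pos (fun i => m ≤ i) v hmi,
        Finsupp.filter_apply_pos (fun i => m ≤ i) v hmj] at he
      exact ⟨⟨hi, j, hj, hij, fun l hl hil =>
        hnx l (Finset.mem_filter.2 ⟨hl, hmi.trans hil.le⟩) hil, he⟩, hmi⟩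

/-- for `supp v < m ≤ supp y`: the part from `m` on of `v + c y` is `c y` -/
theorem tyFrom_add (hv : Hi m v.support) (hy : Lo m y.support) {c : K} (hc : c ≠ 0) :
    tyFrom m (ty (v + c • y)) = ty y := by
  have h1 : v.filter (fun i => m ≤ i) = 0 := by
    rw [Finsupp.filter_eq_zero_iff]
    intro i hi
    by_contra h0
    exact absurd (hv i (Finsupp.mem_support_iff.2 h0)) (not_lt.2 hi)
  have h2 : (c • y).filter (fun i => m ≤ i) = c • y := by
    rw [Finsupp.filter_eq_self_iff]
    intro i hi
    refine hy i ?_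
    rw [← Finsupp.support_smul_eq (b := c) hc]
    exact Finsupp.mem_support_iff.2 hi
  rw [tyFrom_ty, Finsupp.filter_add, h1, h2, zero_add, ty_smul hc]

theorem tyFrom_add' (hv : Hi m v.support) {c : K} (hc : c ≠ 0) :
    tyFrom m (ty (v + c • z)) = ty (z.filter (fun i => m ≤ i)) := by
  have h1 : v.filter (fun i => m ≤ i) = 0 := by
    rw [Finsupp.filter_eq_zero_iff]
    intro i hi
    by_contra h0
    exact absurd (hv i (Finsupp.mem_support_iff.2 h0)) (not_lt.2 hi)
  rw [tyFrom_ty, Finsupp.filter_add, h1, Finsupp.filter_smul, zero_add, ty_smul hc]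

theorem ty_mem_TypB (h : Hi m v.support) : ty v ∈ TypB m := by
  unfold TypB
  rw [Finset.mem_product, Finset.mem_powerset, Finset.mem_powerset]
  exact ⟨fun j hj => Finset.mem_range.2 (h j hj),
    fun j hj => Finset.mem_range.2 (h j (ty_snd_sub hj))⟩

theorem mem_TypB {ϑ : Typ} : ϑ ∈ TypB m ↔ Hi m ϑ.1 ∧ Hi m ϑ.2 := by
  unfold TypB
  rw [Finset.mem_product, Finset.mem_powerset, Finset.mem_powerset]
  exact ⟨fun h => ⟨fun j hj => Finset.mem_range.1 (h.1 hj), fun j hj => Finset.mem_range.1 (h.2 hj)⟩,
    fun h => ⟨fun j hj => Finset.mem_range.2 (h.1 j hj), fun j hj => Finset.mem_range.2 (h.2 j hj)⟩⟩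

theorem TypB_mono {n : ℕ} (h : m ≤ n) : TypB m ⊆ TypB n := by
  intro ϑ hϑ
  rw [mem_TypB] at hϑ ⊢
  exact ⟨fun j hj => (hϑ.1 j hj).trans_le h, fun j hj => (hϑ.2 j hj).trans_le h⟩

/-- a vector with the same support and a prescribed pattern of junctions: let `z = ∑_{l < L} d l • X l` with
all `d l ≠ 0`, `X` a block sequence; then the junction bit at `mx (X l).support` (`l + 1 < L`) is
`[d l X l (last) = d (l+1) X (l+1) (first)]`; by recursion on `l` one chooses `d` with `d 0 = 1` and
given bits `ε`. Moreover the bit stays the same in all vectors `w + c • z + w'` with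
`w < z < w'`, `c ≠ 0`; here only `w + c • z`. -/
theorem exists_bits (hK : ∃ a : K, a ≠ 0 ∧ a ≠ 1) {X : ℕ → ℕ →₀ K} (hX : Blk X) (L : ℕ)
    (ε : ℕ → Bool) : ∃ d : ℕ → K, (∀ l, d l ≠ 0) ∧
      ∀ w : ℕ →₀ K, ∀ c : K, c ≠ 0 → Bef w.support (X 0).support → ∀ l, l + 1 < L →
        (mx (X l).support ∈ (ty (w + c • ∑ i ∈ Finset.range L, d i • X i)).2 ↔ ε l = true) := by
  obtain ⟨a, ha0, ha1⟩ := hK
  have hA : BlkF (fun n => (X n).support) :=
    ⟨fun n => Finsupp.support_nonempty_iff.2 (hX.ne n), hX.lt⟩
  have hα : ∀ l, X l (mx (X l).support) ≠ 0 := fun l =>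
    Finsupp.mem_support_iff.1 (mx_mem (hA.ne l))
  have hβ : ∀ l, X l (mn (X l).support) ≠ 0 := fun l =>
    Finsupp.mem_support_iff.1 (mn_mem (hA.ne l))
  obtain ⟨d, hd0, hds⟩ : ∃ d : ℕ → K, d 0 = 1 ∧ ∀ l, d (l + 1) =
      (if ε l = true then 1 else a) *
        (d l * X l (mx (X l).support) / X (l + 1) (mn (X (l + 1)).support)) :=
    ⟨fun n => Nat.rec 1 (fun l x => (if ε l = true then 1 else a) *
      (x * X l (mx (X l).support) / X (l + 1) (mn (X (l + 1)).support))) n, rfl, fun l => rfl⟩
  have hd : ∀ l, d l ≠ 0 := by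
    intro l
    induction l with
    | zero => rw [hd0]; exact one_ne_zero
    | succ l ih =>
      rw [hds]
      refine mul_ne_zero ?_ (div_ne_zero (mul_ne_zero ih (hα l)) (hβ (l + 1)))
      split_ifs
      · exact one_ne_zero
      · exact ha0
  refine ⟨d, hd, ?_⟩
  intro w c hc hw l hl
  -- values of the vector
  have hval : ∀ k, k < L → ∀ i ∈ (X k).support,
      (w + c • ∑ i ∈ Finset.range L, d i • X i) i = c * (d k * X k i) := by
    intro k hk i hi
    have hw0 : w i = 0 := by
      by_contra h0
      have hiw := Finsupp.mem_support_iff.2 h0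
      rcases Nat.eq_zero_or_pos k with h1 | h1
      · subst h1
        exact lt_irrefl i (hw i hiw i hi)
      · obtain ⟨j, hj⟩ := hA.ne 0
        exact lt_irrefl i ((hw i hiw j hj).trans (hA.bef h1 j hj i hi))
    rw [Finsupp.add_apply, hw0, zero_add, Finsupp.smul_apply, smul_eq_mul,
      Finsupp.finsetSum_apply, Finset.sum_eq_single k]
    · rw [Finsupp.smul_apply, smul_eq_mul]
    · intro j _ hjk
      have h0 : X j i = 0 := by
        by_contra h0
        exact Finset.disjoint_left.1 (hA.disj hjk) (Finsupp.mem_support_iff.2 h0) hi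
      rw [Finsupp.smul_apply, h0, smul_zero]
    · intro hk'
      exact absurd (Finset.mem_range.2 hk) hk'
  have hnz : ∀ k, k < L → ∀ i ∈ (X k).support,
      i ∈ (w + c • ∑ i ∈ Finset.range L, d i • X i).support := by
    intro k hk i hi
    rw [Finsupp.mem_support_iff, hval k hk i hi]
    exact mul_ne_zero hc (mul_ne_zero (hd k) (Finsupp.mem_support_iff.1 hi))
  have hcase : ∀ i ∈ (w + c • ∑ i ∈ Finset.range L, d i • X i).support,
      i ∈ w.support ∨ ∃ k, k < L ∧ i ∈ (X k).support := by
    intro i hi
    by_contra hcon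
    push Not at hcon
    obtain ⟨h1, h2⟩ := hcon
    rw [Finsupp.mem_support_iff] at hi
    apply hi
    rw [Finsupp.add_apply, Finsupp.notMem_support_iff.1 h1, zero_add, Finsupp.smul_apply,
      Finsupp.finsetSum_apply, Finset.sum_eq_zero, smul_zero]
    intro k hk
    rw [Finsupp.smul_apply, Finsupp.notMem_support_iff.1 (h2 k (Finset.mem_range.1 hk)), smul_zero]
  have hlL : l < L := Nat.lt_of_succ_lt hl
  have hi0 : mx (X l).support ∈ (X l).support := mx_mem (hA.ne l)
  have hj0 : mn (X (l + 1)).support ∈ (X (l + 1)).support := mn_mem (hA.ne (l + 1))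
  have hij : mx (X l).support < mn (X (l + 1)).support := hX.lt l _ hi0 _ hj0
  have hnext : ∀ i ∈ (w + c • ∑ i ∈ Finset.range L, d i • X i).support,
      mx (X l).support < i → mn (X (l + 1)).support ≤ i := by
    intro i hi hlt
    rcases hcase i hi with h1 | ⟨k, hk, h1⟩
    · exfalso
      rcases Nat.eq_zero_or_pos l with h2 | h2
      · subst h2
        exact absurd (hw i h1 _ hi0) (not_lt.2 hlt.le)
      · obtain ⟨j, hj⟩ := hA.ne 0
        exact absurd ((hw i h1 j hj).trans (hA.bef h2 j hj _ hi0)) (not_lt.2 hlt.le)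
    · rcases lt_trichotomy k (l + 1) with h2 | h2 | h2
      · exfalso
        rcases Nat.lt_succ_iff_lt_or_eq.1 h2 with h3 | h3
        · exact absurd (hA.bef h3 i h1 _ hi0) (not_lt.2 hlt.le)
        · subst h3
          exact absurd (le_mx h1) (not_le.2 hlt)
      · subst h2
        exact mn_le h1
      · exact (hA.bef h2 _ hj0 i h1).le
  have hmem := mem_ty_snd (v := w + c • ∑ i ∈ Finset.range L, d i • X i)
    (i := mx (X l).support)
  rw [hmem]
  have hiff : (w + c • ∑ i ∈ Finset.range L, d i • X i) (mx (X l).support) =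
      (w + c • ∑ i ∈ Finset.range L, d i • X i) (mn (X (l + 1)).support) ↔ ε l = true := by
    rw [hval l hlL _ hi0, hval (l + 1) hl _ hj0, hds, mul_assoc _ _ (X (l + 1) _),
      div_mul_cancel₀ _ (hβ (l + 1)), mul_right_inj' hc]
    have hne : d l * X l (mx (X l).support) ≠ 0 := mul_ne_zero (hd l) (hα l)
    split_ifs with h1
    · exact ⟨fun _ => h1, fun _ => (one_mul _).symm⟩
    · constructor
      · intro he
        exfalso
        apply ha1
        have : 1 * (d l * X l (mx (X l).support)) = a * (d l * X l (mx (X l).support)) := by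
          rw [one_mul]; exact he
        exact (mul_right_cancel₀ hne this).symm
      · intro he
        exact absurd he h1
  constructor
  · rintro ⟨_, j, hj, hlj, hnx, he⟩
    have hjj : j = mn (X (l + 1)).support :=
      le_antisymm (hnx _ (hnz (l + 1) hl _ hj0) hij) (hnext j hj hlj)
    subst hjj
    exact hiff.1 he
  · intro he
    exact ⟨hnz l hlL _ hi0, _, hnz (l + 1) hl _ hj0, hij, hnext, hiff.2 he⟩

end Pool.Agent.SOU
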