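import Pool.Agent.Lib_MP_a0d45a_lc.USF
import Pool.Agent.Lib_MP_a0d45a_lc.Typ1

/-!
# Piece THIN: a full block filter avoids one type per support
-/

set_option autoImplicit false

namespace Pool.Agent.SOU

variable {K : Type} [Field K] [DecidableEq K] {F : Filter (ℕ →₀ K)}

/-- sum of entries with nonzero coefficients -/
theorem lc_range {X : ℕ → ℕ →₀ K} (hX : Blk X) (L : ℕ) (d : ℕ → K) (hd : ∀ l, d l ≠ 0) :
    (∑ i ∈ Finset.range (L + 1), d i • X i).support = (Finset.range (L + 1)).biUnion (sp X) ∧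
      (∑ i ∈ Finset.range (L + 1), d i • X i) ∈ bs X := by
  have hc : ∃ c : ℕ →₀ K, c.support = Finset.range (L + 1) ∧
      Finsupp.linearCombination K X c = ∑ i ∈ Finset.range (L + 1), d i • X i := by
    refine ⟨∑ i ∈ Finset.range (L + 1), Finsupp.single i (d i), ?_, ?_⟩
    · ext j
      rw [Finsupp.mem_support_iff, Finsupp.finset_sum_apply]
      simp only [Finsupp.single_apply, Finset.sum_ite_eq', Finset.mem_range]
      constructor
      · intro h
        by_contra h'
        rw [if_neg h'] at h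
        exact h rfl
      · intro h
        rw [if_pos h]
        exact hd j
    · rw [map_sum]
      simp only [Finsupp.linearCombination_single]
  obtain ⟨c, hc1, hc2⟩ := hc
  have h1 : (∑ i ∈ Finset.range (L + 1), d i • X i).support =
      (Finset.range (L + 1)).biUnion (sp X) := by
    rw [← hc2, supp_lc hX c, hc1]
  refine ⟨h1, ?_, ?_⟩
  · intro h0
    rw [h0, Finsupp.support_zero] at h1
    have h2 : (X 0).support ⊆ (Finset.range (L + 1)).biUnion (sp X) :=
      Finset.subset_biUnion_of_mem (sp X) (Finset.mem_range.2 (Nat.succ_pos L))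
    rw [← h1, Finset.subset_empty, Finsupp.support_eq_empty] at h2
    exact hX.ne 0 h2
  · refine Submodule.sum_mem _ fun i _ => Submodule.smul_mem _ _ (Submodule.subset_span ⟨i, rfl⟩)

/-- one step of the construction -/
theorem thin_step (hK : ∃ a : K, a ≠ 0 ∧ a ≠ 1) {X : ℕ → ℕ →₀ K} (hX : Blk X)
    (ν : Finset ℕ → Typ) (S : Finset (Finset ℕ)) (N : ℕ) (hS : ∀ s ∈ S, Hi N s) :
    ∃ z ∈ bs X, Lo N z.support ∧ ∀ w : ℕ →₀ K, w.support ∈ S → ∀ c : K, c ≠ 0 →
      ty (w + c • z) ≠ ν (w.support ∪ z.support) := by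
  have hmono : StrictMono (fun n : ℕ => n + N) := fun a b h => Nat.add_lt_add_right h N
  have hX' : Blk (fun n => X (n + N)) := hX.comp hmono
  have hlo : ∀ i, Lo N (X (i + N)).support := by
    intro i j hj
    have := hX.blkF.ge (i + N) j hj
    omega
  -- enumeration of `S`
  obtain ⟨e, he⟩ : ∃ e : ℕ → Finset ℕ, ∀ s ∈ S, ∃ l < S.card, e l = s := by
    refine ⟨fun l => if h : l < S.card then (S.equivFin.symm ⟨l, h⟩ : S) else ∅, ?_⟩
    intro s hs
    refine ⟨(S.equivFin ⟨s, hs⟩).1, (S.equivFin ⟨s, hs⟩).2, ?_⟩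
    simp
  set t : Finset ℕ := (Finset.range (S.card + 1)).biUnion (sp (fun n => X (n + N))) with ht
  obtain ⟨d, hd, hbits⟩ := exists_bits hK hX' (S.card + 1)
    (fun l => decide (mx (X (l + N)).support ∉ (ν (e l ∪ t)).2))
  obtain ⟨hs1, hs2⟩ := lc_range hX' S.card d hd
  refine ⟨∑ i ∈ Finset.range (S.card + 1), d i • X (i + N), ?_, ?_, ?_⟩
  · exact bs_mono (fun n => self_mem_bs hX (n + N)) hs2
  · rw [hs1]
    intro j hj
    rw [Finset.mem_biUnion] at hj
    obtain ⟨i, _, hi⟩ := hj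
    exact hlo i j hi
  · intro w hw c hc h
    obtain ⟨l, hl, hel⟩ := he _ hw
    have hB : Bef w.support (X (0 + N)).support := by
      intro i hi j hj
      exact lt_of_lt_of_le (hS _ hw i hi) (hlo 0 j hj)
    have h1 := hbits w c hc hB l (Nat.add_lt_add_right hl 1)
    rw [h, hs1, ← hel] at h1
    rw [decide_eq_true_eq] at h1
    by_cases h2 : mx (X (l + N)).support ∈ (ν (e l ∪ t)).2
    · exact (h1.1 h2) h2
    · exact h2 (h1.2 h2)

/-- PROOF. We find, for every block sequence `X`, a block sequence `Z` in `⟨X⟩` such that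
`ty v ≠ ν (supp v)` for all `v ∈ ⟨Z⟩`. Construct `Z j` recursively, `Z j = ∑_{l ≤ L} d l • X (n + l)`, all `d l ≠ 0`,
where `n` is so large that `X n` is above `Z (j-1)` and `L = 2 ^ j`. Let `I_1, ..., I_L` be the
subsets of `{0, ..., j-1}`, and `s_l = (⋃_{i ∈ I_l} supp (Z i)) ∪ supp (X n) ∪ ... ∪ supp (X (n+L))`;
this is known before the choice of the `d l`. By `exists_bits` choose the `d l` such that for
`l = 1, ..., L`: `mx (supp X (n+l-1)) ∈ (ty (w + c • Z j)).2 ↔ mx (supp X (n+l-1)) ∉ (ν s_l).2` for all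
`w < Z j` and `c ≠ 0`. Every `v ∈ ⟨Z⟩` is `w + c • Z j` with `j` the last index, `w` in the span of the
`Z i`, `i < j`, and `supp v = s_l` where `I_l` is the index set of `w`. So `ty v ≠ ν (supp v)`. -/
theorem exists_thin (hK : ∃ a : K, a ≠ 0 ∧ a ≠ 1) {X : ℕ → ℕ →₀ K} (hX : Blk X)
    (ν : Finset ℕ → Typ) : ∃ Z, Blk Z ∧ bs Z ⊆ bs X ∧ ∀ v ∈ bs Z, ty v ≠ ν v.support := by
  choose f hf1 hf2 hf3 using thin_step hK hX ν
  -- the recursion
  let St : Type := {p : Finset (Finset ℕ) × ℕ // ∀ s ∈ p.1, Hi p.2 s}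
  let zz : St → ℕ →₀ K := fun σ => f σ.1.1 σ.1.2 σ.2
  have hnext : ∀ σ : St, ∀ s ∈ σ.1.1 ∪ σ.1.1.image (fun s => s ∪ (zz σ).support),
      Hi (max σ.1.2 (mx (zz σ).support + 1)) s := by
    intro σ s hs j hj
    rw [Finset.mem_union, Finset.mem_image] at hs
    rcases hs with hs | ⟨s', hs', rfl⟩
    · exact lt_of_lt_of_le (σ.2 s hs j hj) (le_max_left _ _)
    · rw [Finset.mem_union] at hj
      rcases hj with hj | hj
      · exact lt_of_lt_of_le (σ.2 s' hs' j hj) (le_max_left _ _)
      · exact lt_of_lt_of_le (Nat.lt_succ_of_le (le_mx hj)) (le_max_right _ _)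
  let nxt : St → St := fun σ =>
    ⟨(σ.1.1 ∪ σ.1.1.image (fun s => s ∪ (zz σ).support), max σ.1.2 (mx (zz σ).support + 1)), hnext σ⟩
  let σ₀ : St := ⟨({∅}, 0), by
    intro s hs j hj
    rw [Finset.mem_singleton] at hs
    rw [hs] at hj
    exact absurd hj (Finset.notMem_empty j)⟩
  let σ : ℕ → St := fun n => nxt^[n] σ₀
  have hσ : ∀ n, σ (n + 1) = nxt (σ n) := fun n => Function.iterate_succ_apply' nxt n σ₀
  let Z : ℕ → ℕ →₀ K := fun n => zz (σ n)
  have hZ1 : ∀ n, Z n ∈ bs X := fun n => hf1 _ _ _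
  have hZ2 : ∀ n, Lo (σ n).1.2 (Z n).support := fun n => hf2 _ _ _
  have hZ3 : ∀ n (w : ℕ →₀ K), w.support ∈ (σ n).1.1 → ∀ c : K, c ≠ 0 →
      ty (w + c • Z n) ≠ ν (w.support ∪ (Z n).support) := fun n => hf3 _ _ _
  have hZ : Blk Z := by
    refine ⟨fun n => bs_ne_zero (hZ1 n), fun n i hi j hj => ?_⟩
    have h1 := hZ2 (n + 1) j hj
    rw [hσ n] at h1
    have h2 : mx (Z n).support + 1 ≤ (nxt (σ n)).1.2 := le_max_right _ _
    have h3 := le_mx hi
    omega
  have hmem : ∀ n, ∀ I ⊆ Finset.range n, I.biUnion (sp Z) ∈ (σ n).1.1 := by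
    intro n
    induction n with
    | zero =>
      intro I hI
      rw [Finset.range_zero, Finset.subset_empty] at hI
      subst hI
      rw [Finset.biUnion_empty]
      exact Finset.mem_singleton_self _
    | succ n ih =>
      intro I hI
      rw [hσ n]
      show I.biUnion (sp Z) ∈ (σ n).1.1 ∪ (σ n).1.1.image (fun s => s ∪ (zz (σ n)).support)
      rw [Finset.mem_union, Finset.mem_image]
      by_cases hn : n ∈ I
      · right
        refine ⟨(I.erase n).biUnion (sp Z), ih _ ?_, ?_⟩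
        · intro i hi
          rw [Finset.mem_erase] at hi
          have := Finset.mem_range.1 (hI hi.2)
          rw [Finset.mem_range]
          omega
        · conv_rhs => rw [← Finset.insert_erase hn, Finset.biUnion_insert]
          rw [Finset.union_comm]
          rfl
      · left
        refine ih _ ?_
        intro i hi
        have h1 := Finset.mem_range.1 (hI hi)
        have h2 : i ≠ n := fun h => hn (h ▸ hi)
        rw [Finset.mem_range]
        omega
  refine ⟨Z, hZ, bs_mono hZ1, ?_⟩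
  intro v hv
  obtain ⟨n, a, ha, w, hvw, hw, hB, _, _⟩ := bs_snoc hZ hv
  have hws : w.support ∈ (σ n).1.1 := by
    rcases hw with hw | hw
    · have := hmem n ∅ (Finset.empty_subset _)
      rw [Finset.biUnion_empty] at this
      rw [hw, Finsupp.support_zero]
      exact this
    · obtain ⟨I, _, hI⟩ := supp_mem_fu hZ hw
      rw [hI]
      refine hmem n I ?_
      intro i hi
      rw [Finset.mem_range]
      by_contra hin
      obtain ⟨j, hj⟩ := hZ.blkF.ne i
      have h1 : j ∈ w.support := by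
        rw [hI]
        exact Finset.mem_biUnion.2 ⟨i, hi, hj⟩
      rcases lt_or_eq_of_le (not_lt.1 hin) with h2 | h2
      · obtain ⟨l, hl⟩ := hZ.blkF.ne n
        have h3 := hZ.blkF.bef h2 l hl j hj
        have h4 := hB j h1 l hl
        omega
      · subst h2
        exact lt_irrefl _ (hB j h1 j hj)
  have hsup : v.support = w.support ∪ (Z n).support := by
    have hs : (a • Z n).support = (Z n).support := Finsupp.support_smul_eq ha
    rw [hvw, support_add_bef (by rw [hs]; exact hB), hs]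
  rw [hsup, hvw]
  exact hZ3 n w hws a ha

/-- by `full_blk` -/
theorem thin (hK : ∃ a : K, a ≠ 0 ∧ a ≠ 1) (hF : IsFull F) (ν : Finset ℕ → Typ) :
    ∀ᶠ v in F, ty v ≠ ν v.support := by
  refine full_blk hF {v | ty v ≠ ν v.support} ?_
  intro X hX _
  obtain ⟨Z, hZ, hZX, h⟩ := exists_thin hK hX ν
  exact ⟨Z, hZ, hZX, h⟩

end Pool.Agent.SOU
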