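import Pool.Agent.Lib_MP_a0d45a_lc.UDiag

/-!
# Piece USEL: the images of `U` under `mn` and `mx` are selective

PROOF. `U` decides between `∀ᶠ b, ∀ᶠ c, g (mn b) = g (mn c)` and `∀ᶠ b, ∀ᶠ c, g (mn b) ≠ g (mn c)`
(`Filter.Eventually` for an ultrafilter: `Ultrafilter.eventually_not`, `Ultrafilter.em`). In the
first case fix `b`; then `{c | g (mn c) = g (mn b)} ∈ U`. In the second case `diag2` gives
`⟨A⟩ ∈ U` with `g (mn b) ≠ g (mn c)` for all `b < c` in `⟨A⟩`. For `x, y ∈ ⟨A⟩` let `A n`, `A m` be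
the first entries (`fu_first`), so `mn x = mn (A n)`, `mn y = mn (A m)`; if `n < m` then
`A n < A m` and `g (mn x) ≠ g (mn y)`. So `g (mn x) = g (mn y)` implies `n = m`, `mn x = mn y`.
For `mx` the same with the last entries.
-/

set_option autoImplicit false

namespace Pool.Agent.SOU

theorem usel_mn_union {a b : Finset ℕ} (h : Bef a b) (ha : a.Nonempty) : mn (a ∪ b) = mn a := by
  refine le_antisymm (mn_le (Finset.mem_union_left _ (mn_mem ha))) ?_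
  have h1 : mn (a ∪ b) ∈ a ∪ b := mn_mem (ha.mono Finset.subset_union_left)
  rcases Finset.mem_union.1 h1 with h2 | h2
  · exact mn_le h2
  · exact (h _ (mn_mem ha) _ h2).le

theorem usel_mx_union {a b : Finset ℕ} (h : Bef a b) (hb : b.Nonempty) : mx (a ∪ b) = mx b := by
  refine le_antisymm ?_ (le_mx (Finset.mem_union_right _ (mx_mem hb)))
  have h1 : mx (a ∪ b) ∈ a ∪ b := mx_mem (hb.mono Finset.subset_union_right)
  rcases Finset.mem_union.1 h1 with h2 | h2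
  · exact (h _ h2 _ (mx_mem hb)).le
  · exact le_mx h2

variable {U : Ultrafilter (Finset ℕ)} (hU : IsSOU U)
include hU

theorem usel_aux {β : Type} (φ : Finset ℕ → ℕ)
    (hφ : ∀ A, BlkF A → ∀ b ∈ fu A, ∃ n, φ b = φ (A n)) (g : ℕ → β) :
    (∃ x, ∀ᶠ b in (U : Filter (Finset ℕ)), g (φ b) = x) ∨
    ∃ A, BlkF A ∧ fu A ∈ U ∧ ∀ b ∈ fu A, ∀ c ∈ fu A, g (φ b) = g (φ c) → φ b = φ c := by
  by_cases h : ∀ᶠ b in (U : Filter (Finset ℕ)), ∀ᶠ c in (U : Filter (Finset ℕ)),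
      ¬ g (φ b) = g (φ c)
  · right
    obtain ⟨A, hA, hAU, hA2⟩ := diag2 hU h
    refine ⟨A, hA, hAU, fun b hb c hc hbc => ?_⟩
    obtain ⟨n, hn⟩ := hφ A hA b hb
    obtain ⟨m, hm⟩ := hφ A hA c hc
    rw [hn, hm] at hbc ⊢
    rcases lt_trichotomy n m with h1 | h1 | h1
    · exact absurd hbc (hA2 _ (self_mem_fu A n) _ (self_mem_fu A m) (hA.bef h1))
    · rw [h1]
    · exact absurd hbc.symm (hA2 _ (self_mem_fu A m) _ (self_mem_fu A n) (hA.bef h1))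
  · left
    obtain ⟨b, hb⟩ := (Ultrafilter.eventually_not.2 h).exists
    rw [Ultrafilter.eventually_not, not_not] at hb
    exact ⟨g (φ b), hb.mono fun c hc => hc.symm⟩

theorem sel_mn {β : Type} (g : ℕ → β) :
    (∃ x, ∀ᶠ b in (U : Filter (Finset ℕ)), g (mn b) = x) ∨
    ∃ A, BlkF A ∧ fu A ∈ U ∧ ∀ b ∈ fu A, ∀ c ∈ fu A, g (mn b) = g (mn c) → mn b = mn c := by
  refine usel_aux hU mn (fun A hA b hb => ?_) g
  obtain ⟨n, -, hn, -⟩ := fu_first hA hb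
  exact ⟨n, hn⟩

theorem sel_mx {β : Type} (g : ℕ → β) :
    (∃ x, ∀ᶠ b in (U : Filter (Finset ℕ)), g (mx b) = x) ∨
    ∃ A, BlkF A ∧ fu A ∈ U ∧ ∀ b ∈ fu A, ∀ c ∈ fu A, g (mx b) = g (mx c) → mx b = mx c := by
  refine usel_aux hU mx (fun A hA b hb => ?_) g
  obtain ⟨n, -, hn, -⟩ := fu_last hA hb
  exact ⟨n, hn⟩

/-- there is no set in `U` on which `mn` determines `mx`: take `⟨A⟩ ⊆ S` and `A 0`, `A 0 ∪ A 1` -/
theorem not_mn_det_mx {S : Set (Finset ℕ)} (hS : S ∈ U) :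
    ∃ b ∈ S, ∃ c ∈ S, mn b = mn c ∧ mx b ≠ mx c := by
  obtain ⟨A, hA, -, hAS⟩ := hU.base S hS
  refine ⟨A 0, hAS (self_mem_fu A 0), A 0 ∪ A 1,
    hAS (fu_union (self_mem_fu A 0) (self_mem_fu A 1)), ?_, ?_⟩
  · exact (usel_mn_union (hA.bef Nat.zero_lt_one) (hA.ne 0)).symm
  · rw [usel_mx_union (hA.bef Nat.zero_lt_one) (hA.ne 1)]
    exact ((hA.bef Nat.zero_lt_one) _ (mx_mem (hA.ne 0)) _ (mx_mem (hA.ne 1))).ne

theorem not_mx_det_mn {S : Set (Finset ℕ)} (hS : S ∈ U) :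
    ∃ b ∈ S, ∃ c ∈ S, mx b = mx c ∧ mn b ≠ mn c := by
  obtain ⟨A, hA, -, hAS⟩ := hU.base S hS
  refine ⟨A 1, hAS (self_mem_fu A 1), A 0 ∪ A 1,
    hAS (fu_union (self_mem_fu A 0) (self_mem_fu A 1)), ?_, ?_⟩
  · exact (usel_mx_union (hA.bef Nat.zero_lt_one) (hA.ne 1)).symm
  · rw [usel_mn_union (hA.bef Nat.zero_lt_one) (hA.ne 0)]
    exact ((hA.bef Nat.zero_lt_one) _ (mn_mem (hA.ne 0)) _ (mn_mem (hA.ne 1))).ne'

/-- `A 0 ∪ A 2` and `A 0 ∪ A 1 ∪ A 2` -/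
theorem not_det {S : Set (Finset ℕ)} (hS : S ∈ U) :
    ∃ b ∈ S, ∃ c ∈ S, mn b = mn c ∧ mx b = mx c ∧ b ≠ c := by
  obtain ⟨A, hA, -, hAS⟩ := hU.base S hS
  have h01 : Bef (A 0) (A 1) := hA.bef Nat.zero_lt_one
  have h02 : Bef (A 0) (A 2) := hA.bef (by norm_num)
  have h12 : Bef (A 1) (A 2) := hA.bef (by norm_num)
  refine ⟨A 0 ∪ A 2, hAS (fu_union (self_mem_fu A 0) (self_mem_fu A 2)), A 0 ∪ (A 1 ∪ A 2),
    hAS (fu_union (self_mem_fu A 0) (fu_union (self_mem_fu A 1) (self_mem_fu A 2))), ?_, ?_, ?_⟩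
  · rw [usel_mn_union h02 (hA.ne 0), usel_mn_union (Bef.union_right h01 h02) (hA.ne 0)]
  · rw [usel_mx_union h02 (hA.ne 2), usel_mx_union (Bef.union_right h01 h02)
      ((hA.ne 1).mono Finset.subset_union_left), usel_mx_union h12 (hA.ne 2)]
  · intro h
    obtain ⟨i, hi⟩ := hA.ne 1
    have h3 : i ∈ A 0 ∪ A 2 := by
      rw [h]
      exact Finset.mem_union_right _ (Finset.mem_union_left _ hi)
    rcases Finset.mem_union.1 h3 with h4 | h4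
    · exact absurd (h01 i h4 i hi) (lt_irrefl i)
    · exact absurd (h12 i hi i h4) (lt_irrefl i)

end Pool.Agent.SOU
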