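import Pool.Agent.Lib_MP_a0d45a_lc.Vec

/-!
# Piece BF: first facts on block filters
-/

set_option autoImplicit false

namespace Pool.Agent.SOU

variable {K : Type} [Field K] {F : Filter (ℕ →₀ K)}

/-- `cofin` for `V = {v | v i = 0 for i < m}` -/
theorem bf_tail (hF : IsBlockFilter F) (m : ℕ) : ∀ᶠ v in F, Lo m v.support := by
  set f : (ℕ →₀ K) →ₗ[K] (Fin m → K) := LinearMap.pi fun i => Finsupp.lapply (i : ℕ) with hf
  have hfd : FiniteDimensional K ((ℕ →₀ K) ⧸ LinearMap.ker f) :=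
    Module.Finite.equiv f.quotKerEquivRange.symm
  refine Filter.mem_of_superset (hF.cofin (LinearMap.ker f) hfd) ?_
  rintro v ⟨-, hv⟩ j hj
  by_contra hjm
  have hjm' : j < m := by omega
  have h1 : f v = 0 := LinearMap.mem_ker.1 hv
  have h2 : f v ⟨j, hjm'⟩ = 0 := by rw [h1]; rfl
  have h3 : v j = 0 := h2
  exact (Finsupp.mem_support_iff.1 hj) h3

theorem bf_ne (hF : IsBlockFilter F) : ∀ᶠ v in F, v ≠ 0 := by
  exact hF.nz

theorem bf_base (hF : IsBlockFilter F) {p : (ℕ →₀ K) → Prop} (hp : ∀ᶠ v in F, p v) :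
    ∃ X, Blk X ∧ bs X ∈ F ∧ ∀ v ∈ bs X, p v := by
  obtain ⟨X, h1, h2, h3⟩ := hF.base {v | p v} hp
  exact ⟨X, h1, h2, fun v hv => h3 hv⟩

theorem bf_base' (hF : IsBlockFilter F) {X : ℕ → ℕ →₀ K} (hX : bs X ∈ F)
    {p : (ℕ →₀ K) → Prop} (hp : ∀ᶠ v in F, p v) :
    ∃ Y, Blk Y ∧ bs Y ∈ F ∧ bs Y ⊆ bs X ∧ ∀ v ∈ bs Y, p v := by
  obtain ⟨Y, h1, h2, h3⟩ := hF.base (bs X ∩ {v | p v}) (Filter.inter_mem hX hp)
  exact ⟨Y, h1, h2, fun v hv => (h3 hv).1, fun v hv => (h3 hv).2⟩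

/-- `bf_tail` and `mem_bs_tail` -/
theorem bf_bs_tail (hF : IsBlockFilter F) {X : ℕ → ℕ →₀ K} (hX : Blk X) (h : bs X ∈ F) (k : ℕ) :
    bs (fun n => X (n + k)) ∈ F := by
  have hm := bf_tail hF (((Finset.range k).biUnion (fun n => (X n).support)).sup id + 1)
  refine Filter.mem_of_superset (Filter.inter_mem h hm) ?_
  rintro v ⟨hv, hv'⟩
  rw [mem_bs_tail hX k]
  refine ⟨hv, fun n hn i hi j hj => ?_⟩
  have h1 : i ∈ (Finset.range k).biUnion (fun n => (X n).support) :=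
    Finset.mem_biUnion.2 ⟨n, Finset.mem_range.2 hn, hi⟩
  have h2 : id i ≤ ((Finset.range k).biUnion (fun n => (X n).support)).sup id :=
    Finset.le_sup (f := id) h1
  have h3 := hv' j hj
  simp only [id] at h2
  omega

/-- fullness in terms of block sequences: the span of `Z` is an infinite-dimensional subspace
(`span_infinite`) -/
theorem full_blk (hF : IsFull F) (D : Set (ℕ →₀ K))
    (h : ∀ X, Blk X → bs X ∈ F → ∃ Z, Blk Z ∧ bs Z ⊆ bs X ∧ bs Z ⊆ D) : D ∈ F := by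
  refine hF.full D ?_
  intro X hX hXF
  obtain ⟨Z, hZ, h1, h2⟩ := h X hX hXF
  refine ⟨Submodule.span K (Set.range Z), span_infinite hZ, ?_⟩
  intro v hv hv0
  exact ⟨h1 ⟨hv0, hv⟩, h2 ⟨hv0, hv⟩⟩

/-- the converse direction: if `D ∉ F`, some `⟨X⟩ ∈ F` contains no `⟨Z⟩ ⊆ D` -/
theorem full_blk' (hF : IsFull F) {D : Set (ℕ →₀ K)} (h : D ∉ F) :
    ∃ X, Blk X ∧ bs X ∈ F ∧ ∀ Z, Blk Z → bs Z ⊆ bs X → ¬ bs Z ⊆ D := by
  by_contra hc
  apply h
  refine full_blk hF D ?_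
  intro X hX hXF
  by_contra hc2
  apply hc
  refine ⟨X, hX, hXF, fun Z hZ h1 h2 => hc2 ⟨Z, hZ, h1, h2⟩⟩

/-- `F`-density is witnessed by block sequences (`exists_blk_of_infinite`, `bs_mono`) -/
theorem fdense_blk {D : Set (ℕ →₀ K)} (hD : FDense F D) {X : ℕ → ℕ →₀ K} (hX : Blk X)
    (h : bs X ∈ F) : ∃ Z, Blk Z ∧ bs Z ⊆ bs X ∧ bs Z ⊆ D := by
  obtain ⟨V, hV, h1⟩ := hD X hX h
  obtain ⟨Z, hZ, h2⟩ := exists_blk_of_infinite V hV
  have h3 : Submodule.span K (Set.range Z) ≤ V := by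
    rw [Submodule.span_le]
    rintro _ ⟨n, rfl⟩
    exact h2 n
  exact ⟨Z, hZ, fun v hv => (h1 v (h3 hv.2) hv.1).1, fun v hv => (h1 v (h3 hv.2) hv.1).2⟩

/-- a filter generated by spans of block sequences, closed downwards and containing tails,
is a block filter as soon as it is proper, provided that it contains all the sets
`{v ≠ 0 | v ∈ V}`, `V` of finite codimension: every `⟨X⟩` meets `V` ... here only the
direction used for Lemma K: two filters `G ≤ F` with a base of sets `⟨X⟩` such that each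
`⟨X⟩ ∈ G` is in `F` are equal -/
theorem eq_of_bs (F G : Filter (ℕ →₀ K)) (hGF : G ≤ F)
    (hb : ∀ S ∈ G, ∃ X, Blk X ∧ bs X ∈ G ∧ bs X ⊆ S)
    (h : ∀ X, Blk X → bs X ∈ G → bs X ∈ F) : G = F := by
  refine le_antisymm hGF ?_
  intro S hS
  obtain ⟨X, h1, h2, h3⟩ := hb S hS
  exact Filter.mem_of_superset (h X h1 h2) h3

end Pool.Agent.SOU
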