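import Pool.Agent.Lib_MP_a0d45a_lc.Defs

/-!
# Auxiliary definitions: order of finite sets, types of vectors, nodes, conditions
-/

set_option autoImplicit false

namespace Pool.Agent.SOU

/-- `a < b` for finite sets -/
def Bef (a b : Finset ℕ) : Prop := ∀ i ∈ a, ∀ j ∈ b, i < j

/-- all elements are `≥ m` -/
def Lo (m : ℕ) (b : Finset ℕ) : Prop := ∀ j ∈ b, m ≤ j

/-- all elements are `< m` -/
def Hi (m : ℕ) (b : Finset ℕ) : Prop := ∀ j ∈ b, j < m

/-- the minimum -/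
noncomputable def mn (b : Finset ℕ) : ℕ := sInf (b : Set ℕ)

/-- the maximum -/
def mx (b : Finset ℕ) : ℕ := b.sup id

variable {K : Type} [Field K] [DecidableEq K]

/-- types: (support, positions where the next coefficient is the same) -/
abbrev Typ : Type := Finset ℕ × Finset ℕ

/-- the type of a vector: its support, and the set of the positions `i` in the support such that
there is a next position in the support, with the same coefficient -/
def ty (v : ℕ →₀ K) : Typ :=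
  (v.support, v.support.filter (fun i => ∃ j ∈ v.support, i < j ∧ (∀ l ∈ v.support, i < l → j ≤ l) ∧
    v i = v j))

/-- all types of level `m` -/
def TypB (m : ℕ) : Finset Typ := (Finset.range m).powerset ×ˢ (Finset.range m).powerset

/-- junction of two types (`ϑ` before `ϑ'`) -/
def jn (ϑ : Typ) (e : Bool) (ϑ' : Typ) : Typ :=
  (ϑ.1 ∪ ϑ'.1, ϑ.2 ∪ ϑ'.2 ∪ (if e then ϑ.1.filter (fun i => ∀ l ∈ ϑ.1, l ≤ i) else ∅))

/-- the part of a type from `m` on -/
def tyFrom (m : ℕ) (ϑ : Typ) : Typ := (ϑ.1.filter (m ≤ ·), ϑ.2.filter (m ≤ ·))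

/-- types of the vectors `v + c y` with `v` of level `m` and `c ≠ 0` -/
def TT (m : ℕ) (y : ℕ →₀ K) : Set Typ :=
  {ϑ | ∃ (v : ℕ →₀ K) (c : K), Hi m v.support ∧ c ≠ 0 ∧ ϑ = ty (v + c • y)}

/-- nodes `(m, a)`: the set `a` of types of level `m` -/
abbrev Node : Type := ℕ × Finset Typ

/-- `t` extends `s` -/
def Ext (s t : Node) : Prop := s.1 ≤ t.1 ∧ t.2 ∩ TypB s.1 = s.2

/-- `s` and `t` are comparable -/
def Cmp (s t : Node) : Prop := Ext s t ∨ Ext t s

/-- `t` has the pattern `π` at `y`, level `m` -/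
def Pat (m : ℕ) (y : ℕ →₀ K) (π : Set Typ) (t : Node) : Prop :=
  Hi t.1 y.support ∧ ∀ ϑ ∈ TT m y, (ϑ ∈ t.2 ↔ ϑ ∈ π)

/-- the conditions of the forcing `Q_F` -/
@[ext] structure Cd (F : Filter (ℕ →₀ K)) where
  T : Set Node
  ne : T.Nonempty
  val : ∀ s ∈ T, s.2 ⊆ TypB s.1
  down : ∀ t ∈ T, ∀ m ≤ t.1, ((m, t.2 ∩ TypB m) : Node) ∈ T
  act : ∀ s ∈ T, ∀ᶠ y in F, ∀ π : Set Typ, ∃ t ∈ T, Ext s t ∧ Pat s.1 y π t

instance (F : Filter (ℕ →₀ K)) : PartialOrder (Cd F) where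
  le S T := S.T ⊆ T.T
  le_refl _ := subset_rfl
  le_trans _ _ _ h1 h2 := h1.trans h2
  le_antisymm _ _ h1 h2 := Cd.ext (Set.Subset.antisymm h1 h2)

end Pool.Agent.SOU
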