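import Pool.Agent.Lib_MP_a0d45a_lc.USF
import Pool.Agent.Lib_MP_a0d45a_lc.UGap

/-!
# Piece FDIAG: diagonalisation in a `(p⁺)`-filter
-/

set_option autoImplicit false

namespace Pool.Agent.SOU

variable {K : Type} [Field K] {F : Filter (ℕ →₀ K)}

/-- gap lemma for `F`: PROOF. Let `U` be the support ultrafilter (`exists_US`, `US_sou`), and `⟨A⟩ ∈ U`
from `gap_lemma`. Take `⟨Y⟩ ∈ F` inside `S` with `v.support ∈ ⟨A⟩` for `v ∈ ⟨Y⟩`; use `fu_gap`. -/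
theorem F_gap (hF : IsPPlus F) (h : ℕ → ℕ) {S : Set (ℕ →₀ K)} (hS : S ∈ F) :
    ∃ Y, Blk Y ∧ bs Y ∈ F ∧ bs Y ⊆ S ∧
      ∀ v ∈ bs Y, ∀ w ∈ bs Y, Bef v.support w.support → ∀ j ∈ w.support, h (mx v.support) < j := by
  obtain ⟨U, hU⟩ := exists_US hF.toIsFull
  have hSOU : IsSOU U := US_sou hF hU
  obtain ⟨A, hA, hAU, -, hg⟩ := gap_lemma hSOU h (S := Set.univ) Filter.univ_mem
  have h1 : ∀ᶠ v in F, v.support ∈ fu A := by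
    have : fu A ∈ (U : Filter (Finset ℕ)) := hAU
    rw [hU] at this
    exact this
  obtain ⟨Y, hY, hYF, hYp⟩ := bf_base hF.toIsBlockFilter
    (p := fun v => v ∈ S ∧ v.support ∈ fu A) (Filter.Eventually.and hS h1)
  refine ⟨Y, hY, hYF, fun v hv => (hYp v hv).1, ?_⟩
  intro v hv w hw hvw
  exact fu_gap hA hg (hYp v hv).2 (hYp w hw).2 hvw

/-- PROOF. Choose `⟨X n⟩ ∈ F` inside `⋂_{i ≤ n} S i`, `Y'` from `pfil` with `k : ℕ → ℕ`, and apply `F_gap`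
with `h i = k (i + 1)` to the set `⟨Y'⟩ ∩ S 0`. -/
theorem F_diag (hF : IsPPlus F) (S : ℕ → Set (ℕ →₀ K)) (hS : ∀ n, S n ∈ F) :
    ∃ Y, Blk Y ∧ bs Y ∈ F ∧ bs Y ⊆ S 0 ∧
      ∀ v ∈ bs Y, ∀ w ∈ bs Y, Bef v.support w.support → w ∈ S (mx v.support + 1) := by
  have h1 : ∀ n, ∃ X, Blk X ∧ bs X ∈ F ∧ bs X ⊆ S n := fun n => hF.base (S n) (hS n)
  choose X hX hXF hXS using h1
  obtain ⟨Y', hY', hYF', hk⟩ := hF.pfil X (fun n => ⟨hX n, hXF n⟩)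
  choose k hk using hk
  obtain ⟨Y, hY, hYF, hYS, hgap⟩ := F_gap hF (fun i => k (i + 1))
    (S := bs Y' ∩ S 0) (Filter.inter_mem hYF' (hS 0))
  refine ⟨Y, hY, hYF, fun v hv => (hYS hv).2, ?_⟩
  intro v hv w hw hvw
  exact hXS _ (hk (mx v.support + 1) w (hYS hw).1 (hgap v hv w hw hvw))

/-- a p-filter form for arbitrary sets: choose `⟨X n⟩ ∈ F` inside `⋂_{i ≤ n} S i` and apply `pfil` -/
theorem F_pseudo (hF : IsPPlus F) (S : ℕ → Set (ℕ →₀ K)) (hS : ∀ n, S n ∈ F) :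
    ∃ Y, Blk Y ∧ bs Y ∈ F ∧ ∀ n, ∃ k, ∀ v ∈ bs Y, Lo k v.support → v ∈ S n := by
  have h1 : ∀ n, ∃ X, Blk X ∧ bs X ∈ F ∧ bs X ⊆ S n := fun n => hF.base (S n) (hS n)
  choose X hX hXF hXS using h1
  obtain ⟨Y, hY, hYF, hk⟩ := hF.pfil X (fun n => ⟨hX n, hXF n⟩)
  refine ⟨Y, hY, hYF, fun n => ?_⟩
  obtain ⟨k, hk⟩ := hk n
  exact ⟨k + 1, fun v hv hlo => hXS n (hk v hv (fun j hj => hlo j hj))⟩

/-- the same for `U` -/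
theorem U_pseudo {U : Ultrafilter (Finset ℕ)} (hU : IsSOU U) (S : ℕ → Set (Finset ℕ))
    (hS : ∀ n, S n ∈ U) :
    ∃ A, BlkF A ∧ fu A ∈ U ∧ ∀ n, ∃ k, ∀ b ∈ fu A, Lo k b → b ∈ S n := by
  have h1 : ∀ n, ∃ A, BlkF A ∧ fu A ∈ U ∧ fu A ⊆ S n := fun n => hU.base (S n) (hS n)
  choose A hA hAU hAS using h1
  obtain ⟨B, hB, hBU, hk⟩ := hU.stable A (fun n => ⟨hA n, hAU n⟩)
  refine ⟨B, hB, hBU, fun n => ?_⟩
  obtain ⟨k, hk⟩ := hk n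
  exact ⟨k + 1, fun b hb hlo => hAS n (hk b hb (fun j hj => hlo j hj))⟩

end Pool.Agent.SOU
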