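import Pool.Agent.Lib_MP_a0d45a_lc.Base

/-!
# Piece FINU: finite unions of block sequences of finite sets

Elementary. Everything follows from: for `BlkF A` and `b = I.biUnion A` one has
`n ∈ I ↔ A n ⊆ b ↔ (A n ∩ b).Nonempty` (the `A n` are nonempty and pairwise disjoint).
-/

set_option autoImplicit false

namespace Pool.Agent.SOU

variable {A B : ℕ → Finset ℕ} {b c : Finset ℕ}

theorem finU_mn_mem (h : b.Nonempty) : mn b ∈ b := by
  have := Nat.sInf_mem (s := (b : Set ℕ)) (by exact_mod_cast h)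
  exact_mod_cast this

theorem finU_mn_le {i : ℕ} (h : i ∈ b) : mn b ≤ i := Nat.sInf_le (by exact_mod_cast h)

theorem finU_mx_mem (h : b.Nonempty) : mx b ∈ b := by
  obtain ⟨i, hi, hi'⟩ := Finset.exists_mem_eq_sup b h id
  unfold mx
  rw [hi']
  exact hi

theorem finU_le_mx {i : ℕ} (h : i ∈ b) : i ≤ mx b := Finset.le_sup (f := id) h

/-- Induction on `n` (the sets are nonempty, so `<` is transitive along the sequence). -/
theorem BlkF.bef (hA : BlkF A) {m n : ℕ} (h : m < n) : Bef (A m) (A n) := by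
  induction n with
  | zero => omega
  | succ n ih =>
    rcases Nat.lt_succ_iff_lt_or_eq.1 h with h | rfl
    · intro i hi j hj
      obtain ⟨k, hk⟩ := hA.ne n
      exact (ih h i hi k hk).trans (hA.lt n k hk j hj)
    · exact hA.lt m

/-- By induction the elements of `A n` are `≥ n`. -/
theorem BlkF.ge (hA : BlkF A) (n : ℕ) : Lo n (A n) := by
  induction n with
  | zero => exact fun j _ => Nat.zero_le j
  | succ n ih =>
    intro j hj
    obtain ⟨i, hi⟩ := hA.ne n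
    have h1 := ih i hi
    have h2 := hA.lt n i hi j hj
    omega

theorem BlkF.disj (hA : BlkF A) {m n : ℕ} (h : m ≠ n) : Disjoint (A m) (A n) := by
  rw [Finset.disjoint_left]
  intro i hi hj
  rcases lt_or_gt_of_ne h with h | h
  · exact absurd (hA.bef h i hi i hj) (lt_irrefl i)
  · exact absurd (hA.bef h i hj i hi) (lt_irrefl i)

theorem BlkF.inj (hA : BlkF A) {m n : ℕ} (h : A m = A n) : m = n := by
  by_contra hne
  have hd := hA.disj hne
  rw [h, Finset.disjoint_self_iff_empty] at hd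
  exact (hA.ne n).ne_empty hd

theorem fu_ne (hA : BlkF A) (hb : b ∈ fu A) : b.Nonempty := by
  obtain ⟨I, hI, rfl⟩ := hb
  obtain ⟨n, hn⟩ := hI
  obtain ⟨i, hi⟩ := hA.ne n
  exact ⟨i, Finset.mem_biUnion.2 ⟨n, hn, hi⟩⟩

theorem self_mem_fu (A : ℕ → Finset ℕ) (n : ℕ) : A n ∈ fu A := by
  exact ⟨{n}, Finset.singleton_nonempty n, Finset.singleton_biUnion.symm⟩

theorem fu_union (hb : b ∈ fu A) (hc : c ∈ fu A) : b ∪ c ∈ fu A := by
  obtain ⟨I, hI, rfl⟩ := hb
  obtain ⟨J, hJ, rfl⟩ := hc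
  exact ⟨I ∪ J, hI.mono Finset.subset_union_left, Finset.union_biUnion.symm⟩

/-- the index set of a finite union is unique: it consists of the `n` with `A n ⊆ b` -/
theorem mem_index_iff (hA : BlkF A) (I : Finset ℕ) (n : ℕ) : n ∈ I ↔ A n ⊆ I.biUnion A := by
  constructor
  · intro h
    exact Finset.subset_biUnion_of_mem A h
  · intro h
    obtain ⟨i, hi⟩ := hA.ne n
    obtain ⟨k, hk, hik⟩ := Finset.mem_biUnion.1 (h hi)
    by_cases hkn : k = n
    · exact hkn ▸ hk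
    · exact absurd hi (Finset.disjoint_left.1 (hA.disj hkn) hik)

theorem index_inj (hA : BlkF A) {I J : Finset ℕ} (h : I.biUnion A = J.biUnion A) : I = J := by
  ext n
  rw [mem_index_iff hA I n, mem_index_iff hA J n, h]

/-- a finite union and an entry are disjoint or the entry is contained in it -/
theorem sub_or_disj (hA : BlkF A) (hb : b ∈ fu A) (n : ℕ) : A n ⊆ b ∨ Disjoint (A n) b := by
  obtain ⟨I, hI, rfl⟩ := hb
  by_cases hn : n ∈ I
  · exact Or.inl ((mem_index_iff hA I n).1 hn)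
  · right
    rw [Finset.disjoint_left]
    intro i hi hi'
    obtain ⟨k, hk, hik⟩ := Finset.mem_biUnion.1 hi'
    have hkn : k ≠ n := fun h => hn (h ▸ hk)
    exact Finset.disjoint_left.1 (hA.disj hkn) hik hi

theorem fu_sdiff (hA : BlkF A) (hb : b ∈ fu A) (hc : c ∈ fu A) (h : (b \ c).Nonempty) :
    b \ c ∈ fu A := by
  obtain ⟨I, hI, rfl⟩ := hb
  obtain ⟨J, hJ, rfl⟩ := hc
  have key : I.biUnion A \ J.biUnion A = (I \ J).biUnion A := by
    ext i
    simp only [Finset.mem_sdiff, Finset.mem_biUnion]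
    constructor
    · rintro ⟨⟨n, hn, hi⟩, h2⟩
      exact ⟨n, ⟨hn, fun hJ => h2 ⟨n, hJ, hi⟩⟩, hi⟩
    · rintro ⟨n, ⟨hn, hnJ⟩, hi⟩
      refine ⟨⟨n, hn, hi⟩, ?_⟩
      rintro ⟨k, hk, hik⟩
      have hkn : k ≠ n := fun h => hnJ (h ▸ hk)
      exact Finset.disjoint_left.1 (hA.disj hkn) hik hi
  rw [key] at h ⊢
  refine ⟨I \ J, ?_, rfl⟩
  obtain ⟨i, hi⟩ := h
  obtain ⟨n, hn, _⟩ := Finset.mem_biUnion.1 hi
  exact ⟨n, hn⟩

theorem fu_inter (hA : BlkF A) (hb : b ∈ fu A) (hc : c ∈ fu A) (h : (b ∩ c).Nonempty) :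
    b ∩ c ∈ fu A := by
  obtain ⟨I, hI, rfl⟩ := hb
  obtain ⟨J, hJ, rfl⟩ := hc
  have key : I.biUnion A ∩ J.biUnion A = (I ∩ J).biUnion A := by
    ext i
    simp only [Finset.mem_inter, Finset.mem_biUnion]
    constructor
    · rintro ⟨⟨n, hn, hi⟩, k, hk, hik⟩
      have hkn : k = n := by
        by_contra hkn
        exact Finset.disjoint_left.1 (hA.disj hkn) hik hi
      exact ⟨n, ⟨hn, hkn ▸ hk⟩, hi⟩
    · rintro ⟨n, ⟨hn, hnJ⟩, hi⟩
      exact ⟨⟨n, hn, hi⟩, n, hnJ, hi⟩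
  rw [key] at h ⊢
  refine ⟨I ∩ J, ?_, rfl⟩
  obtain ⟨i, hi⟩ := h
  obtain ⟨n, hn, _⟩ := Finset.mem_biUnion.1 hi
  exact ⟨n, hn⟩

theorem fu_mono (h : ∀ n, B n ∈ fu A) : fu B ⊆ fu A := by
  rintro b ⟨I, hI, rfl⟩
  choose f hf hf' using h
  refine ⟨I.biUnion f, ?_, ?_⟩
  · obtain ⟨n, hn⟩ := hI
    obtain ⟨m, hm⟩ := hf n
    exact ⟨m, Finset.mem_biUnion.2 ⟨n, hn, hm⟩⟩
  · rw [Finset.biUnion_biUnion]
    exact Finset.biUnion_congr rfl fun n _ => hf' n

/-- `i ∈ b` lies in an entry contained in `b` -/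
theorem mem_fu_block (hb : b ∈ fu A) {i : ℕ} (hi : i ∈ b) : ∃ n, i ∈ A n ∧ A n ⊆ b := by
  obtain ⟨I, hI, rfl⟩ := hb
  obtain ⟨n, hn, hin⟩ := Finset.mem_biUnion.1 hi
  exact ⟨n, hin, Finset.subset_biUnion_of_mem A hn⟩

/-- the first entry of a finite union: it has the same minimum. Every element of `b` outside
`A n` is above `A n`. -/
theorem fu_first (hA : BlkF A) (hb : b ∈ fu A) :
    ∃ n, A n ⊆ b ∧ mn b = mn (A n) ∧ ∀ k, A k ⊆ b → n ≤ k := by
  obtain ⟨I, hI, rfl⟩ := hb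
  have hn := I.min'_mem hI
  have hsub := (mem_index_iff hA I _).1 hn
  refine ⟨I.min' hI, hsub, le_antisymm ?_ ?_, ?_⟩
  · exact finU_mn_le (hsub (finU_mn_mem (hA.ne _)))
  · have hne : (I.biUnion A).Nonempty := (hA.ne _).mono hsub
    obtain ⟨k, hk, hik⟩ := Finset.mem_biUnion.1 (finU_mn_mem hne)
    rcases (I.min'_le k hk).lt_or_eq with h | h
    · exact (hA.bef h _ (finU_mn_mem (hA.ne _)) _ hik).le
    · rw [h]
      exact finU_mn_le hik
  · intro k hk
    exact I.min'_le k ((mem_index_iff hA I k).2 hk)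

/-- the last entry of a finite union -/
theorem fu_last (hA : BlkF A) (hb : b ∈ fu A) :
    ∃ n, A n ⊆ b ∧ mx b = mx (A n) ∧ ∀ k, A k ⊆ b → k ≤ n := by
  obtain ⟨I, hI, rfl⟩ := hb
  have hn := I.max'_mem hI
  have hsub := (mem_index_iff hA I _).1 hn
  refine ⟨I.max' hI, hsub, le_antisymm ?_ ?_, ?_⟩
  · have hne : (I.biUnion A).Nonempty := (hA.ne _).mono hsub
    obtain ⟨k, hk, hik⟩ := Finset.mem_biUnion.1 (finU_mx_mem hne)
    rcases (I.le_max' k hk).lt_or_eq with h | h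
    · exact (hA.bef h _ hik _ (finU_mx_mem (hA.ne _))).le
    · rw [← h]
      exact finU_le_mx hik
  · exact finU_le_mx (hsub (finU_mx_mem (hA.ne _)))
  · intro k hk
    exact I.le_max' k ((mem_index_iff hA I k).2 hk)

theorem mn_mem (h : b.Nonempty) : mn b ∈ b := by
  exact finU_mn_mem h

theorem mn_le {i : ℕ} (h : i ∈ b) : mn b ≤ i := by
  exact finU_mn_le h

theorem mx_mem (h : b.Nonempty) : mx b ∈ b := by
  exact finU_mx_mem h

theorem le_mx {i : ℕ} (h : i ∈ b) : i ≤ mx b := by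
  exact finU_le_mx h

theorem mn_inj (hA : BlkF A) {m n : ℕ} (h : mn (A m) = mn (A n)) : m = n := by
  by_contra hne
  exact Finset.disjoint_left.1 (hA.disj hne) (mn_mem (hA.ne m)) (h ▸ mn_mem (hA.ne n))

theorem mx_inj (hA : BlkF A) {m n : ℕ} (h : mx (A m) = mx (A n)) : m = n := by
  by_contra hne
  exact Finset.disjoint_left.1 (hA.disj hne) (mx_mem (hA.ne m)) (h ▸ mx_mem (hA.ne n))

theorem Bef.union_left {a b c : Finset ℕ} (h1 : Bef a c) (h2 : Bef b c) : Bef (a ∪ b) c := by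
  intro i hi j hj
  rcases Finset.mem_union.1 hi with hi | hi
  · exact h1 i hi j hj
  · exact h2 i hi j hj

theorem Bef.union_right {a b c : Finset ℕ} (h1 : Bef a b) (h2 : Bef a c) : Bef a (b ∪ c) := by
  intro i hi j hj
  rcases Finset.mem_union.1 hj with hj | hj
  · exact h1 i hi j hj
  · exact h2 i hi j hj

theorem Bef.mx_lt {a b : Finset ℕ} (h : Bef a b) (ha : a.Nonempty) {j : ℕ} (hj : j ∈ b) :
    mx a < j := by
  exact h _ (mx_mem ha) j hj

theorem Bef.trans' {a b c : Finset ℕ} (h1 : Bef a b) (h2 : Bef b c) (hb : b.Nonempty) :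
    Bef a c := by
  intro i hi j hj
  obtain ⟨k, hk⟩ := hb
  exact (h1 i hi k hk).trans (h2 k hk j hj)

/-- tails are block sequences -/
theorem BlkF.tail (hA : BlkF A) (k : ℕ) : BlkF (fun n => A (n + k)) := by
  exact ⟨fun n => hA.ne _, fun n => hA.bef (by omega)⟩

/-- subsequences are block sequences -/
theorem BlkF.comp (hA : BlkF A) {f : ℕ → ℕ} (hf : StrictMono f) : BlkF (fun n => A (f n)) := by
  exact ⟨fun n => hA.ne _, fun n => hA.bef (hf (Nat.lt_succ_self n))⟩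

theorem mem_fu_tail (hA : BlkF A) (k : ℕ) :
    b ∈ fu (fun n => A (n + k)) ↔ b ∈ fu A ∧ ∀ n < k, Bef (A n) b := by
  constructor
  · rintro ⟨I, hI, rfl⟩
    refine ⟨⟨I.image (fun n => n + k), hI.image _, Finset.image_biUnion.symm⟩, ?_⟩
    intro n hn i hi j hj
    obtain ⟨l, hl, hjl⟩ := Finset.mem_biUnion.1 hj
    exact hA.bef (by omega) i hi j hjl
  · rintro ⟨⟨I, hI, rfl⟩, h⟩
    have hge : ∀ n ∈ I, k ≤ n := by
      intro n hn
      by_contra hlt
      obtain ⟨i, hi⟩ := hA.ne n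
      exact absurd (h n (by omega) i hi i (Finset.mem_biUnion.2 ⟨n, hn, hi⟩)) (lt_irrefl i)
    refine ⟨I.image (fun n => n - k), hI.image _, ?_⟩
    rw [Finset.image_biUnion]
    refine Finset.biUnion_congr rfl fun n hn => ?_
    rw [Nat.sub_add_cancel (hge n hn)]

/-- the union of the entries `A n ⊆ b` with `n < k` and of those with `n ≥ k` -/
theorem fu_split (hA : BlkF A) (hb : b ∈ fu A) (k : ℕ) :
    ∃ τ c, b = τ ∪ c ∧ (τ = ∅ ∨ τ ∈ fu A ∧ ∃ n < k, mx τ = mx (A n)) ∧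
      (c = ∅ ∨ c ∈ fu (fun n => A (n + k))) := by
  obtain ⟨I, hI, rfl⟩ := hb
  refine ⟨(I.filter (fun n => n < k)).biUnion A, (I.filter (fun n => ¬ n < k)).biUnion A, ?_, ?_, ?_⟩
  · rw [← Finset.union_biUnion, Finset.filter_union_filter_not_eq]
  · rcases (I.filter (fun n => n < k)).eq_empty_or_nonempty with h | h
    · left
      rw [h, Finset.biUnion_empty]
    · right
      have hmem : (I.filter (fun n => n < k)).biUnion A ∈ fu A := ⟨_, h, rfl⟩
      refine ⟨hmem, ?_⟩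
      obtain ⟨n, hn, hmx, _⟩ := fu_last hA hmem
      have := (mem_index_iff hA _ n).2 hn
      exact ⟨n, (Finset.mem_filter.1 this).2, hmx⟩
  · rcases (I.filter (fun n => ¬ n < k)).eq_empty_or_nonempty with h | h
    · left
      rw [h, Finset.biUnion_empty]
    · right
      rw [mem_fu_tail hA k]
      refine ⟨⟨_, h, rfl⟩, ?_⟩
      intro n hn i hi j hj
      obtain ⟨l, hl, hjl⟩ := Finset.mem_biUnion.1 hj
      have := (Finset.mem_filter.1 hl).2
      exact hA.bef (by omega) i hi j hjl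

/-- `b ∈ ⟨A⟩` is `A n` or `A n ∪ c` with `c ∈ ⟨A⟩`, `A n < c` -/
theorem fu_cons (hA : BlkF A) (hb : b ∈ fu A) :
    ∃ n, b = A n ∨ ∃ c ∈ fu A, Bef (A n) c ∧ b = A n ∪ c := by
  obtain ⟨I, hI, rfl⟩ := hb
  have hn := I.min'_mem hI
  have hins : insert (I.min' hI) (I.erase (I.min' hI)) = I := Finset.insert_erase hn
  refine ⟨I.min' hI, ?_⟩
  have hu : I.biUnion A = A (I.min' hI) ∪ (I.erase (I.min' hI)).biUnion A := by
    rw [← Finset.biUnion_insert, hins]
  rcases (I.erase (I.min' hI)).eq_empty_or_nonempty with h | h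
  · left
    rw [hu, h, Finset.biUnion_empty, Finset.union_empty]
  · right
    refine ⟨_, ⟨_, h, rfl⟩, ?_, hu⟩
    intro i hi j hj
    obtain ⟨l, hl, hjl⟩ := Finset.mem_biUnion.1 hj
    obtain ⟨hl1, hl2⟩ := Finset.mem_erase.1 hl
    exact hA.bef (lt_of_le_of_ne (I.min'_le l hl2) (Ne.symm hl1)) i hi j hjl

/-- `b ∈ ⟨A⟩` is `A n` or `c ∪ A n` with `c ∈ ⟨A⟩`, `c < A n` -/
theorem fu_snoc (hA : BlkF A) (hb : b ∈ fu A) :
    ∃ n, b = A n ∨ ∃ c ∈ fu A, Bef c (A n) ∧ b = c ∪ A n := by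
  obtain ⟨I, hI, rfl⟩ := hb
  have hn := I.max'_mem hI
  have hins : insert (I.max' hI) (I.erase (I.max' hI)) = I := Finset.insert_erase hn
  refine ⟨I.max' hI, ?_⟩
  have hu : I.biUnion A = (I.erase (I.max' hI)).biUnion A ∪ A (I.max' hI) := by
    rw [Finset.union_comm, ← Finset.biUnion_insert, hins]
  rcases (I.erase (I.max' hI)).eq_empty_or_nonempty with h | h
  · left
    rw [hu, h, Finset.biUnion_empty, Finset.empty_union]
  · right
    refine ⟨_, ⟨_, h, rfl⟩, ?_, hu⟩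
    intro i hi j hj
    obtain ⟨l, hl, hil⟩ := Finset.mem_biUnion.1 hi
    obtain ⟨hl1, hl2⟩ := Finset.mem_erase.1 hl
    exact hA.bef (lt_of_le_of_ne (I.le_max' l hl2) hl1) i hil j hj

/-- construction of block sequences: choose `B n` recursively above `B (n-1)` -/
theorem exists_blkF (P : ℕ → Finset ℕ → Prop)
    (h : ∀ n N, ∃ b : Finset ℕ, b.Nonempty ∧ Lo N b ∧ P n b) : ∃ B, BlkF B ∧ ∀ n, P n (B n) := by
  choose f hne hlo hP using h
  let B : ℕ → Finset ℕ := fun n => Nat.rec (f 0 0) (fun n b => f (n + 1) (mx b + 1)) n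
  have hB0 : B 0 = f 0 0 := rfl
  have hBs : ∀ n, B (n + 1) = f (n + 1) (mx (B n) + 1) := fun n => rfl
  refine ⟨B, ⟨?_, ?_⟩, ?_⟩
  · intro n
    cases n with
    | zero => rw [hB0]; exact hne _ _
    | succ n => rw [hBs]; exact hne _ _
  · intro n i hi j hj
    rw [hBs] at hj
    have h1 := hlo _ _ j hj
    have h2 := le_mx hi
    omega
  · intro n
    cases n with
    | zero => rw [hB0]; exact hP _ _
    | succ n => rw [hBs]; exact hP _ _

/-- if `B` is a block sequence with entries in `⟨A⟩`, and `b < c` in `⟨B⟩` ... entries of `A`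
strictly before an entry: if `Bef (A n) b`, `b ∈ ⟨A⟩`, then all entries of `b` have index `> n` -/
theorem fu_index_gt (hA : BlkF A) (hb : b ∈ fu A) {n : ℕ} (h : Bef (A n) b) {k : ℕ}
    (hk : A k ⊆ b) : n < k := by
  by_contra hcon
  obtain ⟨i, hi⟩ := hA.ne k
  obtain ⟨j, hj⟩ := hA.ne n
  have h1 := h j hj i (hk hi)
  rcases lt_or_eq_of_le (not_lt.1 hcon) with h2 | h2
  · have := hA.bef h2 i hi j hj
    omega
  · subst h2
    exact absurd (h i hi i (hk hi)) (lt_irrefl i)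

/-- for `b < c` in `⟨A⟩`, if consecutive entries satisfy `h i < j`, so do `i ∈ b`, `j ∈ c` -/
theorem fu_gap (hA : BlkF A) {h : ℕ → ℕ} (hg : ∀ n, ∀ i ∈ A n, ∀ j ∈ A (n + 1), h i < j)
    (hb : b ∈ fu A) (hc : c ∈ fu A) (hbc : Bef b c) : ∀ j ∈ c, h (mx b) < j := by
  intro j hj
  obtain ⟨n, hn, hmx, _⟩ := fu_last hA hb
  obtain ⟨k, hjk, hk⟩ := mem_fu_block hc hj
  have hmem : mx b ∈ A n := by
    rw [hmx]
    exact mx_mem (hA.ne n)
  have hnk : n < k := by
    refine fu_index_gt hA hc ?_ hk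
    intro i hi l hl
    exact hbc i (hn hi) l hl
  rcases eq_or_lt_of_le (Nat.succ_le_of_lt hnk) with h1 | h1
  · subst h1
    exact hg n _ hmem j hjk
  · obtain ⟨l, hl⟩ := hA.ne (n + 1)
    exact (hg n _ hmem l hl).trans (hA.bef h1 l hl j hjk)

end Pool.Agent.SOU
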