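import Pool.Agent.Lib_MP_a0d45a_lc.OneDefs
import Pool.Agent.Lib_MP_a0d45a_lc.Pres
import Pool.Agent.Lib_MP_a0d45a_lc.Kill
import Pool.Agent.Lib_MP_a0d45a_lc.KillK

/-!
# The one-step theorem
-/

set_option autoImplicit false

namespace Pool.Agent.SOU

theorem preserves_of {P : Type} [PartialOrder P] (hP : FF P) {U : Ultrafilter (Finset ℕ)}
    (hU : IsSOU U)
    (h : ∀ Z : Finset ℕ → Set P, OpenName Z → ∀ p, ∃ q ≤ p, ∃ S ∈ U,
      (∀ b ∈ S, FrIn Z b q) ∨ (∀ b ∈ S, FrOut Z b q)) : PreservesSOU P U := by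
  refine ⟨h, ?_⟩
  intro Z hZ p hp
  obtain ⟨q, hq, hΦ⟩ := hP (fun n => {r | ∃ S ∈ U, ∀ b ∈ S, FrIn (Z n) b r}) p
    (fun n r hr => hp n r hr)
  choose Φ hfin hsub hpre using hΦ
  have h1 : ∀ n, ∀ φ ∈ Φ n, ∃ S ∈ U, ∀ b ∈ S, FrIn (Z n) b φ := fun n φ hφ => hsub n hφ
  choose! S hS hSin using h1
  have h2 : ∀ n, (⋂ φ ∈ Φ n, S n φ) ∈ U := by
    intro n
    have := (Filter.biInter_mem (f := (U : Filter (Finset ℕ))) (hfin n)).2 (fun φ hφ => hS n φ hφ)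
    exact this
  have h3 : ∀ n, ∃ A, BlkF A ∧ fu A ∈ U ∧ fu A ⊆ ⋂ φ ∈ Φ n, S n φ := fun n => hU.base _ (h2 n)
  choose A hA1 hA2 hA3 using h3
  obtain ⟨B, hB1, hB2, hB3⟩ := hU.stable A (fun n => ⟨hA1 n, hA2 n⟩)
  refine ⟨q, hq, B, hB1, hB2, fun n => ?_⟩
  obtain ⟨k, hk⟩ := hB3 n
  refine ⟨k, fun b hb hj r hr => ?_⟩
  obtain ⟨φ, hφ, s, hs1, hs2⟩ := hpre n r hr
  have hb' : b ∈ S n φ := by
    have := hA3 n (hk b hb hj)
    simp only [Set.mem_iInter] at this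
    exact this φ hφ
  obtain ⟨t, ht, htZ⟩ := hSin n φ hφ b hb' s hs2
  exact ⟨t, ht.trans hs1, htZ⟩

/-- ONE-STEP THEOREM -/
theorem one_step {K : Type} [Field K] (hK : ∃ a : K, a ≠ 0 ∧ a ≠ 1) {F : Filter (ℕ →₀ K)}
    (hF : IsPPlus F) : ∃ (P : Type) (_ : PartialOrder P), Nonempty P ∧ ProperFF P ∧
      (∀ U : Ultrafilter (Finset ℕ), IsSOU U → PreservesSOU P U) ∧ AddsKiller P F := by
  classical
  refine ⟨Cd F, inferInstance, ?_, properFF hK hF, fun U hU => ?_, WName F, WName_open, ?_, ?_⟩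
  · obtain ⟨q, _⟩ := Cd.exists_top hF.toIsBlockFilter
    exact ⟨q⟩
  · exact preserves_of (properFF hK hF).ff hU (fun Z hZ p => pres hK hF hU hZ p)
  · intro X hX p
    obtain ⟨q, hq, y, hy, h⟩ := kill_in hF hX p
    exact ⟨q, hq, y, hy, h⟩
  · intro X hX p
    exact kill_out hK hF hX p

end Pool.Agent.SOU
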