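import Pool.Agent.Lib_MP_a0d45a_lc.RKD

/-!
# Piece RKE: a Rudin-Keisler map between stable ordered-union ultrafilters is injective

PROOF. Apply `rk_case'` to `mn ∘ f` (with `μ = mn`; `U.map (mn ∘ f) = V.map mn`) and to `mx ∘ f`
(with `μ = mx`). Let `S ∈ U` be the intersection of the two sets (and of `f ⁻¹'` of the set of
nonempty sets). Four cases.
(1) `mn (f x) = mn (f y) ↔ mn x = mn y` and `mx (f x) = mx (f y) ↔ mn x = mn y` on `S`: then on the set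
`f '' S ∈ V` the minimum determines the maximum, contradiction to `not_mn_det_mx hV`.
(2) both with `mx x = mx y` on the right: the same contradiction.
(3) `mn (f x) = mn (f y) ↔ mx x = mx y` and `mx (f x) = mx (f y) ↔ mn x = mn y` on `S`: take
`⟨A⟩ ⊆ S` in `U` and `x n = A 0 ∪ A (n + 1)`. All `mx (f (x n))` are equal, to `M` say, so
`mn (f (x n)) ≤ M` for all `n`, but the numbers `mn (f (x n))` are pairwise distinct because the
`mx (x n) = mx (A (n+1))` are: impossible.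
(4) `mn (f x) = mn (f y) ↔ mn x = mn y` and `mx (f x) = mx (f y) ↔ mx x = mx y` on `S`. Then:
`¬ CaseA U f`: otherwise for suitable `b`, `c`, `c'` (with `b ∪ c`, `b ∪ c' ∈ S`,
`b < c < c'`, all by `∀ᶠ`) `f (b ∪ c) = f (b ∪ c')`, so `mx (b ∪ c) = mx (b ∪ c')`, but
`mx (b ∪ c) = mx c < mx c'`. `¬ CaseB U f` in the same way with `mn`. `¬ CaseIII U f`: otherwise by
`case3_mnmx` there is `S' ∈ U` with `f x = f y` for `x, y ∈ S'` with the same `mn` and `mx`. On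
`T = f '' (S ∩ S') ∈ V`: if `z = f x`, `z' = f y` have the same `mn` and the same `mx`, then `x, y` have the
same `mn` and `mx`, so `z = z'`. Contradiction to `not_det hV`. So `rk_inj` applies.
-/

set_option autoImplicit false

namespace Pool.Agent.SOU

theorem rk_injective {U V : Ultrafilter (Finset ℕ)} (hU : IsSOU U) (hV : IsSOU V)
    (f : Finset ℕ → Finset ℕ) (hf : U.map f = V) :
    ∃ S ∈ U, ∀ x ∈ S, ∀ y ∈ S, f x = f y → x = y := by
  classical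
  obtain ⟨S1, hS1, c1⟩ := rk_case' hU hV (mn ∘ f) mn (Or.inl rfl)
    (by rw [← hf, Ultrafilter.map_map])
  obtain ⟨S2, hS2, c2⟩ := rk_case' hU hV (mx ∘ f) mx (Or.inr rfl)
    (by rw [← hf, Ultrafilter.map_map])
  have himg : ∀ T : Set (Finset ℕ), T ∈ U → f '' T ∈ V := by
    intro T hT
    rw [← hf, Ultrafilter.mem_map]
    exact Filter.mem_of_superset hT (Set.subset_preimage_image f T)
  have hne : ∀ᶠ x in (U : Filter (Finset ℕ)), (f x).Nonempty := by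
    have h1 : {b : Finset ℕ | b.Nonempty} ∈ U.map f := by
      rw [hf]
      exact sou_ne hV
    exact h1
  have hS1' : ∀ᶠ x in (U : Filter (Finset ℕ)), x ∈ S1 := hS1
  have hS2' : ∀ᶠ x in (U : Filter (Finset ℕ)), x ∈ S2 := hS2
  have hS : ∀ᶠ x in (U : Filter (Finset ℕ)), x ∈ S1 ∧ x ∈ S2 := hS1'.and hS2'
  simp only [Function.comp_apply] at c1 c2
  rcases c1 with c1 | c1 <;> rcases c2 with c2 | c2
  · exfalso
    obtain ⟨_, ⟨x, ⟨hx1, hx2⟩, rfl⟩, _, ⟨y, ⟨hy1, hy2⟩, rfl⟩, h1, h2⟩ :=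
      not_mn_det_mx hV (himg {x | x ∈ S1 ∧ x ∈ S2} hS)
    exact h2 ((c2 x hx2 y hy2).2 ((c1 x hx1 y hy1).1 h1))
  · -- case (4)
    have hA : ¬ CaseA U f := by
      intro hA
      have h1 := (sou_idem' hU (fun x => x ∈ S1 ∧ x ∈ S2)).1 hS
      obtain ⟨b, hb1, hb2⟩ := (hA.and h1).exists
      obtain ⟨c, ⟨hc1, hc2⟩, hc3, hc4⟩ :=
        ((hb1.and hb2).and ((sou_bef hU b).and (sou_ne hU))).exists
      obtain ⟨c', ⟨hc'1, hc'2⟩, ⟨hc'3, hc'4⟩, hc'5⟩ :=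
        ((hc1.and hb2).and (((sou_bef hU b).and (sou_ne hU)).and (sou_bef hU c))).exists
      have h2 : mx (b ∪ c) = mx (b ∪ c') :=
        (c2 _ hc2.2 _ hc'2.2).1 (by rw [hc'1])
      rw [usel_mx_union hc3 hc4, usel_mx_union hc'3 hc'4] at h2
      exact absurd h2 (hc'5 _ (mx_mem hc4) _ (mx_mem hc'4)).ne
    have hB : ¬ CaseB U f := by
      intro hB
      have h1 := (sou_idem' hU (fun x => x ∈ S1 ∧ x ∈ S2)).1 hS
      obtain ⟨b, ⟨hb1, hb2⟩, hb3⟩ := ((hB.and h1).and (sou_ne hU)).exists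
      obtain ⟨b', ⟨hb'1, hb'2⟩, hb'3, hb'4⟩ :=
        ((hb1.and h1).and ((sou_ne hU).and (sou_bef hU b))).exists
      obtain ⟨c, ⟨hc1, hc2⟩, hc3, hc4, hc5⟩ :=
        ((hb'1.and hb2).and (hb'2.and ((sou_bef hU b).and (sou_bef hU b')))).exists
      have h2 : mn (b ∪ c) = mn (b' ∪ c) :=
        (c1 _ hc2.1 _ hc3.1).1 (by rw [hc1])
      rw [usel_mn_union hc4 hb3, usel_mn_union hc5 hb'3] at h2
      exact absurd h2 (hb'4 _ (mn_mem hb3) _ (mn_mem hb'3)).ne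
    have h3 : ¬ CaseIII U f := by
      intro h3
      obtain ⟨S', hS', h4⟩ := case3_mnmx hU f h3
      have hS'' : ∀ᶠ x in (U : Filter (Finset ℕ)), x ∈ S' := hS'
      obtain ⟨_, ⟨x, ⟨⟨hx1, hx2⟩, hx3⟩, rfl⟩, _, ⟨y, ⟨⟨hy1, hy2⟩, hy3⟩, rfl⟩, e1, e2, e3⟩ :=
        not_det hV (himg {x | (x ∈ S1 ∧ x ∈ S2) ∧ x ∈ S'} (hS.and hS''))
      exact e3 (h4 x hx3 y hy3 ((c1 x hx1 y hy1).1 e1) ((c2 x hx2 y hy2).1 e2))
    obtain ⟨A, -, hAU, hinj⟩ := rk_inj hU f hA hB h3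
    exact ⟨fu A, hAU, hinj⟩
  · -- case (3)
    exfalso
    obtain ⟨A, hA, -, hAp⟩ := sou_base hU (hS.and hne)
    have hmem : ∀ n, A 0 ∪ A (n + 1) ∈ fu A := fun n =>
      fu_union (self_mem_fu A 0) (self_mem_fu A (n + 1))
    have hle : ∀ n, mn (f (A 0 ∪ A (n + 1))) ≤ mx (f (A 0 ∪ A (0 + 1))) := by
      intro n
      obtain ⟨⟨h1, h2⟩, h3⟩ := hAp _ (hmem n)
      obtain ⟨⟨h1', h2'⟩, h3'⟩ := hAp _ (hmem 0)
      have h4 : mx (f (A 0 ∪ A (n + 1))) = mx (f (A 0 ∪ A (0 + 1))) := by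
        refine (c2 _ h2 _ h2').2 ?_
        rw [usel_mn_union (hA.bef (Nat.succ_pos n)) (hA.ne 0),
          usel_mn_union (hA.bef (Nat.succ_pos 0)) (hA.ne 0)]
      rw [← h4]
      exact mn_le (mx_mem h3)
    have hinj : Function.Injective (fun n : ℕ =>
        (⟨mn (f (A 0 ∪ A (n + 1))), Nat.lt_succ_of_le (hle n)⟩ :
          Fin (mx (f (A 0 ∪ A (0 + 1))) + 1))) := by
      intro m n hmn
      have h1 : mn (f (A 0 ∪ A (m + 1))) = mn (f (A 0 ∪ A (n + 1))) := congrArg Fin.val hmn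
      have h2 := (c1 _ (hAp _ (hmem m)).1.1 _ (hAp _ (hmem n)).1.1).1 h1
      rw [usel_mx_union (hA.bef (Nat.succ_pos m)) (hA.ne _),
        usel_mx_union (hA.bef (Nat.succ_pos n)) (hA.ne _)] at h2
      have h3 := mx_inj hA h2
      omega
    exact not_injective_infinite_finite _ hinj
  · exfalso
    obtain ⟨_, ⟨x, ⟨hx1, hx2⟩, rfl⟩, _, ⟨y, ⟨hy1, hy2⟩, rfl⟩, h1, h2⟩ :=
      not_mn_det_mx hV (himg {x | x ∈ S1 ∧ x ∈ S2} hS)
    exact h2 ((c2 x hx2 y hy2).2 ((c1 x hx1 y hy1).1 h1))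

end Pool.Agent.SOU
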