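import Pool.Agent.Lib_MP_a0d45a_lc.Thin
import Pool.Agent.Lib_MP_a0d45a_lc.RKE

/-!
# Piece NH: types of the vectors of a `(p⁺)`-filter are not coded by a stable ordered-union ultrafilter
-/

set_option autoImplicit false

namespace Pool.Agent.SOU

variable {K : Type} [Field K] [DecidableEq K] {F : Filter (ℕ →₀ K)}

/-- PROOF. Let `V` be the support ultrafilter of `F` (`exists_US`, `US_sou`), `f b = (η b).1`.
If `U.map f ≠ V` there is `Z ∈ V` with `Z ∉ U.map f`; take `B = {b | f b ∉ Z} ∈ U`,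
`S = {y | y.support ∈ Z} ∈ F`: `ty y = η b` implies `y.support = f b`. If `U.map f = V` then by
`rk_injective` `f` is injective on some `B ∈ U`; let `ν a = η b` if `a = f b` for some (unique) `b ∈ B`
and `ν a = (∅, ∅)` otherwise; take `S = {y | ty y ≠ ν y.support}` (`thin`): if `b ∈ B`, `y ∈ S`
and `ty y = η b` then `y.support = f b`, so `ν y.support = η b = ty y`, contradiction. -/
theorem nh (hK : ∃ a : K, a ≠ 0 ∧ a ≠ 1) (hF : IsPPlus F) {U : Ultrafilter (Finset ℕ)}
    (hU : IsSOU U) (η : Finset ℕ → Typ) :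
    ∃ B ∈ U, ∃ S ∈ F, ∀ b ∈ B, ∀ y ∈ S, ty y ≠ η b := by
  classical
  obtain ⟨V, hVF⟩ := exists_US hF.toIsFull
  have hV : IsSOU V := US_sou hF hVF
  have hmem : ∀ S : Set (Finset ℕ), S ∈ V → {y : ℕ →₀ K | y.support ∈ S} ∈ F := by
    intro S hS
    rw [← Ultrafilter.mem_coe, hVF] at hS
    exact hS
  have hty : ∀ (b : Finset ℕ) (y : ℕ →₀ K), ty y = η b → y.support = (η b).1 := by
    intro b y h
    rw [← h]
    rfl
  by_cases hfe : U.map (fun b => (η b).1) = V
  · obtain ⟨B, hB, hinj⟩ := rk_injective hU hV (fun b => (η b).1) hfe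
    refine ⟨B, hB, _, thin hK hF.toIsFull
      (fun a => if h : ∃ b, b ∈ B ∧ (η b).1 = a then η h.choose else (∅, ∅)), ?_⟩
    intro b hb y hy h
    have hs := hty b y h
    have hex : ∃ b', b' ∈ B ∧ (η b').1 = y.support := ⟨b, hb, hs.symm⟩
    apply hy
    show ty y = (if h : ∃ b', b' ∈ B ∧ (η b').1 = y.support then η h.choose else (∅, ∅))
    rw [dif_pos hex]
    have h1 := hex.choose_spec
    have h2 : hex.choose = b := hinj _ h1.1 b hb (h1.2.trans hs)
    rw [h2]
    exact h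
  · have hZ : ∃ Z ∈ V, Z ∉ U.map (fun b => (η b).1) := by
      by_contra hno
      push Not at hno
      apply hfe
      exact Ultrafilter.coe_le_coe.1 (fun Z hZ => hno Z hZ)
    obtain ⟨Z, hZV, hZU⟩ := hZ
    have hB : {b : Finset ℕ | (η b).1 ∉ Z} ∈ U := by
      rw [Ultrafilter.mem_map] at hZU
      exact Ultrafilter.compl_mem_iff_notMem.2 hZU
    refine ⟨_, hB, _, hmem Z hZV, ?_⟩
    intro b hb y hy h
    apply hb
    rw [← hty b y h]
    exact hy

end Pool.Agent.SOU
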