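import Pool.Agent.Lib_MP_a0d45a_lc.Forc

/-!
# MP_a0d45a_lc: definitions for the one-step theorem
-/

set_option autoImplicit false

namespace Pool.Agent.SOU

/-- `P` forces that `U` generates a stable ordered-union ultrafilter: every (open) name `Z` for a
subset of `FIN` is decided on a set of `U` (densely), and for every sequence of names `Z n` that are
forced to contain sets of `U` there is, densely, one `⟨B⟩ ∈ U` all of whose elements beyond some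
`k n` are forced into `Z n`, for every `n`. -/
structure PreservesSOU (P : Type) [PartialOrder P] (U : Ultrafilter (Finset ℕ)) : Prop where
  ultra : ∀ Z : Finset ℕ → Set P, OpenName Z → ∀ p, ∃ q ≤ p, ∃ S ∈ U,
    (∀ b ∈ S, FrIn Z b q) ∨ (∀ b ∈ S, FrOut Z b q)
  stable : ∀ Z : ℕ → Finset ℕ → Set P, (∀ n, OpenName (Z n)) → ∀ p,
    (∀ n, ∀ q ≤ p, ∃ r ≤ q, ∃ S ∈ U, ∀ b ∈ S, FrIn (Z n) b r) →
      ∃ q ≤ p, ∃ B, BlkF B ∧ fu B ∈ U ∧ ∀ n, ∃ k, ∀ b ∈ fu B, (∀ j ∈ b, k < j) → FrIn (Z n) b q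

/-- `P` adds a set `W` of vectors which meets every `⟨X⟩ ∈ F` and such that every `⟨X⟩ ∈ F` contains some
`⟨Z⟩` disjoint from `W` (with `Z` in the ground model) -/
def AddsKiller {K : Type} [Field K] (P : Type) [PartialOrder P] (F : Filter (ℕ →₀ K)) : Prop :=
  ∃ W : (ℕ →₀ K) → Set P, OpenName W ∧
    (∀ X, bs X ∈ F → ∀ p, ∃ q ≤ p, ∃ y ∈ bs X, q ∈ W y) ∧
    (∀ X, bs X ∈ F → ∀ p, ∃ q ≤ p, ∃ Z, Blk Z ∧ bs Z ⊆ bs X ∧ ∀ v ∈ bs Z, FrOut W v q)

end Pool.Agent.SOU
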