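import Pool.Agent.Lib_MP_a0d45a_lc.RKA
import Pool.Agent.Lib_MP_a0d45a_lc.RKB

/-!
# Piece RKD: maps onto the `mn`- or `mx`-image of a stable ordered-union ultrafilter
-/

set_option autoImplicit false

namespace Pool.Agent.SOU

/-- a function determined on `S` by `f` factors through `f` on `S` -/
theorem rkd_choice {α β γ : Type} [Inhabited γ] {f : α → β} {g : α → γ} {S : Set α}
    (hS : ∀ x ∈ S, ∀ y ∈ S, f x = f y → g x = g y) : ∃ p : β → γ, ∀ x ∈ S, p (f x) = g x := by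
  classical
  refine ⟨fun n => if hx : ∃ x ∈ S, f x = n then g hx.choose else default, fun x hx => ?_⟩
  have hh : ∃ y ∈ S, f y = f x := ⟨x, hx, rfl⟩
  dsimp only
  rw [dif_pos hh]
  exact hS _ hh.choose_spec.1 x hx hh.choose_spec.2

/-- transfer of statements along equal images -/
theorem rkd_transfer {U V : Ultrafilter (Finset ℕ)} {h μ : Finset ℕ → ℕ}
    (hh : U.map h = V.map μ) (Q : ℕ → Prop) :
    (∀ᶠ x in (U : Filter (Finset ℕ)), Q (h x)) ↔ ∀ᶠ b in (V : Filter (Finset ℕ)), Q (μ b) := by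
  have h1 : {n | Q n} ∈ U.map h ↔ {n | Q n} ∈ V.map μ := by rw [hh]
  exact h1

/-- PROOF (for `μ = mn`; the proof for `μ = mx` is the same with `sel_mx`). Suppose neither case
holds; take `S ∈ U` from `rk_det`. Let `p : ℕ → ℕ` with `p (h x) = mn x` for `x ∈ S` and
`q : ℕ → ℕ` with `q (h x) = mx x` for `x ∈ S` (choice). Apply `sel_mn hV p`: either `∃ r, ∀ᶠ b in V, p (mn b) = r`,
that is `∀ᶠ x in U, p (h x) = r` (by `hh`), so `∀ᶠ x in U, mn x = r`, contradiction to `sou_mn_ne`;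
or there is `T ∈ V` such that `p (mn b) = p (mn c) → mn b = mn c` for `b, c ∈ T`; the set
`mn '' T ∈ V.map mn = U.map h`, so `T' = {x ∈ S | h x ∈ mn '' T} ∈ U` and for `x, y ∈ T'`
`mn x = mn y` implies `p (h x) = p (h y)`, so `h x = h y`, so `mx x = q (h x) = q (h y) = mx y`.
Contradiction to `not_mn_det_mx`. -/
theorem rk_case {U V : Ultrafilter (Finset ℕ)} (hU : IsSOU U) (hV : IsSOU V) (h : Finset ℕ → ℕ)
    (μ : Finset ℕ → ℕ) (hμ : μ = mn ∨ μ = mx) (hh : U.map h = V.map μ) :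
    CaseA U h ∨ CaseB U h := by
  classical
  by_contra hc
  rw [not_or] at hc
  obtain ⟨S, hS, hdet⟩ := rk_det hU h hc.1 hc.2
  obtain ⟨p, hp⟩ := rkd_choice (f := h) (g := mn) (S := S)
    (fun x hx y hy hxy => (hdet x hx y hy hxy).1)
  have hsel : (∃ r, ∀ᶠ b in (V : Filter (Finset ℕ)), p (μ b) = r) ∨
      ∃ A, BlkF A ∧ fu A ∈ V ∧ ∀ b ∈ fu A, ∀ c ∈ fu A, p (μ b) = p (μ c) → μ b = μ c := by
    rcases hμ with rfl | rfl
    · exact sel_mn hV p
    · exact sel_mx hV p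
  have htr := rkd_transfer hh
  rcases hsel with ⟨r, hr⟩ | ⟨A, -, hAV, hA⟩
  · have h1 : ∀ᶠ x in (U : Filter (Finset ℕ)), p (h x) = r := (htr (fun n => p n = r)).2 hr
    have h2 : ∀ᶠ x in (U : Filter (Finset ℕ)), x ∈ S := hS
    obtain ⟨x, hx1, hx2, hx3⟩ := (h1.and (h2.and (sou_mn_ne hU r))).exists
    exact hx3 ((hp x hx2).symm.trans hx1)
  · have h1 : ∀ᶠ b in (V : Filter (Finset ℕ)), μ b ∈ μ '' fu A := by
      have h0 : ∀ᶠ b in (V : Filter (Finset ℕ)), b ∈ fu A := hAV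
      exact h0.mono fun b hb => ⟨b, hb, rfl⟩
    have h2 : ∀ᶠ x in (U : Filter (Finset ℕ)), h x ∈ μ '' fu A :=
      (htr (fun n => n ∈ μ '' fu A)).2 h1
    have h3 : ∀ᶠ x in (U : Filter (Finset ℕ)), x ∈ S := hS
    obtain ⟨b, hb, c, hc, hmn, hmx⟩ := not_mn_det_mx hU (S := {x | x ∈ S ∧ h x ∈ μ '' fu A})
      (h3.and h2)
    obtain ⟨hbS, b', hb', hbb⟩ := hb
    obtain ⟨hcS, c', hc', hcc⟩ := hc
    apply hmx
    refine (hdet b hbS c hcS ?_).2
    rw [← hbb, ← hcc]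
    apply hA b' hb' c' hc'
    rw [hbb, hcc, hp b hbS, hp c hcS, hmn]

/-- combination with `caseA_mn`, `caseB_mx`, `sel_mn hU`, `sel_mx hU`: on a set in `U`, `h x` is
a function of `mn x` (resp. `mx x`), and this function is injective on the relevant minima: write
`h x = g (mn x)` on `S`; by `sel_mn` for `g` either `h` is constant on a set of `U`, which is impossible
because `U.map h = V.map μ` contains no singleton (`sou_mn_ne hV`, `sou_mx_ne hV`), or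
`g (mn x) = g (mn y) → mn x = mn y` on a set in `U`. -/
theorem rk_case' {U V : Ultrafilter (Finset ℕ)} (hU : IsSOU U) (hV : IsSOU V) (h : Finset ℕ → ℕ)
    (μ : Finset ℕ → ℕ) (hμ : μ = mn ∨ μ = mx) (hh : U.map h = V.map μ) :
    ∃ S ∈ U, (∀ x ∈ S, ∀ y ∈ S, (h x = h y ↔ mn x = mn y)) ∨
      (∀ x ∈ S, ∀ y ∈ S, (h x = h y ↔ mx x = mx y)) := by
  classical
  have htr := rkd_transfer hh
  have key : ∀ ν : Finset ℕ → ℕ, ν = mn ∨ ν = mx →
      (∃ S ∈ U, ∀ x ∈ S, ∀ y ∈ S, ν x = ν y → h x = h y) →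
      ∃ S ∈ U, ∀ x ∈ S, ∀ y ∈ S, (h x = h y ↔ ν x = ν y) := by
    rintro ν hν ⟨S, hS, hdet⟩
    obtain ⟨g, hg⟩ := rkd_choice (f := ν) (g := h) (S := S) hdet
    have hsel : (∃ r, ∀ᶠ b in (U : Filter (Finset ℕ)), g (ν b) = r) ∨
        ∃ A, BlkF A ∧ fu A ∈ U ∧ ∀ b ∈ fu A, ∀ c ∈ fu A, g (ν b) = g (ν c) → ν b = ν c := by
      rcases hν with rfl | rfl
      · exact sel_mn hU g
      · exact sel_mx hU g
    have hS' : ∀ᶠ x in (U : Filter (Finset ℕ)), x ∈ S := hS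
    rcases hsel with ⟨r, hr⟩ | ⟨A, -, hAU, hA⟩
    · exfalso
      have h1 : ∀ᶠ x in (U : Filter (Finset ℕ)), h x = r := by
        filter_upwards [hS', hr] with x hx1 hx2
        rw [← hg x hx1, hx2]
      have h2 : ∀ᶠ b in (V : Filter (Finset ℕ)), μ b = r := (htr (fun n => n = r)).1 h1
      rcases hμ with rfl | rfl
      · obtain ⟨b, hb1, hb2⟩ := (h2.and (sou_mn_ne hV r)).exists
        exact hb2 hb1
      · obtain ⟨b, hb1, hb2⟩ := (h2.and (sou_mx_ne hV r)).exists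
        exact hb2 hb1
    · have hA' : ∀ᶠ x in (U : Filter (Finset ℕ)), x ∈ fu A := hAU
      refine ⟨{x | x ∈ S ∧ x ∈ fu A}, hS'.and hA', ?_⟩
      rintro x ⟨hx1, hx2⟩ y ⟨hy1, hy2⟩
      refine ⟨fun hxy => hA x hx2 y hy2 ?_, hdet x hx1 y hy1⟩
      rw [hg x hx1, hg y hy1, hxy]
  rcases rk_case hU hV h μ hμ hh with hc | hc
  · obtain ⟨S, hS, h1⟩ := key mn (Or.inl rfl) (caseA_mn hU h hc)
    exact ⟨S, hS, Or.inl h1⟩
  · obtain ⟨S, hS, h1⟩ := key mx (Or.inr rfl) (caseB_mx hU h hc)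
    exact ⟨S, hS, Or.inr h1⟩

end Pool.Agent.SOU
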