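import Pool.Agent.Lib_MP_a0d45a_lc.FinU

/-!
# Piece VEC: block sequences of vectors
-/

set_option autoImplicit false

namespace Pool.Agent.SOU

variable {K : Type} [Field K] {X Y : ℕ → ℕ →₀ K} {v w : ℕ →₀ K}

/-- supports of the entries -/
def sp (X : ℕ → ℕ →₀ K) : ℕ → Finset ℕ := fun n => (X n).support

theorem Blk.blkF (hX : Blk X) : BlkF (sp X) where
  ne n := Finsupp.support_nonempty_iff.mpr (hX.ne n)
  lt n := hX.lt n

/-- `Finsupp.mem_span_range_iff_exists_finsupp` -/
theorem mem_bs_iff : v ∈ bs X ↔ v ≠ 0 ∧ ∃ c : ℕ →₀ K, v = Finsupp.linearCombination K X c := by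
  unfold bs
  rw [Set.mem_ofPred_eq, Finsupp.mem_span_range_iff_exists_finsupp]
  simp only [Finsupp.linearCombination_apply]
  constructor
  · rintro ⟨h, c, hc⟩
    exact ⟨h, c, hc.symm⟩
  · rintro ⟨h, c, hc⟩
    exact ⟨h, c, hc.symm⟩

/-- the coefficient of a combination at a point of an entry -/
theorem lc_apply_mem (hX : Blk X) (c : ℕ →₀ K) {n i : ℕ} (hi : i ∈ (X n).support) :
    (Finsupp.linearCombination K X c) i = c n * X n i := by
  rw [Finsupp.linearCombination_apply, Finsupp.sum, Finsupp.finsetSum_apply]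
  by_cases hn : n ∈ c.support
  · rw [Finset.sum_eq_single n]
    · simp
    · intro m _ hmn
      have hd := hX.blkF.disj hmn
      have : i ∉ (X m).support := fun h => (Finset.disjoint_left.mp hd) h hi
      rw [Finsupp.notMem_support_iff] at this
      simp [this]
    · intro h
      exact absurd hn h
  · rw [Finsupp.notMem_support_iff] at hn
    rw [hn, zero_mul]
    refine Finset.sum_eq_zero ?_
    intro m hm
    have hmn : m ≠ n := by
      rintro rfl
      exact (Finsupp.mem_support_iff.mp hm) hn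
    have hd := hX.blkF.disj hmn
    have : i ∉ (X m).support := fun h => (Finset.disjoint_left.mp hd) h hi
    rw [Finsupp.notMem_support_iff] at this
    simp [this]

/-- the coefficient of a combination outside the entries -/
theorem lc_apply_notMem (c : ℕ →₀ K) {i : ℕ} (hi : ∀ n ∈ c.support, i ∉ (X n).support) :
    (Finsupp.linearCombination K X c) i = 0 := by
  rw [Finsupp.linearCombination_apply, Finsupp.sum, Finsupp.finsetSum_apply]
  refine Finset.sum_eq_zero ?_
  intro m hm
  have := hi m hm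
  rw [Finsupp.notMem_support_iff] at this
  simp [this]

/-- the supports of the entries are pairwise disjoint -/
theorem supp_lc (hX : Blk X) (c : ℕ →₀ K) :
    (Finsupp.linearCombination K X c).support = c.support.biUnion (sp X) := by
  ext i
  rw [Finset.mem_biUnion, Finsupp.mem_support_iff]
  constructor
  · intro h
    by_contra hc
    apply h
    apply lc_apply_notMem
    intro n hn hi
    exact hc ⟨n, hn, hi⟩
  · rintro ⟨n, hn, hi⟩
    rw [lc_apply_mem hX c hi]
    exact mul_ne_zero (Finsupp.mem_support_iff.mp hn) (Finsupp.mem_support_iff.mp hi)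

theorem bs_ne_zero (h : v ∈ bs X) : v ≠ 0 := h.1

theorem supp_mem_fu (hX : Blk X) (h : v ∈ bs X) : v.support ∈ fu (sp X) := by
  obtain ⟨h0, c, hc⟩ := mem_bs_iff.mp h
  refine ⟨c.support, ?_, ?_⟩
  · rw [Finsupp.support_nonempty_iff]
    rintro rfl
    apply h0
    rw [hc, map_zero]
  · rw [hc, supp_lc hX]

/-- the sum of the entries -/
theorem exists_supp_eq (hX : Blk X) {b : Finset ℕ} (h : b ∈ fu (sp X)) :
    ∃ v ∈ bs X, v.support = b := by
  obtain ⟨I, hI, rfl⟩ := h
  set c : ℕ →₀ K := Finsupp.indicator I (fun _ _ => (1 : K)) with hc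
  have hcs : c.support = I := by
    ext n
    rw [Finsupp.mem_support_iff, hc, Finsupp.indicator_apply]
    split_ifs with h
    · simp [h]
    · simp [h]
  have hs : (Finsupp.linearCombination K X c).support = I.biUnion (sp X) := by
    rw [supp_lc hX, hcs]
  refine ⟨Finsupp.linearCombination K X c, mem_bs_iff.mpr ⟨?_, c, rfl⟩, hs⟩
  rw [← Finsupp.support_nonempty_iff, hs]
  obtain ⟨n, hn⟩ := hI
  obtain ⟨i, hi⟩ := hX.blkF.ne n
  exact ⟨i, Finset.mem_biUnion.mpr ⟨n, hn, hi⟩⟩

theorem self_mem_bs (hX : Blk X) (n : ℕ) : X n ∈ bs X :=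
  ⟨hX.ne n, Submodule.subset_span ⟨n, rfl⟩⟩

theorem smul_mem_bs {a : K} (ha : a ≠ 0) (h : v ∈ bs X) : a • v ∈ bs X :=
  ⟨smul_ne_zero ha h.1, Submodule.smul_mem _ a h.2⟩

theorem add_mem_bs (h : v ∈ bs X) (h' : w ∈ bs X) (hn : v + w ≠ 0) : v + w ∈ bs X :=
  ⟨hn, Submodule.add_mem _ h.2 h'.2⟩

theorem bs_mono (h : ∀ n, Y n ∈ bs X) : bs Y ⊆ bs X := by
  rintro v ⟨h0, hv⟩
  refine ⟨h0, ?_⟩
  refine (Submodule.span_le.mpr ?_) hv
  rintro _ ⟨n, rfl⟩
  exact (h n).2

theorem Blk.comp (hX : Blk X) {f : ℕ → ℕ} (hf : StrictMono f) : Blk (fun n => X (f n)) where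
  ne n := hX.ne (f n)
  lt n := hX.blkF.bef (hf (Nat.lt_succ_self n))

/-- restriction of a vector of the span to an entry is a multiple of the entry -/
theorem filter_block (hX : Blk X) (h : v ∈ bs X) (n : ℕ) :
    ∃ a : K, v.filter (fun i => i ∈ (X n).support) = a • X n := by
  obtain ⟨_, c, hc⟩ := mem_bs_iff.mp h
  refine ⟨c n, ?_⟩
  ext i
  rw [Finsupp.filter_apply, Finsupp.smul_apply, smul_eq_mul]
  split_ifs with hi
  · rw [hc, lc_apply_mem hX c hi]
  · rw [Finsupp.notMem_support_iff.mp hi, mul_zero]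

/-- restriction of a vector of the span to a finite union of supports of entries -/
theorem filter_mem_bs (hX : Blk X) (h : v ∈ bs X) {b : Finset ℕ} (hb : b ∈ fu (sp X))
    (hn : v.filter (fun i => i ∈ b) ≠ 0) : v.filter (fun i => i ∈ b) ∈ bs X := by
  obtain ⟨_, c, hc⟩ := mem_bs_iff.mp h
  obtain ⟨I, _, rfl⟩ := hb
  refine mem_bs_iff.mpr ⟨hn, c.filter (fun n => n ∈ I), ?_⟩
  ext i
  rw [Finsupp.filter_apply]
  split_ifs with hi
  · obtain ⟨n, hnI, hin⟩ := Finset.mem_biUnion.mp hi
    rw [lc_apply_mem hX _ hin, hc, lc_apply_mem hX _ hin, Finsupp.filter_apply, if_pos hnI]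
  · symm
    apply lc_apply_notMem
    intro n hn1 hin
    rw [Finsupp.support_filter, Finset.mem_filter] at hn1
    exact hi (Finset.mem_biUnion.mpr ⟨n, hn1.2, hin⟩)

/-- the vectors of the span of a subsequence are those with the right support -/
theorem mem_bs_comp (hX : Blk X) {f : ℕ → ℕ} (hf : StrictMono f) :
    v ∈ bs (fun n => X (f n)) ↔ v ∈ bs X ∧ v.support ∈ fu (sp (fun n => X (f n))) := by
  constructor
  · intro h
    exact ⟨bs_mono (fun n => self_mem_bs hX (f n)) h, supp_mem_fu (hX.comp hf) h⟩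
  · rintro ⟨h, I, _, hI⟩
    obtain ⟨h0, c, hc⟩ := mem_bs_iff.mp h
    refine ⟨h0, ?_⟩
    have e1 : c.support.biUnion (sp X) = (I.image f).biUnion (sp X) := by
      rw [← supp_lc hX, ← hc, hI, Finset.image_biUnion]
      rfl
    have e2 := index_inj hX.blkF e1
    rw [hc, Finsupp.linearCombination_apply, Finsupp.sum]
    refine Submodule.sum_mem _ ?_
    intro n hn
    rw [e2, Finset.mem_image] at hn
    obtain ⟨m, _, rfl⟩ := hn
    exact Submodule.smul_mem _ _ (Submodule.subset_span ⟨m, rfl⟩)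

theorem mem_bs_tail (hX : Blk X) (k : ℕ) :
    v ∈ bs (fun n => X (n + k)) ↔ v ∈ bs X ∧ ∀ n < k, Bef (X n).support v.support := by
  have hf : StrictMono (fun n : ℕ => n + k) := fun a b hab => by
    change a + k < b + k
    omega
  rw [mem_bs_comp (f := fun n => n + k) hX hf]
  constructor
  · rintro ⟨h1, h2⟩
    exact ⟨h1, ((mem_fu_tail hX.blkF k).mp h2).2⟩
  · rintro ⟨h1, h2⟩
    exact ⟨h1, (mem_fu_tail hX.blkF k).mpr ⟨supp_mem_fu hX h1, h2⟩⟩

/-- last entry: `v = w + a X n`, `w` in the span of the `X i`, `i < n` -/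
theorem bs_snoc (hX : Blk X) (h : v ∈ bs X) :
    ∃ n, ∃ a : K, a ≠ 0 ∧ ∃ w, v = w + a • X n ∧ (w = 0 ∨ w ∈ bs X) ∧
      Bef w.support (X n).support ∧ (X n).support ⊆ v.support ∧ mx v.support = mx (X n).support := by
  obtain ⟨h0, c, hc⟩ := mem_bs_iff.mp h
  have hne : c.support.Nonempty := by
    rw [Finsupp.support_nonempty_iff]
    rintro rfl
    apply h0
    rw [hc, map_zero]
  set n := c.support.max' hne with hn
  have hnm : n ∈ c.support := Finset.max'_mem _ _
  have hle : ∀ m ∈ c.support, m ≤ n := fun m hm => Finset.le_max' _ _ hm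
  have hsv : v.support = c.support.biUnion (sp X) := by rw [hc, supp_lc hX]
  have hsub : (X n).support ⊆ v.support := by
    rw [hsv]
    exact Finset.subset_biUnion_of_mem (sp X) hnm
  have hdec : v = Finsupp.linearCombination K X (c.erase n) + c n • X n := by
    rw [hc]
    have e : c = c.erase n + Finsupp.single n (c n) := (Finsupp.erase_add_single n c).symm
    conv_lhs => rw [e]
    rw [map_add, Finsupp.linearCombination_single]
  refine ⟨n, c n, Finsupp.mem_support_iff.mp hnm, _, hdec, ?_, ?_, hsub, ?_⟩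
  · by_cases hw : Finsupp.linearCombination K X (c.erase n) = 0
    · exact Or.inl hw
    · exact Or.inr (mem_bs_iff.mpr ⟨hw, _, rfl⟩)
  · intro i hi j hj
    rw [supp_lc hX, Finset.mem_biUnion] at hi
    obtain ⟨m, hm, him⟩ := hi
    rw [Finsupp.support_erase, Finset.mem_erase] at hm
    have hlt : m < n := lt_of_le_of_ne (hle m hm.2) hm.1
    exact hX.blkF.bef hlt i him j hj
  · apply le_antisymm
    · unfold mx
      refine Finset.sup_le ?_
      intro i hi
      rw [hsv, Finset.mem_biUnion] at hi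
      obtain ⟨m, hm, him⟩ := hi
      rcases (hle m hm).lt_or_eq with hlt | heq
      · obtain ⟨j, hj⟩ := hX.blkF.ne n
        have h1 : i < j := hX.blkF.bef hlt i him j hj
        have h2 : id j ≤ (X n).support.sup id := Finset.le_sup (f := id) hj
        exact h1.le.trans h2
      · rw [heq] at him
        exact Finset.le_sup (f := id) him
    · exact Finset.sup_mono hsub

/-- if the entry `X j` satisfies `(X j).support ⊆ v.support`, `v ∈ ⟨X⟩ ∩ ⟨Y⟩`, and
`(X j).support` is a finite union of supports of entries of `Y`, then `X j ∈ ⟨Y⟩`: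
the restriction of `v` to the support of `X j` is a nonzero multiple of `X j` and is in `⟨Y⟩` -/
theorem entry_mem (hX : Blk X) (hY : Blk Y) (hvX : v ∈ bs X) (hvY : v ∈ bs Y) (j : ℕ)
    (hj : (X j).support ⊆ v.support) (hs : (X j).support ∈ fu (sp Y)) : X j ∈ bs Y := by
  obtain ⟨a, ha⟩ := filter_block hX hvX j
  obtain ⟨i, hi⟩ := hX.blkF.ne j
  have hi' : i ∈ (X j).support := hi
  have hn : v.filter (fun i => i ∈ (X j).support) ≠ 0 := by
    intro h0
    have h1 := DFunLike.congr_fun h0 i
    rw [Finsupp.filter_apply, if_pos hi', Finsupp.zero_apply] at h1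
    exact (Finsupp.mem_support_iff.mp (hj hi')) h1
  have h2 := filter_mem_bs hY hvY hs hn
  rw [ha] at h2 hn
  have ha0 : a ≠ 0 := by
    rintro rfl
    exact hn (zero_smul _ _)
  have h3 := smul_mem_bs (inv_ne_zero ha0) h2
  rwa [smul_smul, inv_mul_cancel₀ ha0, one_smul] at h3

/-- `v ∈ ⟨X⟩` all of whose entries (those with support contained in `v.support`) are in `⟨Y⟩`
is in `⟨Y⟩` -/
theorem mem_of_entries (hX : Blk X) (hvX : v ∈ bs X)
    (h : ∀ j, (X j).support ⊆ v.support → X j ∈ bs Y) : v ∈ bs Y := by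
  obtain ⟨h0, c, hc⟩ := mem_bs_iff.mp hvX
  refine ⟨h0, ?_⟩
  have hsv : v.support = c.support.biUnion (sp X) := by rw [hc, supp_lc hX]
  rw [hc, Finsupp.linearCombination_apply, Finsupp.sum]
  refine Submodule.sum_mem _ ?_
  intro n hn
  refine Submodule.smul_mem _ _ (h n ?_).2
  rw [hsv]
  exact Finset.subset_biUnion_of_mem (sp X) hn

/-- construction of block sequences by recursion -/
theorem exists_blk (P : ℕ → (ℕ →₀ K) → Prop)
    (h : ∀ n N, ∃ v : ℕ →₀ K, v ≠ 0 ∧ Lo N v.support ∧ P n v) : ∃ X, Blk X ∧ ∀ n, P n (X n) := by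
  choose g hg0 hg1 hg2 using h
  let S : ℕ → (ℕ →₀ K) := fun n => Nat.rec (g 0 0) (fun n v => g (n + 1) (mx v.support + 1)) n
  have hS : ∀ n, S (n + 1) = g (n + 1) (mx (S n).support + 1) := fun n => rfl
  have hS' : ∀ n, ∃ N, S n = g n N := by
    intro n
    cases n with
    | zero => exact ⟨0, rfl⟩
    | succ n => exact ⟨_, hS n⟩
  refine ⟨S, ⟨?_, ?_⟩, ?_⟩
  · intro n
    obtain ⟨N, hN⟩ := hS' n
    rw [hN]
    exact hg0 n N
  · intro n i hi j hj
    rw [hS n] at hj
    have h1 := hg1 (n + 1) (mx (S n).support + 1) j hj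
    have h2 : id i ≤ mx (S n).support := Finset.le_sup (f := id) hi
    have h3 : i ≤ mx (S n).support := h2
    omega
  · intro n
    obtain ⟨N, hN⟩ := hS' n
    rw [hN]
    exact hg2 n N

/-- Gaussian elimination: for each `m` there is a nonzero vector of `V` with support `≥ m`, because
the map `V → K^m` is not injective. Then choose recursively. -/
theorem exists_blk_of_infinite (V : Submodule K (ℕ →₀ K)) (hV : ¬ FiniteDimensional K V) :
    ∃ Z, Blk Z ∧ ∀ n, Z n ∈ V := by
  refine exists_blk (fun _ v => v ∈ V) ?_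
  intro _ N
  by_contra hcon
  push Not at hcon
  apply hV
  let L : V →ₗ[K] (Fin N → K) :=
    { toFun := fun v i => (v : ℕ →₀ K) i
      map_add' := fun v w => by
        ext i
        simp
      map_smul' := fun a v => by
        ext i
        simp }
  refine Module.Finite.of_injective L ?_
  rw [injective_iff_map_eq_zero]
  intro v hv
  by_contra hne
  have h1 : (v : ℕ →₀ K) ≠ 0 := fun h => hne (Subtype.ext h)
  refine hcon (v : ℕ →₀ K) h1 ?_ v.2
  intro j hj
  by_contra hlt
  have h2 := congrFun hv ⟨j, not_le.mp hlt⟩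
  exact (Finsupp.mem_support_iff.mp hj) h2

/-- a block sequence is linearly independent -/
theorem span_infinite (hX : Blk X) :
    ¬ FiniteDimensional K (Submodule.span K (Set.range X)) := by
  intro hfin
  have hli : LinearIndependent K X := by
    rw [linearIndependent_iff]
    intro c hc
    by_contra hne
    obtain ⟨n, hn⟩ := Finsupp.support_nonempty_iff.mpr hne
    obtain ⟨i, hi⟩ := hX.blkF.ne n
    have h1 : i ∈ (Finsupp.linearCombination K X c).support := by
      rw [supp_lc hX]
      exact Finset.mem_biUnion.mpr ⟨n, hn, hi⟩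
    rw [hc, Finsupp.support_zero] at h1
    exact absurd h1 (Finset.notMem_empty i)
  have h2 : LinearIndependent K
      (fun n => (⟨X n, Submodule.subset_span ⟨n, rfl⟩⟩ : Submodule.span K (Set.range X))) :=
    linearIndependent_span hli
  have h3 : Module.Finite K (Submodule.span K (Set.range X)) := hfin
  have h4 := h2.lt_aleph0_of_finite
  rw [Cardinal.mk_nat] at h4
  exact lt_irrefl _ h4

/-- a sequence of vectors whose supports form a block sequence -/
theorem blk_of_blkF (h : BlkF (sp X)) : Blk X where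
  ne n := Finsupp.support_nonempty_iff.mp (h.ne n)
  lt n := h.lt n

end Pool.Agent.SOU
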